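import Pool.Agent.Lib_helper94.LRC.Defs2
import Pool.Agent.Lib_helper83.LRC.BLRf

/-!
# Block BLR: bilinear forms of fields in fresh spaces
-/

set_option autoImplicit false
set_option linter.unusedSectionVars false
set_option linter.unusedVariables false

open Finset Matrix

namespace Pool.Agent.LRC

open Pool.Agent.LR2

theorem blR_pr (s c3 : ℝ) (hs0 : 0 < s) (hs3 : 100 * s ≤ c3) (h3 : c3 ≤ 1 / 1000) :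
    ∃ R0 : ℝ, ∀ R : ℝ, R0 ≤ R → ∀ {X Y ι A : Type} [Fintype X] [Fintype Y] [Fintype ι]
      [DecidableEq ι] [Fintype A] {μ : X → ℝ} {ν : Y → ℝ} {M : X → Y → ℝ} {U : ℝ} {V : ι → ℝ}
      {be : X → ι → ℝ} {z : Y → ι → ℝ}, CoreR R s μ ν M U V be z →
      ∀ (gam : A → ℝ) (Fa : A → Matrix ι ι ℝ), (∀ a, 0 ≤ gam a) → ∑ a, gam a ≤ 1 →
      (∀ a, IsProj (Fa a)) → (∀ a, (Fa a).trace ≤ R ^ (1 / 2 + c3)) →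
      (∀ v : ι → ℝ, ∑ a, gam a * (v ⬝ᵥ (Fa a *ᵥ v)) ≤ R ^ (-(1 / 2) + c3) * (v ⬝ᵥ v)) →
      ∀ (ψ w : X → A → ι → ℝ), (∀ x a, Fa a *ᵥ ψ x a = ψ x a) → (∀ x a, Fa a *ᵥ w x a = w x a) →
      (∀ x a, ψ x a ⬝ᵥ ψ x a ≤ 1) → (∀ x a, w x a ⬝ᵥ w x a ≤ 1) →
      ∑ x, ∑ a, ∑ y, μ x * gam a * ν y * (if R ^ (1 / 2 - 100 * c3) ≤ (ψ x a ⬝ᵥ z y) ^ 2
        then (ψ x a ⬝ᵥ z y) ^ 2 else 0) ≤ R ^ (-(100 * c3)) →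
      |∑ x, ∑ a, ∑ y, μ x * gam a * ν y *
        (ctd μ ν M x y * ((ψ x a ⬝ᵥ z y) * (w x a ⬝ᵥ z y)))| ≤
        R ^ (-c3) := by
  obtain ⟨R0, hR0⟩ := Filter.eventually_atTop.mp (BN_ev hs0 hs3 h3)
  refine ⟨R0, ?_⟩
  intro R hR X Y ι A _ _ _ _ _ μ ν M U V be z hC gam Fa h0 h1 hP htr hsp ψ w hψ hw hψ1 hw1 hext
  exact blr_core hs0 hs3 h3 (hR0 R hR) hC.core.prX hC.core.prY hC.core.sgn hC.rank hC.core.f5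
    hC.core.pkl gam Fa h0 h1 hP htr hsp ψ w hψ hw hψ1 hw1 hext


alias blR := blR_pr

end Pool.Agent.LRC
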