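import Pool.Agent.Lib_helper94.LRC.Defs
import Pool.Agent.Lib_helper36.LRD.Leg3c

/-!
# DEC: the decoding lemma for the two decoders
-/

set_option autoImplicit false
set_option linter.unusedSectionVars false

open Finset Matrix

namespace Pool.Agent.LRC

open Pool.Agent.LR2

section Dec

variable {X Y ι : Type} [Fintype X] [Fintype Y] [Inhabited Y] [Fintype ι] [DecidableEq ι]
  [Nonempty ι]
variable {μ : X → ℝ} {ν : Y → ℝ} {M : X → Y → ℝ} {U : ℝ} {z : Y → ι → ℝ}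

theorem dec_noi3 (b : ι → ℝ) (K : Matrix ι ι ℝ) (t n : ℝ) :
    LRD.noi3 ν z K b t n = Nz3 ν z b K t n := by
  unfold LRD.noi3 Nz3
  simp only []
  rw [dotProduct_comm (K *ᵥ (TV ν z b *ᵥ (TV ν z b *ᵥ b))) (TV ν z b *ᵥ (TV ν z b *ᵥ b))]
  rw [Matrix.mulVec_mulVec (K *ᵥ _) (TV ν z b) (TV ν z b)]
  rw [Matrix.mul_assoc K (TV ν z b) (TV ν z b)]
  have h : ∀ f, LRD.colv (K * (TV ν z b * TV ν z b)) f =
      fun k => (K * (TV ν z b * TV ν z b)) k f := fun f => rfl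
  simp only [h]
  ring

theorem dec_noi2 (b : ι → ℝ) (K : Matrix ι ι ℝ) (t n : ℝ) :
    LRD.noi2 ν z K b t n = Nz2 ν z b K t n := rfl

/-- indicator bookkeeping -/
theorem dec_ind (Xg : Finset X) [DecidableEq X] (g : X → ℝ) :
    ∑ x, ∑ y, μ x * ν y * ((if x ∈ Xg then (1 : ℝ) else 0) ^ 2 * g x) =
      ∑ x ∈ Xg, ∑ y, μ x * ν y * g x := by
  rw [← Finset.sum_filter_add_sum_filter_not (Finset.univ : Finset X) (fun x => x ∈ Xg)]
  have h2 : ∑ x ∈ Finset.univ.filter (fun x => ¬ x ∈ Xg), ∑ y, μ x * ν y *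
      ((if x ∈ Xg then (1 : ℝ) else 0) ^ 2 * g x) = 0 := by
    apply Finset.sum_eq_zero
    intro x hx
    rw [Finset.mem_filter] at hx
    apply Finset.sum_eq_zero
    intro y _
    rw [if_neg hx.2]
    ring
  rw [h2, add_zero, Finset.filter_mem_eq_inter, Finset.univ_inter]
  apply Finset.sum_congr rfl
  intro x hx
  apply Finset.sum_congr rfl
  intro y _
  rw [if_pos hx]
  ring

/-- indicator bookkeeping, general form -/
theorem dec_ind2 (Xg : Finset X) [DecidableEq X] (F G : X → Y → ℝ)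
    (h1 : ∀ x ∈ Xg, ∀ y, F x y = G x y) (h2 : ∀ x, x ∉ Xg → ∀ y, F x y = 0) :
    ∑ x, ∑ y, F x y = ∑ x ∈ Xg, ∑ y, G x y := by
  rw [← Finset.sum_subset (Finset.subset_univ Xg)
    (fun x _ hx => Finset.sum_eq_zero fun y _ => h2 x hx y)]
  exact Finset.sum_congr rfl fun x hx => Finset.sum_congr rfl fun y _ => h1 x hx y

/-- DEC3 -/
theorem dec3_pr (hμ : IsPr μ) (hν : IsPr ν) (hM : ∀ x y, M x y = 1 ∨ M x y = -1)
    {A B : ℝ} (hU1 : |U| ≤ 1) (hA : 0 ≤ A) (hB : 0 ≤ B) (hU : UPR μ ν M U A B)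
    (Xg : Finset X) (b : X → ι → ℝ) (hb : ∀ x ∈ Xg, b x ⬝ᵥ b x = 1)
    (K : Y → Matrix ι ι ℝ) (hK : ∀ y, (K y)ᵀ = K y) {t n m : ℕ} (ht : 1 ≤ t) (hn : 1 ≤ n)
    (hm : 1 ≤ m) :
    (∑ x ∈ Xg, ∑ y, μ x * ν y * ((M x y - U) *
      ((TV ν z (b x) *ᵥ (TV ν z (b x) *ᵥ b x)) ⬝ᵥ
        (K y *ᵥ (TV ν z (b x) *ᵥ (TV ν z (b x) *ᵥ b x)))))) ^ 2 ≤
      8 * (Real.sqrt (12 * ((t + 2 * n) * Real.log (Fintype.card ι) + 2) / m) +
        (2 * (A + B * (m * Real.log 2 + 2)) + (U - em μ ν M))) *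
      ∑ x ∈ Xg, ∑ y, μ x * ν y * Nz3 ν z (b x) (K y) t n := by
  classical
  have hunit : ∀ x ∈ Xg, ∑ v, b x v ^ 2 = 1 := by
    intro x hx
    rw [← hb x hx]
    unfold dotProduct
    exact Finset.sum_congr rfl fun v _ => sq (b x v)
  have hts : ∀ s : Fin 3, 1 ≤ (![t, n, n] : Fin 3 → ℕ) s := by
    intro s
    fin_cases s
    · exact ht
    · exact hn
    · exact hn
  have h := LRD.dec_legs hμ hν hM hU1 hA hB hU hts (fun x _ => b x)
    (fun x => if x ∈ Xg then (1 : ℝ) else 0)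
    (by
      intro x
      split_ifs <;> simp)
    (by
      intro x hx s
      by_cases h : x ∈ Xg
      · exact hunit x h
      · rw [if_neg h] at hx
        exact absurd rfl hx)
    (fun y => LRD.Q3 ν z (K y)) hm
  have e1 : ∑ s : Fin 3, (((![t, n, n] : Fin 3 → ℕ) s : ℕ) : ℝ) = (t : ℝ) + 2 * n := by
    rw [Fin.sum_univ_three]
    simp only [Matrix.cons_val_zero, Matrix.cons_val_one, Matrix.cons_val]
    ring
  have e2 : ∑ x, ∑ y, μ x * ν y * ((M x y - U) * ((if x ∈ Xg then (1 : ℝ) else 0) ^ 2 *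
      (LRD.tens1 (fun _ : Fin 3 => b x) ⬝ᵥ (LRD.Q3 ν z (K y) *ᵥ LRD.tens1 (fun _ => b x))))) =
      ∑ x ∈ Xg, ∑ y, μ x * ν y * ((M x y - U) *
      ((TV ν z (b x) *ᵥ (TV ν z (b x) *ᵥ b x)) ⬝ᵥ
        (K y *ᵥ (TV ν z (b x) *ᵥ (TV ν z (b x) *ᵥ b x))))) := by
    apply dec_ind2
    · intro x hx y
      rw [if_pos hx, LRD.value_Q3, dotProduct_comm (K y *ᵥ _)]
      ring
    · intro x hx y
      rw [if_neg hx]
      ring
  have e3 : ∑ x, ∑ y, μ x * ν y * ((if x ∈ Xg then (1 : ℝ) else 0) ^ 2 *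
      LRD.noise ![t, n, n] (fun _ => b x) (LRD.Q3 ν z (K y))) =
      ∑ x ∈ Xg, ∑ y, μ x * ν y * Nz3 ν z (b x) (K y) t n := by
    apply dec_ind2
    · intro x hx y
      rw [if_pos hx, LRD.noise_Q3 (hunit x hx) (hK y) t n ht hn, dec_noi3]
      ring
    · intro x hx y
      rw [if_neg hx]
      ring
  have e4 : ∑ x, ∑ y, μ x * ν y * ((if x ∈ Xg then (1 : ℝ) else 0) ^ 2 *
      LRD.noise ![t, n, n] (fun _ => b x) (LRD.Q3 ν z (K y))ᵀ) =
      ∑ x ∈ Xg, ∑ y, μ x * ν y * Nz3 ν z (b x) (K y) t n := by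
    apply dec_ind2
    · intro x hx y
      rw [if_pos hx, LRD.noise_Q3_tr (hunit x hx) (hK y) t n ht hn, dec_noi3]
      ring
    · intro x hx y
      rw [if_neg hx]
      ring
  rw [e1, e2, e3, e4] at h
  have hN : 0 ≤ ∑ x ∈ Xg, ∑ y, μ x * ν y * Nz3 ν z (b x) (K y) t n := by
    rw [← e3]
    apply Finset.sum_nonneg
    intro x _
    apply Finset.sum_nonneg
    intro y _
    exact mul_nonneg (mul_nonneg (hμ.nonneg x) (hν.nonneg y))
      (mul_nonneg (sq_nonneg _) (LRD.noise_nonneg _ _ _))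
  rw [Real.mul_self_sqrt hN] at h
  rw [mul_assoc]
  exact h

/-- DEC2: the same for the second decoder -/
theorem dec2_pr (hμ : IsPr μ) (hν : IsPr ν) (hM : ∀ x y, M x y = 1 ∨ M x y = -1)
    {A B : ℝ} (hU1 : |U| ≤ 1) (hA : 0 ≤ A) (hB : 0 ≤ B) (hU : UPR μ ν M U A B)
    (Xg : Finset X) (b : X → ι → ℝ) (hb : ∀ x ∈ Xg, b x ⬝ᵥ b x = 1)
    (K : Y → Matrix ι ι ℝ) (hK : ∀ y, (K y)ᵀ = K y) {t n m : ℕ} (ht : 1 ≤ t) (hn : 1 ≤ n)
    (hm : 1 ≤ m) :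
    (∑ x ∈ Xg, ∑ y, μ x * ν y * ((M x y - U) *
      ((K y *ᵥ b x) ⬝ᵥ (TV ν z (TV ν z (b x) *ᵥ b x) *ᵥ (K y *ᵥ b x))))) ^ 2 ≤
      8 * (Real.sqrt (12 * ((t + n) * Real.log (Fintype.card ι) + 2) / m) +
        (2 * (A + B * (m * Real.log 2 + 2)) + (U - em μ ν M))) *
      ∑ x ∈ Xg, ∑ y, μ x * ν y * Nz2 ν z (b x) (K y) t n := by
  classical
  have hunit : ∀ x ∈ Xg, ∑ v, b x v ^ 2 = 1 := by
    intro x hx
    rw [← hb x hx]
    unfold dotProduct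
    exact Finset.sum_congr rfl fun v _ => sq (b x v)
  have hts : ∀ s : Fin 2, 1 ≤ (![t, n] : Fin 2 → ℕ) s := by
    intro s
    fin_cases s
    · exact ht
    · exact hn
  have h := LRD.dec_legs hμ hν hM hU1 hA hB hU hts (fun x _ => b x)
    (fun x => if x ∈ Xg then (1 : ℝ) else 0)
    (by
      intro x
      split_ifs <;> simp)
    (by
      intro x hx s
      by_cases h : x ∈ Xg
      · exact hunit x h
      · rw [if_neg h] at hx
        exact absurd rfl hx)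
    (fun y => LRD.Q2 ν z (K y)) hm
  have e1 : ∑ s : Fin 2, (((![t, n] : Fin 2 → ℕ) s : ℕ) : ℝ) = (t : ℝ) + n := by
    rw [Fin.sum_univ_two]
    simp only [Matrix.cons_val_zero, Matrix.cons_val_one]
  have e2 : ∑ x, ∑ y, μ x * ν y * ((M x y - U) * ((if x ∈ Xg then (1 : ℝ) else 0) ^ 2 *
      (LRD.tens1 (fun _ : Fin 2 => b x) ⬝ᵥ (LRD.Q2 ν z (K y) *ᵥ LRD.tens1 (fun _ => b x))))) =
      ∑ x ∈ Xg, ∑ y, μ x * ν y * ((M x y - U) *
      ((K y *ᵥ b x) ⬝ᵥ (TV ν z (TV ν z (b x) *ᵥ b x) *ᵥ (K y *ᵥ b x)))) := by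
    apply dec_ind2
    · intro x hx y
      rw [if_pos hx, LRD.value_Q2 (hK y)]
      ring
    · intro x hx y
      rw [if_neg hx]
      ring
  have e3 : ∑ x, ∑ y, μ x * ν y * ((if x ∈ Xg then (1 : ℝ) else 0) ^ 2 *
      LRD.noise ![t, n] (fun _ => b x) (LRD.Q2 ν z (K y))) =
      ∑ x ∈ Xg, ∑ y, μ x * ν y * Nz2 ν z (b x) (K y) t n := by
    apply dec_ind2
    · intro x hx y
      rw [if_pos hx, LRD.noise_Q2 (hunit x hx) (hK y) t n ht hn, dec_noi2]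
      ring
    · intro x hx y
      rw [if_neg hx]
      ring
  have e4 : ∑ x, ∑ y, μ x * ν y * ((if x ∈ Xg then (1 : ℝ) else 0) ^ 2 *
      LRD.noise ![t, n] (fun _ => b x) (LRD.Q2 ν z (K y))ᵀ) =
      ∑ x ∈ Xg, ∑ y, μ x * ν y * Nz2 ν z (b x) (K y) t n := by
    simp only [LRD.Q2_tr (hK _)]
    exact e3
  rw [e1, e2, e3, e4] at h
  have hN : 0 ≤ ∑ x ∈ Xg, ∑ y, μ x * ν y * Nz2 ν z (b x) (K y) t n := by
    rw [← e3]
    apply Finset.sum_nonneg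
    intro x _
    apply Finset.sum_nonneg
    intro y _
    exact mul_nonneg (mul_nonneg (hμ.nonneg x) (hν.nonneg y))
      (mul_nonneg (sq_nonneg _) (LRD.noise_nonneg _ _ _))
  rw [Real.mul_self_sqrt hN] at h
  rw [mul_assoc]
  exact h

end Dec

alias dec3 := dec3_pr
alias dec2 := dec2_pr

end Pool.Agent.LRC
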