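import Pool.Agent.Lib_helper94.LRC.Defs

/-!
# Block F3 of LRC: rows of an extremal state (F2), (F3) of D0
-/

set_option autoImplicit false
set_option linter.unusedSectionVars false

open Finset Matrix

namespace Pool.Agent.LRC

open Pool.Agent.LR2

section Rows

variable {X Y ι : Type} [Fintype X] [Fintype Y] [Fintype ι] [DecidableEq ι]
variable {μ : X → ℝ} {ν : Y → ℝ} {M : X → Y → ℝ} {U : ℝ} {V : ι → ℝ} {be : X → ι → ℝ}
    {z : Y → ι → ℝ} {t2 kap rho del2 w0 q2 : ℝ}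

/-- mean zero -/
theorem Core.f3x_cenv (hc : Core μ ν M U V be z t2 kap rho del2 w0 q2) (c : ι → ℝ) :
    ∑ y, ν y * (c ⬝ᵥ z y) = 0 := by
  have h1 : ∀ y, ν y * (c ⬝ᵥ z y) = ∑ i, c i * (ν y * z y i) := by
    intro y
    unfold dotProduct
    rw [Finset.mul_sum]
    apply Finset.sum_congr rfl
    intro i _
    ring
  simp only [h1]
  rw [Finset.sum_comm]
  simp only [← Finset.mul_sum, hc.cen, mul_zero, Finset.sum_const_zero]

theorem Core.hs_TV_pr (hc : Core μ ν M U V be z t2 kap rho del2 w0 q2) (c : ι → ℝ) :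
    hs (TV ν z c) ≤ t2 * (c ⬝ᵥ c) := by
  have h1 := hc.f1 (fun y => c ⬝ᵥ z y)
  rw [hc.f3x_cenv, zero_smul, sub_zero] at h1
  have h2 := hc.iso.avg_dot c c
  have h3 : ∑ y, ν y * (c ⬝ᵥ z y) ^ 2 = c ⬝ᵥ c := by
    rw [← h2]
    apply Finset.sum_congr rfl
    intro y _
    rw [sq]
  rw [h3] at h1
  exact h1

/-- the remainder -/
noncomputable def f3x_om (μ : X → ℝ) (ν : Y → ℝ) (M : X → Y → ℝ) (be : X → ι → ℝ) (z : Y → ι → ℝ) (x : X)
    (y : Y) : ℝ := ctd μ ν M x y - be x ⬝ᵥ z y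

/-- `q' = (r - U) + (c - U)` -/
noncomputable def f3x_q (μ : X → ℝ) (ν : Y → ℝ) (M : X → Y → ℝ) (U : ℝ) (x : X) (y : Y) : ℝ :=
  (rmean ν M x - U) + (cmean μ M y - U)

theorem Core.f3x_M (hc : Core μ ν M U V be z t2 kap rho del2 w0 q2) (x : X) (y : Y) :
    M x y = ctd μ ν M x y + U + f3x_q μ ν M U x y := by
  unfold ctd f3x_q
  rw [hc.mean]
  ring

theorem Core.f3x_absM (hc : Core μ ν M U V be z t2 kap rho del2 w0 q2) (x : X) (y : Y) :
    |M x y| ≤ 1 := by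
  rcases hc.sgn x y with h | h <;> rw [h] <;> norm_num

theorem f3x_avg {Z : Type} [Fintype Z] {p : Z → ℝ} (hp : IsPr p) {f : Z → ℝ} {c : ℝ}
    (hf : ∀ a, |f a| ≤ c) : |∑ a, p a * f a| ≤ c := by
  calc |∑ a, p a * f a| ≤ ∑ a, |p a * f a| := Finset.abs_sum_le_sum_abs _ _
    _ ≤ ∑ a, p a * c := by
        apply Finset.sum_le_sum
        intro a _
        rw [abs_mul, abs_of_nonneg (hp.nonneg a)]
        exact mul_le_mul_of_nonneg_left (hf a) (hp.nonneg a)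
    _ = c := by rw [← Finset.sum_mul, hp.sum, one_mul]

theorem Core.f3x_absr (hc : Core μ ν M U V be z t2 kap rho del2 w0 q2) (x : X) :
    |rmean ν M x| ≤ 1 := f3x_avg hc.prY fun y => hc.f3x_absM x y

theorem Core.f3x_absc (hc : Core μ ν M U V be z t2 kap rho del2 w0 q2) (y : Y) :
    |cmean μ M y| ≤ 1 := f3x_avg hc.prX fun x => hc.f3x_absM x y

theorem Core.f3x_absU (hc : Core μ ν M U V be z t2 kap rho del2 w0 q2) : |U| ≤ 1 := by
  rw [← hc.mean, em_row]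
  exact f3x_avg hc.prX fun x => hc.f3x_absr x

theorem Core.f3x_absB (hc : Core μ ν M U V be z t2 kap rho del2 w0 q2) (x : X) (y : Y) :
    |ctd μ ν M x y| ≤ 4 := by
  have h1 := abs_le.mp (hc.f3x_absM x y)
  have h2 := abs_le.mp (hc.f3x_absr x)
  have h3 := abs_le.mp (hc.f3x_absc y)
  have h4 := abs_le.mp hc.f3x_absU
  unfold ctd
  rw [hc.mean, abs_le]
  constructor <;> linarith [h1.1, h1.2, h2.1, h2.2, h3.1, h3.2, h4.1, h4.2]

theorem Core.f3x_meanB (hc : Core μ ν M U V be z t2 kap rho del2 w0 q2) (x : X) :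
    ∑ y, ν y * ctd μ ν M x y = 0 := by
  have h1 : ∀ y, ν y * ctd μ ν M x y = ν y * M x y - ν y * cmean μ M y +
      ν y * (em μ ν M - rmean ν M x) := by
    intro y
    unfold ctd
    ring
  simp only [h1]
  rw [Finset.sum_add_distrib, Finset.sum_sub_distrib, ← Finset.sum_mul, hc.prY.sum, ← em_col]
  have h2 : ∑ y, ν y * M x y = rmean ν M x := rfl
  rw [h2]
  ring

theorem Core.f3x_meanOm (hc : Core μ ν M U V be z t2 kap rho del2 w0 q2) (x : X) :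
    ∑ y, ν y * f3x_om μ ν M be z x y = 0 := by
  have h1 : ∀ y, ν y * f3x_om μ ν M be z x y = ν y * ctd μ ν M x y - ν y * (be x ⬝ᵥ z y) := by
    intro y
    unfold f3x_om
    ring
  simp only [h1]
  rw [Finset.sum_sub_distrib, hc.f3x_meanB, hc.f3x_cenv, sub_zero]

/-- pairing with the isotropic system -/
theorem f3x_pair (h : Y → ℝ) (c : ι → ℝ) :
    c ⬝ᵥ (fun i => ∑ y, ν y * (h y * z y i)) = ∑ y, ν y * (h y * (c ⬝ᵥ z y)) := by
  unfold dotProduct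
  simp only [Finset.mul_sum]
  rw [Finset.sum_comm]
  apply Finset.sum_congr rfl
  intro y _
  apply Finset.sum_congr rfl
  intro i _
  ring

/-- Bessel -/
theorem f3x_bessel (hν : ∀ y, 0 ≤ ν y) (hz : Iso ν z) (h : Y → ℝ) :
    (fun i => ∑ y, ν y * (h y * z y i)) ⬝ᵥ (fun i => ∑ y, ν y * (h y * z y i)) ≤
      ∑ y, ν y * h y ^ 2 := by
  set p : ι → ℝ := fun i => ∑ y, ν y * (h y * z y i) with hp
  have h1 : p ⬝ᵥ p = ∑ y, ν y * (h y * (p ⬝ᵥ z y)) := f3x_pair h p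
  have h2 := hz.avg_dot p p
  have h3 : 0 ≤ ∑ y, ν y * (h y - p ⬝ᵥ z y) ^ 2 :=
    Finset.sum_nonneg fun y _ => mul_nonneg (hν y) (sq_nonneg _)
  have h4 : ∑ y, ν y * (h y - p ⬝ᵥ z y) ^ 2 = ∑ y, ν y * h y ^ 2 -
      2 * ∑ y, ν y * (h y * (p ⬝ᵥ z y)) + ∑ y, ν y * ((p ⬝ᵥ z y) * (p ⬝ᵥ z y)) := by
    rw [Finset.mul_sum, ← Finset.sum_sub_distrib, ← Finset.sum_add_distrib]
    apply Finset.sum_congr rfl
    intro y _
    ring
  rw [h4, ← h1, h2] at h3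
  linarith

theorem Core.f3x_bez (hc : Core μ ν M U V be z t2 kap rho del2 w0 q2) (x : X) :
    be x = fun i => ∑ y, ν y * (ctd μ ν M x y * z y i) := by
  funext i
  exact hc.bez x i

/-- `|β|² = E B² - E ω²` -/
theorem Core.f3x_pyth (hc : Core μ ν M U V be z t2 kap rho del2 w0 q2) (x : X) :
    be x ⬝ᵥ be x = ∑ y, ν y * ctd μ ν M x y ^ 2 -
      ∑ y, ν y * f3x_om μ ν M be z x y ^ 2 := by
  have h1 : be x ⬝ᵥ be x = ∑ y, ν y * (ctd μ ν M x y * (be x ⬝ᵥ z y)) := by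
    conv_lhs => rw [show be x ⬝ᵥ be x = be x ⬝ᵥ (fun i => ∑ y, ν y * (ctd μ ν M x y * z y i)) by
      rw [← hc.f3x_bez x]]
    exact f3x_pair _ _
  have h2 := hc.iso.avg_dot (be x) (be x)
  have h3 : ∑ y, ν y * f3x_om μ ν M be z x y ^ 2 = ∑ y, ν y * ctd μ ν M x y ^ 2 -
      2 * ∑ y, ν y * (ctd μ ν M x y * (be x ⬝ᵥ z y)) +
      ∑ y, ν y * ((be x ⬝ᵥ z y) * (be x ⬝ᵥ z y)) := by
    rw [Finset.mul_sum, ← Finset.sum_sub_distrib, ← Finset.sum_add_distrib]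
    apply Finset.sum_congr rfl
    intro y _
    unfold f3x_om
    ring
  rw [h3, ← h1, h2]
  ring

theorem Core.f3x_be16 (hc : Core μ ν M U V be z t2 kap rho del2 w0 q2) (x : X) :
    be x ⬝ᵥ be x ≤ 16 := by
  rw [hc.f3x_pyth]
  have h1 : 0 ≤ ∑ y, ν y * f3x_om μ ν M be z x y ^ 2 :=
    Finset.sum_nonneg fun y _ => mul_nonneg (hc.prY.nonneg y) (sq_nonneg _)
  have h2 : ∑ y, ν y * ctd μ ν M x y ^ 2 ≤ 16 := by
    have h3 : ∀ y, |ctd μ ν M x y ^ 2| ≤ 16 := by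
      intro y
      rw [abs_of_nonneg (sq_nonneg _), ← sq_abs]
      nlinarith [hc.f3x_absB x y, abs_nonneg (ctd μ ν M x y)]
    exact (le_abs_self _).trans (f3x_avg hc.prY h3)
  linarith

theorem Core.f3x_hsOm (hc : Core μ ν M U V be z t2 kap rho del2 w0 q2) (x : X) :
    hs (TH ν z (f3x_om μ ν M be z x)) ≤ t2 * ∑ y, ν y * f3x_om μ ν M be z x y ^ 2 := by
  have h1 := hc.f1 (f3x_om μ ν M be z x)
  rw [hc.f3x_meanOm, zero_smul, sub_zero] at h1
  exact h1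

theorem Core.f2_pr (hc : Core μ ν M U V be z t2 kap rho del2 w0 q2) (x : X) :
    OpB (TV ν z (be x)) (4 + Real.sqrt (t2 * ∑ y, ν y * (ctd μ ν M x y - be x ⬝ᵥ z y) ^ 2)) ∧
    be x ⬝ᵥ be x ≤ 16 := by
  refine ⟨?_, hc.f3x_be16 x⟩
  have h1 : TV ν z (be x) = TH ν z (ctd μ ν M x) + TH ν z ((-1 : ℝ) • f3x_om μ ν M be z x) := by
    rw [← TH_add]
    unfold TV
    congr 1
    funext y
    simp only [Pi.add_apply, Pi.smul_apply, smul_eq_mul, f3x_om]
    ring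
  rw [h1]
  have h2 : OpB (TH ν z (ctd μ ν M x)) 4 := hc.iso.opB_TH hc.prY.nonneg fun y => hc.f3x_absB x y
  have h3 : OpB (TH ν z ((-1 : ℝ) • f3x_om μ ν M be z x))
      (Real.sqrt (t2 * ∑ y, ν y * (ctd μ ν M x y - be x ⬝ᵥ z y) ^ 2)) := by
    apply (opB_sqrt_hs _).mono (Real.sqrt_nonneg _)
    apply Real.sqrt_le_sqrt
    rw [TH_smul, hs_smul]
    have := hc.f3x_hsOm x
    calc (-1 : ℝ) ^ 2 * hs (TH ν z (f3x_om μ ν M be z x)) = hs (TH ν z (f3x_om μ ν M be z x)) := by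
          ring
      _ ≤ _ := this
  exact h2.add h3 (by norm_num) (Real.sqrt_nonneg _)

/-- the quadratic relation -/
theorem Core.f3x_quad (hc : Core μ ν M U V be z t2 kap rho del2 w0 q2) (x : X) (y : Y) :
    ctd μ ν M x y ^ 2 + 2 * U * ctd μ ν M x y = (1 - U ^ 2) -
      f3x_q μ ν M U x y * (M x y + ctd μ ν M x y + U) := by
  have h1 := hc.f3x_M x y
  have h2 : M x y ^ 2 = 1 := by
    rcases hc.sgn x y with h | h <;> rw [h] <;> norm_num
  have h3 : f3x_q μ ν M U x y = M x y - ctd μ ν M x y - U := by linarith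
  rw [h3]
  nlinarith

/-- the error of the quadratic relation -/
noncomputable def f3x_g (μ : X → ℝ) (ν : Y → ℝ) (M : X → Y → ℝ) (U : ℝ) (x : X) (y : Y) : ℝ :=
  f3x_q μ ν M U x y * (M x y + ctd μ ν M x y + U)

theorem Core.f3x_absg (hc : Core μ ν M U V be z t2 kap rho del2 w0 q2) (x : X) (y : Y) :
    |f3x_g μ ν M U x y| ≤ 6 * |f3x_q μ ν M U x y| := by
  unfold f3x_g
  rw [abs_mul, mul_comm]
  apply mul_le_mul_of_nonneg_right _ (abs_nonneg _)
  have h1 := abs_le.mp (hc.f3x_absM x y)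
  have h2 := abs_le.mp (hc.f3x_absB x y)
  have h4 := abs_le.mp hc.f3x_absU
  rw [abs_le]
  constructor <;> linarith [h1.1, h1.2, h2.1, h2.2, h4.1, h4.2]

/-- second moment of `q'` -/
theorem Core.f3x_q2 (hc : Core μ ν M U V be z t2 kap rho del2 w0 q2) :
    ∑ x, μ x * ∑ y, ν y * f3x_q μ ν M U x y ^ 2 ≤ 4 * q2 := by
  have h1 : ∀ x, μ x * ∑ y, ν y * f3x_q μ ν M U x y ^ 2 ≤
      2 * (μ x * (rmean ν M x - U) ^ 2) + μ x * (2 * q2) := by
    intro x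
    have h2 : ∑ y, ν y * f3x_q μ ν M U x y ^ 2 ≤ 2 * (rmean ν M x - U) ^ 2 + 2 * q2 := by
      calc ∑ y, ν y * f3x_q μ ν M U x y ^ 2 ≤
          ∑ y, (ν y * (2 * (rmean ν M x - U) ^ 2) + 2 * (ν y * (cmean μ M y - U) ^ 2)) := by
            apply Finset.sum_le_sum
            intro y _
            have h3 := hc.prY.nonneg y
            have h4 : f3x_q μ ν M U x y ^ 2 ≤ 2 * (rmean ν M x - U) ^ 2 +
                2 * (cmean μ M y - U) ^ 2 := by
              unfold f3x_q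
              nlinarith [sq_nonneg ((rmean ν M x - U) - (cmean μ M y - U))]
            nlinarith [mul_le_mul_of_nonneg_left h4 h3]
        _ = 2 * (rmean ν M x - U) ^ 2 + 2 * ∑ y, ν y * (cmean μ M y - U) ^ 2 := by
            rw [Finset.sum_add_distrib, ← Finset.sum_mul, hc.prY.sum, one_mul, ← Finset.mul_sum]
        _ ≤ _ := by linarith [hc.col]
    have h5 := mul_le_mul_of_nonneg_left h2 (hc.prX.nonneg x)
    linarith
  refine (Finset.sum_le_sum fun x _ => h1 x).trans ?_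
  rw [Finset.sum_add_distrib, ← Finset.mul_sum, ← Finset.sum_mul, hc.prX.sum]
  linarith [hc.row]

theorem Core.f3x_q2nn (hc : Core μ ν M U V be z t2 kap rho del2 w0 q2) : 0 ≤ q2 :=
  le_trans (Finset.sum_nonneg fun x _ => mul_nonneg (hc.prX.nonneg x) (sq_nonneg _)) hc.row

theorem Core.f3x_w0nn (hc : Core μ ν M U V be z t2 kap rho del2 w0 q2) : 0 ≤ w0 :=
  le_trans (Finset.sum_nonneg fun x _ => mul_nonneg (hc.prX.nonneg x)
    (Finset.sum_nonneg fun y _ => mul_nonneg (hc.prY.nonneg y) (sq_nonneg _))) hc.weak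

/-- Cauchy-Schwarz for a probability vector -/
theorem f3x_cs {Z : Type} [Fintype Z] {p : Z → ℝ} (hp : IsPr p) (f : Z → ℝ) :
    (∑ a, p a * |f a|) ^ 2 ≤ ∑ a, p a * f a ^ 2 := by
  set c := ∑ a, p a * |f a| with hcdef
  have h1 : 0 ≤ ∑ a, p a * (|f a| - c) ^ 2 :=
    Finset.sum_nonneg fun a _ => mul_nonneg (hp.nonneg a) (sq_nonneg _)
  have h2 : ∑ a, p a * (|f a| - c) ^ 2 = ∑ a, p a * f a ^ 2 - 2 * c * ∑ a, p a * |f a| +
      (∑ a, p a) * c ^ 2 := by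
    rw [Finset.mul_sum, Finset.sum_mul, ← Finset.sum_sub_distrib, ← Finset.sum_add_distrib]
    apply Finset.sum_congr rfl
    intro a _
    have h3 := sq_abs (f a)
    have h4 : (|f a| - c) ^ 2 = f a ^ 2 - 2 * c * |f a| + c ^ 2 := by
      rw [← h3]
      ring
    rw [h4]
    ring
  rw [h2, hp.sum, ← hcdef] at h1
  nlinarith

theorem Core.f3x_q1 (hc : Core μ ν M U V be z t2 kap rho del2 w0 q2) :
    ∑ x, μ x * ∑ y, ν y * |f3x_q μ ν M U x y| ≤ 2 * Real.sqrt q2 := by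
  have h0 : ∀ x, 0 ≤ ∑ y, ν y * |f3x_q μ ν M U x y| := fun x =>
    Finset.sum_nonneg fun y _ => mul_nonneg (hc.prY.nonneg y) (abs_nonneg _)
  have h1 := f3x_cs hc.prX fun x => ∑ y, ν y * |f3x_q μ ν M U x y|
  have h2 : ∀ x, abs (∑ y, ν y * |f3x_q μ ν M U x y|) = ∑ y, ν y * |f3x_q μ ν M U x y| :=
    fun x => abs_of_nonneg (h0 x)
  simp only [h2] at h1
  have h3 : ∑ x, μ x * (∑ y, ν y * |f3x_q μ ν M U x y|) ^ 2 ≤
      ∑ x, μ x * ∑ y, ν y * f3x_q μ ν M U x y ^ 2 := by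
    apply Finset.sum_le_sum
    intro x _
    exact mul_le_mul_of_nonneg_left (f3x_cs hc.prY _) (hc.prX.nonneg x)
  have h4 := hc.f3x_q2
  have h5 : (2 * Real.sqrt q2) ^ 2 = 4 * q2 := by
    rw [mul_pow, Real.sq_sqrt hc.f3x_q2nn]
    norm_num
  refine (le_abs_self _).trans (abs_le_of_sq_le_sq ?_ (by positivity))
  rw [h5]
  linarith

theorem Core.f3b_pr (hc : Core μ ν M U V be z t2 kap rho del2 w0 q2) :
    ∑ x, μ x * |be x ⬝ᵥ be x - (1 - U ^ 2)| ≤ 20 * Real.sqrt q2 + 4 * q2 + w0 := by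
  have h1 : ∀ x, |be x ⬝ᵥ be x - (1 - U ^ 2)| ≤ 6 * ∑ y, ν y * |f3x_q μ ν M U x y| +
      ∑ y, ν y * (ctd μ ν M x y - be x ⬝ᵥ z y) ^ 2 := by
    intro x
    have h2 : ∑ y, ν y * ctd μ ν M x y ^ 2 = (1 - U ^ 2) - ∑ y, ν y * f3x_g μ ν M U x y := by
      have h3 : ∀ y, ν y * ctd μ ν M x y ^ 2 = ν y * (1 - U ^ 2) - ν y * f3x_g μ ν M U x y -
          2 * U * (ν y * ctd μ ν M x y) := by
        intro y
        have := hc.f3x_quad x y
        have h4 : ctd μ ν M x y ^ 2 = (1 - U ^ 2) - f3x_g μ ν M U x y - 2 * U * ctd μ ν M x y := by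
          unfold f3x_g
          linarith
        rw [h4]
        ring
      simp only [h3]
      rw [Finset.sum_sub_distrib, Finset.sum_sub_distrib, ← Finset.sum_mul, hc.prY.sum,
        ← Finset.mul_sum, hc.f3x_meanB]
      ring
    rw [hc.f3x_pyth, h2]
    have h5 : |∑ y, ν y * f3x_g μ ν M U x y| ≤ 6 * ∑ y, ν y * |f3x_q μ ν M U x y| := by
      rw [Finset.mul_sum]
      refine (Finset.abs_sum_le_sum_abs _ _).trans (Finset.sum_le_sum fun y _ => ?_)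
      rw [abs_mul, abs_of_nonneg (hc.prY.nonneg y)]
      have := mul_le_mul_of_nonneg_left (hc.f3x_absg x y) (hc.prY.nonneg y)
      linarith
    have h6 : 0 ≤ ∑ y, ν y * f3x_om μ ν M be z x y ^ 2 :=
      Finset.sum_nonneg fun y _ => mul_nonneg (hc.prY.nonneg y) (sq_nonneg _)
    have h7 : ∑ y, ν y * (ctd μ ν M x y - be x ⬝ᵥ z y) ^ 2 =
      ∑ y, ν y * f3x_om μ ν M be z x y ^ 2 := rfl
    rw [h7]
    have h8 := abs_le.mp h5
    rw [abs_le]
    constructor <;> linarith [h8.1, h8.2]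
  have h9 : ∑ x, μ x * |be x ⬝ᵥ be x - (1 - U ^ 2)| ≤
      6 * ∑ x, μ x * ∑ y, ν y * |f3x_q μ ν M U x y| +
      ∑ x, μ x * ∑ y, ν y * (ctd μ ν M x y - be x ⬝ᵥ z y) ^ 2 := by
    rw [Finset.mul_sum, ← Finset.sum_add_distrib]
    apply Finset.sum_le_sum
    intro x _
    have := mul_le_mul_of_nonneg_left (h1 x) (hc.prX.nonneg x)
    linarith
  have h10 := hc.f3x_q1
  have h11 := hc.weak
  have h12 := Real.sqrt_nonneg q2
  have h13 := hc.f3x_q2nn
  linarith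

/-- one row of (F3a) -/
theorem Core.f3x_row (hc : Core μ ν M U V be z t2 kap rho del2 w0 q2) (x : X) :
    (TV ν z (be x) *ᵥ be x + (2 * U) • be x) ⬝ᵥ (TV ν z (be x) *ᵥ be x + (2 * U) • be x) ≤
      144 * ∑ y, ν y * f3x_q μ ν M U x y ^ 2 +
      64 * (1 + t2) * ∑ y, ν y * f3x_om μ ν M be z x y ^ 2 := by
  set om := f3x_om μ ν M be z x with hom
  set k : Y → ℝ := fun y => f3x_g μ ν M U x y + ctd μ ν M x y * om y with hk
  have h1 : TV ν z (be x) *ᵥ be x + (2 * U) • be x =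
      (-1 : ℝ) • ((fun i => ∑ y, ν y * (k y * z y i)) + TH ν z om *ᵥ be x) := by
    funext i
    simp only [Pi.add_apply, Pi.smul_apply, smul_eq_mul]
    unfold TV
    rw [TH_mulVec, TH_mulVec, hc.bez x i, ← Finset.sum_add_distrib, Finset.mul_sum,
      ← Finset.sum_add_distrib, Finset.mul_sum]
    have h2 : ∀ y, ν y * ((be x ⬝ᵥ z y) * ((be x ⬝ᵥ z y) * z y i)) +
        2 * U * (ν y * (ctd μ ν M x y * z y i)) =
        -1 * (ν y * (k y * z y i) + ν y * (om y * ((be x ⬝ᵥ z y) * z y i))) +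
        (1 - U ^ 2) * (ν y * z y i) := by
      intro y
      have h3 := hc.f3x_quad x y
      have h4 : om y = ctd μ ν M x y - be x ⬝ᵥ z y := rfl
      have h5 : be x ⬝ᵥ z y = ctd μ ν M x y - om y := by rw [h4]; ring
      have h6 : k y = f3x_g μ ν M U x y + ctd μ ν M x y * om y := rfl
      have h7 : f3x_g μ ν M U x y = f3x_q μ ν M U x y * (M x y + ctd μ ν M x y + U) := rfl
      rw [h6, h5, h7]
      linear_combination (ν y * z y i) * h3
    simp only [h2]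
    rw [Finset.sum_add_distrib, ← Finset.mul_sum _ _ (1 - U ^ 2), hc.cen, mul_zero, add_zero]
  rw [h1]
  have h8 : ((-1 : ℝ) • ((fun i => ∑ y, ν y * (k y * z y i)) + TH ν z om *ᵥ be x)) ⬝ᵥ
      ((-1 : ℝ) • ((fun i => ∑ y, ν y * (k y * z y i)) + TH ν z om *ᵥ be x)) =
      ((fun i => ∑ y, ν y * (k y * z y i)) + TH ν z om *ᵥ be x) ⬝ᵥ
      ((fun i => ∑ y, ν y * (k y * z y i)) + TH ν z om *ᵥ be x) := by
    rw [smul_dotProduct, dotProduct_smul, smul_eq_mul, smul_eq_mul]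
    ring
  rw [h8]
  refine (dot_add_sq_le _ _).trans ?_
  have h9 := f3x_bessel hc.prY.nonneg hc.iso k
  have h10 : ∑ y, ν y * k y ^ 2 ≤ 72 * ∑ y, ν y * f3x_q μ ν M U x y ^ 2 +
      32 * ∑ y, ν y * om y ^ 2 := by
    rw [Finset.mul_sum, Finset.mul_sum, ← Finset.sum_add_distrib]
    apply Finset.sum_le_sum
    intro y _
    have h11 : k y ^ 2 ≤ 72 * f3x_q μ ν M U x y ^ 2 + 32 * om y ^ 2 := by
      have h12 : f3x_g μ ν M U x y ^ 2 ≤ 36 * f3x_q μ ν M U x y ^ 2 := by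
        have := hc.f3x_absg x y
        have h13 := abs_nonneg (f3x_g μ ν M U x y)
        have h14 : |f3x_g μ ν M U x y| ^ 2 ≤ (6 * |f3x_q μ ν M U x y|) ^ 2 :=
          pow_le_pow_left₀ h13 this 2
        rw [sq_abs, mul_pow, sq_abs] at h14
        linarith
      have h15 : ctd μ ν M x y ^ 2 ≤ 16 := by
        have h16 := hc.f3x_absB x y
        have h17 : |ctd μ ν M x y| ^ 2 ≤ 4 ^ 2 := pow_le_pow_left₀ (abs_nonneg _) h16 2
        rw [sq_abs] at h17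
        linarith
      have h18 : k y ^ 2 ≤ 2 * f3x_g μ ν M U x y ^ 2 + 2 * (ctd μ ν M x y ^ 2 * om y ^ 2) := by
        show (f3x_g μ ν M U x y + ctd μ ν M x y * om y) ^ 2 ≤ _
        nlinarith [sq_nonneg (f3x_g μ ν M U x y - ctd μ ν M x y * om y)]
      have h19 : ctd μ ν M x y ^ 2 * om y ^ 2 ≤ 16 * om y ^ 2 :=
        mul_le_mul_of_nonneg_right h15 (sq_nonneg _)
      linarith
    have h20 := mul_le_mul_of_nonneg_left h11 (hc.prY.nonneg y)
    linarith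
  have h21 : (TH ν z om *ᵥ be x) ⬝ᵥ (TH ν z om *ᵥ be x) ≤
      16 * (t2 * ∑ y, ν y * om y ^ 2) := by
    refine (mulVec_sq_le _ _).trans ?_
    have h22 := hc.f3x_hsOm x
    have h23 := hc.f3x_be16 x
    have h24 := dot_self_nonneg (be x)
    have h25 := hs_nonneg (TH ν z om)
    calc hs (TH ν z om) * (be x ⬝ᵥ be x) ≤ (t2 * ∑ y, ν y * om y ^ 2) * 16 :=
          mul_le_mul h22 h23 h24 (h25.trans h22)
      _ = _ := by ring
  have h26 : 0 ≤ ∑ y, ν y * om y ^ 2 :=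
    Finset.sum_nonneg fun y _ => mul_nonneg (hc.prY.nonneg y) (sq_nonneg _)
  have h27 := hc.t2_one
  have h28 : 0 ≤ t2 * ∑ y, ν y * om y ^ 2 := mul_nonneg (by linarith) h26
  linarith

theorem Core.f3a_pr (hc : Core μ ν M U V be z t2 kap rho del2 w0 q2) :
    ∑ x, μ x * ((TV ν z (be x) *ᵥ be x + (2 * U) • be x) ⬝ᵥ
      (TV ν z (be x) *ᵥ be x + (2 * U) • be x)) ≤ 2400 * (q2 + (1 + t2) * w0) := by
  have h1 : ∑ x, μ x * ((TV ν z (be x) *ᵥ be x + (2 * U) • be x) ⬝ᵥ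
      (TV ν z (be x) *ᵥ be x + (2 * U) • be x)) ≤
      144 * ∑ x, μ x * ∑ y, ν y * f3x_q μ ν M U x y ^ 2 +
      64 * (1 + t2) * ∑ x, μ x * ∑ y, ν y * (ctd μ ν M x y - be x ⬝ᵥ z y) ^ 2 := by
    rw [Finset.mul_sum, Finset.mul_sum, ← Finset.sum_add_distrib]
    apply Finset.sum_le_sum
    intro x _
    have h2 := mul_le_mul_of_nonneg_left (hc.f3x_row x) (hc.prX.nonneg x)
    have h3 : ∑ y, ν y * (ctd μ ν M x y - be x ⬝ᵥ z y) ^ 2 =
      ∑ y, ν y * f3x_om μ ν M be z x y ^ 2 := rfl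
    rw [h3]
    linarith
  have h4 := hc.f3x_q2
  have h5 := hc.t2_one
  have h6 : 64 * (1 + t2) * ∑ x, μ x * ∑ y, ν y * (ctd μ ν M x y - be x ⬝ᵥ z y) ^ 2 ≤
      64 * (1 + t2) * w0 := mul_le_mul_of_nonneg_left hc.weak (by linarith)
  have h7 := hc.f3x_q2nn
  have h8 := hc.f3x_w0nn
  have h9 : 0 ≤ (1 + t2) * w0 := mul_nonneg (by linarith) h8
  linarith


end Rows

alias Core.hs_TV := Core.hs_TV_pr
alias Core.f2 := Core.f2_pr
alias Core.f3a := Core.f3a_pr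
alias Core.f3b := Core.f3b_pr

end Pool.Agent.LRC
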