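import Pool.Agent.Lib_helper94.LRF.D1
import Pool.Agent.Lib_helper94.LRF.DEC
import Pool.Agent.Lib_helper94.LRF.F3

/-!
# LRC, block C1: the first decoder for an extremal state
-/

set_option autoImplicit false
set_option linter.unusedSectionVars false

open Finset Matrix

namespace Pool.Agent.LRC

open Pool.Agent.LR2

section C1a

variable {X Y ι : Type} [Fintype X] [Fintype Y] [Fintype ι] [DecidableEq ι]

theorem c1_em_le {μ : X → ℝ} {ν : Y → ℝ} {M : X → Y → ℝ} (hμ : IsPr μ) (hν : IsPr ν)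
    (hM : ∀ x y, M x y = 1 ∨ M x y = -1) : em μ ν M ≤ 1 := by
  have h1 : em μ ν M ≤ ∑ x, ∑ y, μ x * ν y := by
    unfold LR2.em
    refine Finset.sum_le_sum fun x _ => Finset.sum_le_sum fun y _ => ?_
    have h2 : M x y ≤ 1 := by
      rcases hM x y with h | h
      · exact h.le
      · rw [h]; norm_num
    have h3 : 0 ≤ μ x * ν y := mul_nonneg (hμ.nonneg x) (hν.nonneg y)
    nlinarith
  refine h1.trans (le_of_eq ?_)
  simp only [← Finset.mul_sum, hν.sum, mul_one, hμ.sum]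

theorem c1_smul_dot (a b : ℝ) (v w : ι → ℝ) : (a • v) ⬝ᵥ (b • w) = a * b * (v ⬝ᵥ w) := by
  rw [smul_dotProduct, dotProduct_smul, smul_eq_mul, smul_eq_mul]
  ring

/-- normalisation of a good row -/
theorem c1_row {ν : Y → ℝ} {z : Y → ι → ℝ} {β : ι → ℝ} {m0 δ W U : ℝ} (hm0 : 0 < m0)
    (hW : 5 / m0 ≤ W) (hU0 : 0 ≤ U) (hU1 : U ≤ 1) (h16 : β ⬝ᵥ β ≤ 16)
    (h1 : m0 ^ 2 ≤ β ⬝ᵥ β) (hop : OpB (TV ν z β) 5)
    (h2 : (TV ν z β *ᵥ β + (2 * U) • β) ⬝ᵥ (TV ν z β *ᵥ β + (2 * U) • β) ≤ (m0 ^ 2 * δ) ^ 2) :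
    ∃ m η : ℝ, m0 ≤ m ∧ m ≤ 4 ∧ Real.sqrt (β ⬝ᵥ β) = m ∧ η = 2 * U / m ∧ 0 ≤ η ∧ η ≤ W ∧
      η ≤ 2 * U / m0 ∧
      ((Real.sqrt (β ⬝ᵥ β))⁻¹ • β) ⬝ᵥ ((Real.sqrt (β ⬝ᵥ β))⁻¹ • β) = 1 ∧
      OpB (TV ν z ((Real.sqrt (β ⬝ᵥ β))⁻¹ • β)) W ∧
      β = m • ((Real.sqrt (β ⬝ᵥ β))⁻¹ • β) ∧
      (TV ν z ((Real.sqrt (β ⬝ᵥ β))⁻¹ • β) *ᵥ ((Real.sqrt (β ⬝ᵥ β))⁻¹ • β) +
        η • ((Real.sqrt (β ⬝ᵥ β))⁻¹ • β)) ⬝ᵥ
      (TV ν z ((Real.sqrt (β ⬝ᵥ β))⁻¹ • β) *ᵥ ((Real.sqrt (β ⬝ᵥ β))⁻¹ • β) +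
        η • ((Real.sqrt (β ⬝ᵥ β))⁻¹ • β)) ≤ δ ^ 2 := by
  have hbb : 0 ≤ β ⬝ᵥ β := dot_self_nonneg β
  set m : ℝ := Real.sqrt (β ⬝ᵥ β) with hm
  have hmsq : m ^ 2 = β ⬝ᵥ β := Real.sq_sqrt hbb
  have hm0m : m0 ≤ m := Real.le_sqrt_of_sq_le h1
  have hmpos : 0 < m := hm0.trans_le hm0m
  have hm4 : m ≤ 4 := by
    rw [hm]
    refine Real.sqrt_le_iff.mpr ⟨by norm_num, by linarith⟩
  have hmne : m ≠ 0 := hmpos.ne'
  have hη0 : 0 ≤ 2 * U / m := by positivity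
  have hηm : 2 * U / m ≤ 2 * U / m0 := div_le_div_of_nonneg_left (by positivity) hm0 hm0m
  have hηW : 2 * U / m ≤ W := by
    refine hηm.trans (le_trans ?_ hW)
    exact div_le_div_of_nonneg_right (by linarith) hm0.le
  have hb1 : (m⁻¹ • β) ⬝ᵥ (m⁻¹ • β) = 1 := by
    rw [c1_smul_dot, ← hmsq]
    field_simp
  have hβ : β = m • (m⁻¹ • β) := by
    rw [smul_smul, mul_inv_cancel₀ hmne, one_smul]
  refine ⟨m, 2 * U / m, hm0m, hm4, rfl, rfl, hη0, hηW, hηm, hb1, ?_, hβ, ?_⟩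
  · intro w
    rw [TV_smul, Matrix.smul_mulVec, c1_smul_dot]
    have h3 := hop w
    have h4 : m⁻¹ * 5 ≤ W := by
      refine le_trans ?_ hW
      rw [mul_comm, ← div_eq_mul_inv]
      exact div_le_div_of_nonneg_left (by norm_num) hm0 hm0m
    have h5 : 0 < m⁻¹ := inv_pos.mpr hmpos
    have h6 := dot_self_nonneg w
    calc m⁻¹ * m⁻¹ * ((TV ν z β *ᵥ w) ⬝ᵥ (TV ν z β *ᵥ w))
        ≤ m⁻¹ * m⁻¹ * (5 ^ 2 * (w ⬝ᵥ w)) := mul_le_mul_of_nonneg_left h3 (by positivity)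
      _ = (m⁻¹ * 5) ^ 2 * (w ⬝ᵥ w) := by ring
      _ ≤ W ^ 2 * (w ⬝ᵥ w) :=
          mul_le_mul_of_nonneg_right (pow_le_pow_left₀ (by positivity) h4 2) h6
  · have h3 : TV ν z (m⁻¹ • β) *ᵥ (m⁻¹ • β) + (2 * U / m) • (m⁻¹ • β) =
        (m⁻¹ * m⁻¹) • (TV ν z β *ᵥ β + (2 * U) • β) := by
      rw [TV_smul, Matrix.smul_mulVec, Matrix.mulVec_smul, smul_smul, smul_smul, smul_add,
        smul_smul]
      congr 2
      field_simp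
    rw [h3, c1_smul_dot]
    have h5 : 0 < m⁻¹ := inv_pos.mpr hmpos
    have h6 : m0 * m⁻¹ ≤ 1 := by
      rw [← div_eq_mul_inv]
      exact (div_le_one hmpos).mpr hm0m
    have h7 : (m0 * m⁻¹) ^ 4 ≤ 1 := pow_le_one₀ (by positivity) h6
    calc m⁻¹ * m⁻¹ * (m⁻¹ * m⁻¹) * ((TV ν z β *ᵥ β + (2 * U) • β) ⬝ᵥ
          (TV ν z β *ᵥ β + (2 * U) • β))
        ≤ m⁻¹ * m⁻¹ * (m⁻¹ * m⁻¹) * (m0 ^ 2 * δ) ^ 2 :=
          mul_le_mul_of_nonneg_left h2 (by positivity)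
      _ = (m0 * m⁻¹) ^ 4 * δ ^ 2 := by ring
      _ ≤ 1 * δ ^ 2 := mul_le_mul_of_nonneg_right h7 (sq_nonneg δ)
      _ = δ ^ 2 := one_mul _

/-- the trivial operator bound on a good row -/
theorem c1_op {μ : X → ℝ} {ν : Y → ℝ} {M : X → Y → ℝ} {U : ℝ} {V : ι → ℝ} {be : X → ι → ℝ}
    {z : Y → ι → ℝ} {t2 kap rho del2 w0 q2 : ℝ}
    (hc : Core μ ν M U V be z t2 kap rho del2 w0 q2) (x : X)
    (h3 : t2 * ∑ y, ν y * (ctd μ ν M x y - be x ⬝ᵥ z y) ^ 2 ≤ 1) : OpB (TV ν z (be x)) 5 := by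
  refine (hc.f2 x).1.mono (by positivity) ?_
  have : Real.sqrt (t2 * ∑ y, ν y * (ctd μ ν M x y - be x ⬝ᵥ z y) ^ 2) ≤ 1 := by
    refine Real.sqrt_le_iff.mpr ⟨by norm_num, by linarith⟩
  linarith

theorem c1_nz3 {ν : Y → ℝ} {z : Y → ι → ℝ} (b : ι → ℝ) (K : Matrix ι ι ℝ) {t n : ℝ}
    (ht : 0 ≤ t) (hn : 0 ≤ n) :
    ((TV ν z b *ᵥ (TV ν z b *ᵥ b)) ⬝ᵥ (K *ᵥ (TV ν z b *ᵥ (TV ν z b *ᵥ b)))) ^ 2 ≤
      Nz3 ν z b K t n := by
  unfold Nz3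
  simp only []
  have a1 := dot_self_nonneg (TV ν z (TV ν z b *ᵥ b) *ᵥ (K *ᵥ (TV ν z b *ᵥ (TV ν z b *ᵥ b))))
  have a2 := dot_self_nonneg ((TV ν z b * TV ν z b) *ᵥ (K *ᵥ (TV ν z b *ᵥ (TV ν z b *ᵥ b))))
  have a3 := hs_nonneg (TV ν z (TV ν z b *ᵥ b) * K * (TV ν z b * TV ν z b))
  have a4 := hs_nonneg (TV ν z (K *ᵥ (TV ν z b *ᵥ (TV ν z b *ᵥ b))) * TV ν z b)
  have a5 := hs_nonneg ((TV ν z b * TV ν z b) * K * (TV ν z b * TV ν z b))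
  have a6 : 0 ≤ ∑ f, hs (TV ν z (fun k => (K * (TV ν z b * TV ν z b)) k f) * TV ν z b) :=
    Finset.sum_nonneg fun f _ => hs_nonneg _
  have b1 := mul_nonneg (one_div_nonneg.mpr ht) a1
  have b2 := mul_nonneg (div_nonneg zero_le_two hn) a2
  have b3 := mul_nonneg (one_div_nonneg.mpr (mul_nonneg ht hn)) a3
  have b4 := mul_nonneg (one_div_nonneg.mpr (mul_nonneg ht hn)) a4
  have b5 := mul_nonneg (one_div_nonneg.mpr (pow_nonneg hn 2)) a5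
  have b6 := mul_nonneg (one_div_nonneg.mpr (mul_nonneg ht (pow_nonneg hn 2))) a6
  linarith

/-- sums over the columns against a linear form -/
theorem c1_lin {μ : X → ℝ} {ν : Y → ℝ} {M : X → Y → ℝ} {U : ℝ} {V : ι → ℝ} {be : X → ι → ℝ}
    {z : Y → ι → ℝ} {t2 kap rho del2 w0 q2 : ℝ}
    (hc : Core μ ν M U V be z t2 kap rho del2 w0 q2) (x : X) (u : ι → ℝ) :
    ∑ y, ν y * ((M x y - U) * (z y ⬝ᵥ u)) =
      be x ⬝ᵥ u + ∑ y, ν y * ((cmean μ M y - U) * (z y ⬝ᵥ u)) := by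
  have h0 : ∑ y, ν y * (z y ⬝ᵥ u) = 0 := by
    unfold dotProduct
    simp only [Finset.mul_sum]
    rw [Finset.sum_comm]
    refine Finset.sum_eq_zero fun i _ => ?_
    have := hc.cen i
    calc ∑ y, ν y * (z y i * u i) = (∑ y, ν y * z y i) * u i := by
          rw [Finset.sum_mul]
          exact Finset.sum_congr rfl fun y _ => by ring
      _ = 0 := by rw [this, zero_mul]
  have h1 : ∑ y, ν y * (ctd μ ν M x y * (z y ⬝ᵥ u)) = be x ⬝ᵥ u := by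
    unfold dotProduct
    simp only [Finset.mul_sum]
    rw [Finset.sum_comm]
    refine Finset.sum_congr rfl fun i _ => ?_
    rw [hc.bez x i, Finset.sum_mul]
    exact Finset.sum_congr rfl fun y _ => by ring
  have h2 : ∀ y, ν y * ((M x y - U) * (z y ⬝ᵥ u)) = ν y * (ctd μ ν M x y * (z y ⬝ᵥ u)) +
      ν y * ((cmean μ M y - U) * (z y ⬝ᵥ u)) + (rmean ν M x - U) * (ν y * (z y ⬝ᵥ u)) := by
    intro y
    have : ctd μ ν M x y = M x y - rmean ν M x - cmean μ M y + U := by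
      rw [ctd, hc.mean]
    rw [this]
    ring
  simp only [h2, Finset.sum_add_distrib, ← Finset.mul_sum, h0, mul_zero, add_zero]
  rw [h1]

end C1a

section C1b

variable {X Y ι : Type} [Fintype X] [Fintype Y] [Inhabited Y] [Fintype ι] [DecidableEq ι]
  [Nonempty ι]
variable {μ : X → ℝ} {ν : Y → ℝ} {M : X → Y → ℝ} {U : ℝ} {V : ι → ℝ} {be : X → ι → ℝ}
    {z : Y → ι → ℝ} {t2 kap rho del2 w0 q2 : ℝ}

theorem c1_pr (hc : Core μ ν M U V be z t2 kap rho del2 w0 q2) (hU0 : 0 ≤ U)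
    {A B : ℝ} (hA : 0 ≤ A) (hB : 0 ≤ B) (hU : UPR μ ν M U A B)
    {m0 δ W : ℝ} (hm0 : 0 < m0) (hm1 : m0 ≤ 1) (hW : 5 / m0 ≤ W) (hδ : 0 ≤ δ) (hδ1 : δ ≤ 1)
    (hd : t2 * δ ^ 2 ≤ W ^ 2) (Xg : Finset X)
    (h1 : ∀ x ∈ Xg, m0 ^ 2 ≤ be x ⬝ᵥ be x)
    (h2 : ∀ x ∈ Xg, (TV ν z (be x) *ᵥ be x + (2 * U) • be x) ⬝ᵥ
      (TV ν z (be x) *ᵥ be x + (2 * U) • be x) ≤ (m0 ^ 2 * δ) ^ 2)
    (h3 : ∀ x ∈ Xg, t2 * ∑ y, ν y * (ctd μ ν M x y - be x ⬝ᵥ z y) ^ 2 ≤ 1)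
    {t n m : ℕ} (ht : 1 ≤ t) (hn : 1 ≤ n) (hm : 1 ≤ m) {Δ Q N : ℝ}
    (hΔ : Real.sqrt (12 * ((t + 2 * n) * Real.log (Fintype.card ι) + 2) / m) +
        (2 * (A + B * (m * Real.log 2 + 2)) + (U - em μ ν M)) ≤ Δ)
    (hQ : Q = ∑ x ∈ Xg, μ x * hs (TV ν z ((Real.sqrt (be x ⬝ᵥ be x))⁻¹ • be x) *
      TV ν z ((Real.sqrt (be x ⬝ᵥ be x))⁻¹ • be x)))
    (hN : N = 4 * (2 * U / m0) ^ 10 + 1000 * W ^ 12 * (δ ^ 2 + 1 / t + 1 / n + t2 / (t * n)) +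
      100 * W ^ 8 * Q * (1 / t + 1 / n + t2 / (t * n) + t2 / n ^ 2 + t2 ^ 2 / (t * n ^ 2))) :
    U ^ 5 / 8 * ∑ x ∈ Xg, μ x ≤ 52 * W ^ 4 * δ + Real.sqrt (q2 * N) + Real.sqrt (8 * Δ * N) := by
  have hμ := hc.prX
  have hν := hc.prY
  have hU1 : U ≤ 1 := by
    rw [← hc.mean]
    exact c1_em_le hμ hν hc.sgn
  have hUa : |U| ≤ 1 := by rw [abs_of_nonneg hU0]; exact hU1
  have hW5 : 5 ≤ W := by
    refine le_trans ?_ hW
    rw [le_div_iff₀ hm0]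
    linarith
  have hW1 : 1 ≤ W := by linarith
  have ht' : (1 : ℝ) ≤ t := by exact_mod_cast ht
  have hn' : (1 : ℝ) ≤ n := by exact_mod_cast hn
  have ht2 := hc.t2_one
  have hmass : ∑ x ∈ Xg, μ x ≤ 1 := by
    rw [← hμ.sum]
    exact Finset.sum_le_sum_of_subset_of_nonneg (Finset.subset_univ _)
      fun x _ _ => hμ.nonneg x
  have hmass0 : 0 ≤ ∑ x ∈ Xg, μ x := Finset.sum_nonneg fun x _ => hμ.nonneg x
  set b : X → ι → ℝ := fun x => (Real.sqrt (be x ⬝ᵥ be x))⁻¹ • be x with hb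
  have hrow : ∀ x ∈ Xg, ∃ m η : ℝ, m0 ≤ m ∧ m ≤ 4 ∧ Real.sqrt (be x ⬝ᵥ be x) = m ∧
      η = 2 * U / m ∧ 0 ≤ η ∧ η ≤ W ∧ η ≤ 2 * U / m0 ∧ b x ⬝ᵥ b x = 1 ∧
      OpB (TV ν z (b x)) W ∧ be x = m • b x ∧
      (TV ν z (b x) *ᵥ b x + η • b x) ⬝ᵥ (TV ν z (b x) *ᵥ b x + η • b x) ≤ δ ^ 2 :=
    fun x hx => c1_row hm0 hW hU0 hU1 (hc.f2 x).2 (h1 x hx) (c1_op hc x (h3 x hx)) (h2 x hx)
  have hb1 : ∀ x ∈ Xg, b x ⬝ᵥ b x = 1 := fun x hx => by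
    obtain ⟨m, η, _, _, _, _, _, _, _, h, _⟩ := hrow x hx
    exact h
  set D : ℝ := δ ^ 2 + 1 / t + 1 / n + t2 / (t * n) with hD
  set E : ℝ := 1 / t + 1 / n + t2 / (t * n) + t2 / n ^ 2 + t2 ^ 2 / (t * n ^ 2) with hE
  have hD0 : 0 ≤ D := by rw [hD]; positivity
  have hE0 : 0 ≤ E := by rw [hE]; positivity
  -- the noise
  have hnoise : ∑ x ∈ Xg, ∑ y, μ x * ν y * Nz3 ν z (b x) (TV ν z (z y)) t n ≤ N := by
    have hx : ∀ x ∈ Xg, ∑ y, μ x * ν y * Nz3 ν z (b x) (TV ν z (z y)) t n ≤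
        μ x * (4 * (2 * U / m0) ^ 10 + 1000 * W ^ 12 * D) +
          100 * W ^ 8 * E * (μ x * hs (TV ν z (b x) * TV ν z (b x))) := by
      intro x hx
      obtain ⟨m', η, e1, e2, e3, e4, e5, e6, e7, e8, e9, e10, e11⟩ := hrow x hx
      have h4 := d1_noise hν.nonneg hc.iso ht2 hc.hs_TV e8 hW1 e9 e5 e6 hδ hδ1 e11 hd ht' hn'
      rw [← hD, ← hE] at h4
      have h5 : ∑ y, μ x * ν y * Nz3 ν z (b x) (TV ν z (z y)) t n =
          μ x * ∑ y, ν y * Nz3 ν z (b x) (TV ν z (z y)) t n := by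
        rw [Finset.mul_sum]
        exact Finset.sum_congr rfl fun y _ => by ring
      rw [h5]
      have h6 : η ^ 10 ≤ (2 * U / m0) ^ 10 := pow_le_pow_left₀ e5 e7 10
      calc μ x * ∑ y, ν y * Nz3 ν z (b x) (TV ν z (z y)) t n
          ≤ μ x * (4 * η ^ 10 + 1000 * W ^ 12 * D +
            100 * W ^ 8 * hs (TV ν z (b x) * TV ν z (b x)) * E) :=
            mul_le_mul_of_nonneg_left h4 (hμ.nonneg x)
        _ ≤ μ x * (4 * (2 * U / m0) ^ 10 + 1000 * W ^ 12 * D +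
            100 * W ^ 8 * hs (TV ν z (b x) * TV ν z (b x)) * E) := by
            refine mul_le_mul_of_nonneg_left ?_ (hμ.nonneg x)
            linarith
        _ = _ := by ring
    refine (Finset.sum_le_sum hx).trans ?_
    rw [Finset.sum_add_distrib, ← Finset.sum_mul, ← Finset.mul_sum, hN, hQ]
    have h4 : 0 ≤ 4 * (2 * U / m0) ^ 10 + 1000 * W ^ 12 * D := by positivity
    have h5 : (∑ x ∈ Xg, μ x) * (4 * (2 * U / m0) ^ 10 + 1000 * W ^ 12 * D) ≤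
        4 * (2 * U / m0) ^ 10 + 1000 * W ^ 12 * D := mul_le_of_le_one_left h4 hmass
    have h6 : 100 * W ^ 8 * E * ∑ x ∈ Xg, μ x * hs (TV ν z (b x) * TV ν z (b x)) =
        100 * W ^ 8 * (∑ x ∈ Xg, μ x * hs (TV ν z (b x) * TV ν z (b x))) * E := by ring
    rw [h6]
    exact add_le_add h5 le_rfl
  have hN0 : 0 ≤ ∑ x ∈ Xg, ∑ y, μ x * ν y * Nz3 ν z (b x) (TV ν z (z y)) t n := by
    refine Finset.sum_nonneg fun x _ => Finset.sum_nonneg fun y _ => ?_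
    refine mul_nonneg (mul_nonneg (hμ.nonneg x) (hν.nonneg y)) ?_
    exact (sq_nonneg _).trans (c1_nz3 (b x) (TV ν z (z y)) (by linarith) (by linarith))
  have hNN : 0 ≤ N := hN0.trans hnoise
  -- the decoding lemma
  set v : X → ι → ℝ := fun x => TV ν z (b x) *ᵥ (TV ν z (b x) *ᵥ b x) with hv
  set S : ℝ := ∑ x ∈ Xg, ∑ y, μ x * ν y * ((M x y - U) * (v x ⬝ᵥ (TV ν z (z y) *ᵥ v x)))
    with hS
  have hdec : S ^ 2 ≤ 8 * (Real.sqrt (12 * ((t + 2 * n) * Real.log (Fintype.card ι) + 2) / m) +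
        (2 * (A + B * (m * Real.log 2 + 2)) + (U - em μ ν M))) *
      ∑ x ∈ Xg, ∑ y, μ x * ν y * Nz3 ν z (b x) (TV ν z (z y)) t n :=
    dec3 (z := z) hμ hν hc.sgn hUa hA hB hU Xg b hb1 (fun y => TV ν z (z y))
      (fun y => TV_transpose (z y)) ht hn hm
  have hΔ0 : 0 ≤ Real.sqrt (12 * ((t + 2 * n) * Real.log (Fintype.card ι) + 2) / m) +
        (2 * (A + B * (m * Real.log 2 + 2)) + (U - em μ ν M)) := by
    rw [hc.mean, sub_self, add_zero]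
    have : 0 ≤ Real.log 2 := Real.log_nonneg (by norm_num)
    positivity
  have hSabs : |S| ≤ Real.sqrt (8 * Δ * N) := by
    refine Real.abs_le_sqrt ?_
    refine hdec.trans ?_
    refine mul_le_mul ?_ hnoise hN0 (by linarith)
    linarith
  -- the signal
  have hsplit : ∀ x, ∑ y, μ x * ν y * ((M x y - U) * (v x ⬝ᵥ (TV ν z (z y) *ᵥ v x))) =
      μ x * (v x ⬝ᵥ (TV ν z (be x) *ᵥ v x)) +
        ∑ y, μ x * ν y * ((cmean μ M y - U) * (v x ⬝ᵥ (TV ν z (z y) *ᵥ v x))) := by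
    intro x
    have h4 : ∀ y, v x ⬝ᵥ (TV ν z (z y) *ᵥ v x) = z y ⬝ᵥ (TV ν z (v x) *ᵥ v x) := fun y =>
      dot_TV_swap _ _ _
    simp only [h4]
    have h5 := c1_lin hc x (TV ν z (v x) *ᵥ v x)
    rw [dot_TV_swap (v x) (be x) (v x)]
    calc ∑ y, μ x * ν y * ((M x y - U) * (z y ⬝ᵥ (TV ν z (v x) *ᵥ v x)))
        = μ x * ∑ y, ν y * ((M x y - U) * (z y ⬝ᵥ (TV ν z (v x) *ᵥ v x))) := by
          rw [Finset.mul_sum]
          exact Finset.sum_congr rfl fun y _ => by ring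
      _ = μ x * (be x ⬝ᵥ (TV ν z (v x) *ᵥ v x)) +
          μ x * ∑ y, ν y * ((cmean μ M y - U) * (z y ⬝ᵥ (TV ν z (v x) *ᵥ v x))) := by
          rw [h5, mul_add]
      _ = _ := by
          rw [Finset.mul_sum]
          congr 1
          exact Finset.sum_congr rfl fun y _ => by ring
  set Ec : ℝ := ∑ x ∈ Xg, ∑ y, μ x * ν y * ((cmean μ M y - U) *
    (v x ⬝ᵥ (TV ν z (z y) *ᵥ v x))) with hEc
  have hSE : S = (∑ x ∈ Xg, μ x * (v x ⬝ᵥ (TV ν z (be x) *ᵥ v x))) + Ec := by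
    rw [hS, hEc, ← Finset.sum_add_distrib]
    exact Finset.sum_congr rfl fun x _ => hsplit x
  have hEcabs : |Ec| ≤ Real.sqrt (q2 * N) := by
    refine Real.abs_le_sqrt ?_
    have h4 : Ec = ∑ p ∈ Xg ×ˢ (Finset.univ : Finset Y),
        (Real.sqrt (μ p.1 * ν p.2) * (cmean μ M p.2 - U)) *
          (Real.sqrt (μ p.1 * ν p.2) * (v p.1 ⬝ᵥ (TV ν z (z p.2) *ᵥ v p.1))) := by
      rw [hEc, Finset.sum_product]
      refine Finset.sum_congr rfl fun x _ => Finset.sum_congr rfl fun y _ => ?_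
      have := Real.mul_self_sqrt (mul_nonneg (hμ.nonneg x) (hν.nonneg y))
      calc μ x * ν y * ((cmean μ M y - U) * (v x ⬝ᵥ (TV ν z (z y) *ᵥ v x)))
          = (Real.sqrt (μ x * ν y) * Real.sqrt (μ x * ν y)) *
            ((cmean μ M y - U) * (v x ⬝ᵥ (TV ν z (z y) *ᵥ v x))) := by rw [this]
        _ = _ := by ring
    rw [h4]
    refine (Finset.sum_mul_sq_le_sq_mul_sq _ _ _).trans ?_
    have h5 : ∑ p ∈ Xg ×ˢ (Finset.univ : Finset Y),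
        (Real.sqrt (μ p.1 * ν p.2) * (cmean μ M p.2 - U)) ^ 2 ≤ q2 := by
      rw [Finset.sum_product]
      have h6 : ∀ x ∈ Xg, ∑ y, (Real.sqrt (μ x * ν y) * (cmean μ M y - U)) ^ 2 ≤ μ x * q2 := by
        intro x _
        have h7 : ∀ y, (Real.sqrt (μ x * ν y) * (cmean μ M y - U)) ^ 2 =
            μ x * (ν y * (cmean μ M y - U) ^ 2) := by
          intro y
          rw [mul_pow, Real.sq_sqrt (mul_nonneg (hμ.nonneg x) (hν.nonneg y))]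
          ring
        simp only [h7, ← Finset.mul_sum]
        exact mul_le_mul_of_nonneg_left hc.col (hμ.nonneg x)
      refine (Finset.sum_le_sum h6).trans ?_
      rw [← Finset.sum_mul]
      have hq : 0 ≤ q2 := (Finset.sum_nonneg fun y _ =>
        mul_nonneg (hν.nonneg y) (sq_nonneg _)).trans hc.col
      exact mul_le_of_le_one_left hq hmass
    have h6 : ∑ p ∈ Xg ×ˢ (Finset.univ : Finset Y),
        (Real.sqrt (μ p.1 * ν p.2) * (v p.1 ⬝ᵥ (TV ν z (z p.2) *ᵥ v p.1))) ^ 2 ≤ N := by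
      refine le_trans ?_ hnoise
      rw [Finset.sum_product]
      refine Finset.sum_le_sum fun x _ => Finset.sum_le_sum fun y _ => ?_
      rw [mul_pow, Real.sq_sqrt (mul_nonneg (hμ.nonneg x) (hν.nonneg y))]
      refine mul_le_mul_of_nonneg_left ?_ (mul_nonneg (hμ.nonneg x) (hν.nonneg y))
      exact c1_nz3 (b x) (TV ν z (z y)) (by linarith) (by linarith)
    have h7 : 0 ≤ ∑ p ∈ Xg ×ˢ (Finset.univ : Finset Y),
        (Real.sqrt (μ p.1 * ν p.2) * (v p.1 ⬝ᵥ (TV ν z (z p.2) *ᵥ v p.1))) ^ 2 :=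
      Finset.sum_nonneg fun p _ => sq_nonneg _
    have h8 : 0 ≤ ∑ p ∈ Xg ×ˢ (Finset.univ : Finset Y),
        (Real.sqrt (μ p.1 * ν p.2) * (cmean μ M p.2 - U)) ^ 2 :=
      Finset.sum_nonneg fun p _ => sq_nonneg _
    exact mul_le_mul h5 h6 h7 (h8.trans h5)
  have hsig : ∀ x ∈ Xg, U ^ 5 / 8 * μ x ≤ -(μ x * (v x ⬝ᵥ (TV ν z (be x) *ᵥ v x))) +
      μ x * (52 * W ^ 4 * δ) := by
    intro x hx
    obtain ⟨m', η, e1, e2, e3, e4, e5, e6, e7, e8, e9, e10, e11⟩ := hrow x hx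
    have h4 := d1_signal e8 hW1 e9 e5 e6 hδ hδ1 e11
    have hm'0 : 0 < m' := hm0.trans_le e1
    have h5 : v x ⬝ᵥ (TV ν z (be x) *ᵥ v x) = m' * (v x ⬝ᵥ (TV ν z (b x) *ᵥ v x)) := by
      conv_lhs => rw [e10]
      rw [TV_smul, Matrix.smul_mulVec, dotProduct_smul, smul_eq_mul]
    have h6 : v x ⬝ᵥ (TV ν z (b x) *ᵥ v x) ≤ -η ^ 5 + 13 * W ^ 4 * δ := by
      have := (abs_le.mp h4).2
      have h7 : v x ⬝ᵥ (TV ν z (b x) *ᵥ v x) + η ^ 5 ≤ 13 * W ^ 4 * δ := this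
      linarith
    have h7 : U ^ 5 / 8 ≤ m' * η ^ 5 := by
      rw [e4]
      have h8 : m' * (2 * U / m') ^ 5 = 32 * U ^ 5 / m' ^ 4 := by
        field_simp
        ring
      rw [h8, div_le_div_iff₀ (by norm_num) (by positivity)]
      have h9 : m' ^ 4 ≤ 4 ^ 4 := pow_le_pow_left₀ hm'0.le e2 4
      have h10 : 0 ≤ U ^ 5 := pow_nonneg hU0 5
      calc U ^ 5 * m' ^ 4 ≤ U ^ 5 * 4 ^ 4 := mul_le_mul_of_nonneg_left h9 h10
        _ = 32 * U ^ 5 * 8 := by ring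
    have h8 : 0 ≤ 13 * W ^ 4 * δ := by positivity
    have h9 : U ^ 5 / 8 ≤ -(v x ⬝ᵥ (TV ν z (be x) *ᵥ v x)) + 52 * W ^ 4 * δ := by
      rw [h5]
      have h10 := mul_le_mul_of_nonneg_left h6 hm'0.le
      have h11 := mul_le_mul_of_nonneg_right e2 h8
      linarith
    have h10 := mul_le_mul_of_nonneg_left h9 (hμ.nonneg x)
    linarith
  have hsum := Finset.sum_le_sum hsig
  rw [← Finset.mul_sum, Finset.sum_add_distrib, Finset.sum_neg_distrib, ← Finset.sum_mul] at hsum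
  have h9 : (∑ x ∈ Xg, μ x) * (52 * W ^ 4 * δ) ≤ 52 * W ^ 4 * δ :=
    mul_le_of_le_one_left (by positivity) hmass
  have h10 : -(∑ x ∈ Xg, μ x * (v x ⬝ᵥ (TV ν z (be x) *ᵥ v x))) = Ec - S := by
    rw [hSE]
    ring
  rw [h10] at hsum
  have h11 := (abs_le.mp hSabs).1
  have h12 := (abs_le.mp hEcabs).2
  linarith

end C1b

alias c1 := c1_pr

end Pool.Agent.LRC
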