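import Pool.Agent.Lib_helper59.LR2.Cell

/-!
# Block TAIL: exponential tails give a second moment
-/

set_option autoImplicit false
set_option linter.unusedSectionVars false

open Finset Matrix

namespace Pool.Agent.LRC

open Pool.Agent.LR2

section Tail

variable {Y : Type} [Fintype Y] {ν : Y → ℝ} {V : Y → ℝ} {a b : ℝ}

/-- the hypothesis applied to the normalised restriction of `ν` to a set -/
theorem tail_level (hν : IsPr ν)
    (h : ∀ q : Y → ℝ, IsPr q → ∀ s : ℝ, 0 ≤ s → (∀ y, q y ≤ Real.exp s * ν y) →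
      ∑ y, q y * V y ≤ a + b * s) (A : Finset Y) (hp : 0 < ∑ y ∈ A, ν y) :
    ∑ y ∈ A, ν y * V y ≤ (∑ y ∈ A, ν y) * (a + b * (-Real.log (∑ y ∈ A, ν y))) := by
  classical
  set p := ∑ y ∈ A, ν y with hpd
  have hp1 : p ≤ 1 := by
    rw [hpd, ← hν.sum]
    exact Finset.sum_le_sum_of_subset_of_nonneg (Finset.subset_univ A)
      (fun y _ _ => hν.nonneg y)
  have hq : IsPr (fun y => if y ∈ A then ν y / p else 0) := by
    refine ⟨fun y => ?_, ?_⟩
    · split_ifs
      · exact div_nonneg (hν.nonneg y) hp.le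
      · exact le_rfl
    · rw [Finset.sum_ite_mem, Finset.univ_inter, ← Finset.sum_div, ← hpd]
      exact div_self hp.ne'
  have h1 := h _ hq (-Real.log p) (neg_nonneg.mpr (Real.log_nonpos hp.le hp1)) (by
    intro y
    have he : Real.exp (-Real.log p) = p⁻¹ := by
      rw [Real.exp_neg, Real.exp_log hp]
    rw [he]
    split_ifs
    · rw [div_eq_inv_mul]
    · exact mul_nonneg (inv_nonneg.mpr hp.le) (hν.nonneg y))
  have h2 : ∑ y, (if y ∈ A then ν y / p else 0) * V y = (∑ y ∈ A, ν y * V y) / p := by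
    simp only [ite_mul, zero_mul]
    rw [Finset.sum_ite_mem, Finset.univ_inter, Finset.sum_div]
    exact Finset.sum_congr rfl fun y _ => by ring
  rw [h2, div_le_iff₀ hp] at h1
  linarith [mul_comm p (a + b * (-Real.log p))]

/-- the tail probability -/
theorem tail_prob (hν : IsPr ν) (hb : 0 ≤ b)
    (h : ∀ q : Y → ℝ, IsPr q → ∀ s : ℝ, 0 ≤ s → (∀ y, q y ≤ Real.exp s * ν y) →
      ∑ y, q y * V y ≤ a + b * s) (s : ℝ) :
    ∑ y ∈ Finset.univ.filter (fun y => a + b * s < V y), ν y ≤ Real.exp (-s) := by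
  classical
  by_contra hc
  push Not at hc
  set A := Finset.univ.filter (fun y => a + b * s < V y) with hA
  set p := ∑ y ∈ A, ν y with hpd
  have hp : 0 < p := lt_trans (Real.exp_pos _) hc
  have h1 := tail_level hν h A hp
  rw [← hpd] at h1
  have hL : -Real.log p < s := by
    have := (Real.lt_log_iff_exp_lt hp).mpr hc
    linarith
  have h2 : p * (a + b * (-Real.log p)) ≤ p * (a + b * s) := by
    apply mul_le_mul_of_nonneg_left _ hp.le
    have := mul_le_mul_of_nonneg_left hL.le hb
    linarith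
  have h3 : 0 < ∑ y ∈ A, ν y * (V y - (a + b * s)) := by
    obtain ⟨y, hy, hy0⟩ : ∃ y ∈ A, 0 < ν y := by
      by_contra hcc
      push Not at hcc
      have : p ≤ 0 := Finset.sum_nonpos hcc
      linarith
    refine Finset.sum_pos' (fun y hy => ?_) ⟨y, hy, ?_⟩
    · have := (Finset.mem_filter.mp hy).2
      exact mul_nonneg (hν.nonneg y) (by linarith)
    · have := (Finset.mem_filter.mp hy).2
      exact mul_pos hy0 (by linarith)
  have h4 : ∑ y ∈ A, ν y * (V y - (a + b * s)) = ∑ y ∈ A, ν y * V y - p * (a + b * s) := by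
    simp only [mul_sub, Finset.sum_sub_distrib]
    rw [hpd, Finset.sum_mul]
  linarith

/-- `Σ_{k<K} (2k+1) exp (-k) ≤ 6` -/
theorem tail_series (K : ℕ) :
    ∑ k ∈ Finset.range K, (2 * (k : ℝ) + 1) * Real.exp (-(k : ℝ)) ≤
      6 - (4 * K + 6) * Real.exp (-(K : ℝ)) := by
  induction K with
  | zero => simp
  | succ K ih =>
    rw [Finset.sum_range_succ]
    have he : Real.exp (-((K + 1 : ℕ) : ℝ)) ≤ Real.exp (-(K : ℝ)) / 2 := by
      have : (-((K + 1 : ℕ) : ℝ)) = -(K : ℝ) - 1 := by push_cast; ring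
      rw [this, Real.exp_sub]
      have h2 : (2 : ℝ) ≤ Real.exp 1 := by
        have := Real.add_one_le_exp (1 : ℝ)
        linarith
      exact div_le_div_of_nonneg_left (Real.exp_pos _).le (by norm_num) h2
    have hpos := Real.exp_pos (-(K : ℝ))
    have hK : (0 : ℝ) ≤ K := Nat.cast_nonneg K
    push_cast at he ⊢
    have h3 := mul_le_mul_of_nonneg_left he (by linarith : (0 : ℝ) ≤ 4 * (K + 1) + 6)
    nlinarith

end Tail

/-- TAIL -/
theorem tail_sq_pr {Y : Type} [Fintype Y] {ν : Y → ℝ} (hν : IsPr ν) {V : Y → ℝ}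
    (hV : ∀ y, 0 ≤ V y) {a b : ℝ} (ha : 0 ≤ a) (hb : 0 ≤ b)
    (h : ∀ q : Y → ℝ, IsPr q → ∀ s : ℝ, 0 ≤ s → (∀ y, q y ≤ Real.exp s * ν y) →
      ∑ y, q y * V y ≤ a + b * s) :
    ∑ y, ν y * V y ^ 2 ≤ 2 * a ^ 2 + 20 * b ^ 2 := by
  classical
  obtain ⟨K, hK⟩ : ∃ K : ℕ, ∀ y, V y ≤ a + b * K ∨ b = 0 := by
    rcases hb.eq_or_lt with hb0 | hb0
    · exact ⟨0, fun y => Or.inr hb0.symm⟩
    · obtain ⟨K, hK⟩ := exists_nat_ge ((∑ y, V y) / b)
      refine ⟨K, fun y => Or.inl ?_⟩
      have h1 : V y ≤ ∑ y, V y := Finset.single_le_sum (fun y _ => hV y) (Finset.mem_univ y)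
      have h2 : (∑ y, V y) ≤ K * b := (div_le_iff₀ hb0).mp hK
      nlinarith
  -- pointwise
  have hpt : ∀ y, ν y * V y ^ 2 ≤ 2 * a ^ 2 * ν y + 2 * b ^ 2 *
      ∑ k ∈ Finset.range K, (2 * (k : ℝ) + 1) * (if a + b * k < V y then ν y else 0) := by
    intro y
    have hny := hν.nonneg y
    rcases eq_or_ne b 0 with hb0 | hb0
    · subst hb0
      have h1 := tail_prob hν le_rfl h
      -- the set `a < V` has measure `0`
      have h2 : ν y = 0 ∨ V y ≤ a := by
        by_contra hcc
        push Not at hcc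
        have hy0 : 0 < ν y := lt_of_le_of_ne hny (Ne.symm hcc.1)
        have h3 : ν y ≤ Real.exp (-(-Real.log (ν y) + 1)) := by
          refine le_trans ?_ (h1 (-Real.log (ν y) + 1))
          refine Finset.single_le_sum (f := ν) (fun z _ => hν.nonneg z) ?_
          simp only [Finset.mem_filter, Finset.mem_univ, true_and]
          linarith [hcc.2]
        have h4 : -(-Real.log (ν y) + 1) = Real.log (ν y) - 1 := by ring
        rw [h4, Real.exp_sub, Real.exp_log hy0, le_div_iff₀ (Real.exp_pos 1)] at h3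
        have h5 : (2 : ℝ) ≤ Real.exp 1 := by
          have := Real.add_one_le_exp (1 : ℝ)
          linarith
        nlinarith
      rcases h2 with h2 | h2
      · simp [h2]
      · have h3 : V y ^ 2 ≤ a ^ 2 := pow_le_pow_left₀ (hV y) h2 2
        have h4 : ν y * V y ^ 2 ≤ ν y * a ^ 2 := mul_le_mul_of_nonneg_left h3 hny
        have h5 : 0 ≤ ν y * a ^ 2 := mul_nonneg hny (sq_nonneg a)
        simp only [ne_eq, OfNat.ofNat_ne_zero, not_false_eq_true, zero_pow, mul_zero, zero_mul,
          add_zero]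
        linarith
    · have hK' : V y ≤ a + b * K := (hK y).resolve_right hb0
      have hbp : 0 < b := lt_of_le_of_ne hb (Ne.symm hb0)
      -- layers
      have key : ∀ K : ℕ, V y ≤ a + b * K → V y ^ 2 ≤ 2 * a ^ 2 + 2 * b ^ 2 *
          ∑ k ∈ Finset.range K, (2 * (k : ℝ) + 1) * (if a + b * k < V y then 1 else 0) := by
        intro K
        induction K with
        | zero =>
          intro h0
          simp only [CharP.cast_eq_zero, mul_zero, add_zero] at h0
          have h3 : V y ^ 2 ≤ a ^ 2 := pow_le_pow_left₀ (hV y) h0 2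
          simp only [Finset.range_zero, Finset.sum_empty, mul_zero, add_zero]
          nlinarith [sq_nonneg a]
        | succ K ih =>
          intro h0
          rcases le_or_gt (V y) (a + b * K) with h1 | h1
          · have h2 := ih h1
            rw [Finset.sum_range_succ]
            have h3 : (0 : ℝ) ≤ (2 * (K : ℝ) + 1) * (if a + b * K < V y then 1 else 0) := by
              split_ifs <;> positivity
            nlinarith [sq_nonneg b]
          · have h2 : ∀ k ∈ Finset.range (K + 1), (2 * (k : ℝ) + 1) *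
                (if a + b * k < V y then (1 : ℝ) else 0) = 2 * (k : ℝ) + 1 := by
              intro k hk
              have hk' : (k : ℝ) ≤ K := by
                exact_mod_cast Nat.lt_succ_iff.mp (Finset.mem_range.mp hk)
              have h4 : a + b * k < V y := by nlinarith
              rw [if_pos h4, mul_one]
            rw [Finset.sum_congr rfl h2]
            have h5 : ∑ k ∈ Finset.range (K + 1), (2 * (k : ℝ) + 1) = ((K : ℝ) + 1) ^ 2 := by
              clear h2 h1 h0 ih
              induction K with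
              | zero => simp
              | succ K ih => rw [Finset.sum_range_succ, ih]; push_cast; ring
            rw [h5]
            push_cast at h0
            have h6 : V y ^ 2 ≤ (a + b * (K + 1)) ^ 2 := pow_le_pow_left₀ (hV y) h0 2
            nlinarith [sq_nonneg (a - b * (K + 1))]
      have h7 := mul_le_mul_of_nonneg_left (key K hK') hny
      have h8 : ∑ k ∈ Finset.range K, (2 * (k : ℝ) + 1) * (if a + b * k < V y then ν y else 0) =
          ν y * ∑ k ∈ Finset.range K, (2 * (k : ℝ) + 1) * (if a + b * k < V y then 1 else 0) := by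
        rw [Finset.mul_sum]
        refine Finset.sum_congr rfl fun k _ => ?_
        split_ifs <;> ring
      rw [h8]
      calc ν y * V y ^ 2 ≤ _ := h7
        _ = _ := by ring
  have hsum := Finset.sum_le_sum fun y (_ : y ∈ Finset.univ) => hpt y
  rw [Finset.sum_add_distrib, ← Finset.mul_sum, ← Finset.mul_sum, hν.sum, Finset.sum_comm] at hsum
  have h9 : ∑ k ∈ Finset.range K, ∑ y, (2 * (k : ℝ) + 1) * (if a + b * k < V y then ν y else 0) ≤
      ∑ k ∈ Finset.range K, (2 * (k : ℝ) + 1) * Real.exp (-(k : ℝ)) := by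
    refine Finset.sum_le_sum fun k _ => ?_
    rw [← Finset.mul_sum]
    refine mul_le_mul_of_nonneg_left ?_ (by positivity)
    rw [← Finset.sum_filter]
    exact tail_prob hν hb h k
  have h10 := tail_series K
  have h11 : (0 : ℝ) ≤ (4 * K + 6) * Real.exp (-(K : ℝ)) := by positivity
  nlinarith [sq_nonneg b]

/-- TAIL2 -/
theorem tail_one_pr {Y : Type} [Fintype Y] {ν : Y → ℝ} (hν : IsPr ν) {V : Y → ℝ}
    (hV : ∀ y, 0 ≤ V y) {a b : ℝ} (ha : 0 ≤ a) (hb : 0 ≤ b)
    (h : ∀ q : Y → ℝ, IsPr q → ∀ s : ℝ, 0 ≤ s → (∀ y, q y ≤ Real.exp s * ν y) →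
      ∑ y, q y * V y ≤ a + b * s) {s : ℝ} (hs : 1 ≤ s) :
    ∑ y, ν y * (if a + b * s < V y then V y else 0) ≤ Real.exp (-s) * (a + b * s) := by
  classical
  have h1 : ∑ y, ν y * (if a + b * s < V y then V y else 0) =
      ∑ y ∈ Finset.univ.filter (fun y => a + b * s < V y), ν y * V y := by
    rw [Finset.sum_filter]
    refine Finset.sum_congr rfl fun y _ => ?_
    split_ifs <;> simp
  rw [h1]
  have h2 := tail_prob hν hb h s
  set A := Finset.univ.filter (fun y => a + b * s < V y) with hA
  set p := ∑ y ∈ A, ν y with hpd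
  have hp0 : 0 ≤ p := Finset.sum_nonneg fun y _ => hν.nonneg y
  have hR : 0 ≤ Real.exp (-s) * (a + b * s) :=
    mul_nonneg (Real.exp_pos _).le (by nlinarith)
  rcases hp0.eq_or_lt with hp | hp
  · have h3 : ∀ y ∈ A, ν y = 0 := by
      intro y hy
      exact (Finset.sum_eq_zero_iff_of_nonneg fun y _ => hν.nonneg y).mp hp.symm y hy
    rw [Finset.sum_eq_zero fun y hy => by rw [h3 y hy, zero_mul]]
    exact hR
  · have h3 := tail_level hν h A hp
    rw [← hpd] at h3
    refine le_trans h3 ?_
    set L := -Real.log p with hLd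
    have hpL : p = Real.exp (-L) := by rw [hLd, neg_neg, Real.exp_log hp]
    have hL : s ≤ L := by
      have := (Real.log_le_iff_le_exp hp).mpr h2
      linarith
    have hea : Real.exp (-L) ≤ Real.exp (-s) := Real.exp_le_exp.mpr (by linarith)
    have heb : Real.exp (-L) * L ≤ Real.exp (-s) * s := by
      have h4 : Real.exp (-s) = Real.exp (-L) * Real.exp (L - s) := by
        rw [← Real.exp_add]; ring_nf
      have h5 : L - s + 1 ≤ Real.exp (L - s) := Real.add_one_le_exp _
      have h6 : L ≤ Real.exp (L - s) * s := by nlinarith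
      rw [h4, mul_assoc]
      exact mul_le_mul_of_nonneg_left h6 (Real.exp_pos _).le
    rw [hpL]
    have h7 := mul_le_mul_of_nonneg_left hea ha
    have h8 := mul_le_mul_of_nonneg_left heb hb
    nlinarith


alias tail_sq := tail_sq_pr
alias tail_one := tail_one_pr

end Pool.Agent.LRC
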