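import Pool.Agent.Lib_helper94.LRC.Defs
import Pool.Agent.Lib_helper94.LRF.TAIL

/-!
# LRC, block W4: the fourth moment of `|A z_y|`
-/

set_option autoImplicit false
set_option linter.unusedSectionVars false

open Finset Matrix

namespace Pool.Agent.LRC

open Pool.Agent.LR2

section Rows

variable {X Y ι : Type} [Fintype X] [Fintype Y] [Fintype ι] [DecidableEq ι]
variable {μ : X → ℝ} {ν : Y → ℝ} {M : X → Y → ℝ} {U : ℝ} {V : ι → ℝ} {be : X → ι → ℝ}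
    {z : Y → ι → ℝ} {t2 kap rho del2 w0 q2 : ℝ}

theorem w4_quad {A : Matrix ι ι ℝ} (hA : Aᵀ = A) (w : ι → ℝ) :
    w ⬝ᵥ ((A * A) *ᵥ w) = (A *ᵥ w) ⬝ᵥ (A *ᵥ w) := by
  rw [← Matrix.mulVec_mulVec, dot_symm_mulVec hA]

theorem w4_trace {A : Matrix ι ι ℝ} (hA : Aᵀ = A) : ∑ i, (A * A) i i = hs A := by
  rw [hs_symm hA]
  rfl

/-- W4 -/
theorem Core.w4_pr (hc : Core μ ν M U V be z t2 kap rho del2 w0 q2) {A : Matrix ι ι ℝ}
    (hA : Aᵀ = A) {c : ℝ} (hAc : OpB A c) :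
    ∑ y, ν y * ((A *ᵥ z y) ⬝ᵥ (A *ᵥ z y)) ^ 2 ≤
      2 * (2 * hs A + 2 * rho * c ^ 2) ^ 2 + 20 * (rho * c ^ 2) ^ 2 := by
  have hr : 0 ≤ rho * c ^ 2 := mul_nonneg hc.rho_nonneg (sq_nonneg c)
  refine tail_sq hc.prY (V := fun y => (A *ᵥ z y) ⬝ᵥ (A *ᵥ z y)) (fun y => dot_self_nonneg _)
    (by have := hs_nonneg A; nlinarith) hr ?_
  intro q hq s hs0 hqs
  have h5 := hc.f5 q hq s hs0 hqs (A * A) (c ^ 2) (by rw [Matrix.transpose_mul, hA])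
    (fun w => by rw [w4_quad hA]; exact dot_self_nonneg _)
    (fun w => by rw [w4_quad hA]; exact hAc w)
  have e1 : ∑ i, (1 : ℝ) * (A * A) i i = hs A := by
    rw [← w4_trace hA]
    exact Finset.sum_congr rfl fun i _ => one_mul _
  have e2 : ∑ y, q y * (z y ⬝ᵥ ((A * A) *ᵥ z y)) = ∑ y, q y * ((A *ᵥ z y) ⬝ᵥ (A *ᵥ z y)) :=
    Finset.sum_congr rfl fun y _ => by rw [w4_quad hA]
  rw [e2, e1] at h5
  linarith

end Rows

alias Core.w4 := Core.w4_pr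

end Pool.Agent.LRC
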