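import Pool.Agent.Lib_helper94.LRF.DEC
import Pool.Agent.Lib_helper94.LRF.F3
import Pool.Agent.Lib_helper94.LRF.W4

/-!
# LRC, block C2: the second decoder
-/

set_option autoImplicit false
set_option linter.unusedSectionVars false

open Finset Matrix

namespace Pool.Agent.LRC

open Pool.Agent.LR2

section C2a

variable {X Y ι : Type} [Fintype X] [Fintype Y] [Fintype ι] [DecidableEq ι]

theorem c2_em_le {μ : X → ℝ} {ν : Y → ℝ} {M : X → Y → ℝ} (hμ : IsPr μ) (hν : IsPr ν)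
    (hM : ∀ x y, M x y = 1 ∨ M x y = -1) : em μ ν M ≤ 1 := by
  have h1 : em μ ν M ≤ ∑ x, ∑ y, μ x * ν y := by
    unfold LR2.em
    refine Finset.sum_le_sum fun x _ => Finset.sum_le_sum fun y _ => ?_
    have h2 : M x y ≤ 1 := by
      rcases hM x y with h | h
      · exact h.le
      · rw [h]; norm_num
    have h3 : 0 ≤ μ x * ν y := mul_nonneg (hμ.nonneg x) (hν.nonneg y)
    nlinarith
  refine h1.trans (le_of_eq ?_)
  simp only [← Finset.mul_sum, hν.sum, mul_one, hμ.sum]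

theorem c2_w4 {W : ℝ} (h : 5 ≤ W) : (2 : ℝ) ≤ W ^ 4 := by
  have := pow_le_pow_left₀ (by norm_num : (0 : ℝ) ≤ 5) h 4
  linarith

theorem c2_smul_dot (a b : ℝ) (v w : ι → ℝ) : (a • v) ⬝ᵥ (b • w) = a * b * (v ⬝ᵥ w) := by
  rw [smul_dotProduct, dotProduct_smul, smul_eq_mul, smul_eq_mul]
  ring

/-- normalisation of a good row -/
theorem c2_row {ν : Y → ℝ} {z : Y → ι → ℝ} {β : ι → ℝ} {m0 δ W U : ℝ} (hm0 : 0 < m0)
    (hW : 5 / m0 ≤ W) (hU0 : 0 ≤ U) (hU1 : U ≤ 1)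
    (h1 : m0 ^ 2 ≤ β ⬝ᵥ β) (hop : OpB (TV ν z β) 5)
    (h2 : (TV ν z β *ᵥ β + (2 * U) • β) ⬝ᵥ (TV ν z β *ᵥ β + (2 * U) • β) ≤ (m0 ^ 2 * δ) ^ 2) :
    ∃ m η : ℝ, m0 ≤ m ∧ m * η = 2 * U ∧ 0 ≤ η ∧ η ≤ W ∧
      ((Real.sqrt (β ⬝ᵥ β))⁻¹ • β) ⬝ᵥ ((Real.sqrt (β ⬝ᵥ β))⁻¹ • β) = 1 ∧
      OpB (TV ν z ((Real.sqrt (β ⬝ᵥ β))⁻¹ • β)) W ∧
      β = m • ((Real.sqrt (β ⬝ᵥ β))⁻¹ • β) ∧
      (TV ν z ((Real.sqrt (β ⬝ᵥ β))⁻¹ • β) *ᵥ ((Real.sqrt (β ⬝ᵥ β))⁻¹ • β) +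
        η • ((Real.sqrt (β ⬝ᵥ β))⁻¹ • β)) ⬝ᵥ
      (TV ν z ((Real.sqrt (β ⬝ᵥ β))⁻¹ • β) *ᵥ ((Real.sqrt (β ⬝ᵥ β))⁻¹ • β) +
        η • ((Real.sqrt (β ⬝ᵥ β))⁻¹ • β)) ≤ δ ^ 2 := by
  have hbb : 0 ≤ β ⬝ᵥ β := dot_self_nonneg β
  set m : ℝ := Real.sqrt (β ⬝ᵥ β) with hm
  have hmsq : m ^ 2 = β ⬝ᵥ β := Real.sq_sqrt hbb
  have hm0m : m0 ≤ m := Real.le_sqrt_of_sq_le h1
  have hmpos : 0 < m := hm0.trans_le hm0m
  have hmne : m ≠ 0 := hmpos.ne'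
  have hη0 : 0 ≤ 2 * U / m := by positivity
  have hηm : 2 * U / m ≤ 2 * U / m0 := div_le_div_of_nonneg_left (by positivity) hm0 hm0m
  have hηW : 2 * U / m ≤ W := by
    refine hηm.trans (le_trans ?_ hW)
    exact div_le_div_of_nonneg_right (by linarith) hm0.le
  have hb1 : (m⁻¹ • β) ⬝ᵥ (m⁻¹ • β) = 1 := by
    rw [c2_smul_dot, ← hmsq]
    field_simp
  have hβ : β = m • (m⁻¹ • β) := by
    rw [smul_smul, mul_inv_cancel₀ hmne, one_smul]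
  refine ⟨m, 2 * U / m, hm0m, mul_div_cancel₀ _ hmne, hη0, hηW, hb1, ?_, hβ, ?_⟩
  · intro w
    rw [TV_smul, Matrix.smul_mulVec, c2_smul_dot]
    have h3 := hop w
    have h4 : m⁻¹ * 5 ≤ W := by
      refine le_trans ?_ hW
      rw [mul_comm, ← div_eq_mul_inv]
      exact div_le_div_of_nonneg_left (by norm_num) hm0 hm0m
    have h5 : 0 < m⁻¹ := inv_pos.mpr hmpos
    have h6 := dot_self_nonneg w
    calc m⁻¹ * m⁻¹ * ((TV ν z β *ᵥ w) ⬝ᵥ (TV ν z β *ᵥ w))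
        ≤ m⁻¹ * m⁻¹ * (5 ^ 2 * (w ⬝ᵥ w)) := mul_le_mul_of_nonneg_left h3 (by positivity)
      _ = (m⁻¹ * 5) ^ 2 * (w ⬝ᵥ w) := by ring
      _ ≤ W ^ 2 * (w ⬝ᵥ w) :=
          mul_le_mul_of_nonneg_right (pow_le_pow_left₀ (by positivity) h4 2) h6
  · have h3 : TV ν z (m⁻¹ • β) *ᵥ (m⁻¹ • β) + (2 * U / m) • (m⁻¹ • β) =
        (m⁻¹ * m⁻¹) • (TV ν z β *ᵥ β + (2 * U) • β) := by
      rw [TV_smul, Matrix.smul_mulVec, Matrix.mulVec_smul, smul_smul, smul_smul, smul_add,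
        smul_smul]
      congr 2
      field_simp
    rw [h3, c2_smul_dot]
    have h5 : 0 < m⁻¹ := inv_pos.mpr hmpos
    have h6 : m0 * m⁻¹ ≤ 1 := by
      rw [← div_eq_mul_inv]
      exact (div_le_one hmpos).mpr hm0m
    have h7 : (m0 * m⁻¹) ^ 4 ≤ 1 := pow_le_one₀ (by positivity) h6
    calc m⁻¹ * m⁻¹ * (m⁻¹ * m⁻¹) * ((TV ν z β *ᵥ β + (2 * U) • β) ⬝ᵥ
          (TV ν z β *ᵥ β + (2 * U) • β))
        ≤ m⁻¹ * m⁻¹ * (m⁻¹ * m⁻¹) * (m0 ^ 2 * δ) ^ 2 :=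
          mul_le_mul_of_nonneg_left h2 (by positivity)
      _ = (m0 * m⁻¹) ^ 4 * δ ^ 2 := by ring
      _ ≤ 1 * δ ^ 2 := mul_le_mul_of_nonneg_right h7 (sq_nonneg δ)
      _ = δ ^ 2 := one_mul _

/-- the trivial operator bound on a good row -/
theorem c2_op {μ : X → ℝ} {ν : Y → ℝ} {M : X → Y → ℝ} {U : ℝ} {V : ι → ℝ} {be : X → ι → ℝ}
    {z : Y → ι → ℝ} {t2 kap rho del2 w0 q2 : ℝ}
    (hc : Core μ ν M U V be z t2 kap rho del2 w0 q2) (x : X)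
    (h3 : t2 * ∑ y, ν y * (ctd μ ν M x y - be x ⬝ᵥ z y) ^ 2 ≤ 1) : OpB (TV ν z (be x)) 5 := by
  refine (hc.f2 x).1.mono (by positivity) ?_
  have : Real.sqrt (t2 * ∑ y, ν y * (ctd μ ν M x y - be x ⬝ᵥ z y) ^ 2) ≤ 1 := by
    refine Real.sqrt_le_iff.mpr ⟨by norm_num, by linarith⟩
  linarith

/-- weighted Cauchy-Schwarz -/
theorem c2_cs {σ : Type} (s : Finset σ) {wt f g : σ → ℝ} (hw : ∀ p, 0 ≤ wt p) {A B : ℝ}
    (hA : ∑ p ∈ s, wt p * f p ^ 2 ≤ A) (hB : ∑ p ∈ s, wt p * g p ^ 2 ≤ B) :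
    |∑ p ∈ s, wt p * (f p * g p)| ≤ Real.sqrt (A * B) := by
  refine Real.abs_le_sqrt ?_
  have h1 : ∑ p ∈ s, wt p * (f p * g p) =
      ∑ p ∈ s, (Real.sqrt (wt p) * f p) * (Real.sqrt (wt p) * g p) := by
    refine Finset.sum_congr rfl fun p _ => ?_
    have := Real.mul_self_sqrt (hw p)
    calc wt p * (f p * g p) = (Real.sqrt (wt p) * Real.sqrt (wt p)) * (f p * g p) := by rw [this]
      _ = _ := by ring
  have h2 : ∀ k : σ → ℝ, ∑ p ∈ s, (Real.sqrt (wt p) * k p) ^ 2 = ∑ p ∈ s, wt p * k p ^ 2 := by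
    intro k
    refine Finset.sum_congr rfl fun p _ => ?_
    rw [mul_pow, Real.sq_sqrt (hw p)]
  rw [h1]
  refine (Finset.sum_mul_sq_le_sq_mul_sq _ _ _).trans ?_
  rw [h2, h2]
  have h3 : ∀ k : σ → ℝ, 0 ≤ ∑ p ∈ s, wt p * k p ^ 2 := fun k =>
    Finset.sum_nonneg fun p _ => mul_nonneg (hw p) (sq_nonneg _)
  exact mul_le_mul hA hB (h3 g) ((h3 f).trans hA)

theorem c2_cs2 {μ : X → ℝ} {ν : Y → ℝ} (hμ : ∀ x, 0 ≤ μ x) (hν : ∀ y, 0 ≤ ν y) (s : Finset X)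
    (t : Finset Y) {f g : X → Y → ℝ} {A B : ℝ}
    (hA : ∑ x ∈ s, ∑ y ∈ t, μ x * ν y * f x y ^ 2 ≤ A)
    (hB : ∑ x ∈ s, ∑ y ∈ t, μ x * ν y * g x y ^ 2 ≤ B) :
    |∑ x ∈ s, ∑ y ∈ t, μ x * ν y * (f x y * g x y)| ≤ Real.sqrt (A * B) := by
  rw [← Finset.sum_product'] at hA hB ⊢
  exact c2_cs (s ×ˢ t) (wt := fun p => μ p.1 * ν p.2) (f := fun p => f p.1 p.2)
    (g := fun p => g p.1 p.2) (fun p => mul_nonneg (hμ _) (hν _)) hA hB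

theorem c2_abs2 {μ : X → ℝ} {ν : Y → ℝ} (hμ : ∀ x, 0 ≤ μ x) (hν : ∀ y, 0 ≤ ν y) (s : Finset X)
    (t : Finset Y) {f g : X → Y → ℝ} (h : ∀ x ∈ s, ∀ y ∈ t, |f x y| ≤ g x y) :
    |∑ x ∈ s, ∑ y ∈ t, μ x * ν y * f x y| ≤ ∑ x ∈ s, ∑ y ∈ t, μ x * ν y * g x y := by
  refine (Finset.abs_sum_le_sum_abs _ _).trans (Finset.sum_le_sum fun x hx => ?_)
  refine (Finset.abs_sum_le_sum_abs _ _).trans (Finset.sum_le_sum fun y hy => ?_)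
  rw [abs_mul, abs_of_nonneg (mul_nonneg (hμ x) (hν y))]
  exact mul_le_mul_of_nonneg_left (h x hx y hy) (mul_nonneg (hμ x) (hν y))

theorem c2_le2 {μ : X → ℝ} {ν : Y → ℝ} (hμ : ∀ x, 0 ≤ μ x) (hν : ∀ y, 0 ≤ ν y) (s : Finset X)
    (t : Finset Y) {f g : X → Y → ℝ} (h : ∀ x ∈ s, ∀ y ∈ t, f x y ≤ g x y) :
    ∑ x ∈ s, ∑ y ∈ t, μ x * ν y * f x y ≤ ∑ x ∈ s, ∑ y ∈ t, μ x * ν y * g x y :=
  Finset.sum_le_sum fun x hx => Finset.sum_le_sum fun y hy =>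
    mul_le_mul_of_nonneg_left (h x hx y hy) (mul_nonneg (hμ x) (hν y))

/-- from a bound for every row -/
theorem c2_rows {μ : X → ℝ} {ν : Y → ℝ} (hμ : IsPr μ) (hν : IsPr ν) (s : Finset X)
    (t : Finset Y) {f : X → Y → ℝ} (hf : ∀ x ∈ s, ∀ y, 0 ≤ f x y) {c : ℝ} (hc : 0 ≤ c)
    (h : ∀ x ∈ s, ∑ y, ν y * f x y ≤ c) :
    ∑ x ∈ s, ∑ y ∈ t, μ x * ν y * f x y ≤ c := by
  have h1 : ∀ x ∈ s, ∑ y ∈ t, μ x * ν y * f x y ≤ μ x * c := by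
    intro x hx
    have h2 : ∑ y ∈ t, μ x * ν y * f x y = μ x * ∑ y ∈ t, ν y * f x y := by
      rw [Finset.mul_sum]
      exact Finset.sum_congr rfl fun y _ => by ring
    rw [h2]
    refine mul_le_mul_of_nonneg_left (le_trans ?_ (h x hx)) (hμ.nonneg x)
    exact Finset.sum_le_sum_of_subset_of_nonneg (Finset.subset_univ _)
      fun y _ _ => mul_nonneg (hν.nonneg y) (hf x hx y)
  refine (Finset.sum_le_sum h1).trans ?_
  rw [← Finset.sum_mul]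
  refine mul_le_of_le_one_left hc ?_
  rw [← hμ.sum]
  exact Finset.sum_le_sum_of_subset_of_nonneg (Finset.subset_univ _) fun x _ _ => hμ.nonneg x

theorem c2_trace_TH {ν : Y → ℝ} {z : Y → ι → ℝ} (R : Matrix ι ι ℝ) (h : Y → ℝ) :
    (R * TH ν z h).trace = ∑ y, ν y * (h y * (z y ⬝ᵥ (R *ᵥ z y))) := by
  simp only [Matrix.trace, Matrix.diag_apply, Matrix.mul_apply, TH, Matrix.of_apply, dotProduct,
    mulVec, Finset.mul_sum]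
  symm
  rw [Finset.sum_comm]
  refine Finset.sum_congr rfl fun i _ => ?_
  rw [Finset.sum_comm]
  exact Finset.sum_congr rfl fun j _ => Finset.sum_congr rfl fun y _ => by ring

theorem c2_trace_sq (R A : Matrix ι ι ℝ) : (R * A).trace ^ 2 ≤ hs R * hs A := by
  have h1 : (R * A).trace = ∑ p ∈ (Finset.univ : Finset ι) ×ˢ (Finset.univ : Finset ι),
      R p.1 p.2 * A p.2 p.1 := by
    rw [Finset.sum_product]
    simp only [Matrix.trace, Matrix.diag_apply, Matrix.mul_apply]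
  have h2 : hs R = ∑ p ∈ (Finset.univ : Finset ι) ×ˢ (Finset.univ : Finset ι),
      R p.1 p.2 ^ 2 := by
    rw [Finset.sum_product]
    rfl
  have h3 : hs A = ∑ p ∈ (Finset.univ : Finset ι) ×ˢ (Finset.univ : Finset ι),
      A p.2 p.1 ^ 2 := by
    rw [← hs_transpose, Finset.sum_product]
    rfl
  rw [h1, h2, h3]
  exact Finset.sum_mul_sq_le_sq_mul_sq _ _ _

theorem c2_absdot (a b : ι → ℝ) :
    |a ⬝ᵥ b| ≤ Real.sqrt (a ⬝ᵥ a) * Real.sqrt (b ⬝ᵥ b) := by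
  rw [← Real.sqrt_mul (dot_self_nonneg a)]
  exact Real.abs_le_sqrt (dot_cs a b)

/-- Pythagoras -/
theorem c2_proj {P : Matrix ι ι ℝ} (hP : IsProj P) (w : ι → ℝ) :
    (P *ᵥ w) ⬝ᵥ (P *ᵥ w) + ((1 - P) *ᵥ w) ⬝ᵥ ((1 - P) *ᵥ w) = w ⬝ᵥ w := by
  have h1 : (P *ᵥ w) ⬝ᵥ (P *ᵥ w) = w ⬝ᵥ (P *ᵥ w) := by
    have h2 := dot_symm_mulVec hP.1 w (P *ᵥ w)
    rw [← h2, Matrix.mulVec_mulVec, hP.2]
  rw [Matrix.sub_mulVec, Matrix.one_mulVec]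
  simp only [sub_dotProduct, dotProduct_sub]
  rw [h1, dotProduct_comm (P *ᵥ w) w]
  ring

/-- the facts on one row and one column -/
theorem c2_cell {ν : Y → ℝ} {z : Y → ι → ℝ} {t2 : ℝ} (ht2 : 1 ≤ t2)
    (hTV : ∀ c : ι → ℝ, hs (TV ν z c) ≤ t2 * (c ⬝ᵥ c)) {b : ι → ℝ} {W η δ h : ℝ}
    (hW : 1 ≤ W) (hop : OpB (TV ν z b) W) (hη0 : 0 ≤ η) (hηW : η ≤ W)
    (he : (TV ν z b *ᵥ b + η • b) ⬝ᵥ (TV ν z b *ᵥ b + η • b) ≤ δ ^ 2)
    (hd : t2 * δ ^ 2 ≤ W ^ 2) {K P : Matrix ι ι ℝ} (hP : IsProj P)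
    (hPK : P * K = K * P) (hPh : OpB (K * (1 - P)) h) {t n : ℝ} (ht : 0 ≤ t) (hn : 0 ≤ n) :
    ((K * (1 - P)) *ᵥ b) ⬝ᵥ ((K * (1 - P)) *ᵥ b) ≤ (K *ᵥ b) ⬝ᵥ (K *ᵥ b) ∧
    ((2 : ℝ) • ((K * (1 - P)) *ᵥ b) + (K * P) *ᵥ b) ⬝ᵥ
      ((2 : ℝ) • ((K * (1 - P)) *ᵥ b) + (K * P) *ᵥ b) ≤ 8 * ((K *ᵥ b) ⬝ᵥ (K *ᵥ b)) ∧
    ((K * (1 - P)) *ᵥ b) ⬝ᵥ (TV ν z (TV ν z b *ᵥ b) *ᵥ ((K * (1 - P)) *ᵥ b)) =
      -(η * ((K *ᵥ b) ⬝ᵥ (TV ν z b *ᵥ (K *ᵥ b)))) +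
      η * (((2 : ℝ) • ((K * (1 - P)) *ᵥ b) + (K * P) *ᵥ b) ⬝ᵥ
        (TV ν z b *ᵥ ((K * P) *ᵥ b))) +
      (TV ν z b *ᵥ b + η • b) ⬝ᵥ
        (TV ν z ((K * (1 - P)) *ᵥ b) *ᵥ ((K * (1 - P)) *ᵥ b)) ∧
    Nz2 ν z b (K * (1 - P)) t n ≤ 4 * W ^ 4 * ((K *ᵥ b) ⬝ᵥ (K *ᵥ b)) ^ 2 +
      1 / t * (h ^ 2 * (4 * W ^ 4) * ((K *ᵥ b) ⬝ᵥ (K *ᵥ b))) +
      1 / n * (W ^ 2 * ((TV ν z ((K * (1 - P)) *ᵥ b) *ᵥ ((K * (1 - P)) *ᵥ b)) ⬝ᵥ
        (TV ν z ((K * (1 - P)) *ᵥ b) *ᵥ ((K * (1 - P)) *ᵥ b)))) +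
      1 / (t * n) * (h ^ 2 * W ^ 2 * t2 * ((K *ᵥ b) ⬝ᵥ (K *ᵥ b))) := by
  set τ := TV ν z b with hτ
  set w := K *ᵥ b with hw
  set ρ := (K * (1 - P)) *ᵥ b with hρ
  set l := (K * P) *ᵥ b with hl
  set e := τ *ᵥ b + η • b with hedef
  have hρ1 : ρ = (1 - P) *ᵥ w := by
    rw [hρ, hw, Matrix.mulVec_mulVec]
    congr 1
    rw [mul_sub, sub_mul, mul_one, one_mul, hPK]
  have hl1 : l = P *ᵥ w := by
    rw [hl, hw, Matrix.mulVec_mulVec, hPK]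
  have hpy := c2_proj hP w
  rw [← hρ1, ← hl1] at hpy
  have hll := dot_self_nonneg l
  have hρρ := dot_self_nonneg ρ
  have hww := dot_self_nonneg w
  have hρw : ρ ⬝ᵥ ρ ≤ w ⬝ᵥ w := by linarith
  have hwlρ : w = l + ρ := by
    rw [hl1, hρ1, ← Matrix.add_mulVec]
    have : P + (1 - P) = 1 := by abel
    rw [this, Matrix.one_mulVec]
  have hτs : τᵀ = τ := TV_transpose b
  have hτb : τ *ᵥ b = e + (-η) • b := by
    rw [hedef, neg_smul]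
    abel
  have hL : TV ν z (τ *ᵥ b) = TV ν z e + (-η) • τ := by
    rw [hτb, TV_add, TV_smul]
  have hhse : hs (TV ν z e) ≤ W ^ 2 := by
    refine (hTV e).trans (le_trans ?_ hd)
    exact mul_le_mul_of_nonneg_left he (by linarith)
  have hopL : OpB (TV ν z (τ *ᵥ b)) (2 * W ^ 2) := by
    rw [hL]
    have h1 : OpB (TV ν z e) W := by
      intro v
      exact (mulVec_sq_le _ v).trans (mul_le_mul_of_nonneg_right hhse (dot_self_nonneg v))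
    have h2 : OpB ((-η) • τ) (η * W) := by
      intro v
      rw [Matrix.smul_mulVec, c2_smul_dot]
      have h3 := mul_le_mul_of_nonneg_left (hop v) (mul_nonneg hη0 hη0)
      calc -η * -η * ((τ *ᵥ v) ⬝ᵥ (τ *ᵥ v)) = η * η * ((τ *ᵥ v) ⬝ᵥ (τ *ᵥ v)) := by ring
        _ ≤ η * η * (W ^ 2 * (v ⬝ᵥ v)) := h3
        _ = (η * W) ^ 2 * (v ⬝ᵥ v) := by ring
    refine (h1.add h2 (by linarith) (by positivity)).mono (by positivity) ?_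
    nlinarith
  refine ⟨hρw, ?_, ?_, ?_⟩
  · refine (dot_add_sq_le _ _).trans ?_
    rw [c2_smul_dot]
    linarith
  · rw [hL, Matrix.add_mulVec, dotProduct_add, Matrix.smul_mulVec, dotProduct_smul, smul_eq_mul,
      dot_TV_swap ρ e ρ]
    have h1 : w ⬝ᵥ (τ *ᵥ w) = l ⬝ᵥ (τ *ᵥ l) + 2 * (ρ ⬝ᵥ (τ *ᵥ l)) + ρ ⬝ᵥ (τ *ᵥ ρ) := by
      conv_lhs => rw [hwlρ]
      rw [Matrix.mulVec_add]
      simp only [add_dotProduct, dotProduct_add]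
      have : l ⬝ᵥ (τ *ᵥ ρ) = ρ ⬝ᵥ (τ *ᵥ l) := by
        rw [dot_symm_mulVec hτs, dotProduct_comm]
      rw [this]
      ring
    rw [h1]
    simp only [add_dotProduct, smul_dotProduct, smul_eq_mul]
    ring
  · unfold Nz2
    simp only []
    rw [← hτ, ← hρ]
    have hT2 := hTV ρ
    have k1 : (ρ ⬝ᵥ (TV ν z (τ *ᵥ b) *ᵥ ρ)) ^ 2 ≤ 4 * W ^ 4 * (w ⬝ᵥ w) ^ 2 := by
      refine (bil_of_opB hopL ρ ρ).trans ?_
      have : (ρ ⬝ᵥ ρ) * (ρ ⬝ᵥ ρ) ≤ (w ⬝ᵥ w) * (w ⬝ᵥ w) := mul_le_mul hρw hρw hρρ hww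
      calc (2 * W ^ 2) ^ 2 * ((ρ ⬝ᵥ ρ) * (ρ ⬝ᵥ ρ)) ≤ (2 * W ^ 2) ^ 2 * ((w ⬝ᵥ w) * (w ⬝ᵥ w)) :=
            mul_le_mul_of_nonneg_left this (by positivity)
        _ = _ := by ring
    have k2 : (((K * (1 - P)) *ᵥ (TV ν z (τ *ᵥ b) *ᵥ ρ)) ⬝ᵥ
        ((K * (1 - P)) *ᵥ (TV ν z (τ *ᵥ b) *ᵥ ρ))) ≤ h ^ 2 * (4 * W ^ 4) * (w ⬝ᵥ w) := by
      refine (hPh _).trans ?_
      calc h ^ 2 * ((TV ν z (τ *ᵥ b) *ᵥ ρ) ⬝ᵥ (TV ν z (τ *ᵥ b) *ᵥ ρ))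
          ≤ h ^ 2 * ((2 * W ^ 2) ^ 2 * (ρ ⬝ᵥ ρ)) :=
            mul_le_mul_of_nonneg_left (hopL ρ) (sq_nonneg h)
        _ ≤ h ^ 2 * ((2 * W ^ 2) ^ 2 * (w ⬝ᵥ w)) :=
            mul_le_mul_of_nonneg_left (mul_le_mul_of_nonneg_left hρw (by positivity))
              (sq_nonneg h)
        _ = _ := by ring
    have k3 : ((τ *ᵥ (TV ν z ρ *ᵥ ρ)) ⬝ᵥ (τ *ᵥ (TV ν z ρ *ᵥ ρ))) ≤
        W ^ 2 * ((TV ν z ρ *ᵥ ρ) ⬝ᵥ (TV ν z ρ *ᵥ ρ)) := hop _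
    have k4 : hs ((K * (1 - P)) * TV ν z ρ * τ) ≤ h ^ 2 * W ^ 2 * t2 * (w ⬝ᵥ w) := by
      have hopt : OpB τᵀ W := by rw [hτs]; exact hop
      refine (hs_mul_right hopt _).trans ?_
      calc W ^ 2 * hs ((K * (1 - P)) * TV ν z ρ)
          ≤ W ^ 2 * (h ^ 2 * hs (TV ν z ρ)) :=
            mul_le_mul_of_nonneg_left (hs_mul_left hPh _) (sq_nonneg W)
        _ ≤ W ^ 2 * (h ^ 2 * (t2 * (w ⬝ᵥ w))) := by
            refine mul_le_mul_of_nonneg_left (mul_le_mul_of_nonneg_left ?_ (sq_nonneg h))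
              (sq_nonneg W)
            exact hT2.trans (mul_le_mul_of_nonneg_left hρw (by linarith))
        _ = _ := by ring
    have j2 := mul_le_mul_of_nonneg_left k2 (one_div_nonneg.mpr ht)
    have j3 := mul_le_mul_of_nonneg_left k3 (one_div_nonneg.mpr hn)
    have j4 := mul_le_mul_of_nonneg_left k4 (one_div_nonneg.mpr (mul_nonneg ht hn))
    linarith

theorem c2_nz0 {ν : Y → ℝ} {z : Y → ι → ℝ} (b : ι → ℝ) (t n : ℝ) : Nz2 ν z b 0 t n = 0 := by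
  unfold Nz2
  simp only [Matrix.zero_mulVec, TV_zero, Matrix.mulVec_zero, dotProduct_zero,
    Matrix.zero_mul, Matrix.mul_zero]
  have : hs (0 : Matrix ι ι ℝ) = 0 := by
    unfold hs
    simp
  rw [this]
  ring

theorem c2_nzpos {ν : Y → ℝ} {z : Y → ι → ℝ} (b : ι → ℝ) (K : Matrix ι ι ℝ) {t n : ℝ}
    (ht : 0 ≤ t) (hn : 0 ≤ n) : 0 ≤ Nz2 ν z b K t n := by
  unfold Nz2
  simp only []
  have a1 := dot_self_nonneg (K *ᵥ (TV ν z (TV ν z b *ᵥ b) *ᵥ (K *ᵥ b)))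
  have a2 := dot_self_nonneg (TV ν z b *ᵥ (TV ν z (K *ᵥ b) *ᵥ (K *ᵥ b)))
  have a3 := hs_nonneg (K * TV ν z (K *ᵥ b) * TV ν z b)
  have b1 := mul_nonneg (one_div_nonneg.mpr ht) a1
  have b2 := mul_nonneg (one_div_nonneg.mpr hn) a2
  have b3 := mul_nonneg (one_div_nonneg.mpr (mul_nonneg ht hn)) a3
  have b4 := sq_nonneg ((K *ᵥ b) ⬝ᵥ (TV ν z (TV ν z b *ᵥ b) *ᵥ (K *ᵥ b)))
  linarith

/-- the full signal of one row -/
theorem c2_signal {μ : X → ℝ} {ν : Y → ℝ} {M : X → Y → ℝ} {U : ℝ} {V : ι → ℝ}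
    {be : X → ι → ℝ} {z : Y → ι → ℝ} {t2 kap rho del2 w0 q2 : ℝ}
    (hc : Core μ ν M U V be z t2 kap rho del2 w0 q2) (x : X) {b : ι → ℝ} {m W : ℝ}
    (hb1 : b ⬝ᵥ b = 1) (hbe : be x = m • b) (hW : 0 ≤ W) (hop : OpB (TV ν z b) W) :
    |∑ y, ν y * ((M x y - U) * ((TV ν z b *ᵥ z y) ⬝ᵥ (TV ν z b *ᵥ (TV ν z b *ᵥ z y)))) -
      m * hs (TV ν z b * TV ν z b) -
      ∑ y, ν y * ((cmean μ M y - U) *
        ((TV ν z b *ᵥ z y) ⬝ᵥ (TV ν z b *ᵥ (TV ν z b *ᵥ z y))))| ≤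
      W ^ 2 * t2 * Real.sqrt (∑ y, ν y * (ctd μ ν M x y - be x ⬝ᵥ z y) ^ 2) +
        W * t2 * |rmean ν M x - U| := by
  have ht2 := hc.t2_one
  have hν := hc.prY
  set τ := TV ν z b with hτ
  have hτs : τᵀ = τ := TV_transpose b
  set R := τ * (τ * τ) with hR
  set ω : Y → ℝ := fun y => ctd μ ν M x y - be x ⬝ᵥ z y with hω
  have hhsτ : hs τ ≤ t2 := by
    have := hc.hs_TV b
    rwa [hb1, mul_one] at this
  have hw : ∀ y, (τ *ᵥ z y) ⬝ᵥ (τ *ᵥ (τ *ᵥ z y)) = z y ⬝ᵥ (R *ᵥ z y) := by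
    intro y
    rw [← dot_symm_mulVec hτs, hR, ← Matrix.mulVec_mulVec, ← Matrix.mulVec_mulVec]
  simp only [hw]
  have hsumctd : ∑ y, ν y * ctd μ ν M x y = 0 := by
    have h1 : ∑ y, ν y * cmean μ M y = em μ ν M := by
      unfold LR2.em cmean
      simp only [Finset.mul_sum]
      rw [Finset.sum_comm]
      exact Finset.sum_congr rfl fun x' _ => Finset.sum_congr rfl fun y _ => by ring
    have h2 : ∀ y, ν y * ctd μ ν M x y = ν y * M x y - rmean ν M x * ν y -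
        ν y * cmean μ M y + em μ ν M * ν y := by
      intro y
      unfold ctd
      ring
    simp only [h2, Finset.sum_add_distrib, Finset.sum_sub_distrib, ← Finset.mul_sum, hν.sum, h1]
    have h3 : ∑ y, ν y * M x y = rmean ν M x := rfl
    rw [h3]
    ring
  have hsumz : ∀ u : ι → ℝ, ∑ y, ν y * (u ⬝ᵥ z y) = 0 := by
    intro u
    unfold dotProduct
    simp only [Finset.mul_sum]
    rw [Finset.sum_comm]
    refine Finset.sum_eq_zero fun i _ => ?_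
    have := hc.cen i
    calc ∑ y, ν y * (u i * z y i) = u i * (∑ y, ν y * z y i) := by
          rw [Finset.mul_sum]
          exact Finset.sum_congr rfl fun y _ => by ring
      _ = 0 := by rw [this, mul_zero]
  have hsumω : ∑ y, ν y * ω y = 0 := by
    simp only [hω, mul_sub, Finset.sum_sub_distrib, hsumctd, hsumz, sub_zero]
  -- decomposition
  have hdec : ∑ y, ν y * ((M x y - U) * (z y ⬝ᵥ (R *ᵥ z y))) =
      m * hs (τ * τ) + (R * TH ν z ω).trace +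
      (rmean ν M x - U) * ∑ y, ν y * (z y ⬝ᵥ (R *ᵥ z y)) +
      ∑ y, ν y * ((cmean μ M y - U) * (z y ⬝ᵥ (R *ᵥ z y))) := by
    have h1 : ∀ y, ν y * ((M x y - U) * (z y ⬝ᵥ (R *ᵥ z y))) =
        ν y * ((be x ⬝ᵥ z y) * (z y ⬝ᵥ (R *ᵥ z y))) + ν y * (ω y * (z y ⬝ᵥ (R *ᵥ z y))) +
        (rmean ν M x - U) * (ν y * (z y ⬝ᵥ (R *ᵥ z y))) +
        ν y * ((cmean μ M y - U) * (z y ⬝ᵥ (R *ᵥ z y))) := by
      intro y
      have : M x y = ω y + be x ⬝ᵥ z y + rmean ν M x + cmean μ M y - U := by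
        simp only [hω, ctd, hc.mean]
        ring
      rw [this]
      ring
    simp only [h1, Finset.sum_add_distrib, ← Finset.mul_sum]
    rw [← c2_trace_TH, ← c2_trace_TH]
    have h2 : (TH ν z fun y => be x ⬝ᵥ z y) = m • τ := by
      show TV ν z (be x) = m • τ
      rw [hbe, TV_smul]
    have h3 : (R * (m • τ)).trace = m * hs (τ * τ) := by
      have h4 : (τ * τ)ᵀ = τ * τ := by rw [Matrix.transpose_mul, hτs]
      rw [hs_symm h4, Matrix.mul_smul, Matrix.trace_smul, smul_eq_mul, hR]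
      congr 2
      simp only [Matrix.mul_assoc]
    rw [h2, h3]
  rw [hdec]
  -- the bounds
  have hhs2 : hs (τ * τ) ≤ W ^ 2 * t2 :=
    (hs_mul_left hop τ).trans (mul_le_mul_of_nonneg_left hhsτ (sq_nonneg W))
  have hhs3 : hs R ≤ W ^ 2 * (W ^ 2 * t2) :=
    (hs_mul_left hop (τ * τ)).trans (mul_le_mul_of_nonneg_left hhs2 (sq_nonneg W))
  have hω0 : 0 ≤ ∑ y, ν y * ω y ^ 2 :=
    Finset.sum_nonneg fun y _ => mul_nonneg (hν.nonneg y) (sq_nonneg _)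
  have hTω : hs (TH ν z ω) ≤ t2 * ∑ y, ν y * ω y ^ 2 := by
    have := hc.f1 ω
    rwa [hsumω, zero_smul, sub_zero] at this
  have htr1 : |(R * TH ν z ω).trace| ≤ W ^ 2 * t2 * Real.sqrt (∑ y, ν y * ω y ^ 2) := by
    refine (Real.abs_le_sqrt ((c2_trace_sq R _).trans (mul_le_mul hhs3 hTω (hs_nonneg _)
      (by positivity)))).trans (le_of_eq ?_)
    have h1 : W ^ 2 * (W ^ 2 * t2) * (t2 * ∑ y, ν y * ω y ^ 2) =
        (W ^ 2 * t2) ^ 2 * ∑ y, ν y * ω y ^ 2 := by ring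
    rw [h1, Real.sqrt_mul (sq_nonneg _), Real.sqrt_sq (by positivity)]
  have htr2 : |∑ y, ν y * (z y ⬝ᵥ (R *ᵥ z y))| ≤ W * t2 := by
    refine (Finset.abs_sum_le_sum_abs _ _).trans ?_
    have h1 : ∀ y ∈ (Finset.univ : Finset Y), |ν y * (z y ⬝ᵥ (R *ᵥ z y))| ≤
        W * (ν y * ((τ *ᵥ z y) ⬝ᵥ (τ *ᵥ z y))) := by
      intro y _
      rw [abs_mul, abs_of_nonneg (hν.nonneg y), ← hw]
      have h2 := bil_of_opB hop (τ *ᵥ z y) (τ *ᵥ z y)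
      have h3 := dot_self_nonneg (τ *ᵥ z y)
      have h4 : |(τ *ᵥ z y) ⬝ᵥ (τ *ᵥ (τ *ᵥ z y))| ≤ W * ((τ *ᵥ z y) ⬝ᵥ (τ *ᵥ z y)) := by
        refine abs_le_of_sq_le_sq (h2.trans (le_of_eq (by ring))) (by positivity)
      calc ν y * |(τ *ᵥ z y) ⬝ᵥ (τ *ᵥ (τ *ᵥ z y))|
          ≤ ν y * (W * ((τ *ᵥ z y) ⬝ᵥ (τ *ᵥ z y))) :=
            mul_le_mul_of_nonneg_left h4 (hν.nonneg y)
        _ = _ := by ring
    refine (Finset.sum_le_sum h1).trans ?_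
    rw [← Finset.mul_sum, hc.iso.avg_sq τ]
    exact mul_le_mul_of_nonneg_left hhsτ hW
  have e1 : m * hs (τ * τ) + (R * TH ν z ω).trace +
      (rmean ν M x - U) * ∑ y, ν y * (z y ⬝ᵥ (R *ᵥ z y)) +
      ∑ y, ν y * ((cmean μ M y - U) * (z y ⬝ᵥ (R *ᵥ z y))) - m * hs (τ * τ) -
      ∑ y, ν y * ((cmean μ M y - U) * (z y ⬝ᵥ (R *ᵥ z y))) =
      (R * TH ν z ω).trace + (rmean ν M x - U) * ∑ y, ν y * (z y ⬝ᵥ (R *ᵥ z y)) := by ring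
  rw [e1]
  refine (abs_add_le _ _).trans (add_le_add htr1 ?_)
  rw [abs_mul, mul_comm]
  exact mul_le_mul_of_nonneg_right htr2 (abs_nonneg _)

end C2a

section C2b

variable {X Y ι : Type} [Fintype X] [Fintype Y] [Inhabited Y] [Fintype ι] [DecidableEq ι]
  [Nonempty ι]
variable {μ : X → ℝ} {ν : Y → ℝ} {M : X → Y → ℝ} {U : ℝ} {V : ι → ℝ} {be : X → ι → ℝ}
    {z : Y → ι → ℝ} {t2 kap rho del2 w0 q2 : ℝ}

theorem c2_pr (hc : Core μ ν M U V be z t2 kap rho del2 w0 q2) (hU0 : 0 ≤ U)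
    {A B : ℝ} (hA : 0 ≤ A) (hB : 0 ≤ B) (hU : UPR μ ν M U A B)
    {m0 δ W : ℝ} (hm0 : 0 < m0) (hm1 : m0 ≤ 1) (hW : 5 / m0 ≤ W) (hδ : 0 ≤ δ) (hδ1 : δ ≤ 1)
    (hd : t2 * δ ^ 2 ≤ W ^ 2) (Xg : Finset X) (b : X → ι → ℝ)
    (hbx : ∀ x, b x = (Real.sqrt (be x ⬝ᵥ be x))⁻¹ • be x)
    (h1 : ∀ x ∈ Xg, m0 ^ 2 ≤ be x ⬝ᵥ be x)
    (h2 : ∀ x ∈ Xg, (TV ν z (be x) *ᵥ be x + (2 * U) • be x) ⬝ᵥ
      (TV ν z (be x) *ᵥ be x + (2 * U) • be x) ≤ (m0 ^ 2 * δ) ^ 2)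
    (h3 : ∀ x ∈ Xg, t2 * ∑ y, ν y * (ctd μ ν M x y - be x ⬝ᵥ z y) ^ 2 ≤ 1)
    (Yg : Finset Y) {pb : ℝ} (hpb : 1 - pb ≤ ∑ y ∈ Yg, ν y) {h : ℝ} (hh : 0 < h)
    (P : Y → Matrix ι ι ℝ) (hP : ∀ y, IsProj (P y)) (hPK : ∀ y, P y * TV ν z (z y) =
      TV ν z (z y) * P y) (hPh : ∀ y, OpB (TV ν z (z y) * (1 - P y)) h)
    {t n m : ℕ} (ht : 1 ≤ t) (hn : 1 ≤ n) (hm : 1 ≤ m) {Δ Q N n1 n2 w4 : ℝ}
    (hΔ : Real.sqrt (12 * ((t + n) * Real.log (Fintype.card ι) + 2) / m) +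
        (2 * (A + B * (m * Real.log 2 + 2)) + (U - em μ ν M)) ≤ Δ)
    (hQ : Q = ∑ x ∈ Xg, μ x * hs (TV ν z (b x) * TV ν z (b x)))
    (hn1 : ∑ x ∈ Xg, ∑ y ∈ Yg, μ x * ν y *
      ((TV ν z ((TV ν z (z y) * (1 - P y)) *ᵥ b x) *ᵥ ((TV ν z (z y) * (1 - P y)) *ᵥ b x)) ⬝ᵥ
       (TV ν z ((TV ν z (z y) * (1 - P y)) *ᵥ b x) *ᵥ ((TV ν z (z y) * (1 - P y)) *ᵥ b x))) ≤ n1)
    (hn2 : ∑ x ∈ Xg, ∑ y ∈ Yg, μ x * ν y *
      ((TV ν z (b x) *ᵥ ((TV ν z (z y) * P y) *ᵥ b x)) ⬝ᵥ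
       (TV ν z (b x) *ᵥ ((TV ν z (z y) * P y) *ᵥ b x))) ≤ n2)
    (hw4 : w4 = 2 * (2 * t2 + 2 * rho * W ^ 2) ^ 2 + 20 * (rho * W ^ 2) ^ 2)
    (hN : N = 4 * W ^ 4 * w4 + 1 / t * (h ^ 2 * (4 * W ^ 4) * t2) + 1 / n * (W ^ 2 * n1) +
      1 / (t * n) * (h ^ 2 * W ^ 2 * t2 * t2)) :
    2 * U * Q ≤ 4 * W ^ 3 * Real.sqrt (t2 * n2) + 4 * δ * Real.sqrt n1 +
      W ^ 3 * t2 * (4 * Real.sqrt (q2 + w0)) + 8 * W ^ 2 * Real.sqrt (w4 * (q2 + pb)) +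
      Real.sqrt (8 * Δ * N) := by
  classical
  have hμ := hc.prX
  have hν := hc.prY
  have hμ0 := hμ.nonneg
  have hν0 := hν.nonneg
  have hU1 : U ≤ 1 := by
    rw [← hc.mean]
    exact c2_em_le hμ hν hc.sgn
  have hUa : |U| ≤ 1 := by rw [abs_of_nonneg hU0]; exact hU1
  have hMU : ∀ x y, |M x y - U| ≤ 2 := by
    intro x y
    rw [abs_le]
    rcases hc.sgn x y with h | h
    · rw [h]; constructor <;> linarith
    · rw [h]; constructor <;> linarith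
  have hW5 : 5 ≤ W := by
    refine le_trans ?_ hW
    rw [le_div_iff₀ hm0]
    linarith
  have hW1 : 1 ≤ W := by linarith
  have hW0 : 0 ≤ W := by linarith
  have ht' : (1 : ℝ) ≤ t := by exact_mod_cast ht
  have hn' : (1 : ℝ) ≤ n := by exact_mod_cast hn
  have ht0 : (0 : ℝ) ≤ t := by linarith
  have hn0 : (0 : ℝ) ≤ n := by linarith
  have ht2 := hc.t2_one
  have hrho := hc.rho_nonneg
  have hrow : ∀ x ∈ Xg, ∃ m η : ℝ, m0 ≤ m ∧ m * η = 2 * U ∧ 0 ≤ η ∧ η ≤ W ∧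
      b x ⬝ᵥ b x = 1 ∧ OpB (TV ν z (b x)) W ∧ be x = m • b x ∧
      (TV ν z (b x) *ᵥ b x + η • b x) ⬝ᵥ (TV ν z (b x) *ᵥ b x + η • b x) ≤ δ ^ 2 := by
    intro x hx
    have := c2_row (ν := ν) (z := z) hm0 hW hU0 hU1 (h1 x hx) (c2_op hc x (h3 x hx)) (h2 x hx)
    rwa [← hbx x] at this
  choose! mf ηf hrow' using hrow
  have hb1 : ∀ x ∈ Xg, b x ⬝ᵥ b x = 1 := fun x hx => (hrow' x hx).2.2.2.2.1
  have hop : ∀ x ∈ Xg, OpB (TV ν z (b x)) W := fun x hx => (hrow' x hx).2.2.2.2.2.1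
  have hη0 : ∀ x ∈ Xg, 0 ≤ ηf x := fun x hx => (hrow' x hx).2.2.1
  have hηW : ∀ x ∈ Xg, ηf x ≤ W := fun x hx => (hrow' x hx).2.2.2.1
  have hmη : ∀ x ∈ Xg, mf x * ηf x = 2 * U := fun x hx => (hrow' x hx).2.1
  have hbe : ∀ x ∈ Xg, be x = mf x • b x := fun x hx => (hrow' x hx).2.2.2.2.2.2.1
  have he : ∀ x ∈ Xg, (TV ν z (b x) *ᵥ b x + ηf x • b x) ⬝ᵥ
      (TV ν z (b x) *ᵥ b x + ηf x • b x) ≤ δ ^ 2 := fun x hx => (hrow' x hx).2.2.2.2.2.2.2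
  -- notation
  set w : X → Y → ι → ℝ := fun x y => TV ν z (b x) *ᵥ z y with hwdef
  set rr : X → Y → ι → ℝ := fun x y => (TV ν z (z y) * (1 - P y)) *ᵥ b x with hrdef
  set ll : X → Y → ι → ℝ := fun x y => (TV ν z (z y) * P y) *ᵥ b x with hldef
  set ee : X → ι → ℝ := fun x => TV ν z (b x) *ᵥ b x + ηf x • b x with hedef
  set G : X → Y → ℝ := fun x y => w x y ⬝ᵥ (TV ν z (b x) *ᵥ w x y) with hGdef
  have hcell : ∀ x ∈ Xg, ∀ y, rr x y ⬝ᵥ rr x y ≤ w x y ⬝ᵥ w x y ∧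
      ((2 : ℝ) • rr x y + ll x y) ⬝ᵥ ((2 : ℝ) • rr x y + ll x y) ≤ 8 * (w x y ⬝ᵥ w x y) ∧
      rr x y ⬝ᵥ (TV ν z (TV ν z (b x) *ᵥ b x) *ᵥ rr x y) = -(ηf x * G x y) +
        ηf x * (((2 : ℝ) • rr x y + ll x y) ⬝ᵥ (TV ν z (b x) *ᵥ ll x y)) +
        ee x ⬝ᵥ (TV ν z (rr x y) *ᵥ rr x y) ∧
      Nz2 ν z (b x) (TV ν z (z y) * (1 - P y)) t n ≤ 4 * W ^ 4 * (w x y ⬝ᵥ w x y) ^ 2 +
        1 / t * (h ^ 2 * (4 * W ^ 4) * (w x y ⬝ᵥ w x y)) +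
        1 / n * (W ^ 2 * ((TV ν z (rr x y) *ᵥ rr x y) ⬝ᵥ (TV ν z (rr x y) *ᵥ rr x y))) +
        1 / (t * n) * (h ^ 2 * W ^ 2 * t2 * (w x y ⬝ᵥ w x y)) := by
    intro x hx y
    have := c2_cell ht2 hc.hs_TV hW1 (hop x hx) (hη0 x hx) (hηW x hx) (he x hx) hd (hP y)
      (hPK y) (hPh y) ht0 hn0
    rw [TV_comm (z y) (b x)] at this
    exact this
  -- moments of w
  have hhs : ∀ x ∈ Xg, hs (TV ν z (b x)) ≤ t2 := by
    intro x hx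
    have := hc.hs_TV (b x)
    rwa [hb1 x hx, mul_one] at this
  have ha2 : ∀ x ∈ Xg, ∑ y, ν y * (w x y ⬝ᵥ w x y) ≤ t2 := by
    intro x hx
    rw [hc.iso.avg_sq]
    exact hhs x hx
  have ha4 : ∀ x ∈ Xg, ∑ y, ν y * (w x y ⬝ᵥ w x y) ^ 2 ≤ w4 := by
    intro x hx
    refine (hc.w4 (TV_transpose (b x)) (hop x hx)).trans ?_
    rw [hw4]
    have k1 : 2 * hs (TV ν z (b x)) + 2 * rho * W ^ 2 ≤ 2 * t2 + 2 * rho * W ^ 2 := by
      linarith [hhs x hx]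
    have k2 : 0 ≤ 2 * hs (TV ν z (b x)) + 2 * rho * W ^ 2 := by
      have := hs_nonneg (TV ν z (b x))
      positivity
    have k3 := pow_le_pow_left₀ k2 k1 2
    linarith
  have hw40 : 0 ≤ w4 := by rw [hw4]; positivity
  -- the noise
  have hn10 : 0 ≤ n1 := by
    refine le_trans ?_ hn1
    exact Finset.sum_nonneg fun x _ => Finset.sum_nonneg fun y _ =>
      mul_nonneg (mul_nonneg (hμ0 x) (hν0 y)) (dot_self_nonneg _)
  have hn20 : 0 ≤ n2 := by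
    refine le_trans ?_ hn2
    exact Finset.sum_nonneg fun x _ => Finset.sum_nonneg fun y _ =>
      mul_nonneg (mul_nonneg (hμ0 x) (hν0 y)) (dot_self_nonneg _)
  have hnoise : ∑ x ∈ Xg, ∑ y ∈ Yg, μ x * ν y *
      Nz2 ν z (b x) (TV ν z (z y) * (1 - P y)) t n ≤ N := by
    have k1 := c2_le2 (μ := μ) (ν := ν) hμ0 hν0 Xg Yg
      (f := fun x y => Nz2 ν z (b x) (TV ν z (z y) * (1 - P y)) t n)
      (g := fun x y => (4 * W ^ 4 * (w x y ⬝ᵥ w x y) ^ 2 +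
        (1 / t * (h ^ 2 * (4 * W ^ 4)) + 1 / (t * n) * (h ^ 2 * W ^ 2 * t2)) *
          (w x y ⬝ᵥ w x y)) + 1 / n * (W ^ 2 * ((TV ν z (rr x y) *ᵥ rr x y) ⬝ᵥ
            (TV ν z (rr x y) *ᵥ rr x y))))
      (fun x hx y _ => ((hcell x hx y).2.2.2).trans (le_of_eq (by ring)))
    refine k1.trans ?_
    simp only [mul_add, Finset.sum_add_distrib]
    have k2 := c2_rows hμ hν Xg Yg (f := fun x y => (4 * W ^ 4 * (w x y ⬝ᵥ w x y) ^ 2 +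
        (1 / t * (h ^ 2 * (4 * W ^ 4)) + 1 / (t * n) * (h ^ 2 * W ^ 2 * t2)) *
          (w x y ⬝ᵥ w x y)))
      (fun x _ y => by
        have := dot_self_nonneg (w x y)
        positivity)
      (c := 4 * W ^ 4 * w4 + (1 / t * (h ^ 2 * (4 * W ^ 4)) + 1 / (t * n) *
        (h ^ 2 * W ^ 2 * t2)) * t2) (by positivity)
      (fun x hx => by
        have e1 : ∑ y, ν y * (4 * W ^ 4 * (w x y ⬝ᵥ w x y) ^ 2 +
            (1 / t * (h ^ 2 * (4 * W ^ 4)) + 1 / (t * n) * (h ^ 2 * W ^ 2 * t2)) *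
              (w x y ⬝ᵥ w x y)) = 4 * W ^ 4 * ∑ y, ν y * (w x y ⬝ᵥ w x y) ^ 2 +
            (1 / t * (h ^ 2 * (4 * W ^ 4)) + 1 / (t * n) * (h ^ 2 * W ^ 2 * t2)) *
              ∑ y, ν y * (w x y ⬝ᵥ w x y) := by
          rw [Finset.mul_sum, Finset.mul_sum, ← Finset.sum_add_distrib]
          exact Finset.sum_congr rfl fun y _ => by ring
        rw [e1]
        exact add_le_add (mul_le_mul_of_nonneg_left (ha4 x hx) (by positivity))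
          (mul_le_mul_of_nonneg_left (ha2 x hx) (by positivity)))
    have k3 : ∑ x ∈ Xg, ∑ y ∈ Yg, μ x * ν y * (1 / n * (W ^ 2 *
        ((TV ν z (rr x y) *ᵥ rr x y) ⬝ᵥ (TV ν z (rr x y) *ᵥ rr x y)))) ≤
        1 / n * (W ^ 2 * n1) := by
      have e1 : ∑ x ∈ Xg, ∑ y ∈ Yg, μ x * ν y * (1 / n * (W ^ 2 *
          ((TV ν z (rr x y) *ᵥ rr x y) ⬝ᵥ (TV ν z (rr x y) *ᵥ rr x y)))) =
          1 / n * (W ^ 2 * ∑ x ∈ Xg, ∑ y ∈ Yg, μ x * ν y *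
            ((TV ν z (rr x y) *ᵥ rr x y) ⬝ᵥ (TV ν z (rr x y) *ᵥ rr x y))) := by
        simp only [Finset.mul_sum]
        exact Finset.sum_congr rfl fun x _ => Finset.sum_congr rfl fun y _ => by ring
      rw [e1]
      exact mul_le_mul_of_nonneg_left (mul_le_mul_of_nonneg_left hn1 (sq_nonneg W))
        (by positivity)
    simp only [mul_add, Finset.sum_add_distrib] at k2
    rw [hN]
    linarith
  have hNz0 : 0 ≤ ∑ x ∈ Xg, ∑ y ∈ Yg, μ x * ν y *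
      Nz2 ν z (b x) (TV ν z (z y) * (1 - P y)) t n :=
    Finset.sum_nonneg fun x _ => Finset.sum_nonneg fun y _ =>
      mul_nonneg (mul_nonneg (hμ0 x) (hν0 y)) (c2_nzpos _ _ ht0 hn0)
  have hNN : 0 ≤ N := hNz0.trans hnoise
  -- the decoding lemma
  set K' : Y → Matrix ι ι ℝ := fun y => if y ∈ Yg then TV ν z (z y) * (1 - P y) else 0 with hK'
  have hK's : ∀ y, (K' y)ᵀ = K' y := by
    intro y
    simp only [hK']
    split_ifs with hy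
    · rw [Matrix.transpose_mul, Matrix.transpose_sub, Matrix.transpose_one, (hP y).1,
        TV_transpose, sub_mul, one_mul, mul_sub, mul_one, hPK y]
    · exact Matrix.transpose_zero
  set S : ℝ := ∑ x ∈ Xg, ∑ y ∈ Yg, μ x * ν y * ((M x y - U) *
    (rr x y ⬝ᵥ (TV ν z (TV ν z (b x) *ᵥ b x) *ᵥ rr x y))) with hS
  have hdec := dec2 (z := z) hμ hν hc.sgn hUa hA hB hU Xg b hb1 K' hK's ht hn hm
  have e1 : ∑ x ∈ Xg, ∑ y, μ x * ν y * ((M x y - U) *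
      ((K' y *ᵥ b x) ⬝ᵥ (TV ν z (TV ν z (b x) *ᵥ b x) *ᵥ (K' y *ᵥ b x)))) = S := by
    rw [hS]
    refine Finset.sum_congr rfl fun x _ => ?_
    rw [← Finset.sum_subset (Finset.subset_univ Yg)]
    · refine Finset.sum_congr rfl fun y hy => ?_
      simp only [hK', if_pos hy, hrdef]
    · intro y _ hy
      simp only [hK', if_neg hy, Matrix.zero_mulVec, zero_dotProduct, mul_zero]
  have e2 : ∑ x ∈ Xg, ∑ y, μ x * ν y * Nz2 ν z (b x) (K' y) t n =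
      ∑ x ∈ Xg, ∑ y ∈ Yg, μ x * ν y * Nz2 ν z (b x) (TV ν z (z y) * (1 - P y)) t n := by
    refine Finset.sum_congr rfl fun x _ => ?_
    rw [← Finset.sum_subset (Finset.subset_univ Yg)]
    · refine Finset.sum_congr rfl fun y hy => ?_
      simp only [hK', if_pos hy]
    · intro y _ hy
      simp only [hK', if_neg hy, c2_nz0, mul_zero]
  rw [e1, e2] at hdec
  have hΔ0 : 0 ≤ Real.sqrt (12 * ((t + n) * Real.log (Fintype.card ι) + 2) / m) +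
        (2 * (A + B * (m * Real.log 2 + 2)) + (U - em μ ν M)) := by
    rw [hc.mean, sub_self, add_zero]
    have : 0 ≤ Real.log 2 := Real.log_nonneg (by norm_num)
    positivity
  have hSabs : |S| ≤ Real.sqrt (8 * Δ * N) := by
    refine Real.abs_le_sqrt ?_
    refine hdec.trans ?_
    refine mul_le_mul ?_ hnoise hNz0 (by linarith)
    linarith
  -- the decomposition of the signal
  set Tg : ℝ := ∑ x ∈ Xg, ∑ y ∈ Yg, μ x * ν y * ((M x y - U) * (ηf x * G x y)) with hTg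
  set E2 : ℝ := ∑ x ∈ Xg, ∑ y ∈ Yg, μ x * ν y * ((M x y - U) * (ηf x *
    (((2 : ℝ) • rr x y + ll x y) ⬝ᵥ (TV ν z (b x) *ᵥ ll x y)))) with hE2
  set E3 : ℝ := ∑ x ∈ Xg, ∑ y ∈ Yg, μ x * ν y * ((M x y - U) *
    (ee x ⬝ᵥ (TV ν z (rr x y) *ᵥ rr x y))) with hE3
  have hTS : Tg = -S + E2 + E3 := by
    rw [hTg, hS, hE2, hE3]
    rw [← Finset.sum_neg_distrib, ← Finset.sum_add_distrib, ← Finset.sum_add_distrib]
    refine Finset.sum_congr rfl fun x hx => ?_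
    rw [← Finset.sum_neg_distrib, ← Finset.sum_add_distrib, ← Finset.sum_add_distrib]
    refine Finset.sum_congr rfl fun y _ => ?_
    rw [(hcell x hx y).2.2.1]
    ring
  have hE2b : |E2| ≤ 4 * W ^ 3 * Real.sqrt (t2 * n2) := by
    have k1 := c2_abs2 (μ := μ) (ν := ν) hμ0 hν0 Xg Yg
      (f := fun x y => (M x y - U) * (ηf x *
        (((2 : ℝ) • rr x y + ll x y) ⬝ᵥ (TV ν z (b x) *ᵥ ll x y))))
      (g := fun x y => (2 * W * Real.sqrt (((2 : ℝ) • rr x y + ll x y) ⬝ᵥ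
        ((2 : ℝ) • rr x y + ll x y))) * Real.sqrt ((TV ν z (b x) *ᵥ ll x y) ⬝ᵥ
          (TV ν z (b x) *ᵥ ll x y)))
      (fun x hx y _ => by
        have k2 := c2_absdot ((2 : ℝ) • rr x y + ll x y) (TV ν z (b x) *ᵥ ll x y)
        have k3 := Real.sqrt_nonneg (((2 : ℝ) • rr x y + ll x y) ⬝ᵥ
          ((2 : ℝ) • rr x y + ll x y))
        have k4 := Real.sqrt_nonneg ((TV ν z (b x) *ᵥ ll x y) ⬝ᵥ (TV ν z (b x) *ᵥ ll x y))
        rw [abs_mul, abs_mul, abs_of_nonneg (hη0 x hx)]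
        have k5 : ηf x * |((2 : ℝ) • rr x y + ll x y) ⬝ᵥ (TV ν z (b x) *ᵥ ll x y)| ≤
            W * (Real.sqrt (((2 : ℝ) • rr x y + ll x y) ⬝ᵥ ((2 : ℝ) • rr x y + ll x y)) *
              Real.sqrt ((TV ν z (b x) *ᵥ ll x y) ⬝ᵥ (TV ν z (b x) *ᵥ ll x y))) :=
          mul_le_mul (hηW x hx) k2 (abs_nonneg _) hW0
        refine (mul_le_mul (hMU x y) k5 (mul_nonneg (hη0 x hx) (abs_nonneg _))
          (by norm_num)).trans (le_of_eq (by ring)))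
    refine k1.trans ((le_abs_self _).trans ?_)
    have k2 : ∑ x ∈ Xg, ∑ y ∈ Yg, μ x * ν y * (2 * W * Real.sqrt (((2 : ℝ) • rr x y +
        ll x y) ⬝ᵥ ((2 : ℝ) • rr x y + ll x y))) ^ 2 ≤ 32 * W ^ 2 * t2 := by
      refine (c2_le2 (μ := μ) (ν := ν) hμ0 hν0 Xg Yg (g := fun x y =>
        32 * W ^ 2 * (w x y ⬝ᵥ w x y)) (fun x hx y _ => ?_)).trans ?_
      · rw [mul_pow, Real.sq_sqrt (dot_self_nonneg _)]
        have k3 := mul_le_mul_of_nonneg_left (hcell x hx y).2.1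
          (by positivity : (0 : ℝ) ≤ (2 * W) ^ 2)
        refine k3.trans (le_of_eq (by ring))
      · refine c2_rows hμ hν Xg Yg (fun x _ y => by
          have := dot_self_nonneg (w x y)
          positivity) (by positivity) (fun x hx => ?_)
        have e3 : ∑ y, ν y * (32 * W ^ 2 * (w x y ⬝ᵥ w x y)) =
            32 * W ^ 2 * ∑ y, ν y * (w x y ⬝ᵥ w x y) := by
          rw [Finset.mul_sum]
          exact Finset.sum_congr rfl fun y _ => by ring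
        rw [e3]
        exact mul_le_mul_of_nonneg_left (ha2 x hx) (by positivity)
    have k3 : ∑ x ∈ Xg, ∑ y ∈ Yg, μ x * ν y * (Real.sqrt ((TV ν z (b x) *ᵥ ll x y) ⬝ᵥ
        (TV ν z (b x) *ᵥ ll x y))) ^ 2 ≤ n2 := by
      refine le_trans (le_of_eq ?_) hn2
      refine Finset.sum_congr rfl fun x _ => Finset.sum_congr rfl fun y _ => ?_
      rw [Real.sq_sqrt (dot_self_nonneg _)]
    refine (c2_cs2 hμ0 hν0 Xg Yg k2 k3).trans ?_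
    refine Real.sqrt_le_iff.mpr ⟨by positivity, ?_⟩
    have k4 : 0 ≤ t2 * n2 := by positivity
    rw [mul_pow, Real.sq_sqrt k4]
    have k5 : 32 * W ^ 2 ≤ (4 * W ^ 3) ^ 2 := by
      have k6 : (1 : ℝ) ≤ W ^ 2 := one_le_pow₀ hW1
      have k7 : (2 : ℝ) ≤ W ^ 4 := by
        exact c2_w4 hW5
      calc 32 * W ^ 2 = 16 * W ^ 2 * 2 := by ring
        _ ≤ 16 * W ^ 2 * W ^ 4 := mul_le_mul_of_nonneg_left k7 (by positivity)
        _ = (4 * W ^ 3) ^ 2 := by ring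
    calc 32 * W ^ 2 * t2 * n2 = 32 * W ^ 2 * (t2 * n2) := by ring
      _ ≤ (4 * W ^ 3) ^ 2 * (t2 * n2) := mul_le_mul_of_nonneg_right k5 k4
  have hE3b : |E3| ≤ 4 * δ * Real.sqrt n1 := by
    have k1 := c2_abs2 (μ := μ) (ν := ν) hμ0 hν0 Xg Yg
      (f := fun x y => (M x y - U) * (ee x ⬝ᵥ (TV ν z (rr x y) *ᵥ rr x y)))
      (g := fun x y => (2 * δ) * Real.sqrt ((TV ν z (rr x y) *ᵥ rr x y) ⬝ᵥ
          (TV ν z (rr x y) *ᵥ rr x y)))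
      (fun x hx y _ => by
        have k2 := c2_absdot (ee x) (TV ν z (rr x y) *ᵥ rr x y)
        have k3 : Real.sqrt (ee x ⬝ᵥ ee x) ≤ δ := Real.sqrt_le_iff.mpr ⟨hδ, he x hx⟩
        have k4 := Real.sqrt_nonneg ((TV ν z (rr x y) *ᵥ rr x y) ⬝ᵥ
          (TV ν z (rr x y) *ᵥ rr x y))
        rw [abs_mul]
        have k5 := k2.trans (mul_le_mul_of_nonneg_right k3 k4)
        refine (mul_le_mul (hMU x y) k5 (abs_nonneg _) (by norm_num)).trans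
          (le_of_eq (by ring)))
    refine k1.trans ((le_abs_self _).trans ?_)
    have k2 : ∑ x ∈ Xg, ∑ y ∈ Yg, μ x * ν y * (2 * δ) ^ 2 ≤ (2 * δ) ^ 2 := by
      refine c2_rows hμ hν Xg Yg (f := fun _ _ => (2 * δ) ^ 2) (fun x _ y => sq_nonneg _)
        (sq_nonneg _) (fun x hx => ?_)
      rw [← Finset.sum_mul, hν.sum, one_mul]
    have k3 : ∑ x ∈ Xg, ∑ y ∈ Yg, μ x * ν y * (Real.sqrt ((TV ν z (rr x y) *ᵥ rr x y) ⬝ᵥ
        (TV ν z (rr x y) *ᵥ rr x y))) ^ 2 ≤ n1 := by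
      refine le_trans (le_of_eq ?_) hn1
      refine Finset.sum_congr rfl fun x _ => Finset.sum_congr rfl fun y _ => ?_
      rw [Real.sq_sqrt (dot_self_nonneg _)]
    refine (c2_cs2 hμ0 hν0 Xg Yg (f := fun _ _ => 2 * δ) k2 k3).trans ?_
    rw [Real.sqrt_mul (sq_nonneg _), Real.sqrt_sq (by positivity)]
    have := Real.sqrt_nonneg n1
    linarith only [mul_nonneg hδ this]
  -- bounds for G
  have hG2 : ∀ x ∈ Xg, ∀ y, (ηf x * G x y) ^ 2 ≤ W ^ 4 * (w x y ⬝ᵥ w x y) ^ 2 := by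
    intro x hx y
    have k1 := bil_of_opB (hop x hx) (w x y) (w x y)
    have k2 : ηf x ^ 2 ≤ W ^ 2 := pow_le_pow_left₀ (hη0 x hx) (hηW x hx) 2
    rw [mul_pow]
    calc ηf x ^ 2 * G x y ^ 2 ≤ W ^ 2 * (W ^ 2 * ((w x y ⬝ᵥ w x y) * (w x y ⬝ᵥ w x y))) :=
          mul_le_mul k2 k1 (sq_nonneg _) (sq_nonneg _)
      _ = _ := by ring
  have hGrow : ∀ t : Finset Y, ∑ x ∈ Xg, ∑ y ∈ t, μ x * ν y * (ηf x * G x y) ^ 2 ≤
      W ^ 4 * w4 := by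
    intro t
    refine (c2_le2 (μ := μ) (ν := ν) hμ0 hν0 Xg t (fun x hx y _ => hG2 x hx y)).trans ?_
    refine c2_rows hμ hν Xg t (fun x _ y => by positivity) (by positivity) (fun x hx => ?_)
    have e3 : ∑ y, ν y * (W ^ 4 * (w x y ⬝ᵥ w x y) ^ 2) =
        W ^ 4 * ∑ y, ν y * (w x y ⬝ᵥ w x y) ^ 2 := by
      rw [Finset.mul_sum]
      exact Finset.sum_congr rfl fun y _ => by ring
    rw [e3]
    exact mul_le_mul_of_nonneg_left (ha4 x hx) (by positivity)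
  -- bad columns
  have hYg1 : ∑ y ∈ Yg, ν y ≤ 1 := by
    rw [← hν.sum]
    exact Finset.sum_le_sum_of_subset_of_nonneg (Finset.subset_univ _) fun y _ _ => hν0 y
  have hpb0 : 0 ≤ pb := by linarith
  set Tb : ℝ := ∑ x ∈ Xg, ∑ y ∈ Ygᶜ, μ x * ν y * ((M x y - U) * (ηf x * G x y)) with hTb
  have hTbb : |Tb| ≤ 2 * W ^ 2 * Real.sqrt (pb * w4) := by
    have k2 : ∑ x ∈ Xg, ∑ y ∈ Ygᶜ, μ x * ν y * (M x y - U) ^ 2 ≤ 4 * pb := by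
      refine (c2_le2 (μ := μ) (ν := ν) hμ0 hν0 Xg Ygᶜ (g := fun _ _ => 4)
        (fun x hx y _ => ?_)).trans ?_
      · have := hMU x y
        rw [← sq_abs]
        calc |M x y - U| ^ 2 ≤ 2 ^ 2 := pow_le_pow_left₀ (abs_nonneg _) this 2
          _ = 4 := by norm_num
      · have k3 : ∑ y ∈ Ygᶜ, ν y ≤ pb := by
          have := Finset.sum_add_sum_compl Yg ν
          rw [hν.sum] at this
          linarith
        have k4 : ∀ x ∈ Xg, ∑ y ∈ Ygᶜ, μ x * ν y * 4 ≤ μ x * (4 * pb) := by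
          intro x _
          rw [← Finset.sum_mul, ← Finset.mul_sum]
          have := mul_le_mul_of_nonneg_left k3 (hμ0 x)
          linarith
        refine (Finset.sum_le_sum k4).trans ?_
        rw [← Finset.sum_mul]
        refine mul_le_of_le_one_left (by positivity) ?_
        rw [← hμ.sum]
        exact Finset.sum_le_sum_of_subset_of_nonneg (Finset.subset_univ _) fun x _ _ => hμ0 x
    refine (c2_cs2 hμ0 hν0 Xg Ygᶜ (f := fun x y => M x y - U) k2 (hGrow Ygᶜ)).trans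
      (le_of_eq ?_)
    have : 4 * pb * (W ^ 4 * w4) = (2 * W ^ 2) ^ 2 * (pb * w4) := by ring
    rw [this, Real.sqrt_mul (sq_nonneg _), Real.sqrt_sq (by positivity)]
  -- column means
  have hq0 : 0 ≤ q2 := (Finset.sum_nonneg fun y _ =>
    mul_nonneg (hν0 y) (sq_nonneg _)).trans hc.col
  have hω0 : ∀ x, 0 ≤ ∑ y, ν y * (ctd μ ν M x y - be x ⬝ᵥ z y) ^ 2 := fun x =>
    Finset.sum_nonneg fun y _ => mul_nonneg (hν0 y) (sq_nonneg _)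
  have hw00 : 0 ≤ w0 := (Finset.sum_nonneg fun x _ => mul_nonneg (hμ0 x) (hω0 x)).trans hc.weak
  set Tc : ℝ := ∑ x ∈ Xg, ∑ y, μ x * ν y * ((cmean μ M y - U) * (ηf x * G x y)) with hTc
  have hTcb : |Tc| ≤ W ^ 2 * Real.sqrt (q2 * w4) := by
    have k2 : ∑ x ∈ Xg, ∑ y, μ x * ν y * (cmean μ M y - U) ^ 2 ≤ q2 :=
      c2_rows hμ hν Xg Finset.univ (f := fun _ y => (cmean μ M y - U) ^ 2)
        (fun x _ y => sq_nonneg _) hq0 (fun x _ => hc.col)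
    refine (c2_cs2 hμ0 hν0 Xg Finset.univ (f := fun _ y => cmean μ M y - U) k2
      (hGrow Finset.univ)).trans (le_of_eq ?_)
    have : q2 * (W ^ 4 * w4) = (W ^ 2) ^ 2 * (q2 * w4) := by ring
    rw [this, Real.sqrt_mul (sq_nonneg _), Real.sqrt_sq (by positivity)]
  -- the rows
  have hXg1 : ∑ x ∈ Xg, μ x * (1 : ℝ) ^ 2 ≤ 1 := by
    simp only [one_pow, mul_one]
    rw [← hμ.sum]
    exact Finset.sum_le_sum_of_subset_of_nonneg (Finset.subset_univ _) fun x _ _ => hμ0 x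
  have hsω : ∑ x ∈ Xg, μ x * (1 * Real.sqrt (∑ y, ν y *
      (ctd μ ν M x y - be x ⬝ᵥ z y) ^ 2)) ≤ Real.sqrt w0 := by
    have k1 : ∑ x ∈ Xg, μ x * Real.sqrt (∑ y, ν y *
        (ctd μ ν M x y - be x ⬝ᵥ z y) ^ 2) ^ 2 ≤ w0 := by
      refine le_trans ?_ hc.weak
      have e3 : ∀ x ∈ Xg, μ x * Real.sqrt (∑ y, ν y *
          (ctd μ ν M x y - be x ⬝ᵥ z y) ^ 2) ^ 2 =
          μ x * ∑ y, ν y * (ctd μ ν M x y - be x ⬝ᵥ z y) ^ 2 := by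
        intro x _
        rw [Real.sq_sqrt (hω0 x)]
      rw [Finset.sum_congr rfl e3]
      exact Finset.sum_le_sum_of_subset_of_nonneg (Finset.subset_univ _)
        fun x _ _ => mul_nonneg (hμ0 x) (hω0 x)
    have k2 := c2_cs Xg (wt := μ) (f := fun _ => 1) hμ0 hXg1 k1
    rw [one_mul] at k2
    exact (le_abs_self _).trans k2
  have hsr : ∑ x ∈ Xg, μ x * (1 * |rmean ν M x - U|) ≤ Real.sqrt q2 := by
    have k1 : ∑ x ∈ Xg, μ x * |rmean ν M x - U| ^ 2 ≤ q2 := by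
      refine le_trans ?_ hc.row
      simp only [sq_abs]
      exact Finset.sum_le_sum_of_subset_of_nonneg (Finset.subset_univ _)
        fun x _ _ => mul_nonneg (hμ0 x) (sq_nonneg _)
    have k2 := c2_cs Xg (wt := μ) (f := fun _ => 1) hμ0 hXg1 k1
    rw [one_mul] at k2
    exact (le_abs_self _).trans k2
  have hrows : ∀ x ∈ Xg, 2 * U * (μ x * hs (TV ν z (b x) * TV ν z (b x))) ≤
      ∑ y, μ x * ν y * ((M x y - U) * (ηf x * G x y)) -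
      ∑ y, μ x * ν y * ((cmean μ M y - U) * (ηf x * G x y)) +
      W ^ 3 * t2 * (μ x * (1 * Real.sqrt (∑ y, ν y *
        (ctd μ ν M x y - be x ⬝ᵥ z y) ^ 2))) +
      W ^ 2 * t2 * (μ x * (1 * |rmean ν M x - U|)) := by
    intro x hx
    have k1 := c2_signal hc x (hb1 x hx) (hbe x hx) hW0 (hop x hx)
    have k2 := (abs_le.mp k1).1
    have e3 : ∑ y, μ x * ν y * ((M x y - U) * (ηf x * G x y)) =
        μ x * ηf x * ∑ y, ν y * ((M x y - U) * ((TV ν z (b x) *ᵥ z y) ⬝ᵥ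
          (TV ν z (b x) *ᵥ (TV ν z (b x) *ᵥ z y)))) := by
      rw [Finset.mul_sum]
      refine Finset.sum_congr rfl fun y _ => ?_
      simp only [hGdef, hwdef]
      ring
    have e4 : ∑ y, μ x * ν y * ((cmean μ M y - U) * (ηf x * G x y)) =
        μ x * ηf x * ∑ y, ν y * ((cmean μ M y - U) * ((TV ν z (b x) *ᵥ z y) ⬝ᵥ
          (TV ν z (b x) *ᵥ (TV ν z (b x) *ᵥ z y)))) := by
      rw [Finset.mul_sum]
      refine Finset.sum_congr rfl fun y _ => ?_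
      simp only [hGdef, hwdef]
      ring
    rw [e3, e4]
    set a1 := ∑ y, ν y * ((M x y - U) * ((TV ν z (b x) *ᵥ z y) ⬝ᵥ
          (TV ν z (b x) *ᵥ (TV ν z (b x) *ᵥ z y))))
    set a2 := ∑ y, ν y * ((cmean μ M y - U) * ((TV ν z (b x) *ᵥ z y) ⬝ᵥ
          (TV ν z (b x) *ᵥ (TV ν z (b x) *ᵥ z y))))
    set a3 := Real.sqrt (∑ y, ν y * (ctd μ ν M x y - be x ⬝ᵥ z y) ^ 2)
    set a4 := |rmean ν M x - U|
    set a5 := hs (TV ν z (b x) * TV ν z (b x))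
    have ha3 : 0 ≤ a3 := Real.sqrt_nonneg _
    have ha4' : 0 ≤ a4 := abs_nonneg _
    have k3 : 0 ≤ μ x * ηf x := mul_nonneg (hμ0 x) (hη0 x hx)
    have k4 := mul_le_mul_of_nonneg_left k2 k3
    have k5 : μ x * ηf x * (mf x * a5) = 2 * U * (μ x * a5) := by
      rw [← hmη x hx]
      ring
    have k6 : μ x * ηf x * (W ^ 2 * t2 * a3 + W * t2 * a4) ≤
        W ^ 3 * t2 * (μ x * (1 * a3)) + W ^ 2 * t2 * (μ x * (1 * a4)) := by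
      have k7 : 0 ≤ W ^ 2 * t2 * a3 + W * t2 * a4 := by positivity
      calc μ x * ηf x * (W ^ 2 * t2 * a3 + W * t2 * a4)
          ≤ μ x * W * (W ^ 2 * t2 * a3 + W * t2 * a4) :=
            mul_le_mul_of_nonneg_right (mul_le_mul_of_nonneg_left (hηW x hx) (hμ0 x)) k7
        _ = _ := by ring
    have k8 : μ x * ηf x * (a1 - mf x * a5 - a2) =
        μ x * ηf x * a1 - μ x * ηf x * (mf x * a5) - μ x * ηf x * a2 := by ring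
    rw [k8, k5, mul_neg] at k4
    linarith
  have hTf : ∑ x ∈ Xg, ∑ y, μ x * ν y * ((M x y - U) * (ηf x * G x y)) = Tg + Tb := by
    rw [hTg, hTb, ← Finset.sum_add_distrib]
    exact Finset.sum_congr rfl fun x _ => (Finset.sum_add_sum_compl Yg _).symm
  have hsum := Finset.sum_le_sum hrows
  rw [← Finset.mul_sum, Finset.sum_add_distrib, Finset.sum_add_distrib, Finset.sum_sub_distrib,
    ← Finset.mul_sum, ← Finset.mul_sum, ← hQ, hTf, ← hTc] at hsum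
  have f1 : W ^ 3 * t2 * ∑ x ∈ Xg, μ x * (1 * Real.sqrt (∑ y, ν y *
      (ctd μ ν M x y - be x ⬝ᵥ z y) ^ 2)) ≤ W ^ 3 * t2 * (2 * Real.sqrt (q2 + w0)) := by
    refine mul_le_mul_of_nonneg_left (hsω.trans ?_) (by positivity)
    have k1 : Real.sqrt w0 ≤ Real.sqrt (q2 + w0) := Real.sqrt_le_sqrt (by linarith)
    have k2 := Real.sqrt_nonneg (q2 + w0)
    linarith
  have f2 : W ^ 2 * t2 * ∑ x ∈ Xg, μ x * (1 * |rmean ν M x - U|) ≤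
      W ^ 3 * t2 * (2 * Real.sqrt (q2 + w0)) := by
    have k1 : Real.sqrt q2 ≤ Real.sqrt (q2 + w0) := Real.sqrt_le_sqrt (by linarith)
    have k2 := Real.sqrt_nonneg (q2 + w0)
    have k3 : W ^ 2 * t2 ≤ W ^ 3 * t2 :=
      mul_le_mul_of_nonneg_right (pow_le_pow_right₀ hW1 (by norm_num)) (by linarith)
    calc W ^ 2 * t2 * ∑ x ∈ Xg, μ x * (1 * |rmean ν M x - U|)
        ≤ W ^ 2 * t2 * Real.sqrt q2 := mul_le_mul_of_nonneg_left hsr (by positivity)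
      _ ≤ W ^ 3 * t2 * (2 * Real.sqrt (q2 + w0)) :=
          mul_le_mul k3 (by linarith) (Real.sqrt_nonneg _) (by positivity)
  have f3 : 2 * W ^ 2 * Real.sqrt (pb * w4) ≤
      2 * W ^ 2 * Real.sqrt (w4 * (q2 + pb)) := by
    refine mul_le_mul_of_nonneg_left (Real.sqrt_le_sqrt ?_) (by positivity)
    linarith only [mul_nonneg hw40 hq0]
  have f4 : W ^ 2 * Real.sqrt (q2 * w4) ≤ W ^ 2 * Real.sqrt (w4 * (q2 + pb)) := by
    refine mul_le_mul_of_nonneg_left (Real.sqrt_le_sqrt ?_) (by positivity)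
    linarith only [mul_nonneg hw40 hpb0]
  have f5 : 0 ≤ W ^ 2 * Real.sqrt (w4 * (q2 + pb)) := by positivity
  have g1 := (abs_le.mp hSabs).1
  have g2 := (abs_le.mp hE2b).2
  have g3 := (abs_le.mp hE3b).2
  have g4 := (abs_le.mp hTbb).2
  have g5 := (abs_le.mp hTcb).1
  rw [hTS] at hsum
  linarith

end C2b

alias c2 := c2_pr

end Pool.Agent.LRC
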