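import Pool.Agent.Lib_helper39.LR2.T4
import Pool.Agent.Lib_helper59.LR2.P4
import Pool.Agent.Lib_helper59.LR2.PR
import Pool.Agent.Lib_helper94.LRC.Defs
import Pool.Agent.Lib_helper94.LRF.TAIL

/-!
# Block CORE: the facts `Core` for the extremal state
-/

set_option autoImplicit false
set_option linter.unusedSectionVars false

open Finset Matrix

namespace Pool.Agent.LRC

open Pool.Agent.LR2

section Gen

variable {X Y : Type} [Fintype X] [Fintype Y] [Nonempty X] [Nonempty Y] {n : ℕ}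
variable {M : X → Y → ℝ} {μ₀ : X → ℝ} {ν₀ : Y → ℝ} {lam Lam : ℝ} {m : ℕ}
  {α : X → ℝ} {β : Y → ℝ} {F : Fac X Y n}

/-- the relative entropy of a density with bounded logarithm -/
theorem core_kl_le {p μ : X → ℝ} (hp : IsPr p) (hμ : IsPr μ) {t : ℝ}
    (hle : ∀ x, p x ≤ Real.exp t * μ x) : KL p μ ≤ t := by
  have h1 : KL p μ ≤ ∑ x, p x * t := by
    unfold KL
    apply Finset.sum_le_sum
    intro x _
    rcases eq_or_lt_of_le (hp.nonneg x) with h | h
    · rw [← h, zero_mul, zero_mul]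
    · apply mul_le_mul_of_nonneg_left _ h.le
      have h2 : 0 < μ x := by
        rcases eq_or_lt_of_le (hμ.nonneg x) with h3 | h3
        · exfalso
          have := hle x
          rw [← h3, mul_zero] at this
          linarith
        · exact h3
      rw [← Real.log_exp t]
      apply Real.log_le_log (div_pos h h2)
      rw [div_le_iff₀ h2]
      exact hle x
  rw [← Finset.sum_mul, hp.sum, one_mul] at h1
  exact h1

/-- lower bound of the means -/
theorem core_mean_low (h : St M μ₀ ν₀ lam Lam (m + 1) α β F) {p : X → ℝ} (hp : IsPr p)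
    {t : ℝ} (ht : 0 ≤ t) (hle : ∀ x, p x ≤ Real.exp t * α x) {θ : ℝ} (hθ : 0 < θ)
    (hθ1 : θ ≤ 1 / 2) :
    em α β M ≤ em p β M + 2 * θ * Lam * F.cost (m + 1) α β / (m + 3) +
      lam / θ * (3 * t + 7) := by
  have h1 := h.low_row hp (ac_of_le hp hle)
  have e : ∀ r : X → ℝ, ∑ x, r x * phiR M Lam (m + 1) β F x =
      em r β M - Lam / (m + 3) * ∑ x, r x * nsq (F.a x) := by
    intro r
    rw [em_row, Finset.mul_sum, ← Finset.sum_sub_distrib]
    apply Finset.sum_congr rfl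
    intro x _
    unfold phiR
    push_cast
    ring
  rw [e, e] at h1
  have hn : ∀ v : Fin n → ℝ, v ⬝ᵥ (((-θ) • (1 : Matrix (Fin n) (Fin n) ℝ)) *ᵥ v) =
      -(θ * nsq v) := by
    intro v
    rw [Matrix.smul_mulVec, Matrix.one_mulVec, dotProduct_smul, smul_eq_mul, ← nsq_eq]
    ring
  have h2 := h.T_gen (G := (-θ) • (1 : Matrix (Fin n) (Fin n) ℝ))
    (by rw [Matrix.transpose_smul, Matrix.transpose_one]) (by
      intro v
      rw [hn, abs_neg, abs_of_nonneg (mul_nonneg hθ.le (nsq_nonneg v)), ← nsq_eq]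
      exact mul_le_mul_of_nonneg_right hθ1 (nsq_nonneg v)) hp
    (κ := t + 2) (h.kap_sup_pr hp hle)
  simp only [hn] at h2
  have h2' : ∀ v : Fin n → ℝ, (((-θ) • (1 : Matrix (Fin n) (Fin n) ℝ)) *ᵥ v) ⬝ᵥ
      (((-θ) • (1 : Matrix (Fin n) (Fin n) ℝ)) *ᵥ v) = θ ^ 2 * nsq v := by
    intro v
    rw [Matrix.smul_mulVec, Matrix.one_mulVec, dotProduct_smul, smul_dotProduct, smul_eq_mul,
      smul_eq_mul, ← nsq_eq]
    ring
  simp only [h2'] at h2
  have h4 := nsq_center hp F.a
  have e1 : ∑ x, p x * -(θ * nsq (F.a x - vmean p F.a)) =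
      -(θ * ∑ x, p x * nsq (F.a x - vmean p F.a)) := by
    rw [Finset.mul_sum, ← Finset.sum_neg_distrib]
    apply Finset.sum_congr rfl
    intro x _
    ring
  have e2 : ∑ x, α x * -(θ * nsq (F.a x)) = -(θ * ∑ x, α x * nsq (F.a x)) := by
    rw [Finset.mul_sum, ← Finset.sum_neg_distrib]
    apply Finset.sum_congr rfl
    intro x _
    ring
  have e3 : ∑ x, α x * (θ ^ 2 * nsq (F.a x)) = θ ^ 2 * ∑ x, α x * nsq (F.a x) := by
    rw [Finset.mul_sum]
    apply Finset.sum_congr rfl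
    intro x _
    ring
  rw [e1, e2, e3, ← h.cost_eq.2.2] at h2
  rw [← h.cost_eq.2.2] at h1
  set S := F.cost (m + 1) α β with hS
  set A := ∑ x, p x * nsq (F.a x) with hA
  have h6 := nsq_nonneg (vmean p F.a)
  have h5 : θ * (S - A) ≤ 2 * θ ^ 2 * S + (m + 3) * (lam / Lam) * (t + 2) := by
    rw [h4] at h2
    have : 0 ≤ θ * nsq (vmean p F.a) := mul_nonneg hθ.le h6
    nlinarith
  have hm3 : (0 : ℝ) < m + 3 := by positivity
  have h7 : Lam / (m + 3) * (S - A) ≤ 2 * θ * Lam * S / (m + 3) + lam / θ * (t + 2) := by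
    have hL := h.hLam
    have h8 : Lam / (m + 3) * (S - A) = Lam / ((m + 3) * θ) * (θ * (S - A)) := by
      field_simp
    have h9 : Lam / ((m + 3) * θ) * (2 * θ ^ 2 * S + (m + 3) * (lam / Lam) * (t + 2)) =
        2 * θ * Lam * S / (m + 3) + lam / θ * (t + 2) := by
      field_simp
    rw [h8, ← h9]
    exact mul_le_mul_of_nonneg_left h5 (by positivity)
  have h10 : lam ≤ lam / θ := by
    rw [le_div_iff₀ hθ]
    nlinarith [h.hlam]
  have h11 : lam / θ * (t + 2) + lam ≤ lam / θ * (3 * t + 7) := by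
    have : 0 ≤ lam / θ * t := mul_nonneg (div_nonneg h.hlam.le hθ.le) ht
    nlinarith [h.hlam]
  nlinarith

/-- both means -/
theorem core_mean_abs (h : St M μ₀ ν₀ lam Lam (m + 1) α β F) {p : X → ℝ} (hp : IsPr p)
    {t : ℝ} (ht : 0 ≤ t) (hle : ∀ x, p x ≤ Real.exp t * α x) {θ : ℝ} (hθ : 0 < θ)
    (hθ1 : θ ≤ 1 / 2) :
    |em p β M - em α β M| ≤ (2 * θ * Lam * F.cost (m + 1) α β / (m + 3) + 7 * (lam / θ)) +
      3 * (lam / θ) * t := by
  have h1 := core_mean_low h hp ht hle hθ hθ1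
  have h2 := h.mean_row hp (ac_of_le hp hle) hθ hθ1
  have h3 := core_kl_le hp h.hα hle
  have h4 : lam / θ * (3 * KL p α + 7) ≤ lam / θ * (3 * t + 7) :=
    mul_le_mul_of_nonneg_left (by linarith) (div_nonneg h.hlam.le hθ.le)
  rw [abs_le]
  constructor <;> nlinarith

/-- restriction to a set: `w log (1 / w) ≤ 1` -/
theorem core_restrict {q μ : X → ℝ} (hq : IsPr q) {s : ℝ} (hs : 0 ≤ s)
    (hle : ∀ x, q x ≤ Real.exp s * μ x) {f : X → ℝ} {a b : ℝ} (hb : 0 ≤ b)
    (h : ∀ p : X → ℝ, IsPr p → ∀ t : ℝ, 0 ≤ t → (∀ x, p x ≤ Real.exp t * μ x) →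
      ∑ x, p x * f x ≤ a + b * t) (A : Finset X) :
    ∑ x ∈ A, q x * f x ≤ (∑ x ∈ A, q x) * (a + b * s) + b / 2 := by
  classical
  set w := ∑ x ∈ A, q x with hw
  have hw0 : 0 ≤ w := Finset.sum_nonneg fun x _ => hq.nonneg x
  have hw1 : w ≤ 1 := by
    rw [hw, ← hq.sum]
    exact Finset.sum_le_sum_of_subset_of_nonneg (Finset.subset_univ A)
      (fun y _ _ => hq.nonneg y)
  rcases hw0.eq_or_lt with h0 | h0
  · have h1 : ∀ x ∈ A, q x = 0 := by
      have := (Finset.sum_eq_zero_iff_of_nonneg (fun x _ => hq.nonneg x)).1 (hw ▸ h0.symm)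
      exact this
    rw [Finset.sum_eq_zero (fun x hx => by rw [h1 x hx, zero_mul]), ← h0]
    linarith
  · have hp : IsPr (fun y => if y ∈ A then q y / w else 0) := by
      refine ⟨fun y => ?_, ?_⟩
      · split_ifs
        · exact div_nonneg (hq.nonneg y) h0.le
        · exact le_rfl
      · rw [Finset.sum_ite_mem, Finset.univ_inter, ← Finset.sum_div, ← hw]
        exact div_self h0.ne'
    have hlog : 0 ≤ -Real.log w := neg_nonneg.mpr (Real.log_nonpos hw0 hw1)
    have h1 := h _ hp (s + -Real.log w) (by linarith) (by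
      intro y
      have he : Real.exp (s + -Real.log w) = Real.exp s * w⁻¹ := by
        rw [Real.exp_add, Real.exp_neg, Real.exp_log h0]
      rw [he]
      have h2 := hle y
      have h3 : 0 ≤ w⁻¹ := inv_nonneg.mpr hw0
      split_ifs
      · rw [div_eq_inv_mul]
        nlinarith
      · have h4 := hq.nonneg y
        have : 0 ≤ w⁻¹ * (Real.exp s * μ y) := mul_nonneg h3 (h4.trans h2)
        nlinarith)
    have h2 : ∑ y, (if y ∈ A then q y / w else 0) * f y = (∑ y ∈ A, q y * f y) / w := by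
      simp only [ite_mul, zero_mul]
      rw [Finset.sum_ite_mem, Finset.univ_inter, Finset.sum_div]
      exact Finset.sum_congr rfl fun y _ => by ring
    rw [h2, div_le_iff₀ h0] at h1
    have h5 : -(w * Real.log w) ≤ 1 / 2 := by
      have h6 := Real.add_one_le_exp (-Real.log w - 1)
      have h7 : Real.exp (-Real.log w - 1) = w⁻¹ * Real.exp (-1) := by
        rw [sub_eq_add_neg, Real.exp_add, Real.exp_neg, Real.exp_log h0]
      rw [h7] at h6
      have h8 : Real.exp (-1) ≤ 1 / 2 := by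
        have := Real.exp_one_gt_d9
        rw [Real.exp_neg, inv_le_comm₀ (Real.exp_pos 1) (by norm_num)]
        norm_num
        linarith
      have h9 : w * (-Real.log w) ≤ Real.exp (-1) := by
        have h10 := mul_le_mul_of_nonneg_left h6 hw0
        have h11 : w * (w⁻¹ * Real.exp (-1)) = Real.exp (-1) := by
          field_simp
        rw [h11] at h10
        linarith
      linarith
    have h12 := mul_le_mul_of_nonneg_left h5 hb
    nlinarith

/-- the second moment of the row means -/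
theorem core_row (h : St M μ₀ ν₀ lam Lam (m + 1) α β F) {θ : ℝ} (hθ : 0 < θ)
    (hθ1 : θ ≤ 1 / 2) :
    ∑ x, α x * (rmean β M x - em α β M) ^ 2 ≤
      600 * ((θ * Lam * F.cost (m + 1) α β) ^ 2 + (lam / θ) ^ 2) := by
  classical
  set U := em α β M with hU
  set S := F.cost (m + 1) α β with hS
  have hS0 : 0 ≤ S := by
    rw [hS, h.cost_eq.2.2]
    exact Finset.sum_nonneg fun x _ => mul_nonneg (h.hα.nonneg x) (nsq_nonneg _)
  have hL := h.hLam
  have hl := h.hlam
  have hm3 : (0 : ℝ) < m + 3 := by positivity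
  set a := 2 * θ * Lam * S / (m + 3) + 7 * (lam / θ) with ha
  set b := 3 * (lam / θ) with hb
  have hlt : 0 < lam / θ := div_pos hl hθ
  have ha0 : 0 ≤ a := by positivity
  have hb0 : 0 ≤ b := by positivity
  have hmean : ∀ p : X → ℝ, IsPr p → ∑ x, p x * (rmean β M x - U) = em p β M - U := by
    intro p hp
    simp only [mul_sub]
    rw [Finset.sum_sub_distrib, ← Finset.sum_mul, hp.sum, one_mul, em_row]
  have key : ∀ q : X → ℝ, IsPr q → ∀ s : ℝ, 0 ≤ s → (∀ y, q y ≤ Real.exp s * α y) →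
      ∑ y, q y * |rmean β M y - U| ≤ (a + b) + b * s := by
    intro q hq s hs hle
    have h1 := core_restrict (f := fun x => rmean β M x - U) hq hs hle hb0 (by
      intro p hp t ht hle'
      rw [hmean p hp]
      have := core_mean_abs h hp ht hle' hθ hθ1
      exact (le_abs_self _).trans this) (Finset.univ.filter fun x => 0 ≤ rmean β M x - U)
    have h2 := core_restrict (f := fun x => -(rmean β M x - U)) hq hs hle hb0 (by
      intro p hp t ht hle'
      simp only [mul_neg, Finset.sum_neg_distrib]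
      rw [hmean p hp]
      have := core_mean_abs h hp ht hle' hθ hθ1
      exact (neg_le_abs _).trans this) (Finset.univ.filter fun x => ¬ 0 ≤ rmean β M x - U)
    have e1 : ∑ y, q y * |rmean β M y - U| =
        ∑ x ∈ Finset.univ.filter (fun x => 0 ≤ rmean β M x - U), q x * (rmean β M x - U) +
        ∑ x ∈ Finset.univ.filter (fun x => ¬ 0 ≤ rmean β M x - U),
          q x * -(rmean β M x - U) := by
      rw [← Finset.sum_filter_add_sum_filter_not Finset.univ (fun x => 0 ≤ rmean β M x - U)]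
      congr 1
      · apply Finset.sum_congr rfl
        intro x hx
        rw [abs_of_nonneg (Finset.mem_filter.1 hx).2]
      · apply Finset.sum_congr rfl
        intro x hx
        rw [abs_of_neg (not_le.1 (Finset.mem_filter.1 hx).2)]
    have e2 : ∑ x ∈ Finset.univ.filter (fun x => 0 ≤ rmean β M x - U), q x +
        ∑ x ∈ Finset.univ.filter (fun x => ¬ 0 ≤ rmean β M x - U), q x = 1 := by
      rw [Finset.sum_filter_add_sum_filter_not, hq.sum]
    rw [e1]
    set w1 := ∑ x ∈ Finset.univ.filter (fun x => 0 ≤ rmean β M x - U), q x with hw1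
    set w2 := ∑ x ∈ Finset.univ.filter (fun x => ¬ 0 ≤ rmean β M x - U), q x with hw2
    have e3 : w1 * (a + b * s) + w2 * (a + b * s) = a + b * s := by
      rw [← add_mul, e2, one_mul]
    linarith
  have h1 := tail_sq_pr h.hα (V := fun x => |rmean β M x - U|) (fun _ => abs_nonneg _)
    (add_nonneg ha0 hb0) hb0 key
  simp only [sq_abs] at h1
  refine h1.trans ?_
  have h2 : a + b ≤ 2 * (θ * Lam * S) / 3 + 10 * (lam / θ) := by
    have h3 : 2 * θ * Lam * S / (m + 3) ≤ 2 * (θ * Lam * S) / 3 := by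
      rw [show 2 * θ * Lam * S = 2 * (θ * Lam * S) by ring]
      apply div_le_div_of_nonneg_left (by positivity) (by norm_num)
      have : (0 : ℝ) ≤ m := Nat.cast_nonneg m
      linarith
    rw [ha, hb]
    linarith
  set u := θ * Lam * S with hu
  have hu0 : 0 ≤ u := by positivity
  set v := lam / θ with hv
  have h4 : (a + b) ^ 2 ≤ (2 * u / 3 + 10 * v) ^ 2 :=
    pow_le_pow_left₀ (add_nonneg ha0 hb0) h2 2
  have h5 : b ^ 2 = 9 * v ^ 2 := by rw [hb]; ring
  rw [h5]
  nlinarith [sq_nonneg (u - v)]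

end Gen

section Main

variable {X Y : Type} [Fintype X] [Fintype Y] [Nonempty X] [Nonempty Y] {n : ℕ}
variable {M : X → Y → ℝ} {μ₀ : X → ℝ} {ν₀ : Y → ℝ} {lam Lam : ℝ} {m : ℕ}
  {α : X → ℝ} {β : Y → ℝ} {F : Fac X Y n} {e g : Fin n → Fin n → ℝ} {s : Fin n → ℝ}

theorem core_zm2_apply {ι : Type} [Fintype ι] [DecidableEq ι] (p : X → ℝ) (z : X → ι → ℝ)
    (i j : ι) : zm2 p z i j = ∑ x, p x * (z x i * z x j) := by
  unfold zm2
  rw [Matrix.sum_apply]
  rfl

/-- (F1) from (T4) -/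
theorem core_f1 {ι : Type} [Fintype ι] [DecidableEq ι] {ν : Y → ℝ} (hν : IsPr ν)
    {z : Y → ι → ℝ} {t2 : ℝ}
    (h : ∀ g : Y → ℝ, ∑ y, ν y * g y ^ 2 ≤ 1 →
      ∑ i, ∑ j, (zm2 (fun y => ν y * g y) z - (∑ y, ν y * g y) • (1 : Matrix ι ι ℝ)) i j ^ 2 ≤ t2) :
    F1 ν z t2 := by
  intro f
  set N := ∑ y, ν y * f y ^ 2 with hN
  have hN0 : 0 ≤ N := Finset.sum_nonneg fun y _ => mul_nonneg (hν.nonneg y) (sq_nonneg _)
  have hTH : ∀ c : ℝ, ∀ f' : Y → ℝ, (∀ y, ν y * f y = c * (ν y * f' y)) →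
      TH ν z f - (∑ y, ν y * f y) • (1 : Matrix ι ι ℝ) =
        c • (zm2 (fun y => ν y * f' y) z - (∑ y, ν y * f' y) • (1 : Matrix ι ι ℝ)) := by
    intro c f' hf
    have e1 : ∑ y, ν y * f y = c * ∑ y, ν y * f' y := by
      rw [Finset.mul_sum]
      exact Finset.sum_congr rfl fun y _ => hf y
    ext i j
    rw [Matrix.sub_apply, Matrix.smul_apply, Matrix.smul_apply, Matrix.sub_apply,
      Matrix.smul_apply, core_zm2_apply, e1]
    have e2 : TH ν z f i j = c * ∑ y, ν y * f' y * (z y i * z y j) := by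
      show ∑ y, ν y * (f y * (z y i * z y j)) = _
      rw [Finset.mul_sum]
      apply Finset.sum_congr rfl
      intro y _
      linear_combination (z y i * z y j) * hf y
    rw [e2]
    simp only [smul_eq_mul]
    ring
  rcases hN0.eq_or_lt with h0 | h0
  · have h1 : ∀ y, ν y * f y = 0 * (ν y * f y) := by
      intro y
      have h2 := (Finset.sum_eq_zero_iff_of_nonneg
        (fun y _ => mul_nonneg (hν.nonneg y) (sq_nonneg (f y)))).1 (hN ▸ h0.symm) y
        (Finset.mem_univ y)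
      rw [zero_mul]
      rcases mul_eq_zero.1 h2 with h3 | h3
      · rw [h3, zero_mul]
      · rw [pow_eq_zero_iff (by norm_num)] at h3
        rw [h3, mul_zero]
    rw [hTH 0 f h1, zero_smul, ← h0, mul_zero]
    apply le_of_eq
    unfold hs
    simp
  · have hsq := Real.sqrt_pos.2 h0
    have h1 : ∀ y, ν y * f y = Real.sqrt N * (ν y * (f y / Real.sqrt N)) := by
      intro y
      field_simp
    rw [hTH (Real.sqrt N) (fun y => f y / Real.sqrt N) h1, hs_smul, Real.sq_sqrt hN0, mul_comm]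
    apply mul_le_mul_of_nonneg_right _ hN0
    apply h
    simp only [div_pow, Real.sq_sqrt hN0]
    rw [show ∑ y, ν y * (f y ^ 2 / N) = N / N by
      rw [hN, Finset.sum_div]
      exact Finset.sum_congr rfl fun y _ => by ring]
    rw [div_self h0.ne']

/-- `FT` from (T1) with a diagonal scaling -/
theorem core_ft {ι : Type} [Fintype ι] [DecidableEq ι] [Nonempty ι] {μ : X → ℝ}
    {z : X → ι → ℝ} {be : X → ι → ℝ} {d : ι → ℝ} {ρ D : ℝ} (hD : 0 ≤ D)
    (hd : ∀ i, d i ^ 2 ≤ D) (hbe : ∀ x, μ x ≠ 0 → ∀ i, be x i = d i * z x i)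
    (h : ∀ p : X → ℝ, IsPr p → ∀ s : ℝ, 0 ≤ s → (∀ x, p x ≤ Real.exp s * μ x) →
      ∀ (K : Matrix ι ι ℝ) (c : ℝ), 0 < c → Kᵀ = K → (∀ w, 0 ≤ w ⬝ᵥ (K *ᵥ w)) →
        (∀ w, w ⬝ᵥ (K *ᵥ w) ≤ c * (w ⬝ᵥ w)) →
          ∑ x, p x * (z x ⬝ᵥ (K *ᵥ z x)) ≤ 2 * K.trace + 2 * c * ρ * (s + 2)) :
    FT μ be (fun i => d i ^ 2) (2 * ρ * D) := by
  intro p hp s hs hle K c hK hpos hc
  have hc0 : 0 ≤ c := by
    obtain ⟨i⟩ := (inferInstance : Nonempty ι)
    have h1 := hpos (Pi.single i 1)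
    have h2 := hc (Pi.single i 1)
    have h3 : (Pi.single i (1 : ℝ) : ι → ℝ) ⬝ᵥ (Pi.single i (1 : ℝ) : ι → ℝ) = 1 := by
      simp
    rw [h3, mul_one] at h2
    linarith
  set Dm : Matrix ι ι ℝ := Matrix.diagonal d with hDm
  have hDv : ∀ w : ι → ℝ, Dm *ᵥ w = fun i => d i * w i := by
    intro w
    funext i
    rw [hDm, Matrix.mulVec_diagonal]
  set K' := Dm * K * Dm with hK'
  have hquad : ∀ w : ι → ℝ, w ⬝ᵥ (K' *ᵥ w) = (Dm *ᵥ w) ⬝ᵥ (K *ᵥ (Dm *ᵥ w)) := by
    intro w
    rw [hK', ← Matrix.mulVec_mulVec, ← Matrix.mulVec_mulVec, Matrix.dotProduct_mulVec w Dm,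
      ← Matrix.mulVec_transpose, hDm, Matrix.diagonal_transpose]
  have hDD : ∀ w : ι → ℝ, (Dm *ᵥ w) ⬝ᵥ (Dm *ᵥ w) ≤ D * (w ⬝ᵥ w) := by
    intro w
    rw [hDv]
    unfold dotProduct
    rw [Finset.mul_sum]
    apply Finset.sum_le_sum
    intro i _
    have := mul_le_mul_of_nonneg_right (hd i) (mul_self_nonneg (w i))
    linarith
  have hK't : K'ᵀ = K' := by
    rw [hK', Matrix.transpose_mul, Matrix.transpose_mul, hK, hDm, Matrix.diagonal_transpose,
      ← Matrix.mul_assoc]
  have hpos' : ∀ w, 0 ≤ w ⬝ᵥ (K' *ᵥ w) := fun w => by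
    rw [hquad]
    exact hpos _
  have htr : K'.trace = ∑ i, d i ^ 2 * K i i := by
    unfold Matrix.trace
    apply Finset.sum_congr rfl
    intro i _
    rw [Matrix.diag_apply, hK', hDm, Matrix.mul_diagonal, Matrix.diagonal_mul]
    ring
  have hsum : ∑ x, p x * (be x ⬝ᵥ (K *ᵥ be x)) = ∑ x, p x * (z x ⬝ᵥ (K' *ᵥ z x)) := by
    apply Finset.sum_congr rfl
    intro x _
    by_cases hx : μ x = 0
    · have h1 := hle x
      rw [hx, mul_zero] at h1
      rw [le_antisymm h1 (hp.nonneg x), zero_mul, zero_mul]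
    · rw [hquad, hDv]
      have h2 : be x = fun i => d i * z x i := funext fun i => hbe x hx i
      rw [h2]
  rw [hsum]
  apply le_of_forall_pos_le_add
  intro ε hε
  set R := 2 * |ρ| * (s + 2) + 1 with hR
  have hR0 : 0 < R := by
    have : 0 ≤ 2 * |ρ| * (s + 2) := by positivity
    linarith
  have h1 := h p hp s hs hle K' (c * D + ε / R) (by
    have := mul_nonneg hc0 hD
    have := div_pos hε hR0
    linarith) hK't hpos' (by
      intro w
      rw [hquad]
      have h2 := hc (Dm *ᵥ w)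
      have h3 := mul_le_mul_of_nonneg_left (hDD w) hc0
      have h4 : 0 ≤ ε / R * (w ⬝ᵥ w) := mul_nonneg (div_pos hε hR0).le (dot_self_nonneg w)
      nlinarith)
  rw [htr] at h1
  have h5 : 2 * (c * D + ε / R) * ρ * (s + 2) ≤ 2 * ρ * D * c * (s + 2) + ε := by
    have h6 : 2 * (ε / R) * ρ * (s + 2) ≤ ε := by
      have h7 : 2 * (ε / R) * ρ * (s + 2) = ε * (2 * ρ * (s + 2)) / R := by ring
      rw [h7, div_le_iff₀ hR0]
      apply mul_le_mul_of_nonneg_left _ hε.le
      have h8 : 2 * ρ * (s + 2) ≤ 2 * |ρ| * (s + 2) := by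
        have := le_abs_self ρ
        nlinarith
      linarith
    nlinarith
  linarith


/-- the mean square of a part of the spectral form -/
theorem core_part (hs : Spec m α β F e g s) (c : Fin n → ℝ) :
    ∑ x, α x * ∑ y, β y * (∑ i, c i * ((e i ⬝ᵥ F.a x) * (g i ⬝ᵥ F.b y))) ^ 2 =
      ∑ i, c i ^ 2 * s i ^ (m + 2) := by
  have h1 : ∀ x, α x * ∑ y, β y * (∑ i, c i * ((e i ⬝ᵥ F.a x) * (g i ⬝ᵥ F.b y))) ^ 2 =
      ∑ y, ∑ i, ∑ j, (c i * c j) * ((α x * ((e i ⬝ᵥ F.a x) * (e j ⬝ᵥ F.a x))) *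
        (β y * ((g i ⬝ᵥ F.b y) * (g j ⬝ᵥ F.b y)))) := by
    intro x
    rw [Finset.mul_sum]
    apply Finset.sum_congr rfl
    intro y _
    rw [sq, Finset.sum_mul_sum, Finset.mul_sum, Finset.mul_sum]
    apply Finset.sum_congr rfl
    intro i _
    rw [Finset.mul_sum, Finset.mul_sum]
    apply Finset.sum_congr rfl
    intro j _
    ring
  simp only [h1]
  have h2 : ∑ x, ∑ y, ∑ i, ∑ j, (c i * c j) * ((α x * ((e i ⬝ᵥ F.a x) * (e j ⬝ᵥ F.a x))) *
      (β y * ((g i ⬝ᵥ F.b y) * (g j ⬝ᵥ F.b y)))) = ∑ i, ∑ j, (c i * c j) *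
      ((∑ x, α x * ((e i ⬝ᵥ F.a x) * (e j ⬝ᵥ F.a x))) *
      (∑ y, β y * ((g i ⬝ᵥ F.b y) * (g j ⬝ᵥ F.b y)))) := by
    have h3 : ∀ i j, (c i * c j) * ((∑ x, α x * ((e i ⬝ᵥ F.a x) * (e j ⬝ᵥ F.a x))) *
        (∑ y, β y * ((g i ⬝ᵥ F.b y) * (g j ⬝ᵥ F.b y)))) =
        ∑ x, ∑ y, (c i * c j) * ((α x * ((e i ⬝ᵥ F.a x) * (e j ⬝ᵥ F.a x))) *
          (β y * ((g i ⬝ᵥ F.b y) * (g j ⬝ᵥ F.b y)))) := by
      intro i j
      rw [Finset.sum_mul_sum, Finset.mul_sum]
      apply Finset.sum_congr rfl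
      intro x _
      rw [Finset.mul_sum]
    simp only [h3]
    calc _ = ∑ x, ∑ i, ∑ j, ∑ y, (c i * c j) * ((α x * ((e i ⬝ᵥ F.a x) * (e j ⬝ᵥ F.a x))) *
          (β y * ((g i ⬝ᵥ F.b y) * (g j ⬝ᵥ F.b y)))) := by
          apply Finset.sum_congr rfl
          intro x _
          rw [Finset.sum_comm]
          apply Finset.sum_congr rfl
          intro i _
          rw [Finset.sum_comm]
      _ = _ := by
          rw [Finset.sum_comm]
          apply Finset.sum_congr rfl
          intro i _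
          rw [Finset.sum_comm]
  rw [h2]
  simp only [hs.moma, hs.momb]
  apply Finset.sum_congr rfl
  intro i _
  rw [Finset.sum_eq_single i]
  · rw [if_pos rfl, if_pos rfl]
    ring
  · intro j _ hj
    rw [if_neg (Ne.symm hj), if_neg (Ne.symm hj), mul_zero, mul_zero]
  · intro hi
    exact absurd (Finset.mem_univ i) hi

/-- sums over the strong directions -/
theorem core_sum_strong (ss : ℝ) (f : Fin n → ℝ) :
    ∑ i : {i // ss ≤ s i}, f i = ∑ i, (if ss ≤ s i then f i else 0) := by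
  rw [← Finset.sum_filter]
  exact (Finset.sum_subtype (Finset.univ.filter fun i => ss ≤ s i) (by simp) f).symm

/-- the column coordinates of the strong directions -/
noncomputable def coreZ (hs : Spec m α β F e g s) (ss : ℝ) (y : Y) (i : {i // ss ≤ s i}) : ℝ :=
  hs.cv i y

/-- the row coordinates of the strong directions -/
noncomputable def coreB (M : X → Y → ℝ) (hs : Spec m α β F e g s) (ss : ℝ) (x : X)
    (i : {i // ss ≤ s i}) : ℝ :=
  ∑ y, β y * (ctd α β M x y * coreZ hs ss y i)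

theorem coreB_eq (h : St M μ₀ ν₀ lam Lam m α β F) (hs : Spec m α β F e g s) {ss : ℝ}
    (hss : 0 < ss) {x : X} (hx : α x ≠ 0) (i : {i // ss ≤ s i}) :
    coreB M hs ss x i = Real.sqrt (s i ^ (m + 2)) * hs.cu i x := by
  rw [← hs.cv_row (lt_of_lt_of_le hss i.2)]
  unfold coreB coreZ
  apply Finset.sum_congr rfl
  intro y _
  by_cases hy : β y = 0
  · rw [hy]
    ring
  · rw [h.bil x y hx hy]
    ring

theorem coreBZ (h : St M μ₀ ν₀ lam Lam m α β F) (hs : Spec m α β F e g s) {ss : ℝ}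
    (hss : 0 < ss) {x : X} (hx : α x ≠ 0) {y : Y} (hy : β y ≠ 0) :
    ctd α β M x y - coreB M hs ss x ⬝ᵥ coreZ hs ss y =
      ∑ i, (if ss ≤ s i then 0 else 1) * ((e i ⬝ᵥ F.a x) * (g i ⬝ᵥ F.b y)) := by
  have h1 : coreB M hs ss x ⬝ᵥ coreZ hs ss y =
      ∑ i : {i // ss ≤ s i}, (e i ⬝ᵥ F.a x) * (g i ⬝ᵥ F.b y) := by
    unfold dotProduct
    apply Finset.sum_congr rfl
    intro i _
    rw [coreB_eq h hs hss hx]
    have h2 := hs.bil_eq (lt_of_lt_of_le hss i.2) x y
    rw [mul_assoc]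
    exact h2.symm
  rw [h1, core_sum_strong ss (fun i => (e i ⬝ᵥ F.a x) * (g i ⬝ᵥ F.b y)), ← h.bil x y hx hy, hs.bil,
    ← Finset.sum_sub_distrib]
  apply Finset.sum_congr rfl
  intro i _
  split_ifs <;> ring

theorem core_weak (h : St M μ₀ ν₀ lam Lam m α β F) (hs : Spec m α β F e g s) {ss : ℝ}
    (hss : 0 < ss) :
    ∑ x, α x * ∑ y, β y * (ctd α β M x y - coreB M hs ss x ⬝ᵥ coreZ hs ss y) ^ 2 ≤
      ss ^ (m + 1) * ∑ x, α x * nsq (F.a x) := by
  have h1 : ∑ x, α x * ∑ y, β y * (ctd α β M x y - coreB M hs ss x ⬝ᵥ coreZ hs ss y) ^ 2 =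
      ∑ x, α x * ∑ y, β y * (∑ i, (if ss ≤ s i then 0 else 1) *
        ((e i ⬝ᵥ F.a x) * (g i ⬝ᵥ F.b y))) ^ 2 := by
    apply Finset.sum_congr rfl
    intro x _
    by_cases hx : α x = 0
    · rw [hx, zero_mul, zero_mul]
    · congr 1
      apply Finset.sum_congr rfl
      intro y _
      by_cases hy : β y = 0
      · rw [hy, zero_mul, zero_mul]
      · rw [coreBZ h hs hss hx hy]
  rw [h1, core_part hs, ← hs.sum_s, Finset.mul_sum]
  apply Finset.sum_le_sum
  intro i _
  have h0 := hs.nonneg i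
  split_ifs with hi
  · have : 0 ≤ ss ^ (m + 1) * s i := by positivity
    nlinarith
  · rw [one_pow, one_mul, pow_succ]
    exact mul_le_mul_of_nonneg_right (pow_le_pow_left₀ h0 (not_le.1 hi).le _) h0

/-- there are strong directions as soon as the kernel is not small -/
theorem core_strong (h : St M μ₀ ν₀ lam Lam m α β F) (hs : Spec m α β F e g s) {ss : ℝ}
    (hss : 0 < ss) (hbig : ss ^ (m + 1) * ∑ x, α x * nsq (F.a x) <
      ∑ x, α x * ∑ y, β y * ctd α β M x y ^ 2) : ∃ i, ss ≤ s i := by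
  by_contra hne
  push Not at hne
  have h1 := core_weak h hs hss
  have h2 : ∀ x y, coreB M hs ss x ⬝ᵥ coreZ hs ss y = 0 := by
    intro x y
    unfold dotProduct
    apply Finset.sum_eq_zero
    intro i _
    exact absurd i.2 (not_le.2 (hne i))
  simp only [h2, sub_zero] at h1
  linarith

/-- the mean square of the centred kernel of a sign matrix -/
theorem core_ctd_sq (hα : IsPr α) (hβ : IsPr β) (hM : ∀ x y, M x y = 1 ∨ M x y = -1) :
    ∑ x, α x * ∑ y, β y * ctd α β M x y ^ 2 = 1 - em α β M ^ 2 -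
      ∑ x, α x * (rmean β M x - em α β M) ^ 2 - ∑ y, β y * (cmean α M y - em α β M) ^ 2 := by
  set U := em α β M with hU
  set R := fun x => rmean β M x - U with hR
  set C := fun y => cmean α M y - U with hC
  have hM2 : ∀ x y, M x y ^ 2 = 1 := by
    intro x y
    rcases hM x y with h | h <;> rw [h] <;> norm_num
  have e0 : ∀ x y, ctd α β M x y ^ 2 = 1 - 2 * (U + R x + C y) * M x y + (U + R x + C y) ^ 2 := by
    intro x y
    have : ctd α β M x y = M x y - (U + R x + C y) := by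
      unfold ctd
      simp only [hR, hC]
      ring
    rw [this]
    linear_combination hM2 x y
  have er : ∀ x, ∑ y, β y * M x y = U + R x := by
    intro x
    simp only [hR]
    unfold rmean
    ring
  have hCs : ∑ y, β y * C y = 0 := by
    simp only [hC, mul_sub]
    rw [Finset.sum_sub_distrib, ← Finset.sum_mul, hβ.sum, ← em_col, one_mul, sub_self]
  have hRs : ∑ x, α x * R x = 0 := by
    simp only [hR, mul_sub]
    rw [Finset.sum_sub_distrib, ← Finset.sum_mul, hα.sum, ← em_row, one_mul, sub_self]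
  have hCM : ∑ x, α x * ∑ y, β y * (C y * M x y) = ∑ y, β y * C y ^ 2 := by
    have : ∀ x, α x * ∑ y, β y * (C y * M x y) = ∑ y, β y * C y * (α x * M x y) := by
      intro x
      rw [Finset.mul_sum]
      exact Finset.sum_congr rfl fun y _ => by ring
    simp only [this]
    rw [Finset.sum_comm]
    simp only [← Finset.mul_sum]
    have h2 : ∀ y, ∑ x, α x * M x y = U + C y := by
      intro y
      simp only [hC]
      unfold cmean
      ring
    simp only [h2]
    have h3 : ∀ y, β y * C y * (U + C y) = U * (β y * C y) + β y * C y ^ 2 := fun y => by ring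
    simp only [h3]
    rw [Finset.sum_add_distrib, ← Finset.mul_sum, hCs]
    ring
  have e1 : ∀ x, ∑ y, β y * ctd α β M x y ^ 2 = 1 - (U + R x) ^ 2 -
      2 * ∑ y, β y * (C y * M x y) + ∑ y, β y * C y ^ 2 := by
    intro x
    have h4 : ∀ y, β y * ctd α β M x y ^ 2 = β y - 2 * (U + R x) * (β y * M x y) -
        2 * (β y * (C y * M x y)) + (U + R x) ^ 2 * β y + 2 * (U + R x) * (β y * C y) +
        β y * C y ^ 2 := by
      intro y
      rw [e0]
      ring
    simp only [h4]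
    simp only [Finset.sum_add_distrib, Finset.sum_sub_distrib, ← Finset.mul_sum]
    rw [er, hβ.sum, hCs]
    ring
  simp only [e1]
  have h5 : ∀ x, α x * (1 - (U + R x) ^ 2 - 2 * ∑ y, β y * (C y * M x y) +
      ∑ y, β y * C y ^ 2) = (1 - U ^ 2 + ∑ y, β y * C y ^ 2) * α x - 2 * U * (α x * R x) -
      α x * R x ^ 2 - 2 * (α x * ∑ y, β y * (C y * M x y)) := by
    intro x
    ring
  simp only [h5]
  simp only [Finset.sum_sub_distrib, ← Finset.mul_sum]
  rw [hα.sum, hRs, hCM]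
  ring

end Main

section Final

/-- The facts `Core` for the extremal state. `S = F.cost (m + 1) α β` is the cost,
`ρ = (m + 3) (lam / Lam) / ss`. -/
theorem core_of_st : ∃ C : ℝ, 1 ≤ C ∧ ∀ {X Y : Type} [Fintype X] [Fintype Y] [Nonempty X]
    [Nonempty Y] {n : ℕ} {M : X → Y → ℝ} {μ₀ : X → ℝ} {ν₀ : Y → ℝ} {lam Lam : ℝ} {m : ℕ}
    {α : X → ℝ} {β : Y → ℝ} {F : Fac X Y n} {e g : Fin n → Fin n → ℝ} {s : Fin n → ℝ},
    St M μ₀ ν₀ lam Lam (m + 1) α β F → (∀ x y, M x y = 1 ∨ M x y = -1) →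
    ∀ (hs : Spec (m + 1) α β F e g s) {ss : ℝ}, 0 < ss → (∃ i, ss ≤ s i) →
    1 ≤ (m + 3) * (lam / Lam) / ss → ∀ {θ : ℝ}, 0 < θ → θ ≤ 1 / 2 → ∀ {N : ℕ},
    4 ≤ 2 ^ N * (48 * lam * (N + 1) ^ 3) →
    Core α β M (em α β M) (fun i : {i // ss ≤ s i} => s i ^ (m + 3)) (coreB M hs ss)
      (coreZ hs ss)
      (C * ((m + 3) * (lam / Lam) / ss) * (1 + Real.log ((m + 3) * (lam / Lam) / ss)) ^ 3)
      (2 * ((m + 3) * (lam / Lam) / ss) * (48 * lam * (N + 1) ^ 3) ^ 2)
      (2 * ((m + 3) * (lam / Lam) / ss))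
      ((48 * lam * (N + 1) ^ 3) ^ 2)
      (ss ^ (m + 2) * F.cost (m + 1) α β)
      (600 * ((θ * Lam * F.cost (m + 1) α β) ^ 2 + (lam / θ) ^ 2)) := by
  obtain ⟨C, hC, hT4⟩ := St.T4_pr
  refine ⟨max C 1, le_max_right _ _, ?_⟩
  intro X Y _ _ _ _ n M μ₀ ν₀ lam Lam m α β F e g s h hM hs ss hss hne hρ θ hθ hθ1 N hN
  have : Nonempty {i // ss ≤ s i} := by
    obtain ⟨i, hi⟩ := hne
    exact ⟨⟨i, hi⟩⟩
  have hM1 : ∀ x y, |M x y| ≤ 1 := by
    intro x y
    rcases hM x y with h | h <;> rw [h] <;> norm_num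
  set ρ := (m + 3) * (lam / Lam) / ss with hρd
  have hlog : 0 ≤ Real.log ρ := Real.log_nonneg hρ
  have hlam := h.hlam
  set dl := 48 * lam * ((N : ℝ) + 1) ^ 3 with hdl
  have hdl0 : 0 < dl := by positivity
  have hsp : ∀ i : {i // ss ≤ s i}, 0 < s i := fun i => lt_of_lt_of_le hss i.2
  have hσ : ∀ i : {i // ss ≤ s i}, Real.sqrt (s i ^ (m + 3)) ^ 2 = s i ^ (m + 3) := fun i =>
    Real.sq_sqrt (pow_pos (hsp i) _).le
  have hle : ∀ i : {i // ss ≤ s i}, Real.sqrt (s i ^ (m + 3)) ≤ dl := by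
    intro i
    by_cases h1 : 4 ≤ 2 ^ N * Real.sqrt (s i ^ (m + 1 + 2))
    · exact h.p4 hs hM1 i h1
    · push Not at h1
      have h2 : 2 ^ N * Real.sqrt (s i ^ (m + 3)) < 2 ^ N * dl := lt_of_lt_of_le h1 hN
      exact (lt_of_mul_lt_mul_left h2 (by positivity)).le
  have hV : ∀ i : {i // ss ≤ s i}, Real.sqrt (s i ^ (m + 3)) ^ 2 ≤ dl ^ 2 := fun i =>
    pow_le_pow_left₀ (Real.sqrt_nonneg _) (hle i) 2
  have hfr := hs.frame_row hss
  have hfc := hs.frame_col hss
  exact
    { prX := h.hα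
      prY := h.hβ
      sgn := hM
      mean := rfl
      iso := by
        intro i j
        have h1 := congrFun (congrFun (tf_zm2_one hfc) i) j
        rw [core_zm2_apply, Matrix.one_apply] at h1
        exact h1
      cen := by
        intro i
        have h1 : ∀ y, β y * coreZ hs ss y i = (Real.sqrt (s i))⁻¹ *
            (β y * (F.b y ⬝ᵥ ((Real.sqrt (s i ^ (m + 1)))⁻¹ • g i))) := by
          intro y
          unfold coreZ Spec.cv
          rw [dotProduct_comm, div_eq_mul_inv]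
          ring
        simp only [h1]
        rw [← Finset.mul_sum, ← dot_vmean, h.cb, zero_dotProduct, mul_zero]
      bez := fun x i => rfl
      mom := by
        intro i j
        have h1 : ∀ x, α x * (coreB M hs ss x i * coreB M hs ss x j) =
            (Real.sqrt (s i ^ (m + 3)) * Real.sqrt (s j ^ (m + 3))) *
              (α x * (hs.cu i x * hs.cu j x)) := by
          intro x
          by_cases hx : α x = 0
          · rw [hx]
            ring
          · rw [coreB_eq h hs hss hx, coreB_eq h hs hss hx]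
            ring
        simp only [h1]
        have h2 := congrFun (congrFun (tf_zm2_one hfr) i) j
        rw [core_zm2_apply, Matrix.one_apply] at h2
        have h3 : ∑ x, α x * (hs.cu i x * hs.cu j x) = if i = j then 1 else 0 := h2
        rw [← Finset.mul_sum, h3]
        split_ifs with hij
        · rw [hij, mul_one, ← sq, hσ]
        · rw [mul_zero]
      V_nonneg := fun i => (pow_pos (hsp i) _).le
      V_le := fun i => by
        rw [← hσ]
        exact hV i
      weak := by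
        have h1 := core_weak h hs hss
        rw [h.cost_eq.2.2]
        exact h1
      f1 := by
        apply core_f1 h.hβ
        intro f hf
        have h1 := hT4 h.swap (hs.frame_col hss) hρ (g := f) hf
        refine (h1 : _ ≤ _).trans ?_
        apply mul_le_mul_of_nonneg_right _ (by positivity)
        exact mul_le_mul_of_nonneg_right (le_max_left _ _) (by linarith)
      f4 := by
        have h1 := core_ft (μ := α) (z := fun x (i : {i // ss ≤ s i}) => hs.cu i x)
          (be := coreB M hs ss) (d := fun i => Real.sqrt (s i ^ (m + 3))) (ρ := ρ)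
          (D := dl ^ 2) (sq_nonneg dl) hV (fun x hx i => coreB_eq h hs hss hx i) (by
            intro p hp t ht hle' K c hc hK hpos hKc
            exact h.T1_pr hfr hK hc hpos hKc hp (h.kap_sup_pr hp hle'))
        simp only [hσ] at h1
        exact h1
      f5 := by
        have h1 := core_ft (μ := β) (z := coreZ hs ss) (be := coreZ hs ss) (d := fun _ => 1)
          (ρ := ρ) (D := 1) zero_le_one (fun i => by norm_num) (fun x _ i => by rw [one_mul]) (by
            intro p hp t ht hle' K c hc hK hpos hKc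
            exact h.swap.T1_pr hfc hK hc hpos hKc hp (h.swap.kap_sup_pr hp hle'))
        simp only [one_pow, mul_one] at h1
        exact h1
      row := core_row h hθ hθ1
      col := by
        have h1 := core_row h.swap hθ hθ1
        rw [Fac.tr_cost, em_swap] at h1
        exact h1
      t2_one := by
        have h1 : 1 ≤ max C 1 * ρ := by
          have := le_max_right C 1
          nlinarith
        have h2 : (1 : ℝ) ≤ (1 + Real.log ρ) ^ 3 := one_le_pow₀ (by linarith)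
        nlinarith
      kap_nonneg := by positivity
      rho_nonneg := by positivity
      del2_nonneg := by positivity }

/-- a sufficient condition for the existence of strong directions -/
theorem strong_of_st {X Y : Type} [Fintype X] [Fintype Y] [Nonempty X]
    [Nonempty Y] {n : ℕ} {M : X → Y → ℝ} {μ₀ : X → ℝ} {ν₀ : Y → ℝ} {lam Lam : ℝ} {m : ℕ}
    {α : X → ℝ} {β : Y → ℝ} {F : Fac X Y n} {e g : Fin n → Fin n → ℝ} {s : Fin n → ℝ}
    (h : St M μ₀ ν₀ lam Lam (m + 1) α β F) (hM : ∀ x y, M x y = 1 ∨ M x y = -1)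
    (hs : Spec (m + 1) α β F e g s) {ss : ℝ} (hss : 0 < ss) {θ : ℝ} (hθ : 0 < θ)
    (hθ1 : θ ≤ 1 / 2)
    (hbig : em α β M ^ 2 + ss ^ (m + 2) * F.cost (m + 1) α β +
      1200 * ((θ * Lam * F.cost (m + 1) α β) ^ 2 + (lam / θ) ^ 2) < 1) : ∃ i, ss ≤ s i := by
  apply core_strong h hs hss
  rw [core_ctd_sq h.hα h.hβ hM, ← h.cost_eq.2.2]
  have h1 := core_row h hθ hθ1
  have h2 := core_row h.swap hθ hθ1
  rw [Fac.tr_cost, em_swap] at h2
  have h3 : ∑ y, β y * (cmean α M y - em α β M) ^ 2 ≤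
      600 * ((θ * Lam * F.cost (m + 1) α β) ^ 2 + (lam / θ) ^ 2) := h2
  have h4 : ss ^ (m + 1 + 1) * F.cost (m + 1) α β = ss ^ (m + 2) * F.cost (m + 1) α β := rfl
  linarith

end Final

end Pool.Agent.LRC
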