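import Pool.Agent.Lib_helper94.LRF.CORE
import Pool.Agent.Lib_helper94.LRC.Defs2

/-!
# Block CORE: `CoreR` for the extremal state
-/

set_option autoImplicit false
set_option linter.unusedSectionVars false

open Finset Matrix

namespace Pool.Agent.LRC

open Pool.Agent.LR2

section Mono

variable {X Y ι : Type} [Fintype X] [Fintype Y] [Fintype ι] [DecidableEq ι]

theorem F1.mono {ν : Y → ℝ} {z : Y → ι → ℝ} {t t' : ℝ} (hν : IsPr ν) (h : F1 ν z t)
    (htt : t ≤ t') : F1 ν z t' := by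
  intro f
  refine (h f).trans ?_
  exact mul_le_mul_of_nonneg_right htt
    (Finset.sum_nonneg fun y _ => mul_nonneg (hν.nonneg y) (sq_nonneg _))

theorem FT.mono [Nonempty ι] {μ : X → ℝ} {be : X → ι → ℝ} {V : ι → ℝ} {k k' : ℝ}
    (h : FT μ be V k) (hkk : k ≤ k') : FT μ be V k' := by
  intro p hp s hs hle K c hK hpos hc
  refine (h p hp s hs hle K c hK hpos hc).trans ?_
  have hc0 : 0 ≤ c := by
    obtain ⟨i⟩ := (inferInstance : Nonempty ι)
    have h1 := hpos (Pi.single i 1)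
    have h2 := hc (Pi.single i 1)
    have h3 : (Pi.single i (1 : ℝ) : ι → ℝ) ⬝ᵥ (Pi.single i (1 : ℝ) : ι → ℝ) = 1 := by
      simp
    rw [h3, mul_one] at h2
    linarith
  have h1 : k * c * (s + 2) ≤ k' * c * (s + 2) :=
    mul_le_mul_of_nonneg_right (mul_le_mul_of_nonneg_right hkk hc0) (by linarith)
  linarith

/-- the parameters of `Core` may be enlarged -/
theorem Core.mono [Nonempty ι] {μ : X → ℝ} {ν : Y → ℝ} {M : X → Y → ℝ} {U : ℝ} {V : ι → ℝ}
    {be : X → ι → ℝ} {z : Y → ι → ℝ} {t2 kap rho del2 w0 q2 t2' kap' rho' del2' w0' q2' : ℝ}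
    (h : Core μ ν M U V be z t2 kap rho del2 w0 q2) (h1 : t2 ≤ t2') (h2 : kap ≤ kap')
    (h3 : rho ≤ rho') (h4 : del2 ≤ del2') (h5 : w0 ≤ w0') (h6 : q2 ≤ q2') :
    Core μ ν M U V be z t2' kap' rho' del2' w0' q2' :=
  { prX := h.prX
    prY := h.prY
    sgn := h.sgn
    mean := h.mean
    iso := h.iso
    cen := h.cen
    bez := h.bez
    mom := h.mom
    V_nonneg := h.V_nonneg
    V_le := fun i => (h.V_le i).trans h4
    weak := h.weak.trans h5
    f1 := h.f1.mono h.prY h1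
    f4 := h.f4.mono h2
    f5 := h.f5.mono h3
    row := h.row.trans h6
    col := h.col.trans h6
    t2_one := h.t2_one.trans h1
    kap_nonneg := h.kap_nonneg.trans h2
    rho_nonneg := h.rho_nonneg.trans h3
    del2_nonneg := h.del2_nonneg.trans h4 }

end Mono

section Two

variable {X Y : Type} [Fintype X] [Fintype Y] [Nonempty X] [Nonempty Y] {n : ℕ}
variable {M : X → Y → ℝ} {μ₀ : X → ℝ} {ν₀ : Y → ℝ} {lam Lam : ℝ} {m : ℕ}
  {α : X → ℝ} {β : Y → ℝ} {F : Fac X Y n}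

/-- lower bound of the means with the relative entropy -/
theorem core_mean_low_kl (h : St M μ₀ ν₀ lam Lam (m + 1) α β F) {p : X → ℝ} (hp : IsPr p)
    (hac : AC p α) {θ : ℝ} (hθ : 0 < θ) (hθ1 : θ ≤ 1 / 2) :
    em α β M ≤ em p β M + 2 * θ * Lam * F.cost (m + 1) α β / (m + 3) +
      lam / θ * (3 * KL p α + 7) := by
  have hKL := KL_nonneg hp h.hα hac
  have h1 := h.low_row hp hac
  have e : ∀ r : X → ℝ, ∑ x, r x * phiR M Lam (m + 1) β F x =
      em r β M - Lam / (m + 3) * ∑ x, r x * nsq (F.a x) := by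
    intro r
    rw [em_row, Finset.mul_sum, ← Finset.sum_sub_distrib]
    apply Finset.sum_congr rfl
    intro x _
    unfold phiR
    push_cast
    ring
  rw [e, e] at h1
  have hn : ∀ v : Fin n → ℝ, v ⬝ᵥ (((-θ) • (1 : Matrix (Fin n) (Fin n) ℝ)) *ᵥ v) =
      -(θ * nsq v) := by
    intro v
    rw [Matrix.smul_mulVec, Matrix.one_mulVec, dotProduct_smul, smul_eq_mul, ← nsq_eq]
    ring
  have h2 := h.T_gen (G := (-θ) • (1 : Matrix (Fin n) (Fin n) ℝ))
    (by rw [Matrix.transpose_smul, Matrix.transpose_one]) (by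
      intro v
      rw [hn, abs_neg, abs_of_nonneg (mul_nonneg hθ.le (nsq_nonneg v)), ← nsq_eq]
      exact mul_le_mul_of_nonneg_right hθ1 (nsq_nonneg v)) hp
    (κ := 2 * KL p α + 6) (h.kap_kl_pr hp hac)
  simp only [hn] at h2
  have h2' : ∀ v : Fin n → ℝ, (((-θ) • (1 : Matrix (Fin n) (Fin n) ℝ)) *ᵥ v) ⬝ᵥ
      (((-θ) • (1 : Matrix (Fin n) (Fin n) ℝ)) *ᵥ v) = θ ^ 2 * nsq v := by
    intro v
    rw [Matrix.smul_mulVec, Matrix.one_mulVec, dotProduct_smul, smul_dotProduct, smul_eq_mul,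
      smul_eq_mul, ← nsq_eq]
    ring
  simp only [h2'] at h2
  have h4 := nsq_center hp F.a
  have e1 : ∑ x, p x * -(θ * nsq (F.a x - vmean p F.a)) =
      -(θ * ∑ x, p x * nsq (F.a x - vmean p F.a)) := by
    rw [Finset.mul_sum, ← Finset.sum_neg_distrib]
    apply Finset.sum_congr rfl
    intro x _
    ring
  have e2 : ∑ x, α x * -(θ * nsq (F.a x)) = -(θ * ∑ x, α x * nsq (F.a x)) := by
    rw [Finset.mul_sum, ← Finset.sum_neg_distrib]
    apply Finset.sum_congr rfl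
    intro x _
    ring
  have e3 : ∑ x, α x * (θ ^ 2 * nsq (F.a x)) = θ ^ 2 * ∑ x, α x * nsq (F.a x) := by
    rw [Finset.mul_sum]
    apply Finset.sum_congr rfl
    intro x _
    ring
  rw [e1, e2, e3, ← h.cost_eq.2.2] at h2
  rw [← h.cost_eq.2.2] at h1
  set S := F.cost (m + 1) α β with hS
  set A := ∑ x, p x * nsq (F.a x) with hA
  have h6 := nsq_nonneg (vmean p F.a)
  have h5 : θ * (S - A) ≤ 2 * θ ^ 2 * S + (m + 3) * (lam / Lam) * (2 * KL p α + 6) := by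
    rw [h4] at h2
    have : 0 ≤ θ * nsq (vmean p F.a) := mul_nonneg hθ.le h6
    nlinarith
  have hm3 : (0 : ℝ) < m + 3 := by positivity
  have h7 : Lam / (m + 3) * (S - A) ≤ 2 * θ * Lam * S / (m + 3) +
      lam / θ * (2 * KL p α + 6) := by
    have hL := h.hLam
    have h8 : Lam / (m + 3) * (S - A) = Lam / ((m + 3) * θ) * (θ * (S - A)) := by
      field_simp
    have h9 : Lam / ((m + 3) * θ) * (2 * θ ^ 2 * S + (m + 3) * (lam / Lam) *
        (2 * KL p α + 6)) = 2 * θ * Lam * S / (m + 3) + lam / θ * (2 * KL p α + 6) := by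
      field_simp
    rw [h8, ← h9]
    exact mul_le_mul_of_nonneg_left h5 (by positivity)
  have h10 : lam ≤ lam / θ := by
    rw [le_div_iff₀ hθ]
    nlinarith [h.hlam]
  have h11 : lam / θ * (2 * KL p α + 6) + lam ≤ lam / θ * (3 * KL p α + 7) := by
    have : 0 ≤ lam / θ * KL p α := mul_nonneg (div_nonneg h.hlam.le hθ.le) hKL
    nlinarith [h.hlam]
  nlinarith

theorem core_mrow (h : St M μ₀ ν₀ lam Lam (m + 1) α β F) (hS : Lam * F.cost (m + 1) α β ≤ 1)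
    {lam' : ℝ} (hl : lam ≤ lam') {θ : ℝ} (hθ : 0 < θ) (hθ1 : θ ≤ 1 / 2) {p : X → ℝ}
    (hp : IsPr p) (hac : AC p α) :
    |em p β M - em α β M| ≤ θ * 1 + lam' / θ * (3 * KL p α + 17) := by
  have h1 := core_mean_low_kl h hp hac hθ hθ1
  have h2 := h.mean_row hp hac hθ hθ1
  have hKL := KL_nonneg hp h.hα hac
  have hm3 : (0 : ℝ) < m + 3 := by positivity
  have h3 : 2 * θ * Lam * F.cost (m + 1) α β / (m + 3) ≤ θ * 1 := by
    rw [div_le_iff₀ hm3]
    have hm0 : (0 : ℝ) ≤ m := Nat.cast_nonneg m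
    nlinarith [mul_le_mul_of_nonneg_left hS hθ.le, mul_nonneg hθ.le hm0]
  have h4 : lam / θ ≤ lam' / θ := div_le_div_of_nonneg_right hl hθ.le
  have h5 : 0 ≤ lam / θ := div_nonneg h.hlam.le hθ.le
  have h6 : lam / θ * (3 * KL p α + 7) ≤ lam' / θ * (3 * KL p α + 17) :=
    mul_le_mul h4 (by linarith) (by linarith) (h5.trans h4)
  rw [abs_le]
  constructor <;> linarith

/-- `Core2` from `Core` for the extremal state -/
theorem core2_of_core {ι : Type} [Fintype ι] [DecidableEq ι] {V : ι → ℝ} {b : X → ι → ℝ}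
    {z : Y → ι → ℝ} {t2 kap rho del2 w0 q2 : ℝ}
    (h : St M μ₀ ν₀ lam Lam (m + 1) α β F) (hm : 1 ≤ m) (hS : Lam * F.cost (m + 1) α β ≤ 1)
    {lam' : ℝ} (hl : lam ≤ lam') (hc : Core α β M (em α β M) V b z t2 kap rho del2 w0 q2) :
    Core2 α β M (em α β M) V b z t2 kap rho del2 w0 q2 lam' 1 :=
  { toCore := hc
    lam_pos := lt_of_lt_of_le h.hlam hl
    a0_nonneg := zero_le_one
    ps := by
      intro p q s t hp hq hle hle'
      refine (h.P_sup hp hq hle hle').trans ?_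
      have hs0 : ∀ {Z : Type} [Fintype Z] {p μ : Z → ℝ} {s : ℝ}, IsPr p → IsPr μ →
          (∀ x, p x ≤ Real.exp s * μ x) → 0 ≤ s := by
        intro Z _ p μ s hp hμ hle
        have h1 := Finset.sum_le_sum fun x (_ : x ∈ (Finset.univ : Finset Z)) => hle x
        rw [← Finset.mul_sum, hp.sum, hμ.sum, mul_one] at h1
        by_contra hneg
        push Not at hneg
        have := Real.exp_lt_exp.2 hneg
        rw [Real.exp_zero] at this
        linarith
      have h1 := hs0 hp h.hα hle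
      have h2 := hs0 hq h.hβ hle'
      exact mul_le_mul_of_nonneg_right hl (by linarith)
    pkl := by
      intro p q hp hq hac hac'
      refine (h.P_kl hp hq hac hac').trans ?_
      have hKL := KL_nonneg hp h.hα hac
      have hKL' := KL_nonneg hq h.hβ hac'
      have h1 := mul_le_mul_of_nonneg_right hl (add_nonneg hKL hKL')
      linarith
    upr := by
      intro θ hθ hθ1 p q hp hq hac hac'
      have h1 := h.upr hθ hθ1 p q hp hq hac hac'
      have hKL := KL_nonneg hp h.hα hac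
      have hKL' := KL_nonneg hq h.hβ hac'
      have hm3 : (0 : ℝ) < m + 3 := by positivity
      have h3 : 4 * θ * Lam * F.cost (m + 1) α β / (m + 3) ≤ θ * 1 := by
        rw [div_le_iff₀ hm3]
        have hm0 : (1 : ℝ) ≤ m := by exact_mod_cast hm
        nlinarith [mul_le_mul_of_nonneg_left hS hθ.le, mul_le_mul_of_nonneg_left hm0 hθ.le]
      have h4 : lam / θ ≤ lam' / θ := div_le_div_of_nonneg_right hl hθ.le
      have h5 : 4 * (lam / θ) * (KL p α + KL q β) ≤ 4 * (lam' / θ) * (KL p α + KL q β) :=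
        mul_le_mul_of_nonneg_right (by linarith) (by linarith)
      linarith
    mrow := by
      intro θ hθ hθ1 p hp hac
      exact core_mrow h hS hl hθ hθ1 hp hac
    mcol := by
      intro θ hθ hθ1 q hq hac
      have h1 := core_mrow h.swap (by rw [Fac.tr_cost]; exact hS) hl hθ hθ1 hq hac
      rw [← em_swap α q M, ← em_swap α β M]
      exact h1 }

end Two

section Asym

/-- powers beat logarithms -/
theorem core_plog (K s : ℝ) (hK : 0 ≤ K) (hs : 0 < s) :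
    ∃ R0 : ℝ, 1 ≤ R0 ∧ ∀ R, R0 ≤ R → K * (1 + Real.log R) ^ 6 ≤ R ^ s := by
  set ε := s / 12 with hε
  have hε0 : 0 < ε := by positivity
  set K' := K * (1 + 1 / ε) ^ 6 + 1 with hK'
  have hK0 : 0 ≤ K * (1 + 1 / ε) ^ 6 := by positivity
  have hK1 : 1 ≤ K' := by linarith
  refine ⟨K' ^ (2 / s), Real.one_le_rpow hK1 (by positivity), fun R hR => ?_⟩
  have hR1 : 1 ≤ R := (Real.one_le_rpow hK1 (by positivity)).trans hR
  have hR0 : 0 < R := by linarith
  have h1 := Real.log_le_rpow_div hR0.le hε0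
  have h2 : 1 ≤ R ^ ε := Real.one_le_rpow hR1 hε0.le
  have h3 : 1 + Real.log R ≤ (1 + 1 / ε) * R ^ ε := by
    have : (1 + 1 / ε) * R ^ ε = R ^ ε + R ^ ε / ε := by ring
    rw [this]
    linarith
  have h4 : (1 + Real.log R) ^ 6 ≤ ((1 + 1 / ε) * R ^ ε) ^ 6 :=
    pow_le_pow_left₀ (by have := Real.log_nonneg hR1; linarith) h3 6
  have h5 : (R ^ ε) ^ 6 = R ^ (s / 2) := by
    rw [← Real.rpow_natCast, ← Real.rpow_mul hR0.le]
    congr 1
    rw [hε]
    push_cast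
    ring
  have h6 : K' ≤ R ^ (s / 2) := by
    have h7 : K' = (K' ^ (2 / s)) ^ (s / 2) := by
      rw [← Real.rpow_mul (by linarith)]
      have : 2 / s * (s / 2) = 1 := by field_simp
      rw [this, Real.rpow_one]
    rw [h7]
    exact Real.rpow_le_rpow (Real.rpow_nonneg (by linarith) _) hR (by positivity)
  have h8 : R ^ s = R ^ (s / 2) * R ^ (s / 2) := by
    rw [← Real.rpow_add hR0]
    congr 1
    ring
  have h9 : 0 ≤ R ^ (s / 2) := Real.rpow_nonneg hR0.le _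
  calc K * (1 + Real.log R) ^ 6 ≤ K * ((1 + 1 / ε) * R ^ ε) ^ 6 :=
        mul_le_mul_of_nonneg_left h4 hK
    _ = K * (1 + 1 / ε) ^ 6 * R ^ (s / 2) := by rw [mul_pow, h5]; ring
    _ ≤ R ^ (s / 2) * R ^ (s / 2) := mul_le_mul_of_nonneg_right (by linarith) h9
    _ = R ^ s := h8.symm

/-- `DD μ μ = 0` -/
theorem core_DD_self {X : Type} [Fintype X] [Nonempty X] {μ : X → ℝ} (hμ : IsPos μ) :
    DD μ μ = 0 := by
  unfold DD
  have h1 : (fun x => μ x / μ x) = fun _ => (1 : ℝ) := by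
    funext x
    exact div_self (hμ.pos x).ne'
  have h2 : mx (fun _ : X => (1 : ℝ)) = 1 :=
    le_antisymm (mx_le fun _ => le_rfl) (le_mx (fun _ : X => (1 : ℝ)) (Classical.arbitrary X))
  rw [h1, h2, Real.log_one]

/-- the parameter `ρ` -/
theorem core_rho_eq {R s : ℝ} (hR : 0 < R) (m : ℕ) :
    (m + 3) * (R ^ (-(1 / 2) + s / 8) / R ^ (-(((m : ℝ) + 2) / (m + 3)) - s / 8)) /
      R ^ (-(20 / ((m : ℝ) + 3))) = (m + 3) * R ^ (1 / 2 + s / 4 + 19 / ((m : ℝ) + 3)) := by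
  have hm3 : (0 : ℝ) < m + 3 := by positivity
  rw [← Real.rpow_sub hR, mul_div_assoc, ← Real.rpow_sub hR]
  congr 2
  field_simp
  ring

/-- the numerical estimates -/
theorem core_num {R s C κ L m3 ρ : ℝ} (hR : 1 ≤ R) (hs0 : 0 < s) (hs1 : s ≤ 1 / 4) (hC : 1 ≤ C)
    (hκ0 : 0 ≤ κ) (hκ : κ ≤ s / 8) (hm3 : 3 ≤ m3) (hL : L = 1 + Real.log R)
    (hρ : ρ = m3 * R ^ (1 / 2 + s / 4 + κ))
    (hK : (100000 * C * (m3 + 1) ^ 4) * L ^ 6 ≤ R ^ (s / 8)) {N1 : ℝ} (hN0 : 0 ≤ N1)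
    (hN : N1 ≤ 2 * L) :
    1 ≤ ρ ∧ C * ρ * (1 + Real.log ρ) ^ 3 ≤ R ^ (1 / 2 + s) ∧
    2 * ρ * (48 * R ^ (-(1 / 2) + s / 8) * N1 ^ 3) ^ 2 ≤ R ^ (-(1 / 2) + s) ∧
    2 * ρ ≤ R ^ (1 / 2 + s) ∧ (48 * R ^ (-(1 / 2) + s / 8) * N1 ^ 3) ^ 2 ≤ R ^ (-1 + s) ∧
    2400 * R ^ (-(1 / 2) + s / 8) ≤ R ^ (-(1 / 2) + s / 4) := by
  have hR0 : 0 < R := by linarith
  have hlog : 0 ≤ Real.log R := Real.log_nonneg hR
  have hL1 : 1 ≤ L := by linarith
  have hmono : ∀ {a b : ℝ}, a ≤ b → R ^ a ≤ R ^ b := fun h => Real.rpow_le_rpow_of_exponent_le hR h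
  have hpos : ∀ a : ℝ, 0 < R ^ a := fun a => Real.rpow_pos_of_pos hR0 a
  have hC1 : 1 ≤ C * (m3 + 1) ^ 4 := by
    have : (1 : ℝ) ≤ (m3 + 1) ^ 4 := one_le_pow₀ (by linarith)
    nlinarith
  have hL6 : 1 ≤ L ^ 6 := one_le_pow₀ hL1
  -- consequences of the main estimate
  have k0 : C * (m3 + 1) ^ 4 * (100000 * L ^ 6) ≤ R ^ (s / 8) := by linarith
  have k1 : 100000 * L ^ 6 ≤ R ^ (s / 8) := by
    refine le_trans ?_ k0
    nlinarith
  have k2 : 100000 ≤ R ^ (s / 8) := by nlinarith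
  have hm4 : m3 + 1 ≤ (m3 + 1) ^ 4 := le_self_pow₀ (by linarith) (by norm_num)
  have k3 : 100000 * m3 ≤ R ^ (s / 8) := by
    refine le_trans ?_ k0
    have : m3 ≤ C * (m3 + 1) ^ 4 := by nlinarith
    nlinarith
  have hρ1 : 1 ≤ ρ := by
    rw [hρ]
    have : 1 ≤ R ^ (1 / 2 + s / 4 + κ) := Real.one_le_rpow hR (by positivity)
    nlinarith
  have hρ2 : ρ ≤ m3 * R ^ (1 / 2 + 3 * s / 8) := by
    rw [hρ]
    exact mul_le_mul_of_nonneg_left (hmono (by linarith)) (by linarith)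
  have hρ3 : 1 + Real.log ρ ≤ (m3 + 1) * L := by
    rw [hρ, Real.log_mul (by linarith) (hpos _).ne', Real.log_rpow hR0]
    have h1 : Real.log m3 ≤ m3 - 1 := Real.log_le_sub_one_of_pos (by linarith)
    have h2 : (1 / 2 + s / 4 + κ) * Real.log R ≤ 1 * Real.log R :=
      mul_le_mul_of_nonneg_right (by linarith) hlog
    rw [hL]
    nlinarith
  have hlr : 0 ≤ Real.log ρ := Real.log_nonneg hρ1
  have hdel : (48 * R ^ (-(1 / 2) + s / 8) * N1 ^ 3) ^ 2 ≤
      R ^ (s / 8) * R ^ (-1 + s / 4) * 2 := by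
    have h1 : (48 * R ^ (-(1 / 2) + s / 8) * N1 ^ 3) ^ 2 =
        2304 * N1 ^ 6 * (R ^ (-(1 / 2) + s / 8)) ^ 2 := by ring
    have h2 : (R ^ (-(1 / 2) + s / 8)) ^ 2 = R ^ (-1 + s / 4) := by
      rw [← Real.rpow_natCast, ← Real.rpow_mul hR0.le]
      congr 1
      push_cast
      ring
    have h3 : N1 ^ 6 ≤ (2 * L) ^ 6 := pow_le_pow_left₀ hN0 hN 6
    rw [h1, h2]
    have h4 : 2304 * N1 ^ 6 ≤ R ^ (s / 8) * 2 := by
      have : (2 * L) ^ 6 = 64 * L ^ 6 := by ring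
      rw [this] at h3
      linarith
    have h5 := mul_le_mul_of_nonneg_right h4 (hpos (-1 + s / 4)).le
    linarith
  refine ⟨hρ1, ?_, ?_, ?_, ?_, ?_⟩
  · have h1 : (1 + Real.log ρ) ^ 3 ≤ ((m3 + 1) * L) ^ 3 :=
      pow_le_pow_left₀ (by linarith) hρ3 3
    have h2 : L ^ 3 ≤ L ^ 6 := pow_le_pow_right₀ hL1 (by norm_num)
    have h3 : C * m3 * ((m3 + 1) * L) ^ 3 ≤ R ^ (s / 8) := by
      refine le_trans ?_ k0
      have h4 : C * m3 * ((m3 + 1) * L) ^ 3 = (C * (m3 * (m3 + 1) ^ 3)) * L ^ 3 := by ring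
      rw [h4]
      have h5 : m3 * (m3 + 1) ^ 3 ≤ (m3 + 1) ^ 4 := by
        have : 0 ≤ (m3 + 1) ^ 3 := by positivity
        nlinarith
      have h6 : C * (m3 * (m3 + 1) ^ 3) ≤ C * (m3 + 1) ^ 4 :=
        mul_le_mul_of_nonneg_left h5 (by linarith)
      exact mul_le_mul h6 (by linarith) (by positivity) (by linarith)
    have h7 : R ^ (1 / 2 + 3 * s / 8) * R ^ (s / 8) ≤ R ^ (1 / 2 + s) := by
      rw [← Real.rpow_add hR0]
      exact hmono (by linarith)
    have hp := (hpos (1 / 2 + 3 * s / 8)).le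
    calc C * ρ * (1 + Real.log ρ) ^ 3 ≤
        C * (m3 * R ^ (1 / 2 + 3 * s / 8)) * ((m3 + 1) * L) ^ 3 :=
          mul_le_mul (mul_le_mul_of_nonneg_left hρ2 (by linarith)) h1 (by positivity)
            (by positivity)
      _ = R ^ (1 / 2 + 3 * s / 8) * (C * m3 * ((m3 + 1) * L) ^ 3) := by ring
      _ ≤ R ^ (1 / 2 + 3 * s / 8) * R ^ (s / 8) := mul_le_mul_of_nonneg_left h3 hp
      _ ≤ _ := h7
  · have h1 : 2 * ρ ≤ R ^ (s / 8) * R ^ (1 / 2 + 3 * s / 8) / 2 := by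
      have hp := (hpos (1 / 2 + 3 * s / 8)).le
      have h2 := mul_le_mul_of_nonneg_right k3 hp
      have h3 : 0 ≤ m3 * R ^ (1 / 2 + 3 * s / 8) := by positivity
      nlinarith
    calc 2 * ρ * (48 * R ^ (-(1 / 2) + s / 8) * N1 ^ 3) ^ 2 ≤
        (R ^ (s / 8) * R ^ (1 / 2 + 3 * s / 8) / 2) * (R ^ (s / 8) * R ^ (-1 + s / 4) * 2) :=
          mul_le_mul h1 hdel (by positivity) (by positivity)
      _ = R ^ (s / 8) * R ^ (1 / 2 + 3 * s / 8) * R ^ (s / 8) * R ^ (-1 + s / 4) := by ring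
      _ = R ^ (s / 8 + (1 / 2 + 3 * s / 8) + s / 8 + (-1 + s / 4)) := by
          rw [← Real.rpow_add hR0, ← Real.rpow_add hR0, ← Real.rpow_add hR0]
      _ ≤ _ := hmono (by linarith)
  · calc 2 * ρ ≤ R ^ (s / 8) * R ^ (1 / 2 + 3 * s / 8) := by
          have hp := (hpos (1 / 2 + 3 * s / 8)).le
          have h2 := mul_le_mul_of_nonneg_right k3 hp
          have h3 : 0 ≤ m3 * R ^ (1 / 2 + 3 * s / 8) := by positivity
          nlinarith
      _ = R ^ (s / 8 + (1 / 2 + 3 * s / 8)) := by rw [← Real.rpow_add hR0]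
      _ ≤ _ := hmono (by linarith)
  · refine hdel.trans ?_
    have h1 : (2 : ℝ) ≤ R ^ (s / 8) := by linarith
    have hp : 0 < R ^ (s / 8) * R ^ (-1 + s / 4) := mul_pos (hpos _) (hpos _)
    calc R ^ (s / 8) * R ^ (-1 + s / 4) * 2 ≤ R ^ (s / 8) * R ^ (-1 + s / 4) * R ^ (s / 8) :=
          mul_le_mul_of_nonneg_left h1 hp.le
      _ = R ^ (s / 8 + (-1 + s / 4) + s / 8) := by
          rw [← Real.rpow_add hR0, ← Real.rpow_add hR0]
      _ ≤ _ := hmono (by linarith)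
  · have h1 : (2400 : ℝ) ≤ R ^ (s / 8) := by linarith
    calc 2400 * R ^ (-(1 / 2) + s / 8) ≤ R ^ (s / 8) * R ^ (-(1 / 2) + s / 8) :=
          mul_le_mul_of_nonneg_right h1 (hpos _).le
      _ = R ^ (s / 8 + (-(1 / 2) + s / 8)) := by rw [← Real.rpow_add hR0]
      _ = _ := by congr 1; ring

/-- The maximiser satisfies `CoreR`, or it is almost constant. -/
theorem coreR_state (s : ℝ) (hs0 : 0 < s) (hs1 : s ≤ 1 / 4) :
    ∃ R0 : ℝ, ∀ r : ℕ, R0 ≤ (r : ℝ) → ∀ {X Y : Type} [Fintype X] [Fintype Y] [Nonempty X]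
      [Nonempty Y] (M : X → Y → ℝ), (∀ x y, M x y = 1 ∨ M x y = -1) →
      (Matrix.of M).rank ≤ r → ∀ {μ₀ : X → ℝ} {ν₀ : Y → ℝ}, IsPos μ₀ → IsPos ν₀ →
      ∃ (α : X → ℝ) (β : Y → ℝ), IsPr α ∧ IsPr β ∧
        em μ₀ ν₀ M - (r : ℝ) ^ (-(s / 8)) ≤
          em α β M - (r : ℝ) ^ (-(1 / 2) + s / 8) * (DD μ₀ α + DD ν₀ β) ∧
        (1 - em α β M ^ 2 ≤ (r : ℝ) ^ (-s) ∨
          ∃ (ι : Type) (_ : Fintype ι) (_ : DecidableEq ι) (V : ι → ℝ) (b : X → ι → ℝ)
            (z : Y → ι → ℝ), CoreR (r : ℝ) s α β M (em α β M) V b z) := by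
  obtain ⟨C, hC, hcore⟩ := core_of_st
  obtain ⟨m, hm⟩ := exists_nat_ge (152 / s)
  have hm0 : (152 : ℝ) ≤ m := by
    refine le_trans ?_ hm
    rw [le_div_iff₀ hs0]
    linarith
  set m3 : ℝ := (m : ℝ) + 3 with hm3
  set κ : ℝ := 19 / m3 with hκd
  have hκ0 : 0 ≤ κ := by positivity
  have hκ : κ ≤ s / 8 := by
    rw [hκd, div_le_div_iff₀ (by positivity) (by norm_num)]
    rw [div_le_iff₀ hs0] at hm
    nlinarith
  obtain ⟨R0, hR01, hR0⟩ := core_plog (100000 * C * (m3 + 1) ^ 4) (s / 8) (by positivity)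
    (by positivity)
  refine ⟨max R0 (2 ^ 8), ?_⟩
  intro r hr X Y _ _ _ _ M hM hrank μ₀ ν₀ hμ hν
  set R : ℝ := (r : ℝ) with hRd
  have hRR0 : R0 ≤ R := (le_max_left _ _).trans hr
  have hR8 : (2 : ℝ) ^ 8 ≤ R := (le_max_right _ _).trans hr
  have hR1 : 1 ≤ R := by linarith
  have hRp : 0 < R := by linarith
  have hmono : ∀ {a b : ℝ}, a ≤ b → R ^ a ≤ R ^ b := fun h =>
    Real.rpow_le_rpow_of_exponent_le hR1 h
  have hpos : ∀ a : ℝ, 0 < R ^ a := fun a => Real.rpow_pos_of_pos hRp a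
  have hM1 : ∀ x y, |M x y| ≤ 1 := by
    intro x y
    rcases hM x y with h | h <;> rw [h] <;> norm_num
  have hr1 : 1 ≤ r := by
    have : (1 : ℝ) ≤ (r : ℝ) := hR1
    exact_mod_cast this
  set lam : ℝ := R ^ (-(1 / 2) + s / 8) with hlamd
  set Lam : ℝ := R ^ (-(((m : ℝ) + 2) / (m + 3)) - s / 8) with hLamd
  have hlam : 0 < lam := hpos _
  have hLam : 0 < Lam := hpos _
  have hμ' : IsPr μ₀ := ⟨fun x => (hμ.pos x).le, hμ.sum⟩
  have hν' : IsPr ν₀ := ⟨fun x => (hν.pos x).le, hν.sum⟩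
  obtain ⟨α, β, F, hst, hcost, hopt⟩ := extremal_state M hM1 hr1 hrank hμ hν hlam hLam (m + 1)
    hμ' hν'
  have hexp : (((m + 1 : ℕ) : ℝ) + 1) / (((m + 1 : ℕ) : ℝ) + 2) = ((m : ℝ) + 2) / (m + 3) := by
    push_cast
    congr 1 <;> ring
  rw [hexp] at hcost hopt
  have hLR : Lam * R ^ (((m : ℝ) + 2) / (m + 3)) = R ^ (-(s / 8)) := by
    rw [hLamd, ← Real.rpow_add hRp]
    congr 1
    ring
  rw [core_DD_self hμ, core_DD_self hν, add_zero, mul_zero, sub_zero, hLR] at hopt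
  have hcost0 : 0 ≤ F.cost (m + 1) α β := by
    rw [hst.cost_eq.2.2]
    exact Finset.sum_nonneg fun x _ => mul_nonneg (hst.hα.nonneg x) (nsq_nonneg _)
  have hS1 : Lam * F.cost (m + 1) α β ≤ R ^ (-(s / 8)) := by
    rw [← hLR]
    exact mul_le_mul_of_nonneg_left hcost hLam.le
  have hS : Lam * F.cost (m + 1) α β ≤ 1 := by
    refine hS1.trans ?_
    exact Real.rpow_le_one_of_one_le_of_nonpos hR1 (by linarith)
  have hS0 : 0 ≤ Lam * F.cost (m + 1) α β := mul_nonneg hLam.le hcost0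
  refine ⟨α, β, hst.hα, hst.hβ, by linarith, ?_⟩
  obtain ⟨e, g, sg, hsp⟩ := hst.spec
  set ss : ℝ := R ^ (-(20 / ((m : ℝ) + 3))) with hssd
  have hss : 0 < ss := hpos _
  set L := 1 + Real.log R with hL
  set N := ⌈Real.logb 2 R⌉₊ with hN
  have hlb : 0 ≤ Real.logb 2 R := Real.logb_nonneg (by norm_num) hR1
  have hN1 : (N : ℝ) + 1 ≤ 2 * L := by
    have h1 : (N : ℝ) < Real.logb 2 R + 1 := Nat.ceil_lt_add_one hlb
    have h2 : Real.logb 2 R ≤ 2 * Real.log R := by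
      rw [Real.logb, div_le_iff₀ (Real.log_pos (by norm_num))]
      have := Real.log_two_gt_d9
      have h3 := Real.log_nonneg hR1
      nlinarith
    rw [hL]
    linarith
  have hNR : R ≤ 2 ^ N := by
    have h1 : Real.logb 2 R ≤ (N : ℝ) := Nat.le_ceil _
    have h2 := (Real.logb_le_iff_le_rpow (by norm_num) hRp).1 h1
    rwa [Real.rpow_natCast] at h2
  obtain ⟨c1, c2, c3, c4, c5, c6⟩ := core_num (ρ := m3 * R ^ (1 / 2 + s / 4 + κ)) (N1 := N + 1)
    hR1 hs0 hs1 hC hκ0 hκ (by rw [hm3]; linarith) hL rfl (hR0 R hRR0) (by positivity) hN1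
  have hρe : ((m : ℝ) + 3) * (lam / Lam) / ss = m3 * R ^ (1 / 2 + s / 4 + κ) :=
    core_rho_eq hRp m
  -- θ
  set θ : ℝ := R ^ (-(1 / 4) + s / 16) with hθd
  have hθ : 0 < θ := hpos _
  have hθ2 : θ ^ 2 = lam := by
    rw [hθd, hlamd, ← Real.rpow_natCast, ← Real.rpow_mul hRp.le]
    congr 1
    push_cast
    ring
  have hθ1 : θ ≤ 1 / 2 := by
    have h1 : θ ≤ R ^ (-(1 / 8) : ℝ) := hmono (by linarith)
    have h2 : R ^ (-(1 / 8) : ℝ) ≤ ((2 : ℝ) ^ 8) ^ (-(1 / 8) : ℝ) :=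
      Real.rpow_le_rpow_of_nonpos (by norm_num) hR8 (by norm_num)
    have h3 : ((2 : ℝ) ^ 8) ^ (-(1 / 8) : ℝ) = 1 / 2 := by
      rw [← Real.rpow_natCast, ← Real.rpow_mul (by norm_num)]
      norm_num
    linarith only [h1, h2, h3]
  have hq : 600 * ((θ * Lam * F.cost (m + 1) α β) ^ 2 + (lam / θ) ^ 2) ≤ 1200 * lam := by
    have h1 : (lam / θ) ^ 2 = lam := by
      rw [div_pow, hθ2, sq]
      field_simp
    have h2 : (θ * Lam * F.cost (m + 1) α β) ^ 2 ≤ lam := by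
      rw [mul_assoc, mul_pow, hθ2]
      have h3 : (Lam * F.cost (m + 1) α β) ^ 2 ≤ 1 := pow_le_one₀ hS0 hS
      calc lam * (Lam * F.cost (m + 1) α β) ^ 2 ≤ lam * 1 :=
            mul_le_mul_of_nonneg_left h3 hlam.le
        _ = lam := mul_one _
    linarith only [h1, h2]
  have hw : ss ^ (m + 2) * F.cost (m + 1) α β ≤ R ^ (-18 : ℝ) := by
    have h1 : ss ^ (m + 2) = R ^ (-(20 / ((m : ℝ) + 3)) * (m + 2)) := by
      rw [hssd, ← Real.rpow_natCast, ← Real.rpow_mul hRp.le]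
      push_cast
      rfl
    calc ss ^ (m + 2) * F.cost (m + 1) α β ≤
        R ^ (-(20 / ((m : ℝ) + 3)) * (m + 2)) * R ^ (((m : ℝ) + 2) / (m + 3)) := by
          rw [h1]
          exact mul_le_mul_of_nonneg_left hcost (hpos _).le
      _ = R ^ (-19 + κ) := by
          rw [← Real.rpow_add hRp]
          congr 1
          rw [hκd, hm3]
          field_simp
          ring
      _ ≤ _ := hmono (by linarith)
  by_cases hne : ∃ i, ss ≤ sg i
  · right
    have hN4 : 4 ≤ 2 ^ N * (48 * lam * ((N : ℝ) + 1) ^ 3) := by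
      have h1 : R ^ (-(1 / 2) : ℝ) ≤ lam := hmono (by linarith)
      have h2 : R ^ (1 / 2 : ℝ) ≤ 2 ^ N * lam := by
        calc R ^ (1 / 2 : ℝ) = R ^ (1 : ℝ) * R ^ (-(1 / 2) : ℝ) := by
              rw [← Real.rpow_add hRp]
              norm_num
          _ = R * R ^ (-(1 / 2) : ℝ) := by rw [Real.rpow_one]
          _ ≤ 2 ^ N * lam := mul_le_mul hNR h1 (hpos _).le (by positivity)
      have h3 : 1 ≤ R ^ (1 / 2 : ℝ) := Real.one_le_rpow hR1 (by norm_num)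
      have h4 : (1 : ℝ) ≤ ((N : ℝ) + 1) ^ 3 := one_le_pow₀ (by linarith [Nat.cast_nonneg (α := ℝ) N])
      have h5 : 0 ≤ 2 ^ N * lam := by positivity
      calc (4 : ℝ) ≤ 48 * (2 ^ N * lam) * 1 := by linarith
        _ ≤ 48 * (2 ^ N * lam) * ((N : ℝ) + 1) ^ 3 :=
            mul_le_mul_of_nonneg_left h4 (by positivity)
        _ = _ := by ring
    have hc := hcore hst hM hsp hss hne (by rw [hρe]; exact c1) hθ hθ1 hN4
    rw [hρe] at hc
    have : Nonempty {i // ss ≤ sg i} := by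
      obtain ⟨i, hi⟩ := hne
      exact ⟨⟨i, hi⟩⟩
    have hq' : 600 * ((θ * Lam * F.cost (m + 1) α β) ^ 2 + (lam / θ) ^ 2) ≤
        R ^ (-(1 / 2) + s) := by
      refine hq.trans (le_trans ?_ (c6.trans (hmono ?_)))
      · exact mul_le_mul_of_nonneg_right (by norm_num) hlam.le
      · linarith only [hs0]
    have hc' := hc.mono c2 c3 c4 c5 hw hq'
    refine ⟨{i // ss ≤ sg i}, inferInstance, inferInstance, _, _, _,
      { core := core2_of_core hst (by
          have : (1 : ℝ) ≤ m := by linarith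
          exact_mod_cast this) hS (hmono (by linarith)) hc'
        card := ?_
        rank := by
          rw [hRd]
          exact_mod_cast hrank }⟩
    have h1 := Fintype.card_subtype_le (fun i : Fin r => ss ≤ sg i)
    rw [Fintype.card_fin] at h1
    rw [hRd]
    exact_mod_cast h1
  · left
    have h1 : ∑ x, α x * ∑ y, β y * ctd α β M x y ^ 2 ≤
        ss ^ (m + 1 + 1) * ∑ x, α x * nsq (F.a x) := by
      by_contra hcon
      push Not at hcon
      exact hne (core_strong hst hsp hss hcon)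
    rw [core_ctd_sq hst.hα hst.hβ hM, ← hst.cost_eq.2.2] at h1
    have h2 := core_row hst hθ hθ1
    have h3 := core_row hst.swap hθ hθ1
    rw [Fac.tr_cost, em_swap] at h3
    have h4 : ∑ y, β y * (cmean α M y - em α β M) ^ 2 ≤
      600 * ((θ * Lam * F.cost (m + 1) α β) ^ 2 + (lam / θ) ^ 2) := h3
    have h5 : ss ^ (m + 1 + 1) * F.cost (m + 1) α β ≤ R ^ (-18 : ℝ) := hw
    have h6 : 1 - em α β M ^ 2 ≤ R ^ (-18 : ℝ) + 2400 * lam := by
      linarith only [h1, h2, h4, h5, hq]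
    have h7 : R ^ (-18 : ℝ) ≤ R ^ (-s) / 2 := by
      have h8 : R ^ (-18 : ℝ) ≤ R ^ (-s - 1) := hmono (by linarith)
      have h9 : R ^ (-s - 1) = R ^ (-s) / R := by
        rw [Real.rpow_sub hRp, Real.rpow_one]
      rw [h9] at h8
      refine h8.trans ?_
      exact div_le_div_of_nonneg_left (hpos _).le (by norm_num) (by linarith)
    have h10 : R ^ (-(1 / 2) + s / 4) ≤ R ^ (-s) / 2 := by
      have h8 : R ^ (-(1 / 2) + s / 4) ≤ R ^ (-s - 1 / 8) := hmono (by linarith)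
      have h9 : R ^ (-s - 1 / 8) = R ^ (-s) / R ^ (1 / 8 : ℝ) := by
        rw [Real.rpow_sub hRp]
      rw [h9] at h8
      refine h8.trans ?_
      apply div_le_div_of_nonneg_left (hpos _).le (by norm_num)
      have h11 : ((2 : ℝ) ^ 8) ^ (1 / 8 : ℝ) ≤ R ^ (1 / 8 : ℝ) :=
        Real.rpow_le_rpow (by norm_num) hR8 (by norm_num)
      have h12 : ((2 : ℝ) ^ 8) ^ (1 / 8 : ℝ) = 2 := by
        rw [← Real.rpow_natCast, ← Real.rpow_mul (by norm_num)]
        norm_num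
      linarith only [h11, h12]
    linarith only [h6, h7, h10, c6]

end Asym

end Pool.Agent.LRC
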