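import Pool.Agent.Lib_helper94.LRC.Defs
import Pool.Agent.Lib_helper59.LR2.TGen

/-!
# Block CUT: spectral projections
-/

set_option autoImplicit false
set_option linter.unusedSectionVars false

open Finset Matrix

namespace Pool.Agent.LRC

open Pool.Agent.LR2

section Gen

variable {ι : Type} [Fintype ι] [DecidableEq ι]

theorem cut_ext {κ ι : Type} [Fintype ι] [DecidableEq ι] {A B : Matrix κ ι ℝ}
    (h : ∀ w, A *ᵥ w = B *ᵥ w) : A = B := by
  ext i j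
  have h1 := congrFun (h (Pi.single j 1)) i
  simpa using h1

/-- the projection on the span of the vectors with `p i` -/
def cutP (o : ι → ι → ℝ) (p : ι → Prop) [DecidablePred p] : Matrix ι ι ℝ :=
  Matrix.of fun a b => ∑ i, if p i then o i a * o i b else 0

variable {o : ι → ι → ℝ} {p : ι → Prop} [DecidablePred p]

theorem cut_symm : (cutP o p)ᵀ = cutP o p := by
  ext a b
  simp only [cutP, Matrix.transpose_apply, Matrix.of_apply]
  apply Finset.sum_congr rfl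
  intro i _
  split_ifs
  · ring
  · rfl

theorem cut_mulVec (w : ι → ℝ) : cutP o p *ᵥ w = ∑ i, (if p i then o i ⬝ᵥ w else 0) • o i := by
  funext a
  rw [Finset.sum_apply]
  simp only [cutP, mulVec, dotProduct, Matrix.of_apply, Finset.sum_mul, Pi.smul_apply, smul_eq_mul]
  rw [Finset.sum_comm]
  apply Finset.sum_congr rfl
  intro i _
  split_ifs
  · rw [Finset.sum_mul]
    apply Finset.sum_congr rfl
    intro b _
    ring
  · simp

theorem cut_dot (h1 : ∀ i j, o i ⬝ᵥ o j = if i = j then 1 else 0) (i : ι) (w : ι → ℝ) :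
    o i ⬝ᵥ (cutP o p *ᵥ w) = if p i then o i ⬝ᵥ w else 0 := by
  rw [cut_mulVec, dotProduct_sum, Finset.sum_eq_single i]
  · rw [dotProduct_smul, h1, if_pos rfl, smul_eq_mul, mul_one]
  · intro j _ hj
    rw [dotProduct_smul, h1, if_neg (Ne.symm hj), smul_zero]
  · intro h
    exact (h (Finset.mem_univ i)).elim

theorem cut_dot' (h1 : ∀ i j, o i ⬝ᵥ o j = if i = j then 1 else 0) (i : ι) (w : ι → ℝ) :
    o i ⬝ᵥ ((1 - cutP o p) *ᵥ w) = if p i then 0 else o i ⬝ᵥ w := by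
  rw [Matrix.sub_mulVec, Matrix.one_mulVec, dotProduct_sub, cut_dot h1]
  split_ifs <;> ring

theorem cut_eq (h2 : ∀ v w : ι → ℝ, v ⬝ᵥ w = ∑ i, (o i ⬝ᵥ v) * (o i ⬝ᵥ w)) {v w : ι → ℝ}
    (h : ∀ i, o i ⬝ᵥ v = o i ⬝ᵥ w) : v = w := by
  have h3 : (v - w) ⬝ᵥ (v - w) = 0 := by
    rw [h2]
    apply Finset.sum_eq_zero
    intro i _
    rw [dotProduct_sub, h i, sub_self, mul_zero]
  exact sub_eq_zero.1 (dotProduct_self_eq_zero.1 h3)

theorem cut_proj (h1 : ∀ i j, o i ⬝ᵥ o j = if i = j then 1 else 0)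
    (h2 : ∀ v w : ι → ℝ, v ⬝ᵥ w = ∑ i, (o i ⬝ᵥ v) * (o i ⬝ᵥ w)) : IsProj (cutP o p) := by
  refine ⟨cut_symm, cut_ext fun w => cut_eq h2 fun i => ?_⟩
  rw [← Matrix.mulVec_mulVec, cut_dot h1, cut_dot h1]
  split_ifs <;> rfl

theorem cut_quad (h1 : ∀ i j, o i ⬝ᵥ o j = if i = j then 1 else 0)
    (h2 : ∀ v w : ι → ℝ, v ⬝ᵥ w = ∑ i, (o i ⬝ᵥ v) * (o i ⬝ᵥ w)) (w : ι → ℝ) :
    w ⬝ᵥ (cutP o p *ᵥ w) = ∑ i, if p i then (o i ⬝ᵥ w) ^ 2 else 0 := by
  rw [h2]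
  apply Finset.sum_congr rfl
  intro i _
  rw [cut_dot h1]
  split_ifs
  · ring
  · ring

theorem cut_trace (h1 : ∀ i j, o i ⬝ᵥ o j = if i = j then 1 else 0) :
    (cutP o p).trace = ∑ i, if p i then (1 : ℝ) else 0 := by
  simp only [Matrix.trace, Matrix.diag_apply, cutP, Matrix.of_apply]
  rw [Finset.sum_comm]
  apply Finset.sum_congr rfl
  intro i _
  split_ifs
  · have := h1 i i
    rw [if_pos rfl] at this
    exact this
  · simp

theorem cut_comm {K : Matrix ι ι ℝ} (hK : Kᵀ = K) {e : ι → ℝ}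
    (h1 : ∀ i j, o i ⬝ᵥ o j = if i = j then 1 else 0)
    (h2 : ∀ v w : ι → ℝ, v ⬝ᵥ w = ∑ i, (o i ⬝ᵥ v) * (o i ⬝ᵥ w))
    (h3 : ∀ i, K *ᵥ o i = e i • o i) : cutP o p * K = K * cutP o p := by
  refine cut_ext fun w => cut_eq h2 fun i => ?_
  rw [← Matrix.mulVec_mulVec, ← Matrix.mulVec_mulVec, cut_dot h1, sym_dot hK (o i),
    sym_dot hK (o i), h3, smul_dotProduct, smul_dotProduct, cut_dot h1]
  split_ifs
  · rfl
  · simp

theorem cut_single (h2 : ∀ v w : ι → ℝ, v ⬝ᵥ w = ∑ i, (o i ⬝ᵥ v) * (o i ⬝ᵥ w)) (i : ι) :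
    ∑ a, (o i ⬝ᵥ (Pi.single a 1 : ι → ℝ)) ^ 2 = o i ⬝ᵥ o i := by
  simp only [dotProduct_single, mul_one, sq]
  rfl

theorem cut_trace_eq {K : Matrix ι ι ℝ} (hK : Kᵀ = K) {e : ι → ℝ}
    (h1 : ∀ i j, o i ⬝ᵥ o j = if i = j then 1 else 0)
    (h2 : ∀ v w : ι → ℝ, v ⬝ᵥ w = ∑ i, (o i ⬝ᵥ v) * (o i ⬝ᵥ w))
    (h3 : ∀ i, K *ᵥ o i = e i • o i) : K.trace = ∑ i, e i := by
  have h4 : K.trace = ∑ a, (Pi.single a 1 : ι → ℝ) ⬝ᵥ (K *ᵥ Pi.single a 1) := by
    simp [Matrix.trace]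
  rw [h4]
  simp only [diag_bil hK h2 h3]
  rw [Finset.sum_comm]
  apply Finset.sum_congr rfl
  intro i _
  rw [← Finset.mul_sum]
  have h5 := cut_single h2 i
  have h6 := h1 i i
  rw [if_pos rfl] at h6
  simp only [sq] at h5
  rw [h5, h6, mul_one]

theorem cut_hs_eq {K : Matrix ι ι ℝ} (hK : Kᵀ = K) {e : ι → ℝ}
    (h1 : ∀ i j, o i ⬝ᵥ o j = if i = j then 1 else 0)
    (h2 : ∀ v w : ι → ℝ, v ⬝ᵥ w = ∑ i, (o i ⬝ᵥ v) * (o i ⬝ᵥ w))
    (h3 : ∀ i, K *ᵥ o i = e i • o i) : hs K = ∑ i, e i ^ 2 := by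
  have h4 : hs K = ∑ a, (K *ᵥ Pi.single a 1) ⬝ᵥ (K *ᵥ Pi.single a 1) := by
    rw [hs_eq_col]
    apply Finset.sum_congr rfl
    intro a _
    have : (K *ᵥ Pi.single a 1) = fun i => K i a := by
      funext i
      simp
    rw [this]
  rw [h4]
  simp only [diag_sq hK h2 h3]
  rw [Finset.sum_comm]
  apply Finset.sum_congr rfl
  intro i _
  rw [← Finset.mul_sum]
  have h5 := cut_single h2 i
  have h6 := h1 i i
  rw [if_pos rfl] at h6
  rw [h5, h6, mul_one]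

/-- CUT1: spectral projection of a symmetric matrix on the eigenvalues larger than `h` in modulus
(`exists_diag` of TGen.lean) -/
theorem cut1_pr {K : Matrix ι ι ℝ} (hK : Kᵀ = K) {h : ℝ} (hh : 0 < h) :
    ∃ P : Matrix ι ι ℝ, IsProj P ∧ P * K = K * P ∧ OpB (K * (1 - P)) h ∧
      (∀ w, h ^ 2 * (w ⬝ᵥ (P *ᵥ w)) ≤ (K *ᵥ w) ⬝ᵥ (K *ᵥ w)) ∧ h ^ 2 * P.trace ≤ hs K := by
  classical
  obtain ⟨o, e, h1, h2, h3⟩ := exists_diag hK
  refine ⟨cutP o (fun i => h < |e i|), cut_proj h1 h2, cut_comm hK h1 h2 h3, ?_, ?_, ?_⟩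
  · intro w
    rw [← Matrix.mulVec_mulVec, diag_sq hK h2 h3, h2 w w, Finset.mul_sum]
    apply Finset.sum_le_sum
    intro i _
    rw [cut_dot' h1]
    split_ifs with hi
    · have : (0 : ℝ) ≤ h ^ 2 * (o i ⬝ᵥ w * o i ⬝ᵥ w) :=
        mul_nonneg (sq_nonneg h) (mul_self_nonneg _)
      simpa using this
    · rw [← sq]
      refine mul_le_mul_of_nonneg_right ?_ (sq_nonneg _)
      rw [← sq_abs (e i)]
      exact pow_le_pow_left₀ (abs_nonneg _) (not_lt.1 hi) 2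
  · intro w
    rw [cut_quad h1 h2, diag_sq hK h2 h3, Finset.mul_sum]
    apply Finset.sum_le_sum
    intro i _
    split_ifs with hi
    · refine mul_le_mul_of_nonneg_right ?_ (sq_nonneg _)
      rw [← sq_abs (e i)]
      exact pow_le_pow_left₀ hh.le hi.le 2
    · rw [mul_zero]
      exact mul_nonneg (sq_nonneg _) (sq_nonneg _)
  · rw [cut_trace h1, cut_hs_eq hK h1 h2 h3, Finset.mul_sum]
    apply Finset.sum_le_sum
    intro i _
    split_ifs with hi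
    · rw [mul_one, ← sq_abs (e i)]
      exact pow_le_pow_left₀ hh.le hi.le 2
    · rw [mul_zero]
      exact sq_nonneg _

/-- CUT2: the same for a positive matrix `S`, with quadratic forms; the range of `P` is contained
in the range of `S` -/
theorem cut2_pr {S : Matrix ι ι ℝ} (hS : Sᵀ = S) (hpos : ∀ w, 0 ≤ w ⬝ᵥ (S *ᵥ w)) {h : ℝ}
    (hh : 0 < h) :
    ∃ P : Matrix ι ι ℝ, IsProj P ∧ P * S = S * P ∧
      (∀ w, ((1 - P) *ᵥ w) ⬝ᵥ (S *ᵥ ((1 - P) *ᵥ w)) ≤ h * (w ⬝ᵥ w)) ∧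
      (∀ w, h * (w ⬝ᵥ (P *ᵥ w)) ≤ w ⬝ᵥ (S *ᵥ w)) ∧ h * P.trace ≤ S.trace ∧
      (∀ B : Matrix ι ι ℝ, B * S = 0 → B * P = 0) := by
  classical
  obtain ⟨o, e, h1, h2, h3⟩ := exists_diag hS
  have he : ∀ i, 0 ≤ e i := by
    intro i
    have h4 := hpos (o i)
    rw [h3, dotProduct_smul, h1, if_pos rfl, smul_eq_mul, mul_one] at h4
    exact h4
  refine ⟨cutP o (fun i => h < e i), cut_proj h1 h2, cut_comm hS h1 h2 h3, ?_, ?_, ?_, ?_⟩
  · intro w
    rw [diag_bil hS h2 h3, h2 w w, Finset.mul_sum]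
    apply Finset.sum_le_sum
    intro i _
    rw [cut_dot' h1]
    split_ifs with hi
    · have : (0 : ℝ) ≤ h * (o i ⬝ᵥ w * o i ⬝ᵥ w) := mul_nonneg hh.le (mul_self_nonneg _)
      simpa using this
    · exact mul_le_mul_of_nonneg_right (not_lt.1 hi) (mul_self_nonneg _)
  · intro w
    rw [cut_quad h1 h2, diag_bil hS h2 h3, Finset.mul_sum]
    apply Finset.sum_le_sum
    intro i _
    split_ifs with hi
    · rw [sq]
      exact mul_le_mul_of_nonneg_right hi.le (mul_self_nonneg _)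
    · rw [mul_zero]
      exact mul_nonneg (he i) (mul_self_nonneg _)
  · rw [cut_trace h1, cut_trace_eq hS h1 h2 h3, Finset.mul_sum]
    apply Finset.sum_le_sum
    intro i _
    split_ifs with hi
    · rw [mul_one]
      exact hi.le
    · rw [mul_zero]
      exact he i
  · intro B hB
    refine cut_ext fun w => ?_
    rw [← Matrix.mulVec_mulVec, cut_mulVec, Matrix.mulVec_sum, Matrix.zero_mulVec]
    apply Finset.sum_eq_zero
    intro i _
    rw [Matrix.mulVec_smul]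
    split_ifs with hi
    · have h4 : B *ᵥ (S *ᵥ o i) = 0 := by rw [Matrix.mulVec_mulVec, hB, Matrix.zero_mulVec]
      rw [h3, Matrix.mulVec_smul] at h4
      have h5 : e i ≠ 0 := (hh.trans hi).ne'
      rw [(smul_eq_zero.1 h4).resolve_left h5, smul_zero]
    · rw [zero_smul]


end Gen

alias cut1 := cut1_pr
alias cut2 := cut2_pr

end Pool.Agent.LRC
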