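import Pool.Agent.Lib_helper94.LRF.CUT

/-!
# Block CUT3: nested spectral projections
-/

set_option autoImplicit false
set_option linter.unusedSectionVars false

open Finset Matrix

namespace Pool.Agent.LRC

open Pool.Agent.LR2

section Gen

variable {ι : Type} [Fintype ι] [DecidableEq ι]

theorem cut3_mul {o : ι → ι → ℝ} {p q : ι → Prop} [DecidablePred p] [DecidablePred q]
    (h1 : ∀ i j, o i ⬝ᵥ o j = if i = j then 1 else 0)
    (h2 : ∀ v w : ι → ℝ, v ⬝ᵥ w = ∑ i, (o i ⬝ᵥ v) * (o i ⬝ᵥ w)) (hpq : ∀ i, q i → p i) :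
    cutP o p * cutP o q = cutP o q := by
  refine cut_ext fun w => cut_eq h2 fun i => ?_
  rw [← Matrix.mulVec_mulVec, cut_dot h1, cut_dot h1]
  by_cases hq : q i
  · rw [if_pos (hpq i hq)]
  · rw [if_neg hq]
    split_ifs <;> rfl

theorem cut3_mul' {o : ι → ι → ℝ} {p q : ι → Prop} [DecidablePred p] [DecidablePred q]
    (h1 : ∀ i j, o i ⬝ᵥ o j = if i = j then 1 else 0)
    (h2 : ∀ v w : ι → ℝ, v ⬝ᵥ w = ∑ i, (o i ⬝ᵥ v) * (o i ⬝ᵥ w)) (hpq : ∀ i, q i → p i) :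
    cutP o q * cutP o p = cutP o q := by
  refine cut_ext fun w => cut_eq h2 fun i => ?_
  rw [← Matrix.mulVec_mulVec, cut_dot h1, cut_dot h1, cut_dot h1]
  by_cases hq : q i
  · rw [if_pos hq, if_pos hq, if_pos (hpq i hq)]
  · rw [if_neg hq, if_neg hq]

theorem cut3_col (A : Matrix ι ι ℝ) : hs A = ∑ a, (A *ᵥ Pi.single a 1) ⬝ᵥ (A *ᵥ Pi.single a 1) := by
  rw [hs_eq_col]
  apply Finset.sum_congr rfl
  intro a _
  have : (A *ᵥ Pi.single a 1) = fun i => A i a := by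
    funext i
    simp
  rw [this]

/-- CUT3 -/
theorem cut3_pr {ι : Type} [Fintype ι] [DecidableEq ι] {K : Matrix ι ι ℝ} (hK : Kᵀ = K) {h h' : ℝ}
    (hh : 0 < h) (hhh : h ≤ h') :
    ∃ P P' : Matrix ι ι ℝ, IsProj P ∧ IsProj P' ∧ P * P' = P' ∧ P' * P = P' ∧
      P * K = K * P ∧ P' * K = K * P' ∧ OpB (K * (1 - P)) h ∧ OpB (K * (P - P')) h' ∧
      (∀ w, h ^ 2 * (w ⬝ᵥ (P *ᵥ w)) ≤ (K *ᵥ w) ⬝ᵥ (K *ᵥ w)) ∧ h ^ 2 * P.trace ≤ hs K ∧
      h' ^ 2 * hs (K * P') ≤ hs (K * K) := by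
  classical
  obtain ⟨o, e, h1, h2, h3⟩ := exists_diag hK
  have hh' : 0 < h' := hh.trans_le hhh
  have hsub : ∀ i, h' < |e i| → h < |e i| := fun i hi => hhh.trans_lt hi
  have hP' : IsProj (cutP o (fun i => h' < |e i|)) := cut_proj h1 h2
  have hc' : cutP o (fun i => h' < |e i|) * K = K * cutP o (fun i => h' < |e i|) :=
    cut_comm hK h1 h2 h3
  have key : ∀ (s : ℝ), 0 < s → ∀ w, s ^ 2 * (w ⬝ᵥ (cutP o (fun i => s < |e i|) *ᵥ w)) ≤
      (K *ᵥ w) ⬝ᵥ (K *ᵥ w) := by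
    intro s hs w
    rw [cut_quad h1 h2, diag_sq hK h2 h3, Finset.mul_sum]
    apply Finset.sum_le_sum
    intro i _
    split_ifs with hi
    · refine mul_le_mul_of_nonneg_right ?_ (sq_nonneg _)
      rw [← sq_abs (e i)]
      exact pow_le_pow_left₀ hs.le hi.le 2
    · rw [mul_zero]
      exact mul_nonneg (sq_nonneg _) (sq_nonneg _)
  refine ⟨cutP o (fun i => h < |e i|), cutP o (fun i => h' < |e i|), cut_proj h1 h2, hP',
    cut3_mul h1 h2 hsub, cut3_mul' h1 h2 hsub, cut_comm hK h1 h2 h3, hc', ?_, ?_, key h hh, ?_, ?_⟩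
  · intro w
    rw [← Matrix.mulVec_mulVec, diag_sq hK h2 h3, h2 w w, Finset.mul_sum]
    apply Finset.sum_le_sum
    intro i _
    rw [cut_dot' h1]
    split_ifs with hi
    · have : (0 : ℝ) ≤ h ^ 2 * (o i ⬝ᵥ w * o i ⬝ᵥ w) :=
        mul_nonneg (sq_nonneg h) (mul_self_nonneg _)
      simpa using this
    · rw [← sq]
      refine mul_le_mul_of_nonneg_right ?_ (sq_nonneg _)
      rw [← sq_abs (e i)]
      exact pow_le_pow_left₀ (abs_nonneg _) (not_lt.1 hi) 2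
  · intro w
    rw [← Matrix.mulVec_mulVec, diag_sq hK h2 h3, h2 w w, Finset.mul_sum]
    apply Finset.sum_le_sum
    intro i _
    rw [Matrix.sub_mulVec, dotProduct_sub, cut_dot h1, cut_dot h1]
    have h0 : (0 : ℝ) ≤ h' ^ 2 * (o i ⬝ᵥ w * o i ⬝ᵥ w) :=
      mul_nonneg (sq_nonneg h') (mul_self_nonneg _)
    by_cases hi : h' < |e i|
    · rw [if_pos hi, if_pos (hsub i hi), sub_self]
      simpa using h0
    · rw [if_neg hi, sub_zero]
      split_ifs
      · rw [← sq]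
        refine mul_le_mul_of_nonneg_right ?_ (sq_nonneg _)
        rw [← sq_abs (e i)]
        exact pow_le_pow_left₀ (abs_nonneg _) (not_lt.1 hi) 2
      · simpa using h0
  · rw [cut_trace h1, cut_hs_eq hK h1 h2 h3, Finset.mul_sum]
    apply Finset.sum_le_sum
    intro i _
    split_ifs with hi
    · rw [mul_one, ← sq_abs (e i)]
      exact pow_le_pow_left₀ hh.le hi.le 2
    · rw [mul_zero]
      exact sq_nonneg _
  · set P' := cutP o (fun i => h' < |e i|) with hPdef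
    have h5 : hs (K * P') = hs (P' * K) := by rw [hc']
    rw [h5, cut3_col, cut3_col, Finset.mul_sum]
    apply Finset.sum_le_sum
    intro a _
    rw [← Matrix.mulVec_mulVec, ← Matrix.mulVec_mulVec]
    have h6 := key h' hh' (K *ᵥ Pi.single a 1)
    have h7 : (P' *ᵥ (K *ᵥ Pi.single a 1)) ⬝ᵥ (P' *ᵥ (K *ᵥ Pi.single a 1)) =
        (K *ᵥ Pi.single a 1) ⬝ᵥ (P' *ᵥ (K *ᵥ Pi.single a 1)) := by
      rw [← sym_dot hP'.1, Matrix.mulVec_mulVec, hP'.2]
    rw [h7]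
    exact h6

end Gen

alias cut3 := cut3_pr

end Pool.Agent.LRC
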