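import Pool.Agent.Lib_helper94.LRC.Defs

/-!
# The first decoder: signal and averaged noise
-/

set_option autoImplicit false
set_option linter.unusedSectionVars false

open Finset Matrix

namespace Pool.Agent.LRC

open Pool.Agent.LR2

variable {Y ι : Type} [Fintype Y] [Fintype ι] [DecidableEq ι]
variable {ν : Y → ℝ} {z : Y → ι → ℝ}

theorem d1_abs_dot {κ : Type} [Fintype κ] {a b : κ → ℝ} {s t : ℝ} (hs : 0 ≤ s) (ht : 0 ≤ t)
    (ha : a ⬝ᵥ a ≤ s ^ 2) (hb : b ⬝ᵥ b ≤ t ^ 2) : |a ⬝ᵥ b| ≤ s * t := by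
  have h := dot_cs a b
  have h1 : (a ⬝ᵥ b) ^ 2 ≤ (s * t) ^ 2 := by
    refine h.trans ?_
    rw [mul_pow]
    exact mul_le_mul ha hb (dot_self_nonneg b) (sq_nonneg s)
  exact abs_le_of_sq_le_sq h1 (mul_nonneg hs ht)

theorem d1_tri {κ : Type} [Fintype κ] {a b : κ → ℝ} {s t : ℝ} (hs : 0 ≤ s) (ht : 0 ≤ t)
    (ha : a ⬝ᵥ a ≤ s ^ 2) (hb : b ⬝ᵥ b ≤ t ^ 2) : (a + b) ⬝ᵥ (a + b) ≤ (s + t) ^ 2 := by
  have h := (le_abs_self _).trans (d1_abs_dot hs ht ha hb)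
  simp only [add_dotProduct, dotProduct_add]
  rw [dotProduct_comm b a]
  nlinarith

theorem d1_smul {κ : Type} [Fintype κ] {a : κ → ℝ} {s : ℝ} (c : ℝ) (ha : a ⬝ᵥ a ≤ s ^ 2) :
    (c • a) ⬝ᵥ (c • a) ≤ (c * s) ^ 2 := by
  rw [smul_dotProduct, dotProduct_smul, smul_eq_mul, smul_eq_mul]
  nlinarith [sq_nonneg c, mul_le_mul_of_nonneg_left ha (sq_nonneg c)]

theorem d1_op {κ : Type} [Fintype κ] {A : Matrix κ ι ℝ} {c s : ℝ} (hA : OpB A c) {a : ι → ℝ}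
    (ha : a ⬝ᵥ a ≤ s ^ 2) : (A *ᵥ a) ⬝ᵥ (A *ᵥ a) ≤ (c * s) ^ 2 := by
  refine (hA a).trans ?_
  rw [mul_pow]
  exact mul_le_mul_of_nonneg_left ha (sq_nonneg c)

/-- the decomposition of `v = τ τ b` -/
theorem d1_v {b : ι → ℝ} {η : ℝ} {τ : Matrix ι ι ℝ} {e : ι → ℝ} (he : e = τ *ᵥ b + η • b) :
    τ *ᵥ (τ *ᵥ b) = η ^ 2 • b + (τ *ᵥ e - η • e) := by
  have h1 : τ *ᵥ b = e - η • b := by rw [he]; simp
  have h2 : τ *ᵥ (τ *ᵥ b) = τ *ᵥ e - η • (τ *ᵥ b) := by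
    conv_lhs => rw [h1]
    rw [Matrix.mulVec_sub, Matrix.mulVec_smul]
  rw [h2, h1, smul_sub, smul_smul, sq]
  abel

theorem d1_signal_pr {b : ι → ℝ} (hb : b ⬝ᵥ b = 1) {W η δ : ℝ} (hW : 1 ≤ W)
    (hop : OpB (TV ν z b) W) (hη : 0 ≤ η) (hηW : η ≤ W) (hδ : 0 ≤ δ) (hδ1 : δ ≤ 1)
    (he : (TV ν z b *ᵥ b + η • b) ⬝ᵥ (TV ν z b *ᵥ b + η • b) ≤ δ ^ 2) :
    |(TV ν z b *ᵥ (TV ν z b *ᵥ b)) ⬝ᵥ (TV ν z b *ᵥ (TV ν z b *ᵥ (TV ν z b *ᵥ b))) + η ^ 5| ≤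
      13 * W ^ 4 * δ := by
  set τ := TV ν z b with hτ
  set e := τ *ᵥ b + η • b with hedef
  set dl := τ *ᵥ e - η • e with hdl
  have hv : τ *ᵥ (τ *ᵥ b) = η ^ 2 • b + dl := d1_v hedef
  have hb1 : b ⬝ᵥ b ≤ (1 : ℝ) ^ 2 := by rw [hb]; norm_num
  have hτs : τᵀ = τ := TV_transpose b
  have hW0 : 0 ≤ W := by linarith
  have hdl1 : dl ⬝ᵥ dl ≤ (2 * W * δ) ^ 2 := by
    have h1 := d1_op hop he
    have h2 := d1_smul (-η) he
    have h3 := d1_tri (by positivity : 0 ≤ W * δ) (by positivity : 0 ≤ η * δ) h1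
      (b := (-η) • e) (by
        refine h2.trans (le_of_eq ?_)
        ring)
    have h4 : dl = τ *ᵥ e + (-η) • e := by rw [hdl]; simp [sub_eq_add_neg]
    rw [h4]
    refine h3.trans ?_
    apply pow_le_pow_left₀ (by positivity)
    nlinarith
  have hτb := d1_op hop hb1
  have hτdl := d1_op hop hdl1
  rw [hv, Matrix.mulVec_add, Matrix.mulVec_smul]
  have hbt : b ⬝ᵥ (τ *ᵥ b) = -η + b ⬝ᵥ e := by
    have h1 : τ *ᵥ b = e - η • b := by rw [hedef]; simp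
    rw [h1, dotProduct_sub, dotProduct_smul, hb, smul_eq_mul]
    ring
  have hexp : (η ^ 2 • b + dl) ⬝ᵥ (η ^ 2 • (τ *ᵥ b) + τ *ᵥ dl) + η ^ 5 =
      η ^ 4 * (b ⬝ᵥ e) + 2 * η ^ 2 * (dl ⬝ᵥ (τ *ᵥ b)) + dl ⬝ᵥ (τ *ᵥ dl) := by
    simp only [add_dotProduct, dotProduct_add, smul_dotProduct, dotProduct_smul, smul_eq_mul]
    rw [hbt]
    have h5 : b ⬝ᵥ (τ *ᵥ dl) = dl ⬝ᵥ (τ *ᵥ b) := by
      rw [dot_symm_mulVec hτs, dotProduct_comm]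
    rw [h5]
    ring
  rw [hexp]
  have a1 := d1_abs_dot (by norm_num) hδ hb1 he
  have a2 := d1_abs_dot (by positivity) (by positivity : (0 : ℝ) ≤ W * 1) hdl1 hτb
  have a3 := d1_abs_dot (by positivity) (by positivity : 0 ≤ W * (2 * W * δ)) hdl1 hτdl
  have hη2 : η ^ 2 ≤ W ^ 2 := pow_le_pow_left₀ hη hηW 2
  have hη4 : η ^ 4 ≤ W ^ 4 := pow_le_pow_left₀ hη hηW 4
  have b1 : |η ^ 4 * (b ⬝ᵥ e)| ≤ W ^ 4 * δ := by
    rw [abs_mul, abs_of_nonneg (by positivity)]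
    calc η ^ 4 * |b ⬝ᵥ e| ≤ W ^ 4 * (1 * δ) := mul_le_mul hη4 a1 (abs_nonneg _) (by positivity)
      _ = _ := by ring
  have b2 : |2 * η ^ 2 * (dl ⬝ᵥ (τ *ᵥ b))| ≤ 4 * W ^ 4 * δ := by
    rw [abs_mul, abs_of_nonneg (by positivity)]
    calc 2 * η ^ 2 * |dl ⬝ᵥ (τ *ᵥ b)| ≤ 2 * W ^ 2 * (2 * W * δ * (W * 1)) :=
          mul_le_mul (by linarith) a2 (abs_nonneg _) (by positivity)
      _ = _ := by ring
  have b3 : |dl ⬝ᵥ (τ *ᵥ dl)| ≤ 4 * W ^ 4 * δ := by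
    refine a3.trans ?_
    have h6 : δ * δ ≤ δ := by nlinarith
    have h7 : W ^ 3 ≤ W ^ 4 := pow_le_pow_right₀ hW (by norm_num)
    calc 2 * W * δ * (W * (2 * W * δ)) = 4 * W ^ 3 * (δ * δ) := by ring
      _ ≤ 4 * W ^ 4 * δ := by
        have : 4 * W ^ 3 * (δ * δ) ≤ 4 * W ^ 4 * (δ * δ) :=
          mul_le_mul_of_nonneg_right (by linarith) (by positivity)
        refine this.trans ?_
        exact mul_le_mul_of_nonneg_left h6 (by positivity)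
  have c1 := abs_add_le (η ^ 4 * (b ⬝ᵥ e) + 2 * η ^ 2 * (dl ⬝ᵥ (τ *ᵥ b))) (dl ⬝ᵥ (τ *ᵥ dl))
  have c2 := abs_add_le (η ^ 4 * (b ⬝ᵥ e)) (2 * η ^ 2 * (dl ⬝ᵥ (τ *ᵥ b)))
  have h8 : 0 ≤ W ^ 4 * δ := by positivity
  linarith

/-! ### the noise -/

theorem d1_trace_le (B : Matrix ι ι ℝ) : (B * B).trace ≤ hs B := by
  have h1 : (B * B).trace = ∑ i, ∑ j, B i j * B j i := by
    unfold Matrix.trace
    apply Finset.sum_congr rfl
    intro i _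
    rw [Matrix.diag_apply, Matrix.mul_apply]
  have h2 : ∑ i, ∑ j, B j i ^ 2 = hs B := by
    rw [Finset.sum_comm]
    rfl
  have h3 : ∑ i, ∑ j, B i j * B j i ≤ ∑ i, ∑ j, (B i j ^ 2 / 2 + B j i ^ 2 / 2) := by
    apply Finset.sum_le_sum
    intro i _
    apply Finset.sum_le_sum
    intro j _
    nlinarith [sq_nonneg (B i j - B j i)]
  have h4 : ∑ i, ∑ j, (B i j ^ 2 / 2 + B j i ^ 2 / 2) = hs B / 2 + hs B / 2 := by
    simp only [Finset.sum_add_distrib, ← Finset.sum_div]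
    rw [h2]
    rfl
  rw [h1]
  linarith

theorem d1_symm {τ A : Matrix ι ι ℝ} (hτ : τᵀ = τ) (hA : Aᵀ = A) :
    hs (τ * A * τ) ≤ hs (τ * τ * A) := by
  have h1 : (τ * A * τ)ᵀ = τ * A * τ := by
    rw [Matrix.transpose_mul, Matrix.transpose_mul, hτ, hA, Matrix.mul_assoc]
  rw [hs_symm h1]
  refine le_trans (le_of_eq ?_) (d1_trace_le _)
  have h2 : τ * A * τ * (τ * A * τ) = (τ * A * τ * τ * A) * τ := by
    simp only [Matrix.mul_assoc]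
  rw [h2, Matrix.trace_mul_comm]
  simp only [Matrix.mul_assoc]

/-- symmetry of the trilinear form -/
theorem d1_swap {κ ρ : Type} [Fintype κ] [Fintype ρ] (A : Matrix ι κ ℝ) (B : Matrix ι ρ ℝ) :
    ∑ j, hs (TV ν z (fun i => B i j) * A) = ∑ k, hs (TV ν z (fun i => A i k) * B) := by
  simp only [hs_eq_col]
  rw [Finset.sum_comm]
  apply Finset.sum_congr rfl
  intro k _
  apply Finset.sum_congr rfl
  intro j _
  rw [col_mul, col_mul, TV_comm]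

theorem d1_hs_TV_mul (c : ι → ℝ) {τ : Matrix ι ι ℝ} (hτ : τᵀ = τ) :
    hs (TV ν z c * τ) = ∑ a, (τ *ᵥ (TV ν z (fun i => (1 : Matrix ι ι ℝ) i a) *ᵥ c)) ⬝ᵥ
      (τ *ᵥ (TV ν z (fun i => (1 : Matrix ι ι ℝ) i a) *ᵥ c)) := by
  rw [← hs_transpose, Matrix.transpose_mul, hτ, TV_transpose, hs_eq_col]
  apply Finset.sum_congr rfl
  intro a _
  rw [col_mul, TV_comm]
  have h1 : (fun i => TV ν z c i a) = TV ν z c *ᵥ (fun i => (1 : Matrix ι ι ℝ) i a) := by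
    rw [← col_mul, Matrix.mul_one]
  rw [h1]

/-- `Σ |T_{τ e_j} τ|² ≤ t2 tr τ⁴` -/
theorem d1_S {t2 : ℝ} (h1 : ∀ c : ι → ℝ, hs (TV ν z c) ≤ t2 * (c ⬝ᵥ c)) {τ : Matrix ι ι ℝ}
    (hτ : τᵀ = τ) : ∑ j, hs (TV ν z (fun i => τ i j) * τ) ≤ t2 * hs (τ * τ) := by
  have e1 : ∑ j, hs (TV ν z (fun i => τ i j) * τ) =
      ∑ a, hs (τ * TV ν z (fun i => (1 : Matrix ι ι ℝ) i a) * τ) := by
    simp only [d1_hs_TV_mul _ hτ]
    rw [Finset.sum_comm]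
    apply Finset.sum_congr rfl
    intro a _
    rw [hs_eq_col]
    apply Finset.sum_congr rfl
    intro j _
    rw [col_mul, Matrix.mulVec_mulVec]
  rw [e1]
  calc _ ≤ ∑ a, hs (τ * τ * TV ν z (fun i => (1 : Matrix ι ι ℝ) i a)) := by
        apply Finset.sum_le_sum
        intro a _
        exact d1_symm hτ (TV_transpose _)
    _ = ∑ a, hs (TV ν z (fun i => (1 : Matrix ι ι ℝ) i a) * (τ * τ)) := by
        apply Finset.sum_congr rfl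
        intro a _
        rw [← hs_transpose, Matrix.transpose_mul, TV_transpose, Matrix.transpose_mul, hτ]
    _ = ∑ k, hs (TV ν z (fun i => (τ * τ) i k) * (1 : Matrix ι ι ℝ)) := d1_swap _ _
    _ ≤ _ := by
        simp only [Matrix.mul_one]
        exact sum_hs_TV_le h1 _

/-- averages of `hs (TV (A z) B)` -/
theorem d1_avg (hz : Iso ν z) (A : Matrix ι ι ℝ) (B : Matrix ι ι ℝ) :
    ∑ y, ν y * hs (TV ν z (A *ᵥ z y) * B) = ∑ j, hs (TV ν z (fun i => B i j) * A) := by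
  have e1 : ∀ y, ν y * hs (TV ν z (A *ᵥ z y) * B) =
      ∑ j, ν y * (((TV ν z (fun i => B i j) * A) *ᵥ z y) ⬝ᵥ
        ((TV ν z (fun i => B i j) * A) *ᵥ z y)) := by
    intro y
    rw [hs_eq_col, Finset.mul_sum]
    apply Finset.sum_congr rfl
    intro j _
    rw [col_mul, TV_comm, Matrix.mulVec_mulVec]
  simp only [e1]
  rw [Finset.sum_comm]
  apply Finset.sum_congr rfl
  intro j _
  exact hz.avg_sq _

theorem d1_ar1 {W η δ : ℝ} (hηW : η ≤ W) (hδ : 0 ≤ δ) : W * δ + η * δ ≤ 2 * W * δ := by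
  nlinarith

theorem d1_ar2 {W η : ℝ} (hW : 1 ≤ W) (hηW : η ≤ W) : η * W + W ≤ 2 * W ^ 2 := by
  nlinarith

theorem d1_ar3 {W q x y : ℝ} (hx : x ≤ W ^ 2 * W ^ 2) (hy : y ≤ W ^ 2 * q) :
    2 * y + 2 * x ≤ 2 * W ^ 2 * q + 2 * W ^ 4 := by
  have h : W ^ 2 * W ^ 2 = W ^ 4 := by ring
  rw [h] at hx
  linarith

theorem d1_ar4 {W q x y : ℝ} (hx : x ≤ (2 * W ^ 2) ^ 2 * (4 * W ^ 4))
    (hy : y ≤ 2 * W ^ 4 * (2 * W ^ 2 * q + 2 * W ^ 4)) :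
    y + 2 * x ≤ 4 * W ^ 6 * q + 36 * W ^ 8 := by
  have h1 : (2 * W ^ 2) ^ 2 * (4 * W ^ 4) = 16 * W ^ 8 := by ring
  have h2 : 2 * W ^ 4 * (2 * W ^ 2 * q + 2 * W ^ 4) = 4 * W ^ 6 * q + 4 * W ^ 8 := by ring
  rw [h1] at hx
  rw [h2] at hy
  linarith

theorem d1_ar5 {W q x y : ℝ} (hx : x ≤ (W * W) ^ 2 * (4 * W ^ 4))
    (hy : y ≤ 2 * W ^ 4 * (W ^ 2 * q)) :
    y + 2 * x ≤ 2 * W ^ 6 * q + 8 * W ^ 8 := by
  have h1 : (W * W) ^ 2 * (4 * W ^ 4) = 4 * W ^ 8 := by ring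
  have h2 : 2 * W ^ 4 * (W ^ 2 * q) = 2 * W ^ 6 * q := by ring
  rw [h1] at hx
  rw [h2] at hy
  linarith

theorem d1_pw {W a b : ℝ} (hW : 1 ≤ W) {i j : ℕ} (hij : i ≤ j) (hb : 0 ≤ b) (hab : a ≤ b) :
    W ^ i * a ≤ W ^ j * b := by
  have h1 : W ^ i ≤ W ^ j := pow_le_pow_right₀ hW hij
  calc W ^ i * a ≤ W ^ i * b := mul_le_mul_of_nonneg_left hab (by positivity)
    _ ≤ W ^ j * b := mul_le_mul_of_nonneg_right h1 hb

theorem d1_fin {W η δ q t2 t n S0 S1 S2 S3 S4 S5 S6 : ℝ} (hW : 1 ≤ W) (hη : 0 ≤ η)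
    (hq0 : 0 ≤ q) (ht2 : 0 ≤ t2) (ht0 : 0 < t) (hn0 : 0 < n)
    (n0 : S0 ≤ 2 * η ^ 10 + 162 * W ^ 8 * δ ^ 2)
    (n1 : S1 ≤ 4 * W ^ 6 * q + 36 * W ^ 8) (n2 : S2 ≤ 2 * W ^ 6 * q + 8 * W ^ 8)
    (n3 : S3 ≤ 4 * W ^ 4 * (t2 * q)) (n4 : S4 ≤ 2 * W ^ 4 * (t2 * q) + 8 * W ^ 6 * t2)
    (n5 : S5 ≤ W ^ 4 * (t2 * q)) (n6 : S6 ≤ W ^ 2 * (t2 ^ 2 * q)) :
    S0 + 1 / t * S1 + 2 / n * S2 + 1 / (t * n) * S3 + 1 / (t * n) * S4 + 1 / n ^ 2 * S5 +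
      1 / (t * n ^ 2) * S6 ≤
    4 * η ^ 10 + 1000 * W ^ 12 * (δ ^ 2 + 1 / t + 1 / n + t2 / (t * n)) +
      100 * W ^ 8 * q * (1 / t + 1 / n + t2 / (t * n) + t2 / n ^ 2 + t2 ^ 2 / (t * n ^ 2)) := by
  have m1 := mul_le_mul_of_nonneg_left n1 (by positivity : 0 ≤ 1 / t)
  have m2 := mul_le_mul_of_nonneg_left n2 (by positivity : 0 ≤ 2 / n)
  have m3 := mul_le_mul_of_nonneg_left (add_le_add n3 n4) (by positivity : 0 ≤ 1 / (t * n))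
  have m5 := mul_le_mul_of_nonneg_left n5 (by positivity : 0 ≤ 1 / n ^ 2)
  have m6 := mul_le_mul_of_nonneg_left n6 (by positivity : 0 ≤ 1 / (t * n ^ 2))
  have htq : 0 ≤ t2 * q := mul_nonneg ht2 hq0
  have ht2q : 0 ≤ t2 ^ 2 * q := by positivity
  have hW8 : 0 ≤ W ^ 8 := by positivity
  have hW12 : 0 ≤ W ^ 12 := by positivity
  have hη10 : 0 ≤ η ^ 10 := by positivity
  have q1 : W ^ 8 * 1 ≤ W ^ 12 * 1 := d1_pw hW (by norm_num) zero_le_one le_rfl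
  have k0 : 162 * W ^ 8 * δ ^ 2 ≤ 1000 * W ^ 12 * δ ^ 2 :=
    mul_le_mul_of_nonneg_right (by linarith) (sq_nonneg δ)
  have k1 : 1 / t * (4 * W ^ 6 * q + 36 * W ^ 8) ≤ 1 / t * (100 * W ^ 8 * q + 1000 * W ^ 12) := by
    apply mul_le_mul_of_nonneg_left _ (by positivity)
    have := d1_pw hW (by norm_num : 6 ≤ 8) hq0 le_rfl
    have h2 := mul_nonneg hW8 hq0
    linarith
  have k2 : 2 / n * (2 * W ^ 6 * q + 8 * W ^ 8) ≤ 1 / n * (100 * W ^ 8 * q + 1000 * W ^ 12) := by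
    have h3 : 2 / n * (2 * W ^ 6 * q + 8 * W ^ 8) = 1 / n * (4 * W ^ 6 * q + 16 * W ^ 8) := by ring
    rw [h3]
    apply mul_le_mul_of_nonneg_left _ (by positivity)
    have := d1_pw hW (by norm_num : 6 ≤ 8) hq0 le_rfl
    have h2 := mul_nonneg hW8 hq0
    linarith
  have k3 : 1 / (t * n) * (4 * W ^ 4 * (t2 * q) + (2 * W ^ 4 * (t2 * q) + 8 * W ^ 6 * t2)) ≤
      1 / (t * n) * (100 * W ^ 8 * (t2 * q) + 1000 * W ^ 12 * t2) := by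
    apply mul_le_mul_of_nonneg_left _ (by positivity)
    have h1 := d1_pw hW (by norm_num : 4 ≤ 8) htq le_rfl
    have h2 := d1_pw hW (by norm_num : 6 ≤ 12) ht2 le_rfl
    have h3 := mul_nonneg hW8 htq
    have h4 := mul_nonneg hW12 ht2
    linarith
  have k5 : 1 / n ^ 2 * (W ^ 4 * (t2 * q)) ≤ 1 / n ^ 2 * (100 * W ^ 8 * (t2 * q)) := by
    apply mul_le_mul_of_nonneg_left _ (by positivity)
    have h1 := d1_pw hW (by norm_num : 4 ≤ 8) htq le_rfl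
    have h3 := mul_nonneg hW8 htq
    linarith
  have k6 : 1 / (t * n ^ 2) * (W ^ 2 * (t2 ^ 2 * q)) ≤
      1 / (t * n ^ 2) * (100 * W ^ 8 * (t2 ^ 2 * q)) := by
    apply mul_le_mul_of_nonneg_left _ (by positivity)
    have h1 := d1_pw hW (by norm_num : 2 ≤ 8) ht2q le_rfl
    have h3 := mul_nonneg hW8 ht2q
    linarith
  have fin : 4 * η ^ 10 + 1000 * W ^ 12 * (δ ^ 2 + 1 / t + 1 / n + t2 / (t * n)) +
      100 * W ^ 8 * q * (1 / t + 1 / n + t2 / (t * n) + t2 / n ^ 2 + t2 ^ 2 / (t * n ^ 2)) =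
      4 * η ^ 10 + 1000 * W ^ 12 * δ ^ 2 + 1 / t * (100 * W ^ 8 * q + 1000 * W ^ 12) +
      1 / n * (100 * W ^ 8 * q + 1000 * W ^ 12) +
      1 / (t * n) * (100 * W ^ 8 * (t2 * q) + 1000 * W ^ 12 * t2) +
      1 / n ^ 2 * (100 * W ^ 8 * (t2 * q)) + 1 / (t * n ^ 2) * (100 * W ^ 8 * (t2 ^ 2 * q)) := by
    ring
  rw [fin]
  have e3 : 1 / (t * n) * (S3 + S4) = 1 / (t * n) * S3 + 1 / (t * n) * S4 := by ring
  rw [e3] at m3
  linarith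

theorem d1_noise_pr (hν : ∀ y, 0 ≤ ν y) (hz : Iso ν z) {t2 : ℝ} (ht2 : 1 ≤ t2)
    (h1 : ∀ c : ι → ℝ, hs (TV ν z c) ≤ t2 * (c ⬝ᵥ c)) {b : ι → ℝ} (hb : b ⬝ᵥ b = 1)
    {W η δ : ℝ} (hW : 1 ≤ W) (hop : OpB (TV ν z b) W) (hη : 0 ≤ η) (hηW : η ≤ W) (hδ : 0 ≤ δ)
    (hδ1 : δ ≤ 1) (he : (TV ν z b *ᵥ b + η • b) ⬝ᵥ (TV ν z b *ᵥ b + η • b) ≤ δ ^ 2)
    (hd : t2 * δ ^ 2 ≤ W ^ 2) {t n : ℝ} (ht : 1 ≤ t) (hn : 1 ≤ n) :
    ∑ y, ν y * Nz3 ν z b (TV ν z (z y)) t n ≤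
      4 * η ^ 10 + 1000 * W ^ 12 * (δ ^ 2 + 1 / t + 1 / n + t2 / (t * n)) +
      100 * W ^ 8 * hs (TV ν z b * TV ν z b) *
        (1 / t + 1 / n + t2 / (t * n) + t2 / n ^ 2 + t2 ^ 2 / (t * n ^ 2)) := by
  set τ := TV ν z b with hτ
  set e := τ *ᵥ b + η • b with hedef
  set dl := τ *ᵥ e - η • e with hdl
  have hv : τ *ᵥ (τ *ᵥ b) = η ^ 2 • b + dl := d1_v hedef
  have hb1 : b ⬝ᵥ b ≤ (1 : ℝ) ^ 2 := by rw [hb]; norm_num
  have hτs : τᵀ = τ := TV_transpose b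
  have hW0 : 0 ≤ W := by linarith
  have ht0 : 0 < t := by linarith
  have hn0 : 0 < n := by linarith
  set q := hs (τ * τ) with hq
  have hq0 : 0 ≤ q := hs_nonneg _
  -- `dl`
  have hdl1 : dl ⬝ᵥ dl ≤ (2 * W * δ) ^ 2 := by
    have h1 := d1_op hop he
    have h2 := d1_smul (-η) he
    have h3 := d1_tri (by positivity : 0 ≤ W * δ) (by positivity : 0 ≤ η * δ) h1
      (b := (-η) • e) (by
        refine h2.trans (le_of_eq ?_)
        ring)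
    have h4 : dl = τ *ᵥ e + (-η) • e := by rw [hdl]; simp [sub_eq_add_neg]
    rw [h4]
    refine h3.trans ?_
    exact pow_le_pow_left₀ (by positivity) (d1_ar1 hηW hδ) 2
  have hTd : hs (TV ν z dl) ≤ 4 * W ^ 4 := by
    refine (h1 dl).trans ?_
    calc t2 * (dl ⬝ᵥ dl) ≤ t2 * (2 * W * δ) ^ 2 :=
          mul_le_mul_of_nonneg_left hdl1 (by linarith)
      _ = 4 * W ^ 2 * (t2 * δ ^ 2) := by ring
      _ ≤ 4 * W ^ 2 * W ^ 2 := mul_le_mul_of_nonneg_left hd (by positivity)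
      _ = _ := by ring
  have hTe : hs (TV ν z e) ≤ W ^ 2 := by
    refine (h1 e).trans ?_
    calc t2 * (e ⬝ᵥ e) ≤ t2 * δ ^ 2 := mul_le_mul_of_nonneg_left he (by linarith)
      _ ≤ _ := hd
  have hτ2 : hs τ ≤ t2 := by
    have := h1 b
    rwa [hb, mul_one] at this
  -- `T_v`
  have hTv : TV ν z (τ *ᵥ (τ *ᵥ b)) = η ^ 2 • τ + TV ν z dl := by
    rw [hv, TV_add, TV_smul]
  have hL : TV ν z (τ *ᵥ b) = (-η) • τ + TV ν z e := by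
    have h3 : τ *ᵥ b = (-η) • b + e := by rw [hedef]; simp
    rw [h3, TV_add, TV_smul]
  set v := τ *ᵥ (τ *ᵥ b) with hvdef
  set L := TV ν z (τ *ᵥ b) with hLdef
  set Td := TV ν z dl with hTddef
  have hLop : OpB L (2 * W ^ 2) := by
    have h3 : OpB ((-η) • τ) (η * W) := by
      intro w
      rw [Matrix.smul_mulVec, smul_dotProduct, dotProduct_smul, smul_eq_mul, smul_eq_mul]
      have := mul_le_mul_of_nonneg_left (hop w) (sq_nonneg η)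
      calc _ = η ^ 2 * ((τ *ᵥ w) ⬝ᵥ (τ *ᵥ w)) := by ring
        _ ≤ _ := this
        _ = _ := by ring
    have h4 : OpB (TV ν z e) W := by
      intro w
      refine (mulVec_sq_le _ w).trans ?_
      exact mul_le_mul_of_nonneg_right hTe (dot_self_nonneg w)
    have h5 := h3.add h4 (by positivity) hW0
    rw [← hL] at h5
    exact h5.mono (by positivity) (d1_ar2 hW hηW)
  have hη2 : η ^ 2 ≤ W ^ 2 := pow_le_pow_left₀ hη hηW 2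
  have hη4 : η ^ 4 ≤ W ^ 4 := pow_le_pow_left₀ hη hηW 4
  -- products with `T_v`
  have hmulTv : ∀ {κ : Type} [Fintype κ] (R : Matrix κ ι ℝ), hs (R * TV ν z v) ≤
      2 * η ^ 4 * hs (R * τ) + 2 * hs (R * Td) := by
    intro κ _ R
    rw [hTv, Matrix.mul_add, Matrix.mul_smul]
    refine (hs_add_le _ _).trans ?_
    rw [hs_smul]
    apply le_of_eq
    ring
  have hLτ : hs (L * τ) ≤ 2 * W ^ 2 * q + 2 * W ^ 4 := by
    rw [hL, Matrix.add_mul, Matrix.smul_mul]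
    refine (hs_add_le _ _).trans ?_
    rw [hs_smul]
    have h3 : hs (TV ν z e * τ) ≤ W ^ 2 * W ^ 2 := by
      refine (hs_mul_right (by rw [hτs]; exact hop) _).trans ?_
      exact mul_le_mul_of_nonneg_left hTe (sq_nonneg W)
    have h4 : (-η) ^ 2 * hs (τ * τ) ≤ W ^ 2 * q := by
      rw [neg_sq]
      exact mul_le_mul_of_nonneg_right hη2 hq0
    exact d1_ar3 h3 h4
  -- n0
  have n0 : ∑ y, ν y * (v ⬝ᵥ (TV ν z (z y) *ᵥ v)) ^ 2 ≤ 2 * η ^ 10 + 162 * W ^ 8 * δ ^ 2 := by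
    have e1 : ∑ y, ν y * (v ⬝ᵥ (TV ν z (z y) *ᵥ v)) ^ 2 =
        (TV ν z v *ᵥ v) ⬝ᵥ (TV ν z v *ᵥ v) := by
      rw [← hz.avg_dot]
      apply Finset.sum_congr rfl
      intro y _
      rw [dot_TV_swap, dotProduct_comm, sq]
    rw [e1]
    have e2 : TV ν z v *ᵥ v = (-η ^ 5) • b + (η ^ 4 • e + ((2 * η ^ 2) • (τ *ᵥ dl) + Td *ᵥ dl)) := by
      have h3 : τ *ᵥ b = (-η) • b + e := by rw [hedef]; simp
      have h4 : τ *ᵥ v = η ^ 2 • (τ *ᵥ b) + τ *ᵥ dl := by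
        rw [hv, Matrix.mulVec_add, Matrix.mulVec_smul]
      have h5 : Td *ᵥ v = η ^ 2 • (τ *ᵥ dl) + Td *ᵥ dl := by
        rw [hv, Matrix.mulVec_add, Matrix.mulVec_smul, hTddef, TV_comm dl b]
      rw [hTv, Matrix.add_mulVec, Matrix.smul_mulVec, h4, h5, h3]
      simp only [smul_add, smul_smul]
      module
    rw [e2]
    have a1 : ((-η ^ 5) • b) ⬝ᵥ ((-η ^ 5) • b) ≤ (η ^ 5) ^ 2 := by
      have := d1_smul (-η ^ 5) hb1
      refine this.trans (le_of_eq ?_)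
      ring
    have a2 := d1_smul (η ^ 4) he
    have a3 := d1_smul (2 * η ^ 2) (d1_op hop hdl1)
    have a4 : (Td *ᵥ dl) ⬝ᵥ (Td *ᵥ dl) ≤ (4 * W ^ 3 * δ) ^ 2 := by
      refine (mulVec_sq_le _ _).trans ?_
      calc hs Td * (dl ⬝ᵥ dl) ≤ (4 * W ^ 4) * (2 * W * δ) ^ 2 :=
            mul_le_mul hTd hdl1 (dot_self_nonneg _) (by positivity)
        _ = (4 * W ^ 3 * δ) ^ 2 := by ring
    have a5 := d1_tri (by positivity) (by positivity : 0 ≤ 4 * W ^ 3 * δ) a3 a4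
    have a6 := d1_tri (by positivity) (by positivity) a2 a5
    have hpos : 0 ≤ η ^ 4 * δ + (2 * η ^ 2 * (W * (2 * W * δ)) + 4 * W ^ 3 * δ) := by positivity
    have a7 : (η ^ 4 * δ + (2 * η ^ 2 * (W * (2 * W * δ)) + 4 * W ^ 3 * δ)) ≤ 9 * W ^ 4 * δ := by
      have h6 : W ^ 3 ≤ W ^ 4 := pow_le_pow_right₀ hW (by norm_num)
      have h7 : η ^ 4 * δ ≤ W ^ 4 * δ := mul_le_mul_of_nonneg_right hη4 hδ
      have h8 : 2 * η ^ 2 * (W * (2 * W * δ)) ≤ 4 * W ^ 4 * δ := by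
        calc 2 * η ^ 2 * (W * (2 * W * δ)) = η ^ 2 * (4 * W ^ 2 * δ) := by ring
          _ ≤ W ^ 2 * (4 * W ^ 2 * δ) := mul_le_mul_of_nonneg_right hη2 (by positivity)
          _ = _ := by ring
      have h9 : 4 * W ^ 3 * δ ≤ 4 * W ^ 4 * δ := mul_le_mul_of_nonneg_right (by linarith) hδ
      linarith
    refine (dot_add_sq_le _ _).trans ?_
    have a8 := a6.trans (pow_le_pow_left₀ hpos a7 2)
    calc _ ≤ 2 * (η ^ 5) ^ 2 + 2 * (9 * W ^ 4 * δ) ^ 2 := by linarith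
      _ = _ := by ring
  -- n1
  have n1 : ∑ y, ν y * ((L *ᵥ (TV ν z (z y) *ᵥ v)) ⬝ᵥ (L *ᵥ (TV ν z (z y) *ᵥ v))) ≤
      4 * W ^ 6 * q + 36 * W ^ 8 := by
    rw [hz.avg_K]
    refine (hmulTv L).trans ?_
    have h3 : hs (L * Td) ≤ (2 * W ^ 2) ^ 2 * (4 * W ^ 4) :=
      (hs_mul_left hLop _).trans (mul_le_mul_of_nonneg_left hTd (by positivity))
    have h4 : 2 * η ^ 4 * hs (L * τ) ≤ 2 * W ^ 4 * (2 * W ^ 2 * q + 2 * W ^ 4) :=
      mul_le_mul (by linarith) hLτ (hs_nonneg _) (by positivity)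
    exact d1_ar4 h3 h4
  -- n2
  have n2 : ∑ y, ν y * (((τ * τ) *ᵥ (TV ν z (z y) *ᵥ v)) ⬝ᵥ ((τ * τ) *ᵥ (TV ν z (z y) *ᵥ v))) ≤
      2 * W ^ 6 * q + 8 * W ^ 8 := by
    rw [hz.avg_K]
    refine (hmulTv (τ * τ)).trans ?_
    have h3 : hs (τ * τ * Td) ≤ (W * W) ^ 2 * (4 * W ^ 4) :=
      (hs_mul_left (hop.mul hop) _).trans (mul_le_mul_of_nonneg_left hTd (by positivity))
    have h4 : hs (τ * τ * τ) ≤ W ^ 2 * q := hs_mul_right (by rw [hτs]; exact hop) _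
    have h5 : 2 * η ^ 4 * hs (τ * τ * τ) ≤ 2 * W ^ 4 * (W ^ 2 * q) :=
      mul_le_mul (by linarith) h4 (hs_nonneg _) (by positivity)
    exact d1_ar5 h3 h5
  -- n12
  have n12 : ∑ y, ν y * hs (L * TV ν z (z y) * (τ * τ)) ≤ 4 * W ^ 4 * (t2 * q) := by
    rw [hz.avg_hs]
    calc _ ≤ ∑ j, (2 * W ^ 2) ^ 2 * hs (TV ν z (fun i => (τ * τ) i j)) :=
          Finset.sum_le_sum fun j _ => hs_mul_left hLop _
      _ = (2 * W ^ 2) ^ 2 * ∑ j, hs (TV ν z (fun i => (τ * τ) i j)) := by rw [Finset.mul_sum]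
      _ ≤ (2 * W ^ 2) ^ 2 * (t2 * q) :=
          mul_le_mul_of_nonneg_left (sum_hs_TV_le h1 _) (by positivity)
      _ = _ := by ring
  -- n13
  have n13 : ∑ y, ν y * hs (TV ν z (TV ν z (z y) *ᵥ v) * τ) ≤
      2 * W ^ 4 * (t2 * q) + 8 * W ^ 6 * t2 := by
    have e1 : ∀ y, hs (TV ν z (TV ν z (z y) *ᵥ v) * τ) = hs (TV ν z (TV ν z v *ᵥ z y) * τ) := by
      intro y
      rw [TV_comm]
    simp only [e1]
    rw [d1_avg hz]
    have h3 : ∑ j, hs (TV ν z (fun i => τ i j) * Td) ≤ W ^ 2 * (t2 * (4 * W ^ 4)) := by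
      rw [d1_swap]
      calc _ ≤ ∑ k, W ^ 2 * hs (TV ν z fun i => Td i k) :=
            Finset.sum_le_sum fun k _ => hs_mul_right (by rw [hτs]; exact hop) _
        _ = W ^ 2 * ∑ k, hs (TV ν z fun i => Td i k) := by rw [Finset.mul_sum]
        _ ≤ W ^ 2 * (t2 * hs Td) := mul_le_mul_of_nonneg_left (sum_hs_TV_le h1 _) (by positivity)
        _ ≤ _ := by
            apply mul_le_mul_of_nonneg_left _ (by positivity)
            exact mul_le_mul_of_nonneg_left hTd (by linarith)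
    calc _ ≤ ∑ j, (2 * η ^ 4 * hs (TV ν z (fun i => τ i j) * τ) +
            2 * hs (TV ν z (fun i => τ i j) * Td)) := Finset.sum_le_sum fun j _ => hmulTv _
      _ = 2 * η ^ 4 * ∑ j, hs (TV ν z (fun i => τ i j) * τ) +
            2 * ∑ j, hs (TV ν z (fun i => τ i j) * Td) := by
          rw [Finset.sum_add_distrib, Finset.mul_sum, Finset.mul_sum]
      _ ≤ 2 * W ^ 4 * (t2 * q) + 2 * (W ^ 2 * (t2 * (4 * W ^ 4))) := by
          apply add_le_add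
          · apply mul_le_mul (by linarith) (d1_S h1 hτs) _ (by positivity)
            exact Finset.sum_nonneg fun _ _ => hs_nonneg _
          · linarith
      _ = _ := by ring
  -- n23
  have n23 : ∑ y, ν y * hs (τ * τ * TV ν z (z y) * (τ * τ)) ≤ W ^ 4 * (t2 * q) := by
    rw [hz.avg_hs]
    calc _ ≤ ∑ j, (W * W) ^ 2 * hs (TV ν z (fun i => (τ * τ) i j)) :=
          Finset.sum_le_sum fun j _ => hs_mul_left (hop.mul hop) _
      _ = (W * W) ^ 2 * ∑ j, hs (TV ν z (fun i => (τ * τ) i j)) := by rw [Finset.mul_sum]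
      _ ≤ (W * W) ^ 2 * (t2 * q) :=
          mul_le_mul_of_nonneg_left (sum_hs_TV_le h1 _) (by positivity)
      _ = _ := by ring
  -- n123
  have n123 : ∑ y, ν y * ∑ f, hs (TV ν z (fun k => (TV ν z (z y) * (τ * τ)) k f) * τ) ≤
      W ^ 2 * (t2 ^ 2 * q) := by
    calc _ ≤ ∑ y, ν y * (W ^ 2 * (t2 * hs (TV ν z (z y) * (τ * τ)))) := by
          apply Finset.sum_le_sum
          intro y _
          apply mul_le_mul_of_nonneg_left _ (hν y)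
          calc _ ≤ ∑ f, W ^ 2 * hs (TV ν z (fun k => (TV ν z (z y) * (τ * τ)) k f)) :=
                Finset.sum_le_sum fun k _ => hs_mul_right (by rw [hτs]; exact hop) _
            _ = W ^ 2 * ∑ f, hs (TV ν z (fun k => (TV ν z (z y) * (τ * τ)) k f)) := by
                rw [Finset.mul_sum]
            _ ≤ _ := mul_le_mul_of_nonneg_left (sum_hs_TV_le h1 _) (by positivity)
      _ = W ^ 2 * t2 * ∑ y, ν y * hs ((1 : Matrix ι ι ℝ) * TV ν z (z y) * (τ * τ)) := by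
          rw [Finset.mul_sum]
          apply Finset.sum_congr rfl
          intro y _
          rw [Matrix.one_mul]
          ring
      _ ≤ W ^ 2 * t2 * (t2 * q) := by
          apply mul_le_mul_of_nonneg_left _ (by positivity)
          rw [hz.avg_hs]
          simp only [Matrix.one_mul]
          exact sum_hs_TV_le h1 _
      _ = _ := by ring
  -- sum
  have hsum : ∑ y, ν y * Nz3 ν z b (TV ν z (z y)) t n =
      ∑ y, ν y * (v ⬝ᵥ (TV ν z (z y) *ᵥ v)) ^ 2 +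
      1 / t * ∑ y, ν y * ((L *ᵥ (TV ν z (z y) *ᵥ v)) ⬝ᵥ (L *ᵥ (TV ν z (z y) *ᵥ v))) +
      2 / n * ∑ y, ν y * (((τ * τ) *ᵥ (TV ν z (z y) *ᵥ v)) ⬝ᵥ
        ((τ * τ) *ᵥ (TV ν z (z y) *ᵥ v))) +
      1 / (t * n) * ∑ y, ν y * hs (L * TV ν z (z y) * (τ * τ)) +
      1 / (t * n) * ∑ y, ν y * hs (TV ν z (TV ν z (z y) *ᵥ v) * τ) +
      1 / n ^ 2 * ∑ y, ν y * hs (τ * τ * TV ν z (z y) * (τ * τ)) +
      1 / (t * n ^ 2) * ∑ y, ν y * ∑ f, hs (TV ν z (fun k => (TV ν z (z y) * (τ * τ)) k f) * τ) := by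
    rw [Finset.mul_sum, Finset.mul_sum, Finset.mul_sum, Finset.mul_sum, Finset.mul_sum,
      Finset.mul_sum, ← Finset.sum_add_distrib, ← Finset.sum_add_distrib,
      ← Finset.sum_add_distrib, ← Finset.sum_add_distrib, ← Finset.sum_add_distrib,
      ← Finset.sum_add_distrib]
    apply Finset.sum_congr rfl
    intro y _
    show ν y * ((v ⬝ᵥ (TV ν z (z y) *ᵥ v)) ^ 2 + 1 / t * ((L *ᵥ (TV ν z (z y) *ᵥ v)) ⬝ᵥ
        (L *ᵥ (TV ν z (z y) *ᵥ v))) +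
      2 / n * (((τ * τ) *ᵥ (TV ν z (z y) *ᵥ v)) ⬝ᵥ ((τ * τ) *ᵥ (TV ν z (z y) *ᵥ v))) +
      1 / (t * n) * hs (L * TV ν z (z y) * (τ * τ)) +
      1 / (t * n) * hs (TV ν z (TV ν z (z y) *ᵥ v) * τ) +
      1 / n ^ 2 * hs ((τ * τ) * TV ν z (z y) * (τ * τ)) +
      1 / (t * n ^ 2) * ∑ f, hs (TV ν z (fun k => (TV ν z (z y) * (τ * τ)) k f) * τ)) = _
    ring
  rw [hsum]
  exact d1_fin hW hη hq0 (by linarith) ht0 hn0 n0 n1 n2 n12 n13 n23 n123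

alias d1_signal := d1_signal_pr
alias d1_noise := d1_noise_pr

end Pool.Agent.LRC
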