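import Pool.Agent.Lib_helper94.LRF.C1
import Pool.Agent.Lib_helper94.LRC.Defs2

/-!
# LRC, block G2: the first decoder in powers of `R`
-/

set_option autoImplicit false
set_option linter.unusedSectionVars false

open Finset Matrix

namespace Pool.Agent.LRC

open Pool.Agent.LR2

section Pw

/-- absorbing a constant -/
theorem g2_abs {R s C e f : ℝ} (hR : 1 ≤ R) (hC : C ≤ R ^ s) (he : e + s ≤ f) :
    C * R ^ e ≤ R ^ f := by
  have hR0 : 0 < R := by linarith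
  calc C * R ^ e ≤ R ^ s * R ^ e := mul_le_mul_of_nonneg_right hC (Real.rpow_nonneg hR0.le _)
    _ = R ^ (s + e) := (Real.rpow_add hR0 _ _).symm
    _ ≤ R ^ f := Real.rpow_le_rpow_of_exponent_le hR (by linarith)

/-- the parameters of the first decoder: `Δ` -/
theorem g2_delta {R s c L : ℝ} {t m : ℕ} (hs0 : 0 < s) (hsc : 1000 * s ≤ c) (hc : c ≤ 1 / 10 ^ 8)
    (hR : 1 ≤ R) (hK : 10 ^ 6 ≤ R ^ s) (hL0 : 0 ≤ L) (hL : L ≤ R ^ s)
    (ht : t = ⌈R ^ (1 / 2 - c)⌉₊) (hm : m = ⌈R ^ (1 / 2 - c / 2)⌉₊) :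
    Real.sqrt (12 * (((t : ℝ) + 2 * t) * L + 2) / m) +
      (2 * ((R ^ (-(c / 4)) * 1 + 17 * (R ^ (-(1 / 2) + s) / R ^ (-(c / 4)))) +
        4 * (R ^ (-(1 / 2) + s) / R ^ (-(c / 4))) * (m * Real.log 2 + 2)) + 0) ≤
      R ^ (-(c / 4) + 2 * s) := by
  have hR0 : 0 < R := by linarith
  have hp : ∀ a b : ℝ, a ≤ b → R ^ a ≤ R ^ b := fun a b hab =>
    Real.rpow_le_rpow_of_exponent_le hR hab
  have h1 : ∀ a : ℝ, 0 ≤ a → 1 ≤ R ^ a := fun a ha => Real.one_le_rpow hR ha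
  have h0 : ∀ a : ℝ, 0 < R ^ a := fun a => Real.rpow_pos_of_pos hR0 a
  have hadd : ∀ a b : ℝ, R ^ a * R ^ b = R ^ (a + b) := fun a b => (Real.rpow_add hR0 a b).symm
  have hc1 : c ≤ 1 / 100 := by norm_num at hc ⊢; linarith
  have ht2 : (t : ℝ) ≤ 2 * R ^ (1 / 2 - c) := by
    rw [ht]
    have e1 := (Nat.ceil_lt_add_one (h0 (1 / 2 - c)).le).le
    have e2 := h1 (1 / 2 - c) (by linarith)
    linarith
  have hm1 : R ^ (1 / 2 - c / 2) ≤ (m : ℝ) := by rw [hm]; exact Nat.le_ceil _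
  have hm2 : (m : ℝ) ≤ 2 * R ^ (1 / 2 - c / 2) := by
    rw [hm]
    have e1 := (Nat.ceil_lt_add_one (h0 (1 / 2 - c / 2)).le).le
    have e2 := h1 (1 / 2 - c / 2) (by linarith)
    linarith
  have hm0 : (0 : ℝ) < m := (h0 _).trans_le hm1
  -- the square root
  have hA : Real.sqrt (12 * (((t : ℝ) + 2 * t) * L + 2) / m) ≤ 10 * R ^ (-(c / 4) + s) := by
    rw [Real.sqrt_le_left (by have := h0 (-(c / 4) + s); linarith)]
    rw [div_le_iff₀ hm0, mul_pow, ← Real.rpow_natCast (R ^ _), ← Real.rpow_mul hR0.le]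
    have e1 : ((t : ℝ) + 2 * t) * L ≤ 6 * R ^ (1 / 2 - c) * R ^ s := by
      refine mul_le_mul (by linarith) hL hL0 (by have := h0 (1 / 2 - c); linarith)
    rw [mul_assoc, hadd] at e1
    have e2 : 2 ≤ 2 * R ^ (1 / 2 - c + s) := by
      have := h1 (1 / 2 - c + s) (by linarith)
      linarith
    have e3 : (10 : ℝ) ^ 2 * R ^ ((-(c / 4) + s) * ((2 : ℕ) : ℝ)) * R ^ (1 / 2 - c / 2) ≤
        10 ^ 2 * R ^ ((-(c / 4) + s) * ((2 : ℕ) : ℝ)) * m :=
      mul_le_mul_of_nonneg_left hm1 (mul_nonneg (by norm_num) (h0 _).le)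
    refine le_trans ?_ e3
    rw [mul_assoc ((10 : ℝ) ^ 2), hadd]
    have e4 : R ^ (1 / 2 - c + s) ≤
        R ^ ((-(c / 4) + s) * ((2 : ℕ) : ℝ) + (1 / 2 - c / 2)) := by
      apply hp
      push_cast
      linarith
    have := h0 (1 / 2 - c + s)
    nlinarith
  have hlog : Real.log 2 ≤ 1 := by
    have := Real.log_two_lt_d9
    linarith
  have hdiv : R ^ (-(1 / 2) + s) / R ^ (-(c / 4)) = R ^ (-(1 / 2) + s + c / 4) := by
    rw [← Real.rpow_sub hR0]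
    congr 1
    ring
  rw [hdiv]
  have hB : 4 * R ^ (-(1 / 2) + s + c / 4) * (m * Real.log 2 + 2) ≤ 16 * R ^ (-(c / 4) + s) := by
    have e1 : (m : ℝ) * Real.log 2 + 2 ≤ 4 * R ^ (1 / 2 - c / 2) := by
      have e2 : (m : ℝ) * Real.log 2 ≤ m * 1 := mul_le_mul_of_nonneg_left hlog hm0.le
      have e3 := h1 (1 / 2 - c / 2) (by linarith)
      linarith
    calc 4 * R ^ (-(1 / 2) + s + c / 4) * (m * Real.log 2 + 2)
        ≤ 4 * R ^ (-(1 / 2) + s + c / 4) * (4 * R ^ (1 / 2 - c / 2)) :=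
          mul_le_mul_of_nonneg_left e1 (by have := h0 (-(1 / 2) + s + c / 4); linarith)
      _ = 16 * (R ^ (-(1 / 2) + s + c / 4) * R ^ (1 / 2 - c / 2)) := by ring
      _ = 16 * R ^ (-(c / 4) + s) := by
          rw [hadd]
          congr 2
          ring
  have hC : R ^ (-(c / 4)) ≤ R ^ (-(c / 4) + s) := hp _ _ (by linarith)
  have hD : R ^ (-(1 / 2) + s + c / 4) ≤ R ^ (-(c / 4) + s) := hp _ _ (by linarith)
  have hE : 78 * R ^ (-(c / 4) + s) ≤ R ^ (-(c / 4) + 2 * s) :=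
    g2_abs (s := s) hR (by linarith) (by linarith)
  have := h0 (-(c / 4) + s)
  linarith

/-- the parameters of the first decoder: `N` -/
theorem g2_N {R s c U Q : ℝ} {t : ℕ} (hs0 : 0 < s) (hsc : 1000 * s ≤ c) (hc : c ≤ 1 / 10 ^ 8)
    (hR : 1 ≤ R) (hK : 10 ^ 6 ≤ R ^ s) (ht : t = ⌈R ^ (1 / 2 - c)⌉₊) (hU0 : 0 ≤ U) (hU1 : U ≤ 1)
    (hQ0 : 0 ≤ Q) (hQ : Q ≤ R ^ (1 / 2 - 3 * c)) :
    4 * (2 * U / R ^ (-s)) ^ 10 + 1000 * (R ^ (5 * s)) ^ 12 * ((R ^ (-(1 / 4) + 4 * s)) ^ 2 +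
        1 / (t : ℝ) + 1 / (t : ℝ) + R ^ (1 / 2 + s) / ((t : ℝ) * t)) +
      100 * (R ^ (5 * s)) ^ 8 * Q * (1 / (t : ℝ) + 1 / (t : ℝ) + R ^ (1 / 2 + s) / ((t : ℝ) * t) +
        R ^ (1 / 2 + s) / (t : ℝ) ^ 2 + (R ^ (1 / 2 + s)) ^ 2 / ((t : ℝ) * (t : ℝ) ^ 2)) ≤
      R ^ (61 * s) := by
  have hR0 : 0 < R := by linarith
  have hp : ∀ a b : ℝ, a ≤ b → R ^ a ≤ R ^ b := fun a b hab =>
    Real.rpow_le_rpow_of_exponent_le hR hab
  have h0 : ∀ a : ℝ, 0 < R ^ a := fun a => Real.rpow_pos_of_pos hR0 a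
  have hadd : ∀ a b : ℝ, R ^ a * R ^ b = R ^ (a + b) := fun a b => (Real.rpow_add hR0 a b).symm
  have hpow : ∀ (a : ℝ) (n : ℕ), (R ^ a) ^ n = R ^ (a * n) := fun a n => by
    rw [← Real.rpow_natCast (R ^ a), ← Real.rpow_mul hR0.le]
  have hle1 : ∀ a : ℝ, a ≤ 0 → R ^ a ≤ 1 := fun a ha =>
    Real.rpow_le_one_of_one_le_of_nonpos hR ha
  have hc1 : c ≤ 1 / 100 := by norm_num at hc ⊢; linarith
  have ht1 : R ^ (1 / 2 - c) ≤ (t : ℝ) := by rw [ht]; exact Nat.le_ceil _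
  set T : ℝ := (t : ℝ) with hT
  have hT0 : 0 < T := (h0 _).trans_le ht1
  have hti : 1 / T ≤ R ^ (-(1 / 2 - c)) := by
    rw [Real.rpow_neg hR0.le, ← one_div]
    exact one_div_le_one_div_of_le (h0 _) ht1
  have hti0 : 0 ≤ 1 / T := by positivity
  set q : ℝ := R ^ (-(1 / 2 - c)) with hq
  have hq0 : 0 < q := h0 _
  have hT2 : R ^ (1 / 2 + s) / (T * T) ≤ R ^ (-(1 / 2) + s + 2 * c) := by
    have e1 : R ^ (1 / 2 + s) / (T * T) = R ^ (1 / 2 + s) * (1 / T * (1 / T)) := by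
      field_simp
    rw [e1]
    calc R ^ (1 / 2 + s) * (1 / T * (1 / T)) ≤ R ^ (1 / 2 + s) * (q * q) := by
          apply mul_le_mul_of_nonneg_left _ (h0 _).le
          exact mul_le_mul hti hti hti0 hq0.le
      _ = R ^ (-(1 / 2) + s + 2 * c) := by
          rw [hq, hadd, hadd]
          congr 1
          ring
  have hT2' : R ^ (1 / 2 + s) / T ^ 2 ≤ R ^ (-(1 / 2) + s + 2 * c) := by
    rw [sq]; exact hT2
  have hT3 : (R ^ (1 / 2 + s)) ^ 2 / (T * T ^ 2) ≤ R ^ (-(1 / 2) + 2 * s + 3 * c) := by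
    have e1 : (R ^ (1 / 2 + s)) ^ 2 / (T * T ^ 2) =
        (R ^ (1 / 2 + s)) ^ 2 * (1 / T * (1 / T * (1 / T))) := by
      field_simp
    rw [e1]
    calc (R ^ (1 / 2 + s)) ^ 2 * (1 / T * (1 / T * (1 / T))) ≤
        (R ^ (1 / 2 + s)) ^ 2 * (q * (q * q)) := by
          apply mul_le_mul_of_nonneg_left _ (by positivity)
          exact mul_le_mul hti (mul_le_mul hti hti hti0 hq0.le) (by positivity) hq0.le
      _ = R ^ (-(1 / 2) + 2 * s + 3 * c) := by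
          rw [hq, hpow, hadd, hadd, hadd]
          congr 1
          push_cast
          ring
  -- the three terms
  have hA : 4 * (2 * U / R ^ (-s)) ^ 10 ≤ 4096 * R ^ (60 * s) := by
    have e1 : 2 * U / R ^ (-s) ≤ 2 * R ^ s := by
      rw [div_le_iff₀ (h0 _), mul_assoc, hadd]
      have : R ^ (s + -s) = 1 := by rw [add_neg_cancel, Real.rpow_zero]
      rw [this]
      linarith
    have e2 : (2 * U / R ^ (-s)) ^ 10 ≤ (2 * R ^ s) ^ 10 := by
      apply pow_le_pow_left₀ _ e1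
      have := h0 (-s)
      positivity
    have e3 : (2 * R ^ s) ^ 10 = 1024 * R ^ (10 * s) := by
      rw [mul_pow, hpow]
      congr 1
      · norm_num
      · congr 1
        push_cast
        ring
    have e4 : R ^ (10 * s) ≤ R ^ (60 * s) := hp _ _ (by linarith)
    rw [e3] at e2
    linarith
  have hB : 1000 * (R ^ (5 * s)) ^ 12 * ((R ^ (-(1 / 4) + 4 * s)) ^ 2 +
        1 / T + 1 / T + R ^ (1 / 2 + s) / (T * T)) ≤ 4000 * R ^ (60 * s) := by
    have e1 : (R ^ (5 * s)) ^ 12 = R ^ (60 * s) := by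
      rw [hpow]
      congr 1
      push_cast
      ring
    have e2 : (R ^ (-(1 / 4) + 4 * s)) ^ 2 ≤ 1 := by
      rw [hpow]
      apply hle1
      push_cast
      linarith
    have e3 : q ≤ 1 := hle1 _ (by linarith)
    have e4 : R ^ (-(1 / 2) + s + 2 * c) ≤ 1 := hle1 _ (by linarith)
    rw [e1]
    have e5 : (R ^ (-(1 / 4) + 4 * s)) ^ 2 + 1 / T + 1 / T + R ^ (1 / 2 + s) / (T * T) ≤ 4 := by
      linarith
    calc 1000 * R ^ (60 * s) * ((R ^ (-(1 / 4) + 4 * s)) ^ 2 +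
        1 / T + 1 / T + R ^ (1 / 2 + s) / (T * T)) ≤ 1000 * R ^ (60 * s) * 4 :=
          mul_le_mul_of_nonneg_left e5 (by have := h0 (60 * s); linarith)
      _ = _ := by ring
  have hC : 100 * (R ^ (5 * s)) ^ 8 * Q * (1 / T + 1 / T + R ^ (1 / 2 + s) / (T * T) +
        R ^ (1 / 2 + s) / T ^ 2 + (R ^ (1 / 2 + s)) ^ 2 / (T * T ^ 2)) ≤
      500 * R ^ (60 * s) := by
    have e1 : (R ^ (5 * s)) ^ 8 = R ^ (40 * s) := by
      rw [hpow]
      congr 1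
      push_cast
      ring
    have e3 : q ≤ R ^ (-(1 / 2) + 2 * s + 3 * c) := hp _ _ (by linarith)
    have e4 : R ^ (-(1 / 2) + s + 2 * c) ≤ R ^ (-(1 / 2) + 2 * s + 3 * c) := hp _ _ (by linarith)
    have e5 : 1 / T + 1 / T + R ^ (1 / 2 + s) / (T * T) +
        R ^ (1 / 2 + s) / T ^ 2 + (R ^ (1 / 2 + s)) ^ 2 / (T * T ^ 2) ≤
        5 * R ^ (-(1 / 2) + 2 * s + 3 * c) := by
      linarith
    rw [e1]
    calc 100 * R ^ (40 * s) * Q * (1 / T + 1 / T + R ^ (1 / 2 + s) / (T * T) +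
        R ^ (1 / 2 + s) / T ^ 2 + (R ^ (1 / 2 + s)) ^ 2 / (T * T ^ 2)) ≤
        100 * R ^ (40 * s) * R ^ (1 / 2 - 3 * c) * (5 * R ^ (-(1 / 2) + 2 * s + 3 * c)) := by
          apply mul_le_mul _ e5 (by positivity) (by positivity)
          exact mul_le_mul_of_nonneg_left hQ (by positivity)
      _ = 500 * (R ^ (40 * s) * (R ^ (1 / 2 - 3 * c) * R ^ (-(1 / 2) + 2 * s + 3 * c))) := by ring
      _ ≤ 500 * R ^ (60 * s) := by
          apply mul_le_mul_of_nonneg_left _ (by norm_num)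
          rw [hadd, hadd]
          exact hp _ _ (by linarith)
  have hE : 10 ^ 6 * R ^ (60 * s) ≤ R ^ (61 * s) := g2_abs (s := s) hR hK (by linarith)
  have := h0 (60 * s)
  linarith

/-- the end of the argument -/
theorem g2_end {R s c S U Δ N : ℝ} (hs0 : 0 < s) (hsc : 1000 * s ≤ c) (hc : c ≤ 1 / 10 ^ 8)
    (hR : 1 ≤ R) (hK : 10 ^ 6 ≤ R ^ s) (hU : R ^ (-s) ≤ U) (hS : 1 / 2 ≤ S)
    (hΔ : Δ = R ^ (-(c / 4) + 2 * s)) (hN0 : 0 ≤ N) (hN : N ≤ R ^ (61 * s))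
    (hmain : U ^ 5 / 8 * S ≤ 52 * (R ^ (5 * s)) ^ 4 * R ^ (-(1 / 4) + 4 * s) +
      Real.sqrt (R ^ (-(1 / 2) + s) * N) + Real.sqrt (8 * Δ * N)) : False := by
  have hR0 : 0 < R := by linarith
  have hp : ∀ a b : ℝ, a ≤ b → R ^ a ≤ R ^ b := fun a b hab =>
    Real.rpow_le_rpow_of_exponent_le hR hab
  have h0 : ∀ a : ℝ, 0 < R ^ a := fun a => Real.rpow_pos_of_pos hR0 a
  have hadd : ∀ a b : ℝ, R ^ a * R ^ b = R ^ (a + b) := fun a b => (Real.rpow_add hR0 a b).symm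
  have hpow : ∀ (a : ℝ) (n : ℕ), (R ^ a) ^ n = R ^ (a * n) := fun a n => by
    rw [← Real.rpow_natCast (R ^ a), ← Real.rpow_mul hR0.le]
  have hc1 : c ≤ 1 / 100 := by norm_num at hc ⊢; linarith
  -- square roots of powers
  have hsq : ∀ {y C e : ℝ}, 0 ≤ C → y ≤ C ^ 2 * R ^ (2 * e) → Real.sqrt y ≤ C * R ^ e := by
    intro y C e hC hy
    rw [Real.sqrt_le_left (mul_nonneg hC (h0 e).le), mul_pow, hpow]
    refine hy.trans (le_of_eq ?_)
    congr 2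
    push_cast
    ring
  set E : ℝ := R ^ (-(5 * s)) with hE
  have hE0 : 0 < E := h0 _
  have T1 : 52 * (R ^ (5 * s)) ^ 4 * R ^ (-(1 / 4) + 4 * s) ≤ E / 100 := by
    have e1 : 52 * (R ^ (5 * s)) ^ 4 * R ^ (-(1 / 4) + 4 * s) =
        52 * R ^ (5 * s * 4 + (-(1 / 4) + 4 * s)) := by
      rw [hpow, ← hadd (5 * s * 4) (-(1 / 4) + 4 * s)]
      push_cast
      ring
    have e2 : 5200 * R ^ (5 * s * 4 + (-(1 / 4) + 4 * s)) ≤ E :=
      g2_abs (s := s) hR (by linarith) (by linarith)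
    rw [e1]
    linarith
  have T2 : Real.sqrt (R ^ (-(1 / 2) + s) * N) ≤ E / 100 := by
    have e1 : Real.sqrt (R ^ (-(1 / 2) + s) * N) ≤ 1 * R ^ (-(1 / 4) + 31 * s) := by
      apply hsq (by norm_num)
      rw [one_pow, one_mul]
      calc R ^ (-(1 / 2) + s) * N ≤ R ^ (-(1 / 2) + s) * R ^ (61 * s) :=
            mul_le_mul_of_nonneg_left hN (h0 _).le
        _ ≤ _ := by
            rw [hadd]
            exact hp _ _ (by linarith)
    have e2 : 100 * R ^ (-(1 / 4) + 31 * s) ≤ E :=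
      g2_abs (s := s) hR (by linarith) (by linarith)
    linarith
  have T3 : Real.sqrt (8 * Δ * N) ≤ E / 100 := by
    have e1 : Real.sqrt (8 * Δ * N) ≤ 3 * R ^ (-(c / 8) + 32 * s) := by
      apply hsq (by norm_num)
      rw [hΔ]
      calc 8 * R ^ (-(c / 4) + 2 * s) * N ≤ 8 * R ^ (-(c / 4) + 2 * s) * R ^ (61 * s) :=
            mul_le_mul_of_nonneg_left hN (by have := h0 (-(c / 4) + 2 * s); linarith)
        _ = 8 * R ^ (-(c / 4) + 2 * s + 61 * s) := by rw [mul_assoc, hadd]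
        _ ≤ 8 * R ^ (2 * (-(c / 8) + 32 * s)) :=
            mul_le_mul_of_nonneg_left (hp _ _ (by linarith)) (by norm_num)
        _ ≤ 3 ^ 2 * R ^ (2 * (-(c / 8) + 32 * s)) := by
            have := h0 (2 * (-(c / 8) + 32 * s))
            linarith
    have e2 : 300 * R ^ (-(c / 8) + 32 * s) ≤ E :=
      g2_abs (s := s) hR (by linarith) (by linarith)
    linarith
  have hU5 : E ≤ U ^ 5 := by
    have e1 : (R ^ (-s)) ^ 5 ≤ U ^ 5 := pow_le_pow_left₀ (h0 _).le hU 5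
    have e2 : (R ^ (-s)) ^ 5 = E := by
      rw [hpow, hE]
      congr 1
      push_cast
      ring
    rwa [e2] at e1
  have hL : E / 16 ≤ U ^ 5 / 8 * S := by
    have e1 : E / 8 * (1 / 2) ≤ U ^ 5 / 8 * S :=
      mul_le_mul (by linarith) hS (by norm_num) (by linarith)
    linarith
  linarith

end Pw

/-- G2: consequence of the first decoder -/
theorem g2_pr (s c : ℝ) (hs0 : 0 < s) (hsc : 1000 * s ≤ c) (hc : c ≤ 1 / 10 ^ 8) :
    ∃ R0 : ℝ, ∀ R : ℝ, R0 ≤ R → ∀ {X Y ι : Type} [Fintype X] [Fintype Y] [Fintype ι]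
      [DecidableEq ι] {μ : X → ℝ} {ν : Y → ℝ} {M : X → Y → ℝ} {U : ℝ} {V : ι → ℝ}
      {be : X → ι → ℝ} {z : Y → ι → ℝ}, CoreR R s μ ν M U V be z → R ^ (-s) ≤ U →
      ∀ Xg : Finset X, RowsG R s μ ν M U be z Xg →
      R ^ (1 / 2 - 3 * c) ≤ ∑ x ∈ Xg, μ x * hs (TV ν z (bn be x) * TV ν z (bn be x)) := by
  have ev1 : ∀ᶠ R : ℝ in Filter.atTop, 10 ^ 6 ≤ R ^ s :=
    (tendsto_rpow_atTop hs0).eventually_ge_atTop _
  have ev2 : ∀ᶠ R : ℝ in Filter.atTop, Real.log R ≤ R ^ s := by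
    have := (isLittleO_log_rpow_atTop hs0).bound (show (0 : ℝ) < 1 by norm_num)
    filter_upwards [this, Filter.eventually_ge_atTop (1 : ℝ)] with R hR hR1
    rw [one_mul, Real.norm_of_nonneg (Real.log_nonneg hR1),
      Real.norm_of_nonneg (Real.rpow_nonneg (by linarith) _)] at hR
    exact hR
  obtain ⟨R2, hR2⟩ := Filter.eventually_atTop.mp (ev1.and ev2)
  refine ⟨max 1 R2, ?_⟩
  intro R hRR X Y ι _ _ _ _ μ ν M U V be z hC hU Xg hX
  simp only [max_le_iff] at hRR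
  obtain ⟨hR, r2⟩ := hRR
  obtain ⟨hK, hlogR⟩ := hR2 R r2
  have hR0 : 0 < R := by linarith
  have hp : ∀ a b : ℝ, a ≤ b → R ^ a ≤ R ^ b := fun a b hab =>
    Real.rpow_le_rpow_of_exponent_le hR hab
  have h0 : ∀ a : ℝ, 0 < R ^ a := fun a => Real.rpow_pos_of_pos hR0 a
  have hadd : ∀ a b : ℝ, R ^ a * R ^ b = R ^ (a + b) := fun a b => (Real.rpow_add hR0 a b).symm
  have hpow : ∀ (a : ℝ) (n : ℕ), (R ^ a) ^ n = R ^ (a * n) := fun a n => by
    rw [← Real.rpow_natCast (R ^ a), ← Real.rpow_mul hR0.le]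
  have hc1 : c ≤ 1 / 100 := by norm_num at hc ⊢; linarith
  obtain ⟨x0, hx0⟩ : Xg.Nonempty := by
    by_contra hne
    rw [Finset.not_nonempty_iff_eq_empty] at hne
    have := hX.big
    rw [hne, Finset.sum_empty] at this
    norm_num at this
  have hι : Nonempty ι := by
    by_contra hne
    have hι' : IsEmpty ι := not_nonempty_iff.mp hne
    have h1 := hX.h1 x0 hx0
    have h2 : be x0 ⬝ᵥ be x0 = 0 := by simp [dotProduct]
    rw [h2] at h1
    have := h0 (-s)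
    nlinarith
  have hYne : Nonempty Y := by
    by_contra hne
    have : IsEmpty Y := not_nonempty_iff.mp hne
    have h2 := hC.core.prY.sum
    simp at h2
  let _ : Inhabited Y := ⟨hYne.some⟩
  have hc2 := hC.core
  have hcore := hc2.toCore
  have hμ0 := hcore.prX.nonneg
  by_contra hcon
  push Not at hcon
  set Q : ℝ := ∑ x ∈ Xg, μ x * hs (TV ν z (bn be x) * TV ν z (bn be x)) with hQ
  have hQ0 : 0 ≤ Q := Finset.sum_nonneg fun x _ => mul_nonneg (hμ0 x) (hs_nonneg _)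
  set t : ℕ := ⌈R ^ (1 / 2 - c)⌉₊ with ht
  set m : ℕ := ⌈R ^ (1 / 2 - c / 2)⌉₊ with hm
  have ht1 : 1 ≤ t := Nat.one_le_ceil_iff.mpr (h0 _)
  have hm1 : 1 ≤ m := Nat.one_le_ceil_iff.mpr (h0 _)
  have hL0 : 0 ≤ Real.log (Fintype.card ι) := Real.log_natCast_nonneg _
  have hL : Real.log (Fintype.card ι) ≤ R ^ s := by
    refine le_trans ?_ hlogR
    exact Real.log_le_log (by exact_mod_cast Fintype.card_pos) hC.card
  have hθ0 : 0 < R ^ (-(c / 4)) := h0 _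
  have hθ : R ^ (-(c / 4)) ≤ 1 / 2 := by
    have e1 : R ^ (-(c / 4)) ≤ R ^ (-s) := hp _ _ (by linarith)
    have e2 : R ^ (-s) * R ^ s = 1 := by
      rw [hadd]
      simp
    have e3 : R ^ (-s) * 10 ^ 6 ≤ 1 := by
      rw [← e2]
      exact mul_le_mul_of_nonneg_left hK (h0 _).le
    linarith
  have hU0 : 0 ≤ U := (h0 _).le.trans hU
  have hU1 : U ≤ 1 := by
    rw [← hcore.mean]
    have e1 : em μ ν M ≤ ∑ x, μ x * 1 := by
      rw [em_row]
      apply Finset.sum_le_sum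
      intro x _
      apply mul_le_mul_of_nonneg_left _ (hμ0 x)
      have e2 : rmean ν M x ≤ ∑ y, ν y * 1 := by
        unfold rmean
        apply Finset.sum_le_sum
        intro y _
        apply mul_le_mul_of_nonneg_left _ (hcore.prY.nonneg y)
        rcases hcore.sgn x y with h | h <;> rw [h]
        norm_num
      rwa [← Finset.sum_mul, hcore.prY.sum, one_mul] at e2
    rwa [← Finset.sum_mul, hcore.prX.sum, one_mul] at e1
  have hdel := g2_delta hs0 hsc hc hR hK hL0 hL ht hm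
  have hN := g2_N hs0 hsc hc hR hK ht hU0 hU1 hQ0 hcon.le
  have key := c1 hcore hU0 (A := R ^ (-(c / 4)) * 1 + 17 * (R ^ (-(1 / 2) + s) / R ^ (-(c / 4))))
    (B := 4 * (R ^ (-(1 / 2) + s) / R ^ (-(c / 4)))) (by positivity) (by positivity)
    (hc2.upr _ hθ0 hθ) (m0 := R ^ (-s)) (δ := R ^ (-(1 / 4) + 4 * s)) (W := R ^ (5 * s))
    (h0 _) (Real.rpow_le_one_of_one_le_of_nonpos hR (by linarith))
    (by
      rw [div_le_iff₀ (h0 _), hadd]
      have e1 : R ^ s ≤ R ^ (5 * s + -s) := hp _ _ (by linarith)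
      linarith)
    (h0 _).le (Real.rpow_le_one_of_one_le_of_nonpos hR (by linarith))
    (by
      rw [hpow, hpow, hadd]
      apply hp
      push_cast
      linarith)
    Xg hX.h1 hX.h2 hX.h3 ht1 ht1 hm1
    (Δ := R ^ (-(c / 4) + 2 * s))
    (by
      rw [hcore.mean, sub_self]
      exact hdel)
    (Q := Q) rfl rfl
  refine g2_end hs0 hsc hc hR hK hU hX.big rfl ?_ hN key
  have := h0 (-s)
  positivity

alias g2 := g2_pr

end Pool.Agent.LRC
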