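import Pool.Agent.Lib_helper94.LRC.Defs

/-! # LRC, block THE: elementary facts on `ThE`, `ThF` -/

set_option autoImplicit false
set_option linter.unusedSectionVars false

open Finset Matrix

namespace Pool.Agent.LRC

open Pool.Agent.LR2

variable {X Y ι : Type} [Fintype X] [Fintype Y] [Fintype ι] [DecidableEq ι]
variable {ν : Y → ℝ} {z : Y → ι → ℝ} {t2 : ℝ}

theorem the_hs_trace (A : Matrix ι ι ℝ) : hs A = (Aᵀ * A).trace := by
  unfold hs Matrix.trace
  rw [Finset.sum_comm]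
  apply Finset.sum_congr rfl
  intro i _
  rw [Matrix.diag_apply, Matrix.mul_apply]
  apply Finset.sum_congr rfl
  intro j _
  rw [Matrix.transpose_apply, sq]

theorem the_proj_sq {P : Matrix ι ι ℝ} (hP : IsProj P) (w : ι → ℝ) :
    (P *ᵥ w) ⬝ᵥ (P *ᵥ w) = w ⬝ᵥ (P *ᵥ w) := by
  rw [← dot_symm_mulVec hP.1 w (P *ᵥ w), Matrix.mulVec_mulVec, hP.2]

theorem the_opB {P : Matrix ι ι ℝ} (hP : IsProj P) : OpB P 1 := by
  intro w
  have h := dot_self_nonneg (w - P *ᵥ w)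
  simp only [sub_dotProduct, dotProduct_sub] at h
  rw [dotProduct_comm (P *ᵥ w) w, the_proj_sq hP w] at h
  rw [the_proj_sq hP w]
  linarith

theorem the_col (P : Matrix ι ι ℝ) (c : ι → ℝ) :
    P *ᵥ c = ∑ i, c i • fun k => P k i := by
  funext k
  rw [Finset.sum_apply]
  simp only [mulVec, dotProduct, Pi.smul_apply, smul_eq_mul]
  apply Finset.sum_congr rfl
  intro i _
  ring

theorem the_cs (c : ι → ℝ) (a : ι → ι → ℝ) :
    (∑ i, c i • a i) ⬝ᵥ (∑ i, c i • a i) ≤ (c ⬝ᵥ c) * ∑ i, a i ⬝ᵥ a i := by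
  have h1 : ∀ k, (∑ i, c i • a i) k = ∑ i, c i * a i k := by
    intro k
    rw [Finset.sum_apply]
    simp only [Pi.smul_apply, smul_eq_mul]
  have h2 : ∑ i, a i ⬝ᵥ a i = ∑ k, ∑ i, a i k ^ 2 := by
    simp only [dotProduct]
    rw [Finset.sum_comm]
    simp only [sq]
  rw [h2, Finset.mul_sum]
  unfold dotProduct
  apply Finset.sum_le_sum
  intro k _
  rw [h1 k]
  have h3 := Finset.sum_mul_sq_le_sq_mul_sq Finset.univ c (fun i => a i k)
  have h4 : ∑ i, c i * c i = ∑ i, c i ^ 2 := by simp only [sq]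
  rw [h4, ← sq]
  exact h3

theorem thE_facts_pr (hν : ∀ y, 0 ≤ ν y) (h1 : ∀ c : ι → ℝ, hs (TV ν z c) ≤ t2 * (c ⬝ᵥ c))
    {P : Matrix ι ι ℝ} (hP : IsProj P) :
    (ThE ν z P)ᵀ = ThE ν z P ∧ (∀ w, w ⬝ᵥ (ThE ν z P *ᵥ w) =
      ∑ i, (TV ν z (fun k => P k i) *ᵥ w) ⬝ᵥ (TV ν z (fun k => P k i) *ᵥ w)) ∧
    (ThE ν z P).trace ≤ t2 * P.trace ∧
    (∀ c w : ι → ℝ, (TV ν z (P *ᵥ c) *ᵥ w) ⬝ᵥ (TV ν z (P *ᵥ c) *ᵥ w) ≤
      (c ⬝ᵥ c) * (w ⬝ᵥ (ThE ν z P *ᵥ w))) ∧
    (∀ w, w ⬝ᵥ (ThE ν z P *ᵥ w) ≤ hs (TV ν z w)) ∧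
    (ThF ν z P)ᵀ = ThF ν z P ∧ (∀ w, w ⬝ᵥ (ThF ν z P *ᵥ w) = hs (P * TV ν z w * P)) ∧
    (ThF ν z P).trace ≤ t2 * P.trace := by
  have hop := the_opB hP
  have hopT : OpB Pᵀ 1 := by rw [hP.1]; exact hop
  -- the quadratic form of `ThE`
  have q1 : ∀ w, w ⬝ᵥ (ThE ν z P *ᵥ w) =
      ∑ i, (TV ν z (fun k => P k i) *ᵥ w) ⬝ᵥ (TV ν z (fun k => P k i) *ᵥ w) := by
    intro w
    unfold ThE
    rw [Matrix.sum_mulVec, dotProduct_sum]
    apply Finset.sum_congr rfl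
    intro i _
    rw [← Matrix.mulVec_mulVec, dot_symm_mulVec (TV_transpose _)]
  -- columns
  have q2 : ∀ w : ι → ℝ, ∀ i, TV ν z (fun k => P k i) *ᵥ w = fun k => (TV ν z w * P) k i := by
    intro w i
    rw [TV_comm, ← col_mul]
  have q3 : hs P = P.trace := by rw [hs_symm hP.1, hP.2]
  have q4 : ∑ i, hs (TV ν z (fun k => P k i)) ≤ t2 * P.trace := by
    rw [← q3]
    exact sum_hs_TV_le h1 P
  refine ⟨?_, q1, ?_, ?_, ?_, ?_, ?_, ?_⟩
  · unfold ThE
    rw [Matrix.transpose_sum]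
    apply Finset.sum_congr rfl
    intro i _
    rw [Matrix.transpose_mul, TV_transpose]
  · refine le_trans (le_of_eq ?_) q4
    unfold ThE
    rw [Matrix.trace_sum]
    apply Finset.sum_congr rfl
    intro i _
    rw [hs_symm (TV_transpose _)]
  · intro c w
    rw [q1 w]
    have h2 : TV ν z (P *ᵥ c) *ᵥ w = ∑ i, c i • (TV ν z (fun k => P k i) *ᵥ w) := by
      rw [the_col P c, TV_sum, Matrix.sum_mulVec]
      apply Finset.sum_congr rfl
      intro i _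
      rw [TV_smul, Matrix.smul_mulVec]
    rw [h2]
    exact the_cs c _
  · intro w
    rw [q1 w]
    have h2 : ∑ i, (TV ν z (fun k => P k i) *ᵥ w) ⬝ᵥ (TV ν z (fun k => P k i) *ᵥ w) =
        hs (TV ν z w * P) := by
      rw [hs_eq_col]
      apply Finset.sum_congr rfl
      intro i _
      rw [q2 w i]
    rw [h2]
    have h3 := hs_mul_right hopT (TV ν z w)
    linarith
  · unfold ThF
    rw [Matrix.transpose_sum]
    apply Finset.sum_congr rfl
    intro i _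
    rw [Matrix.transpose_mul, Matrix.transpose_mul, TV_transpose, hP.1, Matrix.mul_assoc]
  · intro w
    unfold ThF
    rw [Matrix.sum_mulVec, dotProduct_sum, hs_eq_col]
    apply Finset.sum_congr rfl
    intro i _
    have h2 : (fun k => (P * TV ν z w * P) k i) = P *ᵥ (TV ν z (fun k => P k i) *ᵥ w) := by
      rw [q2 w i, ← col_mul, Matrix.mul_assoc]
    rw [h2, the_proj_sq hP, ← Matrix.mulVec_mulVec, ← Matrix.mulVec_mulVec,
      dot_symm_mulVec (TV_transpose _)]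
  · refine le_trans ?_ q4
    unfold ThF
    rw [Matrix.trace_sum]
    apply Finset.sum_le_sum
    intro i _
    have h2 : TV ν z (fun k => P k i) * P * TV ν z (fun k => P k i) =
        (P * TV ν z (fun k => P k i))ᵀ * (P * TV ν z (fun k => P k i)) := by
      rw [Matrix.transpose_mul, TV_transpose, hP.1]
      calc _ = TV ν z (fun k => P k i) * (P * P) * TV ν z (fun k => P k i) := by rw [hP.2]
        _ = _ := by simp only [Matrix.mul_assoc]
    rw [h2, ← the_hs_trace]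
    have h3 := hs_mul_left hop (TV ν z (fun k => P k i))
    linarith

alias thE_facts := thE_facts_pr

end Pool.Agent.LRC
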