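import Pool.Agent.Lib_helper94.LRF.R1b
import Pool.Agent.Lib_helper94.LRF.CUT
import Pool.Agent.Lib_helper94.LRF.THE
import Pool.Agent.Lib_helper94.LRF.F3

/-!
# Block LR: the range lemma
-/

set_option autoImplicit false
set_option linter.unusedSectionVars false

open Finset Matrix

namespace Pool.Agent.LRC

open Pool.Agent.LR2

section LemR

variable {X Y ι : Type} [Fintype X] [Fintype Y] [Fintype ι] [DecidableEq ι]
variable {μ : X → ℝ} {ν : Y → ℝ} {M : X → Y → ℝ} {U : ℝ} {V : ι → ℝ} {be : X → ι → ℝ}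
    {z : Y → ι → ℝ} {t2 kap rho del2 w0 q2 : ℝ}

theorem lr_compl {P : Matrix ι ι ℝ} (hP : IsProj P) : IsProj (1 - P) := by
  refine ⟨by rw [Matrix.transpose_sub, Matrix.transpose_one, hP.1], ?_⟩
  rw [mul_sub, mul_one, sub_mul, one_mul, hP.2, sub_self, sub_zero]

theorem lr_sq {P : Matrix ι ι ℝ} (hP : IsProj P) (w : ι → ℝ) :
    (P *ᵥ w) ⬝ᵥ (P *ᵥ w) = w ⬝ᵥ (P *ᵥ w) := by
  rw [← dot_symm_mulVec hP.1, Matrix.mulVec_mulVec, hP.2]

theorem lr_le {P : Matrix ι ι ℝ} (hP : IsProj P) (w : ι → ℝ) :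
    (P *ᵥ w) ⬝ᵥ (P *ᵥ w) ≤ w ⬝ᵥ w := by
  have h1 := dot_self_nonneg ((1 - P) *ᵥ w)
  rw [lr_sq (lr_compl hP), Matrix.sub_mulVec, Matrix.one_mulVec, dotProduct_sub] at h1
  rw [lr_sq hP]
  linarith

theorem lr_opB {P : Matrix ι ι ℝ} (hP : IsProj P) : OpB P 1 := by
  intro w
  rw [one_pow, one_mul]
  exact lr_le hP w

theorem lr_hs {P : Matrix ι ι ℝ} (hP : IsProj P) : hs P = P.trace := by
  rw [hs_symm hP.1, hP.2]

theorem lr_comm0 {P G : Matrix ι ι ℝ} (hP : IsProj P) (hG : IsProj G) (h : P * G = 0) :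
    G * P = 0 := by
  have h1 := congrArg Matrix.transpose h
  rwa [Matrix.transpose_mul, hP.1, hG.1, Matrix.transpose_zero] at h1

theorem lr_add {P G : Matrix ι ι ℝ} (hP : IsProj P) (hG : IsProj G) (h : P * G = 0) :
    IsProj (P + G) := by
  refine ⟨by rw [Matrix.transpose_add, hP.1, hG.1], ?_⟩
  rw [add_mul, mul_add, mul_add, h, lr_comm0 hP hG h, hP.2, hG.2]
  abel

/-- a compression of a positive matrix by a complementary projection -/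
theorem lr_cut {P T : Matrix ι ι ℝ} (hP : IsProj P) (hT : Tᵀ = T) (hpos : ∀ w, 0 ≤ w ⬝ᵥ (T *ᵥ w))
    {h : ℝ} (hh : 0 < h) :
    ∃ G : Matrix ι ι ℝ, IsProj G ∧ P * G = 0 ∧ h * G.trace ≤ T.trace ∧
      (∀ w, h * (w ⬝ᵥ (G *ᵥ w)) ≤ ((1 - P) *ᵥ w) ⬝ᵥ (T *ᵥ ((1 - P) *ᵥ w))) ∧
      (∀ w, P *ᵥ w = 0 → G *ᵥ w = 0 → w ⬝ᵥ (T *ᵥ w) ≤ h * (w ⬝ᵥ w)) := by
  have hQ := lr_compl hP
  have hS : ((1 - P) * T * (1 - P))ᵀ = (1 - P) * T * (1 - P) := by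
    rw [Matrix.transpose_mul, Matrix.transpose_mul, hQ.1, hT, mul_assoc]
  have hq : ∀ w, w ⬝ᵥ (((1 - P) * T * (1 - P)) *ᵥ w) =
      ((1 - P) *ᵥ w) ⬝ᵥ (T *ᵥ ((1 - P) *ᵥ w)) := by
    intro w
    rw [← Matrix.mulVec_mulVec, ← Matrix.mulVec_mulVec, dot_symm_mulVec hQ.1]
  obtain ⟨G, hG, -, h1, h2, h3, h4⟩ := cut2 hS (fun w => by rw [hq]; exact hpos _) hh
  have hPQ : P * (1 - P) = 0 := by rw [mul_sub, mul_one, hP.2, sub_self]
  refine ⟨G, hG, h4 P ?_, h3.trans ?_, fun w => ?_, fun w hw1 hw2 => ?_⟩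
  · rw [← mul_assoc, ← mul_assoc, hPQ, zero_mul, zero_mul]
  · have h5 : ((1 - P) * T * (1 - P)).trace = (T * (1 - P)).trace := by
      rw [mul_assoc, Matrix.trace_mul_comm, mul_assoc, hQ.2]
    have h6 : (T * P).trace = (P * T * P).trace := by
      rw [Matrix.trace_mul_comm (P * T) P, ← mul_assoc, hP.2, Matrix.trace_mul_comm]
    have h7 : 0 ≤ (P * T * P).trace := by
      have : (P * T * P).trace =
          ∑ a, (P *ᵥ Pi.single a 1) ⬝ᵥ (T *ᵥ (P *ᵥ (Pi.single a 1 : ι → ℝ))) := by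
        simp only [Matrix.trace, Matrix.diag_apply]
        apply Finset.sum_congr rfl
        intro a _
        rw [← dot_symm_mulVec hP.1, Matrix.mulVec_mulVec, Matrix.mulVec_mulVec]
        simp
      rw [this]
      exact Finset.sum_nonneg fun a _ => hpos _
    rw [h5, mul_sub, mul_one, Matrix.trace_sub, h6]
    linarith
  · rw [← hq]
    exact h2 w
  · have h8 := h1 w
    have h9 : (1 - G) *ᵥ w = w := by rw [Matrix.sub_mulVec, Matrix.one_mulVec, hw2, sub_zero]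
    have h10 : (1 - P) *ᵥ w = w := by rw [Matrix.sub_mulVec, Matrix.one_mulVec, hw1, sub_zero]
    rw [h9, hq, h10] at h8
    exact h8

theorem lr_col (P : Matrix ι ι ℝ) (c : ι → ℝ) :
    ∑ i, c i • (fun k => P k i : ι → ℝ) = P *ᵥ c := by
  funext k
  rw [Finset.sum_apply]
  simp only [mulVec, dotProduct, Pi.smul_apply, smul_eq_mul]
  exact Finset.sum_congr rfl fun i _ => mul_comm _ _

/-- LR: the range lemma (D4). `G` = cut2 of `(1-P) ThE (1-P)` at `th`, `P' = P + G`, `G2` = cut2 of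
`(1-P') ThF(P') (1-P')` at `th2`. Uses `r1` with `Xm i = Q T_{P e_i} Q`, `Q = 1 - P - G`, and
`T_β ψ = T_ψ β = T_ψ (Q β) + T_ψ (P' β)`, `E |P' β|² = tr (P' diag V) ≤ del2 tr P'`. -/
theorem range_lemma_pr (hc : Core μ ν M U V be z t2 kap rho del2 w0 q2)
    {P : Matrix ι ι ℝ} (hP : IsProj P) {th th2 : ℝ} (hth : 0 < th) (hth2 : 0 < th2) :
    ∃ G G2 : Matrix ι ι ℝ, IsProj G ∧ IsProj G2 ∧ P * G = 0 ∧ P * G2 = 0 ∧ G * G2 = 0 ∧
      th * G.trace ≤ t2 * P.trace ∧ th2 * G2.trace ≤ t2 * (P + G).trace ∧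
      (∀ w, th * (w ⬝ᵥ (G *ᵥ w)) ≤ ((1 - P) *ᵥ w) ⬝ᵥ (ThE ν z P *ᵥ ((1 - P) *ᵥ w))) ∧
      (∀ w, th2 * (w ⬝ᵥ (G2 *ᵥ w)) ≤
        ((1 - P - G) *ᵥ w) ⬝ᵥ (ThF ν z (P + G) *ᵥ ((1 - P - G) *ᵥ w))) ∧
      ∀ ψ : X → ι → ℝ, (∀ x, P *ᵥ ψ x = ψ x) → (∀ x, ψ x ⬝ᵥ ψ x ≤ 1) →
        ∀ L : ℕ, 1 ≤ L → ∀ lg : ℝ, 1 ≤ lg →
        ∑ x, μ x * (((1 - P - G - G2) *ᵥ (TV ν z (be x) *ᵥ ψ x)) ⬝ᵥ
          ((1 - P - G - G2) *ᵥ (TV ν z (be x) *ᵥ ψ x))) ≤
        4 * lg ^ 2 * (8 * del2 * (t2 * P.trace / L + t2) +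
          kap * th * (5 * L + 500 * (1 + Real.log (Fintype.card ι)))) +
        256 * th * Real.exp (lg - lg ^ 2 / 2) + 2 * th2 * del2 * (P + G).trace := by
  have hν : ∀ y, 0 ≤ ν y := hc.prY.1
  have hμ : ∀ x, 0 ≤ μ x := hc.prX.1
  have hT1 : ∀ c : ι → ℝ, hs (TV ν z c) ≤ t2 * (c ⬝ᵥ c) := fun c => hc.hs_TV c
  have ht2 : 0 ≤ t2 := zero_le_one.trans hc.t2_one
  obtain ⟨e1, e2, e3, e4, e5, -, -, -⟩ := thE_facts hν hT1 hP
  have hpos1 : ∀ w, 0 ≤ w ⬝ᵥ (ThE ν z P *ᵥ w) := fun w => by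
    rw [e2]
    exact Finset.sum_nonneg fun i _ => dot_self_nonneg _
  obtain ⟨G, hG, hPG, hGt, hG1, hG2⟩ := lr_cut hP e1 hpos1 hth
  have hP' := lr_add hP hG hPG
  obtain ⟨-, -, -, -, -, f1, f2, f3⟩ := thE_facts hν hT1 hP'
  have hpos2 : ∀ w, 0 ≤ w ⬝ᵥ (ThF ν z (P + G) *ᵥ w) := fun w => by
    rw [f2]
    exact hs_nonneg _
  obtain ⟨G2, hGG, hPG2, hG2t, hG3, hG4⟩ := lr_cut hP' f1 hpos2 hth2
  have hGP := lr_comm0 hP hG hPG
  have hPG2' : P * G2 = 0 := by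
    have h1 : P * (P + G) = P := by rw [mul_add, hP.2, hPG, add_zero]
    rw [← h1, mul_assoc, hPG2, mul_zero]
  have hGG2 : G * G2 = 0 := by
    have h1 : G * (P + G) = G := by rw [mul_add, hG.2, hGP, zero_add]
    rw [← h1, mul_assoc, hPG2, mul_zero]
  refine ⟨G, G2, hG, hGG, hPG, hPG2', hGG2, hGt.trans e3, hG2t.trans f3, hG1, ?_, ?_⟩
  · intro w
    rw [sub_sub]
    exact hG3 w
  intro ψ hψP hψ1 L hL lg hlg
  -- the projections `Q` and `Q2`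
  have hQ : IsProj (1 - (P + G)) := lr_compl hP'
  have hP'' := lr_add hP' hGG hPG2
  have hQ2 : IsProj (1 - (P + G + G2)) := lr_compl hP''
  have hG2P' := lr_comm0 hP' hGG hPG2
  have hQ2Q : (1 - (P + G + G2)) * (1 - (P + G)) = 1 - (P + G + G2) := by
    have : (P + G + G2) * (P + G) = P + G := by rw [add_mul, hP'.2, hG2P', add_zero]
    rw [mul_sub, mul_one, sub_mul, one_mul, this, sub_self, sub_zero]
  have hP'Q2 : (P + G) * (1 - (P + G + G2)) = 0 := by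
    rw [mul_sub, mul_one, mul_add, hP'.2, hPG2, add_zero, sub_self]
  have hG2Q2 : G2 * (1 - (P + G + G2)) = 0 := by
    rw [mul_sub, mul_one, mul_add, hG2P', hGG.2, zero_add, sub_self]
  have hPQ : P * (1 - (P + G)) = 0 := by
    rw [mul_sub, mul_one, mul_add, hP.2, hPG, add_zero, sub_self]
  have hGQ : G * (1 - (P + G)) = 0 := by
    rw [mul_sub, mul_one, mul_add, hGP, hG.2, zero_add, sub_self]
  have hP'P : (P + G) * P = P := by rw [add_mul, hP.2, hGP, add_zero]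
  have hsub : (1 - P - G - G2 : Matrix ι ι ℝ) = 1 - (P + G + G2) := by abel
  rw [hsub]
  -- the second part
  have hsec : ∀ x (φ : ι → ℝ), (P + G) *ᵥ φ = φ →
      ((1 - (P + G + G2)) *ᵥ (TV ν z (ψ x) *ᵥ φ)) ⬝ᵥ
        ((1 - (P + G + G2)) *ᵥ (TV ν z (ψ x) *ᵥ φ)) ≤ th2 * (φ ⬝ᵥ φ) := by
    intro x φ hφ
    set e := (1 - (P + G + G2)) *ᵥ (TV ν z (ψ x) *ᵥ φ) with he
    have hψ' : (P + G) *ᵥ ψ x = ψ x := by
      rw [← hψP x, Matrix.mulVec_mulVec, hP'P]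
    have h1 : e ⬝ᵥ e = ψ x ⬝ᵥ (((P + G) * TV ν z e * (P + G)) *ᵥ φ) := by
      have h2 : e ⬝ᵥ e = e ⬝ᵥ (TV ν z (ψ x) *ᵥ φ) := by
        have h3 : (1 - (P + G + G2)) *ᵥ e = e := by
          rw [he, Matrix.mulVec_mulVec, hQ2.2]
        conv_lhs => rw [he]
        rw [dot_symm_mulVec hQ2.1, h3]
      rw [h2, dot_TV_swap, ← Matrix.mulVec_mulVec, ← Matrix.mulVec_mulVec, hφ,
        dot_symm_mulVec hP'.1, hψ']
    have h4 : e ⬝ᵥ (ThF ν z (P + G) *ᵥ e) ≤ th2 * (e ⬝ᵥ e) := by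
      apply hG4
      · rw [he, Matrix.mulVec_mulVec, hP'Q2, Matrix.zero_mulVec]
      · rw [he, Matrix.mulVec_mulVec, hG2Q2, Matrix.zero_mulVec]
    rw [f2] at h4
    have h5 : (e ⬝ᵥ e) ^ 2 ≤ (th2 * (e ⬝ᵥ e)) * (φ ⬝ᵥ φ) := by
      rw [h1]
      refine (dot_cs _ _).trans ?_
      have h6 := mulVec_sq_le ((P + G) * TV ν z e * (P + G)) φ
      have h7 := dot_self_nonneg φ
      rw [← h1]
      calc _ ≤ 1 * (hs ((P + G) * TV ν z e * (P + G)) * (φ ⬝ᵥ φ)) :=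
            mul_le_mul (hψ1 x) h6 (dot_self_nonneg _) zero_le_one
        _ = hs ((P + G) * TV ν z e * (P + G)) * (φ ⬝ᵥ φ) := one_mul _
        _ ≤ _ := mul_le_mul_of_nonneg_right h4 h7
    rcases (dot_self_nonneg e).eq_or_lt with h8 | h8
    · rw [← h8]
      exact mul_nonneg hth2.le (dot_self_nonneg φ)
    · have h9 : (e ⬝ᵥ e) * (e ⬝ᵥ e) ≤ (th2 * (φ ⬝ᵥ φ)) * (e ⬝ᵥ e) := by
        rw [← sq]
        linarith
      exact le_of_mul_le_mul_right h9 h8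
  -- the matrices of `r1`
  let Xm : ι → Matrix ι ι ℝ := fun i => (1 - (P + G)) * TV ν z (fun k => P k i) * (1 - (P + G))
  have hXm : ∀ c : ι → ℝ, ∑ i, c i • Xm i = (1 - (P + G)) * TV ν z (P *ᵥ c) * (1 - (P + G)) := by
    intro c
    rw [← lr_col, TV_sum, Finset.mul_sum, Finset.sum_mul]
    apply Finset.sum_congr rfl
    intro i _
    rw [TV_smul, mul_smul_comm, smul_mul_assoc]
  have hhsQ : ∀ A : Matrix ι ι ℝ, hs ((1 - (P + G)) * A * (1 - (P + G))) ≤ hs A := by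
    intro A
    have h1 : OpB (1 - (P + G))ᵀ 1 := by
      rw [hQ.1]
      exact lr_opB hQ
    have h2 := hs_mul_right h1 ((1 - (P + G)) * A)
    have h3 := hs_mul_left (lr_opB hQ) A
    rw [one_pow, one_mul] at h2 h3
    exact h2.trans h3
  have hsym : ∀ i, (Xm i)ᵀ = Xm i := by
    intro i
    simp only [Xm]
    rw [Matrix.transpose_mul, Matrix.transpose_mul, hQ.1, TV_transpose, mul_assoc]
  have hXth : ∀ v, ∑ i, (Xm i *ᵥ v) ⬝ᵥ (Xm i *ᵥ v) ≤ th * (v ⬝ᵥ v) := by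
    intro v
    have h1 : (1 - (P + G)) *ᵥ v ⬝ᵥ (ThE ν z P *ᵥ ((1 - (P + G)) *ᵥ v)) ≤
        th * ((1 - (P + G)) *ᵥ v ⬝ᵥ (1 - (P + G)) *ᵥ v) := by
      apply hG2
      · rw [Matrix.mulVec_mulVec, hPQ, Matrix.zero_mulVec]
      · rw [Matrix.mulVec_mulVec, hGQ, Matrix.zero_mulVec]
    rw [e2] at h1
    refine le_trans ?_ (h1.trans (mul_le_mul_of_nonneg_left (lr_le hQ v) hth.le))
    apply Finset.sum_le_sum
    intro i _
    simp only [Xm]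
    rw [← Matrix.mulVec_mulVec, ← Matrix.mulVec_mulVec]
    exact lr_le hQ _
  have hXh1 : ∑ i, hs (Xm i) ≤ t2 * P.trace := by
    rw [← lr_hs hP]
    exact (Finset.sum_le_sum fun i _ => hhsQ _).trans (sum_hs_TV_le hT1 P)
  have hXt2 : ∀ c : ι → ℝ, hs (∑ i, c i • Xm i) ≤ t2 * (c ⬝ᵥ c) := by
    intro c
    rw [hXm]
    exact (hhsQ _).trans ((hT1 _).trans (mul_le_mul_of_nonneg_left (lr_le hP c) ht2))
  have hfirst := r1 hc.prX hc.V_nonneg hc.V_le hc.kap_nonneg hc.f4 hsym hth.le hXth hXh1 hXt2 ht2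
    hc.del2_nonneg
    hψ1 (fun x => (hc.f2 x).2) hL hlg
  have hmain : ∀ x, μ x * (((1 - (P + G + G2)) *ᵥ (TV ν z (be x) *ᵥ ψ x)) ⬝ᵥ
      ((1 - (P + G + G2)) *ᵥ (TV ν z (be x) *ᵥ ψ x))) ≤
      2 * (μ x * (((∑ i, ψ x i • Xm i) *ᵥ be x) ⬝ᵥ ((∑ i, ψ x i • Xm i) *ᵥ be x))) +
        2 * th2 * (μ x * (be x ⬝ᵥ ((P + G) *ᵥ be x))) := by
    intro x
    have h1 : (1 - (P + G + G2)) *ᵥ (TV ν z (be x) *ᵥ ψ x) =
        (1 - (P + G + G2)) *ᵥ ((∑ i, ψ x i • Xm i) *ᵥ be x) +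
        (1 - (P + G + G2)) *ᵥ (TV ν z (ψ x) *ᵥ ((P + G) *ᵥ be x)) := by
      rw [TV_comm, hXm, hψP]
      have h2 : TV ν z (ψ x) *ᵥ be x = TV ν z (ψ x) *ᵥ ((1 - (P + G)) *ᵥ be x) +
          TV ν z (ψ x) *ᵥ ((P + G) *ᵥ be x) := by
        rw [← Matrix.mulVec_add, ← Matrix.add_mulVec, sub_add_cancel, Matrix.one_mulVec]
      have h3 : (1 - (P + G + G2)) *ᵥ (((1 - (P + G)) * TV ν z (ψ x) * (1 - (P + G))) *ᵥ be x) =
          (1 - (P + G + G2)) *ᵥ (TV ν z (ψ x) *ᵥ ((1 - (P + G)) *ᵥ be x)) := by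
        rw [← Matrix.mulVec_mulVec, ← Matrix.mulVec_mulVec, Matrix.mulVec_mulVec _ _
          (1 - (P + G)), hQ2Q]
      rw [h3, h2, Matrix.mulVec_add]
    rw [h1]
    have h4 := dot_add_sq_le ((1 - (P + G + G2)) *ᵥ ((∑ i, ψ x i • Xm i) *ᵥ be x))
      ((1 - (P + G + G2)) *ᵥ (TV ν z (ψ x) *ᵥ ((P + G) *ᵥ be x)))
    have h5 := lr_le hQ2 ((∑ i, ψ x i • Xm i) *ᵥ be x)
    have h6 := hsec x ((P + G) *ᵥ be x) (by rw [Matrix.mulVec_mulVec, hP'.2])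
    rw [lr_sq hP'] at h6
    have h7 := mul_le_mul_of_nonneg_left (h4.trans (add_le_add
      (mul_le_mul_of_nonneg_left h5 zero_le_two) (mul_le_mul_of_nonneg_left h6 zero_le_two))) (hμ x)
    linarith
  have hdiag : ∑ x, μ x * (be x ⬝ᵥ ((P + G) *ᵥ be x)) ≤ del2 * (P + G).trace := by
    have h1 : ∀ x, μ x * (be x ⬝ᵥ ((P + G) *ᵥ be x)) =
        ∑ i, ∑ j, (P + G) i j * (μ x * (be x i * be x j)) := by
      intro x
      simp only [dotProduct, mulVec, Finset.mul_sum]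
      apply Finset.sum_congr rfl
      intro i _
      apply Finset.sum_congr rfl
      intro j _
      ring
    simp only [h1]
    rw [Finset.sum_comm]
    have h2 : ∀ i, ∑ x, ∑ j, (P + G) i j * (μ x * (be x i * be x j)) = (P + G) i i * V i := by
      intro i
      rw [Finset.sum_comm]
      simp only [← Finset.mul_sum, hc.mom i]
      simp
    simp only [h2]
    rw [Matrix.trace, Finset.mul_sum]
    apply Finset.sum_le_sum
    intro i _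
    rw [Matrix.diag_apply, mul_comm]
    refine mul_le_mul_of_nonneg_right (hc.V_le i) ?_
    have h3 := lr_sq hP' (Pi.single i 1)
    have h4 := dot_self_nonneg ((P + G) *ᵥ (Pi.single i 1 : ι → ℝ))
    rw [h3] at h4
    simpa using h4
  have htot := Finset.sum_le_sum fun x (_ : x ∈ Finset.univ) => hmain x
  rw [Finset.sum_add_distrib, ← Finset.mul_sum, ← Finset.mul_sum] at htot
  have h8 := mul_le_mul_of_nonneg_left hfirst (zero_le_two (α := ℝ))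
  have h9 := mul_le_mul_of_nonneg_left hdiag (mul_nonneg zero_le_two hth2.le)
  refine htot.trans ((add_le_add h8 h9).trans (le_of_eq ?_))
  ring


end LemR

alias range_lemma := range_lemma_pr

end Pool.Agent.LRC
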