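import Pool.Agent.Lib_helper94.LRC.Defs

/-! # LRC, block SPREAD: the average of the projections of the range lemma -/

set_option autoImplicit false
set_option linter.unusedSectionVars false

open Finset Matrix

namespace Pool.Agent.LRC

open Pool.Agent.LR2

section Big

variable {Y ι : Type} [Fintype Y] [Fintype ι] [DecidableEq ι]
variable {ν : Y → ℝ} {z : Y → ι → ℝ} {t2 : ℝ}

theorem sp_sq {P : Matrix ι ι ℝ} (hP : IsProj P) (w : ι → ℝ) :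
    (P *ᵥ w) ⬝ᵥ (P *ᵥ w) = w ⬝ᵥ (P *ᵥ w) := by
  rw [← dot_symm_mulVec hP.1 w (P *ᵥ w), Matrix.mulVec_mulVec, hP.2]

theorem sp_opB {P : Matrix ι ι ℝ} (hP : IsProj P) : OpB P 1 := by
  intro w
  have h := dot_self_nonneg (w - P *ᵥ w)
  simp only [sub_dotProduct, dotProduct_sub] at h
  rw [dotProduct_comm (P *ᵥ w) w, sp_sq hP w] at h
  rw [sp_sq hP w]
  linarith

theorem sp_row (A : Matrix ι ι ℝ) {P : Matrix ι ι ℝ} (hP : IsProj P) :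
    hs (A * P) = ∑ k, (fun j => A k j) ⬝ᵥ (P *ᵥ fun j => A k j) := by
  unfold hs
  apply Finset.sum_congr rfl
  intro k _
  rw [← sp_sq hP]
  have h1 : ∀ j, (A * P) k j = (P *ᵥ fun j => A k j) j := by
    intro j
    rw [Matrix.mul_apply]
    unfold mulVec dotProduct
    apply Finset.sum_congr rfl
    intro l _
    have : P l j = P j l := by
      conv_lhs => rw [← hP.1, Matrix.transpose_apply]
    rw [this]
    ring
  simp only [h1]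
  unfold dotProduct
  apply Finset.sum_congr rfl
  intro j _
  rw [sq]

/-- the average over projections with small mean -/
theorem sp_avg (hν : ∀ y, 0 ≤ ν y) (ht2 : 0 ≤ t2)
    (hc : ∀ c : ι → ℝ, hs (TV ν z c) ≤ t2 * (c ⬝ᵥ c)) (P : Y → Matrix ι ι ℝ)
    (hP : ∀ y, IsProj (P y)) {κ : ℝ} (hκ : 0 ≤ κ)
    (hm : ∀ w, ∑ y, ν y * (w ⬝ᵥ (P y *ᵥ w)) ≤ κ * (w ⬝ᵥ w)) (w : ι → ℝ) :
    ∑ y, ν y * hs (TV ν z ((1 - P y) *ᵥ w) * P y) ≤ 4 * t2 * κ * (w ⬝ᵥ w) := by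
  have hw := dot_self_nonneg w
  have h1 : ∀ y, hs (TV ν z ((1 - P y) *ᵥ w) * P y) ≤
      2 * hs (TV ν z w * P y) + 2 * (t2 * (w ⬝ᵥ (P y *ᵥ w))) := by
    intro y
    have e1 : TV ν z ((1 - P y) *ᵥ w) * P y =
        TV ν z w * P y + (-1 : ℝ) • (TV ν z (P y *ᵥ w) * P y) := by
      rw [Matrix.sub_mulVec, Matrix.one_mulVec, TV_sub, Matrix.sub_mul, neg_one_smul,
        sub_eq_add_neg]
    rw [e1]
    refine (hs_add_le _ _).trans ?_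
    rw [hs_smul]
    have e2 : hs (TV ν z (P y *ᵥ w) * P y) ≤ t2 * (w ⬝ᵥ (P y *ᵥ w)) := by
      have h3 : OpB (P y)ᵀ 1 := by rw [(hP y).1]; exact sp_opB (hP y)
      refine (hs_mul_right h3 _).trans ?_
      rw [one_pow, one_mul, ← sp_sq (hP y)]
      exact hc _
    linarith
  have h2 : ∑ y, ν y * hs (TV ν z w * P y) ≤ κ * (t2 * (w ⬝ᵥ w)) := by
    have e1 : ∀ y, ν y * hs (TV ν z w * P y) =
        ∑ k, ν y * ((fun j => TV ν z w k j) ⬝ᵥ (P y *ᵥ fun j => TV ν z w k j)) := by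
      intro y
      rw [sp_row _ (hP y), Finset.mul_sum]
    simp only [e1]
    rw [Finset.sum_comm]
    calc ∑ k, ∑ y, ν y * ((fun j => TV ν z w k j) ⬝ᵥ (P y *ᵥ fun j => TV ν z w k j))
        ≤ ∑ k, κ * ((fun j => TV ν z w k j) ⬝ᵥ (fun j => TV ν z w k j)) :=
          Finset.sum_le_sum fun k _ => hm _
      _ = κ * hs (TV ν z w) := by
          rw [← Finset.mul_sum]
          congr 1
          unfold hs dotProduct
          simp only [sq]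
      _ ≤ _ := mul_le_mul_of_nonneg_left (hc w) hκ
  calc ∑ y, ν y * hs (TV ν z ((1 - P y) *ᵥ w) * P y)
      ≤ ∑ y, ν y * (2 * hs (TV ν z w * P y) + 2 * (t2 * (w ⬝ᵥ (P y *ᵥ w)))) :=
        Finset.sum_le_sum fun y _ => mul_le_mul_of_nonneg_left (h1 y) (hν y)
    _ = 2 * ∑ y, ν y * hs (TV ν z w * P y) + 2 * t2 * ∑ y, ν y * (w ⬝ᵥ (P y *ᵥ w)) := by
        rw [Finset.mul_sum, Finset.mul_sum, ← Finset.sum_add_distrib]
        apply Finset.sum_congr rfl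
        intro y _
        ring
    _ ≤ 2 * (κ * (t2 * (w ⬝ᵥ w))) + 2 * t2 * (κ * (w ⬝ᵥ w)) := by
        have h3 := mul_le_mul_of_nonneg_left (hm w) (by positivity : 0 ≤ 2 * t2)
        linarith
    _ = _ := by ring

theorem sp_E (P : Matrix ι ι ℝ) (w : ι → ℝ) :
    ∑ i, (TV ν z (fun k => P k i) *ᵥ w) ⬝ᵥ (TV ν z (fun k => P k i) *ᵥ w) =
      hs (TV ν z w * P) := by
  rw [hs_eq_col]
  apply Finset.sum_congr rfl
  intro i _
  rw [col_mul, TV_comm]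

theorem sp_thE (P : Matrix ι ι ℝ) (w : ι → ℝ) :
    w ⬝ᵥ (ThE ν z P *ᵥ w) = hs (TV ν z w * P) := by
  rw [← sp_E]
  unfold ThE
  rw [Matrix.sum_mulVec, dotProduct_sum]
  apply Finset.sum_congr rfl
  intro i _
  rw [← Matrix.mulVec_mulVec, dot_symm_mulVec (TV_transpose _)]

theorem sp_thF {P : Matrix ι ι ℝ} (hP : IsProj P) (w : ι → ℝ) :
    w ⬝ᵥ (ThF ν z P *ᵥ w) = hs (P * TV ν z w * P) := by
  unfold ThF
  rw [Matrix.sum_mulVec, dotProduct_sum, hs_eq_col]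
  apply Finset.sum_congr rfl
  intro i _
  rw [← Matrix.mulVec_mulVec, ← Matrix.mulVec_mulVec, dot_symm_mulVec (TV_transpose _), col_mul,
    ← Matrix.mulVec_mulVec, TV_comm, sp_sq hP]

theorem sp_isProj_add {P G : Matrix ι ι ℝ} (hP : IsProj P) (hG : IsProj G) (h : P * G = 0) :
    IsProj (P + G) := by
  have h' : G * P = 0 := by
    have := congrArg Matrix.transpose h
    rw [Matrix.transpose_mul, hP.1, hG.1, Matrix.transpose_zero] at this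
    exact this
  refine ⟨by rw [Matrix.transpose_add, hP.1, hG.1], ?_⟩
  rw [Matrix.add_mul, Matrix.mul_add, Matrix.mul_add, hP.2, hG.2, h, h', add_zero, zero_add]

theorem spread_pr (hν : IsPr ν) (hz : Iso ν z) (ht2 : 0 ≤ t2)
    (hc : ∀ c : ι → ℝ, hs (TV ν z c) ≤ t2 * (c ⬝ᵥ c)) {h th th2 : ℝ} (hh : 0 < h)
    (hth : 0 < th) (hth2 : 0 < th2) (P G G2 : Y → Matrix ι ι ℝ) (hP : ∀ y, IsProj (P y))
    (hG : ∀ y, IsProj (G y)) (hG2 : ∀ y, IsProj (G2 y)) (hPG : ∀ y, P y * G y = 0)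
    (hPG2 : ∀ y, P y * G2 y = 0) (hGG2 : ∀ y, G y * G2 y = 0)
    (h1 : ∀ y w, h ^ 2 * (w ⬝ᵥ (P y *ᵥ w)) ≤ (TV ν z (z y) *ᵥ w) ⬝ᵥ (TV ν z (z y) *ᵥ w))
    (h2 : ∀ y w, th * (w ⬝ᵥ (G y *ᵥ w)) ≤
      ((1 - P y) *ᵥ w) ⬝ᵥ (ThE ν z (P y) *ᵥ ((1 - P y) *ᵥ w)))
    (h3 : ∀ y w, th2 * (w ⬝ᵥ (G2 y *ᵥ w)) ≤
      ((1 - P y - G y) *ᵥ w) ⬝ᵥ (ThF ν z (P y + G y) *ᵥ ((1 - P y - G y) *ᵥ w)))
    {κ1 κ2 κ3 : ℝ} (k1 : κ1 = t2 / h ^ 2) (k2 : κ2 = κ1 + 4 * t2 * κ1 / th)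
    (k3 : κ3 = κ2 + 4 * t2 * κ2 / th2) (w : ι → ℝ) :
    ∑ y, ν y * (w ⬝ᵥ ((P y + G y + G2 y) *ᵥ w)) ≤ κ3 * (w ⬝ᵥ w) := by
  have hν0 : ∀ y, 0 ≤ ν y := hν.1
  have hκ1 : 0 ≤ κ1 := by rw [k1]; positivity
  have hκ2 : 0 ≤ κ2 := by rw [k2]; positivity
  -- step 1
  have s1 : ∀ w : ι → ℝ, ∑ y, ν y * (w ⬝ᵥ (P y *ᵥ w)) ≤ κ1 * (w ⬝ᵥ w) := by
    intro w
    have e1 : h ^ 2 * ∑ y, ν y * (w ⬝ᵥ (P y *ᵥ w)) ≤ t2 * (w ⬝ᵥ w) := by
      calc h ^ 2 * ∑ y, ν y * (w ⬝ᵥ (P y *ᵥ w))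
          = ∑ y, ν y * (h ^ 2 * (w ⬝ᵥ (P y *ᵥ w))) := by
            rw [Finset.mul_sum]
            apply Finset.sum_congr rfl
            intro y _
            ring
        _ ≤ ∑ y, ν y * ((TV ν z (z y) *ᵥ w) ⬝ᵥ (TV ν z (z y) *ᵥ w)) :=
            Finset.sum_le_sum fun y _ => mul_le_mul_of_nonneg_left (h1 y w) (hν0 y)
        _ = hs (TV ν z w) := by
            rw [← hz.avg_sq]
            apply Finset.sum_congr rfl
            intro y _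
            rw [TV_comm]
        _ ≤ _ := hc w
    rw [k1, div_mul_eq_mul_div, le_div_iff₀ (by positivity), mul_comm]
    exact e1
  -- step 2
  have s2 : ∀ w : ι → ℝ, ∑ y, ν y * (w ⬝ᵥ ((P y + G y) *ᵥ w)) ≤ κ2 * (w ⬝ᵥ w) := by
    intro w
    have e1 : th * ∑ y, ν y * (w ⬝ᵥ (G y *ᵥ w)) ≤ 4 * t2 * κ1 * (w ⬝ᵥ w) := by
      calc th * ∑ y, ν y * (w ⬝ᵥ (G y *ᵥ w))
          = ∑ y, ν y * (th * (w ⬝ᵥ (G y *ᵥ w))) := by
            rw [Finset.mul_sum]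
            apply Finset.sum_congr rfl
            intro y _
            ring
        _ ≤ ∑ y, ν y * hs (TV ν z ((1 - P y) *ᵥ w) * P y) := by
            refine Finset.sum_le_sum fun y _ => mul_le_mul_of_nonneg_left ?_ (hν0 y)
            refine (h2 y w).trans (le_of_eq ?_)
            rw [sp_thE]
        _ ≤ _ := sp_avg hν0 ht2 hc P hP hκ1 s1 w
    have e2 : ∑ y, ν y * (w ⬝ᵥ (G y *ᵥ w)) ≤ 4 * t2 * κ1 / th * (w ⬝ᵥ w) := by
      rw [div_mul_eq_mul_div, le_div_iff₀ hth, mul_comm]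
      exact e1
    have e3 : ∑ y, ν y * (w ⬝ᵥ ((P y + G y) *ᵥ w)) =
        ∑ y, ν y * (w ⬝ᵥ (P y *ᵥ w)) + ∑ y, ν y * (w ⬝ᵥ (G y *ᵥ w)) := by
      rw [← Finset.sum_add_distrib]
      apply Finset.sum_congr rfl
      intro y _
      rw [Matrix.add_mulVec, dotProduct_add]
      ring
    rw [e3, k2, add_mul]
    exact add_le_add (s1 w) e2
  -- step 3
  have hPGp : ∀ y, IsProj (P y + G y) := fun y => sp_isProj_add (hP y) (hG y) (hPG y)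
  have e1 : th2 * ∑ y, ν y * (w ⬝ᵥ (G2 y *ᵥ w)) ≤ 4 * t2 * κ2 * (w ⬝ᵥ w) := by
    calc th2 * ∑ y, ν y * (w ⬝ᵥ (G2 y *ᵥ w))
        = ∑ y, ν y * (th2 * (w ⬝ᵥ (G2 y *ᵥ w))) := by
          rw [Finset.mul_sum]
          apply Finset.sum_congr rfl
          intro y _
          ring
      _ ≤ ∑ y, ν y * hs (TV ν z ((1 - (P y + G y)) *ᵥ w) * (P y + G y)) := by
          refine Finset.sum_le_sum fun y _ => mul_le_mul_of_nonneg_left ?_ (hν0 y)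
          refine (h3 y w).trans ?_
          rw [sp_thF (hPGp y), sub_sub, Matrix.mul_assoc]
          have := hs_mul_left (sp_opB (hPGp y)) (TV ν z ((1 - (P y + G y)) *ᵥ w) * (P y + G y))
          rw [one_pow, one_mul] at this
          exact this
      _ ≤ _ := sp_avg hν0 ht2 hc (fun y => P y + G y) hPGp hκ2 s2 w
  have e2 : ∑ y, ν y * (w ⬝ᵥ (G2 y *ᵥ w)) ≤ 4 * t2 * κ2 / th2 * (w ⬝ᵥ w) := by
    rw [div_mul_eq_mul_div, le_div_iff₀ hth2, mul_comm]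
    exact e1
  have e3 : ∑ y, ν y * (w ⬝ᵥ ((P y + G y + G2 y) *ᵥ w)) =
      ∑ y, ν y * (w ⬝ᵥ ((P y + G y) *ᵥ w)) + ∑ y, ν y * (w ⬝ᵥ (G2 y *ᵥ w)) := by
    rw [← Finset.sum_add_distrib]
    apply Finset.sum_congr rfl
    intro y _
    rw [Matrix.add_mulVec, dotProduct_add]
    ring
  rw [e3, k3, add_mul]
  exact add_le_add (s2 w) e2

end Big

alias spread := spread_pr

end Pool.Agent.LRC
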