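import Pool.Agent.Lib_helper94.LRF.CUT3
import Pool.Agent.Lib_helper94.LRF.LR
import Pool.Agent.Lib_helper94.LRF.SPREAD
import Pool.Agent.Lib_helper94.LRF.TAIL
import Pool.Agent.Lib_helper94.LRC.Defs2

/-!
# Block G3: good columns and the spaces of the range lemma
-/

set_option autoImplicit false
set_option linter.unusedSectionVars false

open Finset Matrix Filter

namespace Pool.Agent.LRC

open Pool.Agent.LR2

/-! ### powers of `R` -/

/-- a constant is eventually below a positive power -/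
theorem g3_ev_const (C : ℝ) {e : ℝ} (he : 0 < e) : ∀ᶠ R : ℝ in atTop, C ≤ R ^ e :=
  (tendsto_rpow_atTop he).eventually_ge_atTop C

/-- comparison of powers with a constant -/
theorem g3_ev_pow (C : ℝ) {a b : ℝ} (hab : a < b) :
    ∀ᶠ R : ℝ in atTop, C * R ^ a ≤ R ^ b := by
  filter_upwards [g3_ev_const C (sub_pos.mpr hab), eventually_gt_atTop (0 : ℝ)] with R h1 h0
  have h2 : R ^ b = R ^ (b - a) * R ^ a := by
    rw [← Real.rpow_add h0]
    congr 1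
    ring
  rw [h2]
  exact mul_le_mul_of_nonneg_right h1 (Real.rpow_pos_of_pos h0 a).le

/-- logarithms are eventually below a positive power -/
theorem g3_ev_log (A B : ℝ) (hB : 0 ≤ B) {e : ℝ} (he : 0 < e) :
    ∀ᶠ R : ℝ in atTop, A + B * Real.log R ≤ R ^ e := by
  have h1 := (isLittleO_log_rpow_atTop he).bound (show (0 : ℝ) < 1 / (2 * (B + 1)) by positivity)
  filter_upwards [h1, g3_ev_const (2 * A) he, eventually_ge_atTop (1 : ℝ)] with R h1 h2 h3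
  have h4 : 0 < R ^ e := Real.rpow_pos_of_pos (by linarith) e
  have h5 : Real.log R ≤ 1 / (2 * (B + 1)) * R ^ e := by
    have h6 : ‖R ^ e‖ = R ^ e := by
      rw [Real.norm_eq_abs, abs_of_pos h4]
    rw [h6] at h1
    exact (le_abs_self _).trans (by simpa [Real.norm_eq_abs] using h1)
  have h7 : B * Real.log R ≤ B * (1 / (2 * (B + 1)) * R ^ e) :=
    mul_le_mul_of_nonneg_left h5 hB
  have h8 : B * (1 / (2 * (B + 1)) * R ^ e) ≤ R ^ e / 2 := by
    have h9 : B * (1 / (2 * (B + 1))) ≤ 1 / 2 := by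
      rw [mul_one_div, div_le_div_iff₀ (by positivity) (by norm_num)]
      nlinarith
    calc _ = (B * (1 / (2 * (B + 1)))) * R ^ e := by ring
      _ ≤ 1 / 2 * R ^ e := mul_le_mul_of_nonneg_right h9 h4.le
      _ = _ := by ring
  linarith

/-- the Gaussian tail is below any power -/
theorem g3_ev_exp {e k : ℝ} (he : 0 < e) :
    ∀ᶠ R : ℝ in atTop, Real.exp (R ^ e - (R ^ e) ^ 2 / 2) ≤ R ^ (-k) := by
  filter_upwards [g3_ev_const 4 he, g3_ev_log 0 |k| (abs_nonneg k) (e := e) he,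
    eventually_ge_atTop (1 : ℝ)] with R h1 h2 h3
  have h0 : 0 < R := by linarith
  have h4 : 0 ≤ Real.log R := Real.log_nonneg h3
  have h5 : R ^ e - (R ^ e) ^ 2 / 2 ≤ Real.log R * (-k) := by
    have h6 : k * Real.log R ≤ |k| * Real.log R :=
      mul_le_mul_of_nonneg_right (le_abs_self k) h4
    nlinarith
  rw [Real.rpow_def_of_pos h0 (-k)]
  exact Real.exp_le_exp.mpr h5

/-! ### projections -/

section Proj

variable {ι : Type} [Fintype ι] [DecidableEq ι]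

theorem g3_proj_sq {P : Matrix ι ι ℝ} (hP : IsProj P) (w : ι → ℝ) :
    w ⬝ᵥ (P *ᵥ w) = (P *ᵥ w) ⬝ᵥ (P *ᵥ w) := by
  conv_lhs => rw [← hP.2]
  rw [← Matrix.mulVec_mulVec, dot_symm_mulVec hP.1]

theorem g3_proj_nonneg {P : Matrix ι ι ℝ} (hP : IsProj P) (w : ι → ℝ) :
    0 ≤ w ⬝ᵥ (P *ᵥ w) := by
  rw [g3_proj_sq hP]
  exact dot_self_nonneg _

theorem g3_trace_nonneg {P : Matrix ι ι ℝ} (hP : IsProj P) : 0 ≤ P.trace := by
  have h := hs_symm hP.1
  rw [hP.2] at h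
  rw [← h]
  exact hs_nonneg P

theorem g3_sub {P P' : Matrix ι ι ℝ} (hP : IsProj P) (hP' : IsProj P') (h1 : P * P' = P')
    (h2 : P' * P = P') : IsProj (P - P') := by
  refine ⟨by rw [Matrix.transpose_sub, hP.1, hP'.1], ?_⟩
  rw [Matrix.mul_sub, Matrix.sub_mul, Matrix.sub_mul, hP.2, hP'.2, h1, h2]
  simp

theorem g3_orth {P G : Matrix ι ι ℝ} (hP : IsProj P) (hG : IsProj G) (h : P * G = 0) :
    G * P = 0 := by
  have h1 := congrArg Matrix.transpose h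
  rw [Matrix.transpose_mul, hP.1, hG.1, Matrix.transpose_zero] at h1
  exact h1

theorem g3_add {P G : Matrix ι ι ℝ} (hP : IsProj P) (hG : IsProj G) (h : P * G = 0) :
    IsProj (P + G) := by
  refine ⟨by rw [Matrix.transpose_add, hP.1, hG.1], ?_⟩
  rw [Matrix.mul_add, Matrix.add_mul, Matrix.add_mul, hP.2, hG.2, h, g3_orth hP hG h]
  simp

end Proj

/-! ### the numerical part -/

/-- all inequalities between powers of `R` which are needed -/
theorem g3_num (s c : ℝ) (hs0 : 0 < s) (hsc : 1000 * s ≤ c) (hc : c ≤ 1 / 10 ^ 8) :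
    ∃ R0 : ℝ, ∀ R : ℝ, R0 ≤ R → 1 ≤ R ∧
      2 * R + R ^ (1 / 2 + s) * 2 + R ^ (1 / 2 + s) * (11 * Real.log R) ≤ 3 * R ∧
      12 * R ^ (1 / 2 + 555 * c + 3 * s) ≤ R ^ (1 / 2 + 560 * c) ∧
      25 * R ^ (-(1 / 2) + 555 * c + 3 * s) ≤ R ^ (-(1 / 2) + 560 * c) ∧
      96 * R ^ (-(9 * c) + 7 / 2 * s) ≤ R ^ (-(15 / 2 * c)) ∧
      32 * R ^ (-(1 / 2) + 5 / 2 * s) ≤ R ^ (-(15 / 2 * c)) ∧
      40 * R ^ (-(8 * c) + 3 / 2 * s) ≤ R ^ (-(15 / 2 * c)) ∧
      2000 * (1 + Real.log R) * R ^ (-(145 * c) + 3 / 2 * s) ≤ R ^ (-(15 / 2 * c)) ∧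
      256 * Real.exp (R ^ (s / 4) - (R ^ (s / 4)) ^ 2 / 2) * R ^ (1 / 2 - 145 * c) ≤
        R ^ (-(15 / 2 * c)) ∧
      12 * R ^ (-(9 * c) + 3 * s) ≤ R ^ (-(15 / 2 * c)) ∧
      6 * R ^ (-(15 / 2 * c)) ≤ R ^ (-(7 * c)) := by
  have hc0 : 0 < c := by linarith
  have hc1 : c ≤ 1 / 100000000 := by norm_num at hc ⊢; linarith
  have e1 := g3_ev_log 2 11 (by norm_num) (e := 1 / 4) (by norm_num)
  have e3 := g3_ev_pow 12 (a := 1 / 2 + 555 * c + 3 * s) (b := 1 / 2 + 560 * c) (by linarith)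
  have e4 := g3_ev_pow 25 (a := -(1 / 2) + 555 * c + 3 * s) (b := -(1 / 2) + 560 * c)
    (by linarith)
  have e5 := g3_ev_pow 96 (a := -(9 * c) + 7 / 2 * s) (b := -(15 / 2 * c)) (by linarith)
  have e6 := g3_ev_pow 32 (a := -(1 / 2) + 5 / 2 * s) (b := -(15 / 2 * c)) (by linarith)
  have e7 := g3_ev_pow 40 (a := -(8 * c) + 3 / 2 * s) (b := -(15 / 2 * c)) (by linarith)
  have e8 := g3_ev_log 1 1 (by norm_num) (e := c) hc0
  have e9 := g3_ev_pow 2000 (a := -(144 * c) + 3 / 2 * s) (b := -(15 / 2 * c)) (by linarith)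
  have e10 := g3_ev_exp (e := s / 4) (k := 1) (by linarith)
  have e11 := g3_ev_pow 256 (a := -(1 / 2) - 145 * c) (b := -(15 / 2 * c)) (by linarith)
  have e12 := g3_ev_pow 12 (a := -(9 * c) + 3 * s) (b := -(15 / 2 * c)) (by linarith)
  have e13 := g3_ev_pow 6 (a := -(15 / 2 * c)) (b := -(7 * c)) (by linarith)
  have hall : ∀ᶠ R : ℝ in atTop, 1 ≤ R ∧
      2 * R + R ^ (1 / 2 + s) * 2 + R ^ (1 / 2 + s) * (11 * Real.log R) ≤ 3 * R ∧
      12 * R ^ (1 / 2 + 555 * c + 3 * s) ≤ R ^ (1 / 2 + 560 * c) ∧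
      25 * R ^ (-(1 / 2) + 555 * c + 3 * s) ≤ R ^ (-(1 / 2) + 560 * c) ∧
      96 * R ^ (-(9 * c) + 7 / 2 * s) ≤ R ^ (-(15 / 2 * c)) ∧
      32 * R ^ (-(1 / 2) + 5 / 2 * s) ≤ R ^ (-(15 / 2 * c)) ∧
      40 * R ^ (-(8 * c) + 3 / 2 * s) ≤ R ^ (-(15 / 2 * c)) ∧
      2000 * (1 + Real.log R) * R ^ (-(145 * c) + 3 / 2 * s) ≤ R ^ (-(15 / 2 * c)) ∧
      256 * Real.exp (R ^ (s / 4) - (R ^ (s / 4)) ^ 2 / 2) * R ^ (1 / 2 - 145 * c) ≤
        R ^ (-(15 / 2 * c)) ∧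
      12 * R ^ (-(9 * c) + 3 * s) ≤ R ^ (-(15 / 2 * c)) ∧
      6 * R ^ (-(15 / 2 * c)) ≤ R ^ (-(7 * c)) := by
    filter_upwards [e1, e3, e4, e5, e6, e7, e8, e9, e10, e11, e12, e13,
      eventually_ge_atTop (1 : ℝ)] with R e1 e3 e4 e5 e6 e7 e8 e9 e10 e11 e12 e13 hR
    have h0 : 0 < R := by linarith
    refine ⟨hR, ?_, e3, e4, e5, e6, e7, ?_, ?_, e12, e13⟩
    · have h1 : R ^ (1 / 2 + s) * (2 + 11 * Real.log R) ≤ R ^ (1 / 2 + s) * R ^ (1 / 4 : ℝ) :=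
        mul_le_mul_of_nonneg_left e1 (Real.rpow_pos_of_pos h0 _).le
      have h2 : R ^ (1 / 2 + s) * R ^ (1 / 4 : ℝ) ≤ R := by
        rw [← Real.rpow_add h0]
        calc R ^ (1 / 2 + s + 1 / 4) ≤ R ^ (1 : ℝ) :=
              Real.rpow_le_rpow_of_exponent_le hR (by linarith)
          _ = R := Real.rpow_one R
      linarith
    · have h1 : 2000 * (1 + Real.log R) * R ^ (-(145 * c) + 3 / 2 * s) ≤
          2000 * R ^ c * R ^ (-(145 * c) + 3 / 2 * s) := by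
        refine mul_le_mul_of_nonneg_right ?_ (Real.rpow_pos_of_pos h0 _).le
        linarith
      refine h1.trans ?_
      rw [mul_assoc, ← Real.rpow_add h0]
      refine le_trans (le_of_eq ?_) e9
      congr 2
      ring
    · have h1 : 256 * Real.exp (R ^ (s / 4) - (R ^ (s / 4)) ^ 2 / 2) * R ^ (1 / 2 - 145 * c) ≤
          256 * R ^ (-1 : ℝ) * R ^ (1 / 2 - 145 * c) := by
        refine mul_le_mul_of_nonneg_right ?_ (Real.rpow_pos_of_pos h0 _).le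
        linarith
      refine h1.trans ?_
      rw [mul_assoc, ← Real.rpow_add h0]
      refine le_trans (le_of_eq ?_) e11
      congr 2
      ring
  obtain ⟨R0, h⟩ := eventually_atTop.mp hall
  exact ⟨R0, h⟩

/-- the bound `RL` of the range lemma -/
theorem g3_RL {R s c tp tg lc : ℝ} {L : ℕ} (hs0 : 0 < s) (hc0 : 0 < c) (hR : 1 ≤ R)
    (n5 : 96 * R ^ (-(9 * c) + 7 / 2 * s) ≤ R ^ (-(15 / 2 * c)))
    (n6 : 32 * R ^ (-(1 / 2) + 5 / 2 * s) ≤ R ^ (-(15 / 2 * c)))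
    (n7 : 40 * R ^ (-(8 * c) + 3 / 2 * s) ≤ R ^ (-(15 / 2 * c)))
    (n8 : 2000 * (1 + Real.log R) * R ^ (-(145 * c) + 3 / 2 * s) ≤ R ^ (-(15 / 2 * c)))
    (n9 : 256 * Real.exp (R ^ (s / 4) - (R ^ (s / 4)) ^ 2 / 2) * R ^ (1 / 2 - 145 * c) ≤
        R ^ (-(15 / 2 * c)))
    (n10 : 12 * R ^ (-(9 * c) + 3 * s) ≤ R ^ (-(15 / 2 * c)))
    (n11 : 6 * R ^ (-(15 / 2 * c)) ≤ R ^ (-(7 * c)))
    (htp0 : 0 ≤ tp) (htp : tp ≤ 3 * R ^ (1 / 2 + 128 * c + s))
    (htg : tg ≤ 6 * R ^ (1 / 2 + 273 * c + 2 * s))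
    (hL1 : R ^ (137 * c) ≤ L) (hL2 : (L : ℝ) ≤ 2 * R ^ (137 * c)) (hlc : lc ≤ Real.log R) :
    4 * (R ^ (s / 4)) ^ 2 * (8 * R ^ (-1 + s) * (R ^ (1 / 2 + s) * tp / L + R ^ (1 / 2 + s)) +
          R ^ (-(1 / 2) + s) * R ^ (1 / 2 - 145 * c) * (5 * L + 500 * (1 + lc))) +
        256 * R ^ (1 / 2 - 145 * c) * Real.exp (R ^ (s / 4) - (R ^ (s / 4)) ^ 2 / 2) +
        2 * R ^ (1 / 2 - 282 * c) * R ^ (-1 + s) * tg ≤ R ^ (-(7 * c)) := by
  have h0 : 0 < R := by linarith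
  have pp : ∀ e : ℝ, 0 < R ^ e := fun e => Real.rpow_pos_of_pos h0 e
  have hsq : (R ^ (s / 4)) ^ 2 = R ^ (s / 2) := by
    rw [sq, ← Real.rpow_add h0]
    congr 1
    ring
  -- the five terms
  have t1 : 4 * (R ^ (s / 4)) ^ 2 * (8 * R ^ (-1 + s) * (R ^ (1 / 2 + s) * tp / L)) ≤
      R ^ (-(15 / 2 * c)) := by
    have h1 : tp / L ≤ 3 * R ^ (1 / 2 + 128 * c + s) / R ^ (137 * c) :=
      div_le_div₀ (by have := pp (1 / 2 + 128 * c + s); linarith) htp (pp _) hL1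
    have h2 : 3 * R ^ (1 / 2 + 128 * c + s) / R ^ (137 * c) =
        3 * R ^ (1 / 2 - 9 * c + s) := by
      rw [mul_div_assoc, ← Real.rpow_sub h0]
      congr 2
      ring
    calc _ = 32 * (R ^ (s / 2) * R ^ (-1 + s) * R ^ (1 / 2 + s)) * (tp / L) := by
          rw [hsq]; ring
      _ ≤ 32 * (R ^ (s / 2) * R ^ (-1 + s) * R ^ (1 / 2 + s)) *
          (3 * R ^ (1 / 2 - 9 * c + s)) := by
          refine mul_le_mul_of_nonneg_left (h1.trans h2.le) ?_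
          have := mul_pos (mul_pos (pp (s / 2)) (pp (-1 + s))) (pp (1 / 2 + s))
          linarith
      _ = 96 * (R ^ (s / 2) * R ^ (-1 + s) * R ^ (1 / 2 + s) * R ^ (1 / 2 - 9 * c + s)) := by
          ring
      _ = 96 * R ^ (-(9 * c) + 7 / 2 * s) := by
          rw [← Real.rpow_add h0, ← Real.rpow_add h0, ← Real.rpow_add h0]
          congr 2
          ring
      _ ≤ _ := n5
  have t2 : 4 * (R ^ (s / 4)) ^ 2 * (8 * R ^ (-1 + s) * R ^ (1 / 2 + s)) ≤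
      R ^ (-(15 / 2 * c)) := by
    calc _ = 32 * (R ^ (s / 2) * R ^ (-1 + s) * R ^ (1 / 2 + s)) := by rw [hsq]; ring
      _ = 32 * R ^ (-(1 / 2) + 5 / 2 * s) := by
          rw [← Real.rpow_add h0, ← Real.rpow_add h0]
          congr 2
          ring
      _ ≤ _ := n6
  have t3 : 4 * (R ^ (s / 4)) ^ 2 * (R ^ (-(1 / 2) + s) * R ^ (1 / 2 - 145 * c) * (5 * L)) ≤
      R ^ (-(15 / 2 * c)) := by
    calc _ = 20 * (R ^ (s / 2) * R ^ (-(1 / 2) + s) * R ^ (1 / 2 - 145 * c)) * L := by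
          rw [hsq]; ring
      _ ≤ 20 * (R ^ (s / 2) * R ^ (-(1 / 2) + s) * R ^ (1 / 2 - 145 * c)) *
          (2 * R ^ (137 * c)) := by
          refine mul_le_mul_of_nonneg_left hL2 ?_
          have := mul_pos (mul_pos (pp (s / 2)) (pp (-(1 / 2) + s))) (pp (1 / 2 - 145 * c))
          linarith
      _ = 40 * (R ^ (s / 2) * R ^ (-(1 / 2) + s) * R ^ (1 / 2 - 145 * c) * R ^ (137 * c)) := by
          ring
      _ = 40 * R ^ (-(8 * c) + 3 / 2 * s) := by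
          rw [← Real.rpow_add h0, ← Real.rpow_add h0, ← Real.rpow_add h0]
          congr 2
          ring
      _ ≤ _ := n7
  have t4 : 4 * (R ^ (s / 4)) ^ 2 *
      (R ^ (-(1 / 2) + s) * R ^ (1 / 2 - 145 * c) * (500 * (1 + lc))) ≤
      R ^ (-(15 / 2 * c)) := by
    have h1 : R ^ (s / 2) * R ^ (-(1 / 2) + s) * R ^ (1 / 2 - 145 * c) =
        R ^ (-(145 * c) + 3 / 2 * s) := by
      rw [← Real.rpow_add h0, ← Real.rpow_add h0]
      congr 1
      ring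
    calc _ = 2000 * (1 + lc) * (R ^ (s / 2) * R ^ (-(1 / 2) + s) * R ^ (1 / 2 - 145 * c)) := by
          rw [hsq]; ring
      _ ≤ 2000 * (1 + Real.log R) *
          (R ^ (s / 2) * R ^ (-(1 / 2) + s) * R ^ (1 / 2 - 145 * c)) := by
          refine mul_le_mul_of_nonneg_right (by linarith) ?_
          exact (mul_pos (mul_pos (pp (s / 2)) (pp (-(1 / 2) + s))) (pp (1 / 2 - 145 * c))).le
      _ = 2000 * (1 + Real.log R) * R ^ (-(145 * c) + 3 / 2 * s) := by rw [h1]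
      _ ≤ _ := n8
  have t5 : 256 * R ^ (1 / 2 - 145 * c) * Real.exp (R ^ (s / 4) - (R ^ (s / 4)) ^ 2 / 2) ≤
      R ^ (-(15 / 2 * c)) := by
    refine le_trans (le_of_eq ?_) n9
    ring
  have t6 : 2 * R ^ (1 / 2 - 282 * c) * R ^ (-1 + s) * tg ≤ R ^ (-(15 / 2 * c)) := by
    calc _ ≤ 2 * R ^ (1 / 2 - 282 * c) * R ^ (-1 + s) * (6 * R ^ (1 / 2 + 273 * c + 2 * s)) := by
          refine mul_le_mul_of_nonneg_left htg ?_
          have := mul_pos (pp (1 / 2 - 282 * c)) (pp (-1 + s))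
          linarith
      _ = 12 * (R ^ (1 / 2 - 282 * c) * R ^ (-1 + s) * R ^ (1 / 2 + 273 * c + 2 * s)) := by ring
      _ = 12 * R ^ (-(9 * c) + 3 * s) := by
          rw [← Real.rpow_add h0, ← Real.rpow_add h0]
          congr 2
          ring
      _ ≤ _ := n10
  calc _ = 4 * (R ^ (s / 4)) ^ 2 * (8 * R ^ (-1 + s) * (R ^ (1 / 2 + s) * tp / L)) +
      4 * (R ^ (s / 4)) ^ 2 * (8 * R ^ (-1 + s) * R ^ (1 / 2 + s)) +
      4 * (R ^ (s / 4)) ^ 2 * (R ^ (-(1 / 2) + s) * R ^ (1 / 2 - 145 * c) * (5 * L)) +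
      4 * (R ^ (s / 4)) ^ 2 *
      (R ^ (-(1 / 2) + s) * R ^ (1 / 2 - 145 * c) * (500 * (1 + lc))) +
      256 * R ^ (1 / 2 - 145 * c) * Real.exp (R ^ (s / 4) - (R ^ (s / 4)) ^ 2 / 2) +
      2 * R ^ (1 / 2 - 282 * c) * R ^ (-1 + s) * tg := by ring
    _ ≤ 6 * R ^ (-(15 / 2 * c)) := by linarith
    _ ≤ _ := n11

/-- from `R ^ a * t ≤ C` to `t ≤ R ^ (-a) * C` -/
theorem g3_div {R a t C : ℝ} (h0 : 0 < R) (h : R ^ a * t ≤ C) : t ≤ R ^ (-a) * C := by
  have h1 := mul_le_mul_of_nonneg_left h (Real.rpow_pos_of_pos h0 (-a)).le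
  rw [← mul_assoc, ← Real.rpow_add h0] at h1
  simpa using h1

/-- G3 -/
theorem g3_pr (s c : ℝ) (hs0 : 0 < s) (hsc : 1000 * s ≤ c) (hc : c ≤ 1 / 10 ^ 8) :
    ∃ R0 : ℝ, ∀ R : ℝ, R0 ≤ R → ∀ {X Y ι : Type} [Fintype X] [Fintype Y] [Fintype ι]
      [DecidableEq ι] {μ : X → ℝ} {ν : Y → ℝ} {M : X → Y → ℝ} {U : ℝ} {V : ι → ℝ}
      {be : X → ι → ℝ} {z : Y → ι → ℝ}, CoreR R s μ ν M U V be z →
      ∃ (Yg : Finset Y) (P P' F : Y → Matrix ι ι ℝ), ColsG R s c μ ν be z Yg P P' F := by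
  classical
  obtain ⟨R0, hnum⟩ := g3_num s c hs0 hsc hc
  refine ⟨R0, ?_⟩
  intro R hR0 X Y ι _ _ _ _ μ ν M U V be z hC
  obtain ⟨hR, n2, n3, n4, n5, n6, n7, n8, n9, n10, n11⟩ := hnum R hR0
  have h0 : 0 < R := by linarith
  have pp : ∀ e : ℝ, 0 < R ^ e := fun e => Real.rpow_pos_of_pos h0 e
  have hc0 : 0 < c := by linarith
  have hcore := hC.core.toCore
  have ht2 : (0 : ℝ) ≤ R ^ (1 / 2 + s) := (pp _).le
  have hh : (0 : ℝ) < R ^ (1 / 2 - 64 * c) := pp _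
  have hh' : R ^ (1 / 2 - 64 * c) ≤ R ^ (1 / 2 + 8 * c) :=
    Real.rpow_le_rpow_of_exponent_le hR (by linarith)
  have hth : (0 : ℝ) < R ^ (1 / 2 - 145 * c) := pp _
  have hth2 : (0 : ℝ) < R ^ (1 / 2 - 282 * c) := pp _
  have hTV : ∀ d : ι → ℝ, hs (TV ν z d) ≤ R ^ (1 / 2 + s) * (d ⬝ᵥ d) := hcore.hs_TV
  choose P P' cP cP' c1 c2 c3 c4 c5 c6 c7 c8 c9 using
    fun y => cut3 (K := TV ν z (z y)) (TV_transpose (z y)) hh hh'
  have hW : ∀ y, IsProj (P y - P' y) := fun y => g3_sub (cP y) (cP' y) (c1 y) (c2 y)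
  choose G G2 gG gG2 g1 g2 g3 g4 g5 g6 g7 g8 using
    fun y => range_lemma hcore (hW y) hth hth2
  -- the projections
  have hWG : ∀ y, IsProj (P y - P' y + G y) := fun y => g3_add (hW y) (gG y) (g1 y)
  have hWG2 : ∀ y, (P y - P' y + G y) * G2 y = 0 := fun y => by
    rw [Matrix.add_mul, g2 y, g3 y, add_zero]
  have hF : ∀ y, IsProj (P y - P' y + G y + G2 y) := fun y => g3_add (hWG y) (gG2 y) (hWG2 y)
  -- traces
  have hG0 : ∀ y, 0 ≤ (G y).trace := fun y => g3_trace_nonneg (gG y)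
  have hP'0 : ∀ y, 0 ≤ (P' y).trace := fun y => g3_trace_nonneg (cP' y)
  have hW0 : ∀ y, 0 ≤ (P y - P' y).trace := fun y => g3_trace_nonneg (hW y)
  have trW : ∀ y, z y ⬝ᵥ z y ≤ 3 * R →
      (P y - P' y).trace ≤ 3 * R ^ (1 / 2 + 128 * c + s) := by
    intro y hy
    have h1 := c8 y
    have h2 : hs (TV ν z (z y)) ≤ R ^ (1 / 2 + s) * (3 * R) :=
      (hTV _).trans (mul_le_mul_of_nonneg_left hy ht2)
    have h3 : (R ^ (1 / 2 - 64 * c)) ^ 2 = R ^ (1 - 128 * c) := by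
      rw [sq, ← Real.rpow_add h0]
      congr 1
      ring
    rw [h3] at h1
    have h4 := g3_div h0 (h1.trans h2)
    have h5 : (P y - P' y).trace ≤ (P y).trace := by
      rw [Matrix.trace_sub]
      linarith [hP'0 y]
    refine h5.trans (h4.trans (le_of_eq ?_))
    calc R ^ (-(1 - 128 * c)) * (R ^ (1 / 2 + s) * (3 * R)) =
        3 * (R ^ (-(1 - 128 * c)) * R ^ (1 / 2 + s) * R ^ (1 : ℝ)) := by
          rw [Real.rpow_one]; ring
      _ = _ := by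
          rw [← Real.rpow_add h0, ← Real.rpow_add h0]
          congr 2
          ring
  have trG : ∀ y, z y ⬝ᵥ z y ≤ 3 * R →
      (G y).trace ≤ 3 * R ^ (1 / 2 + 273 * c + 2 * s) := by
    intro y hy
    have h1 := (g4 y).trans (mul_le_mul_of_nonneg_left (trW y hy) ht2)
    refine (g3_div h0 h1).trans (le_of_eq ?_)
    calc R ^ (-(1 / 2 - 145 * c)) * (R ^ (1 / 2 + s) * (3 * R ^ (1 / 2 + 128 * c + s))) =
        3 * (R ^ (-(1 / 2 - 145 * c)) * R ^ (1 / 2 + s) * R ^ (1 / 2 + 128 * c + s)) := by ring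
      _ = _ := by
          rw [← Real.rpow_add h0, ← Real.rpow_add h0]
          congr 2
          ring
  have hmono : R ^ (1 / 2 + 128 * c + s) ≤ R ^ (1 / 2 + 273 * c + 2 * s) :=
    Real.rpow_le_rpow_of_exponent_le hR (by linarith)
  have trWG : ∀ y, z y ⬝ᵥ z y ≤ 3 * R →
      (P y - P' y + G y).trace ≤ 6 * R ^ (1 / 2 + 273 * c + 2 * s) := by
    intro y hy
    rw [Matrix.trace_add]
    have h1 := trW y hy
    have h2 := trG y hy
    linarith
  have trG2 : ∀ y, z y ⬝ᵥ z y ≤ 3 * R →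
      (G2 y).trace ≤ 6 * R ^ (1 / 2 + 555 * c + 3 * s) := by
    intro y hy
    have h1 := (g5 y).trans (mul_le_mul_of_nonneg_left (trWG y hy) ht2)
    refine (g3_div h0 h1).trans (le_of_eq ?_)
    calc R ^ (-(1 / 2 - 282 * c)) * (R ^ (1 / 2 + s) * (6 * R ^ (1 / 2 + 273 * c + 2 * s))) =
        6 * (R ^ (-(1 / 2 - 282 * c)) * R ^ (1 / 2 + s) * R ^ (1 / 2 + 273 * c + 2 * s)) := by
          ring
      _ = _ := by
          rw [← Real.rpow_add h0, ← Real.rpow_add h0]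
          congr 2
          ring
  refine ⟨Finset.univ.filter fun y => z y ⬝ᵥ z y ≤ 3 * R, P, P',
    fun y => P y - P' y + G y + G2 y, ?_⟩
  refine
    { zy := ?_
      pb := ?_
      projP := cP
      projP' := cP'
      projF := hF
      nest := fun y => ⟨c1 y, c2 y⟩
      comm := c3
      comm' := c4
      low := c5
      win := c6
      big := c9
      incl := ?_
      trF := ?_
      spr := ?_
      rl := ?_ }
  · intro y hy
    exact (Finset.mem_filter.mp hy).2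
  · -- most columns are good
    have hT : ∀ q : Y → ℝ, IsPr q → ∀ σ : ℝ, 0 ≤ σ → (∀ y, q y ≤ Real.exp σ * ν y) →
        ∑ y, q y * (z y ⬝ᵥ z y) ≤ (2 * R + R ^ (1 / 2 + s) * 2) + R ^ (1 / 2 + s) * σ := by
      intro q hq σ hσ hqs
      have h1 := hcore.f5 q hq σ hσ hqs 1 1 Matrix.transpose_one
        (fun w => by rw [Matrix.one_mulVec]; exact dot_self_nonneg w)
        (fun w => by rw [Matrix.one_mulVec, one_mul])
      simp only [Matrix.one_mulVec, Matrix.one_apply_eq, mul_one, Finset.sum_const,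
        Finset.card_univ, nsmul_eq_mul] at h1
      have h2 := hC.card
      linarith
    have h1 := tail_prob hcore.prY (V := fun y => z y ⬝ᵥ z y) ht2 hT (11 * Real.log R)
    have h2 : Finset.univ.filter (fun y => ¬ z y ⬝ᵥ z y ≤ 3 * R) ⊆
        Finset.univ.filter (fun y => (2 * R + R ^ (1 / 2 + s) * 2) +
          R ^ (1 / 2 + s) * (11 * Real.log R) < z y ⬝ᵥ z y) := by
      intro y hy
      simp only [Finset.mem_filter, Finset.mem_univ, true_and, not_le] at hy ⊢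
      linarith
    have h3 : ∑ y ∈ Finset.univ.filter (fun y => ¬ z y ⬝ᵥ z y ≤ 3 * R), ν y ≤
        Real.exp (-(11 * Real.log R)) :=
      (Finset.sum_le_sum_of_subset_of_nonneg h2 fun y _ _ => hcore.prY.nonneg y).trans h1
    have h4 := Finset.sum_filter_add_sum_filter_not Finset.univ
      (fun y => z y ⬝ᵥ z y ≤ 3 * R) ν
    have h5 : Real.exp (-(11 * Real.log R)) ≤ R ^ (-10 : ℝ) := by
      have h6 : Real.exp (-(11 * Real.log R)) = R ^ (-11 : ℝ) := by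
        rw [Real.rpow_def_of_pos h0]
        congr 1
        ring
      rw [h6]
      exact Real.rpow_le_rpow_of_exponent_le hR (by norm_num)
    have h7 := hcore.prY.sum
    linarith
  · intro y
    change (P y - P' y + G y + G2 y) * (P y - P' y) = P y - P' y
    rw [Matrix.add_mul, Matrix.add_mul, g3_orth (hW y) (gG y) (g1 y),
      g3_orth (hW y) (gG2 y) (g2 y), (hW y).2, add_zero, add_zero]
  · intro y hy
    have hy' := (Finset.mem_filter.mp hy).2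
    change (P y - P' y + G y + G2 y).trace ≤ _
    rw [Matrix.trace_add]
    have h1 := trWG y hy'
    have h2 := trG2 y hy'
    have h3 : R ^ (1 / 2 + 273 * c + 2 * s) ≤ R ^ (1 / 2 + 555 * c + 3 * s) :=
      Real.rpow_le_rpow_of_exponent_le hR (by linarith)
    linarith
  · -- spread
    intro w
    have hP1 : ∀ y w, (R ^ (1 / 2 - 64 * c)) ^ 2 * (w ⬝ᵥ ((P y - P' y) *ᵥ w)) ≤
        (TV ν z (z y) *ᵥ w) ⬝ᵥ (TV ν z (z y) *ᵥ w) := by
      intro y w
      refine le_trans ?_ (c7 y w)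
      refine mul_le_mul_of_nonneg_left ?_ (sq_nonneg _)
      rw [Matrix.sub_mulVec, dotProduct_sub]
      linarith [g3_proj_nonneg (cP' y) w]
    have hsp := spread hcore.prY hcore.iso ht2 hTV hh hth hth2 (fun y => P y - P' y) G G2
      hW gG gG2 g1 g2 g3 hP1 g6 g7 rfl rfl rfl w
    refine hsp.trans (mul_le_mul_of_nonneg_right ?_ (dot_self_nonneg w))
    have k1 : R ^ (1 / 2 + s) / (R ^ (1 / 2 - 64 * c)) ^ 2 = R ^ (-(1 / 2) + 128 * c + s) := by
      rw [sq, ← Real.rpow_add h0, ← Real.rpow_sub h0]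
      congr 1
      ring
    rw [k1]
    have k2 : R ^ (-(1 / 2) + 128 * c + s) + 4 * R ^ (1 / 2 + s) *
        R ^ (-(1 / 2) + 128 * c + s) / R ^ (1 / 2 - 145 * c) ≤
        5 * R ^ (-(1 / 2) + 273 * c + 2 * s) := by
      have h1 : 4 * R ^ (1 / 2 + s) *
          R ^ (-(1 / 2) + 128 * c + s) / R ^ (1 / 2 - 145 * c) =
          4 * R ^ (-(1 / 2) + 273 * c + 2 * s) := by
        rw [mul_assoc, mul_div_assoc, ← Real.rpow_add h0, ← Real.rpow_sub h0]
        congr 2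
        ring
      rw [h1]
      have h2 : R ^ (-(1 / 2) + 128 * c + s) ≤ R ^ (-(1 / 2) + 273 * c + 2 * s) :=
        Real.rpow_le_rpow_of_exponent_le hR (by linarith)
      linarith
    set κ2 := R ^ (-(1 / 2) + 128 * c + s) + 4 * R ^ (1 / 2 + s) *
        R ^ (-(1 / 2) + 128 * c + s) / R ^ (1 / 2 - 145 * c) with hκ2
    have k3 : 4 * R ^ (1 / 2 + s) * κ2 / R ^ (1 / 2 - 282 * c) ≤
        20 * R ^ (-(1 / 2) + 555 * c + 3 * s) := by
      have h1 : 4 * R ^ (1 / 2 + s) * κ2 / R ^ (1 / 2 - 282 * c) ≤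
          4 * R ^ (1 / 2 + s) * (5 * R ^ (-(1 / 2) + 273 * c + 2 * s)) /
            R ^ (1 / 2 - 282 * c) := by
        refine div_le_div_of_nonneg_right ?_ hth2.le
        exact mul_le_mul_of_nonneg_left k2 (by linarith)
      refine h1.trans (le_of_eq ?_)
      calc 4 * R ^ (1 / 2 + s) * (5 * R ^ (-(1 / 2) + 273 * c + 2 * s)) /
            R ^ (1 / 2 - 282 * c) =
          20 * (R ^ (1 / 2 + s) * R ^ (-(1 / 2) + 273 * c + 2 * s) /
            R ^ (1 / 2 - 282 * c)) := by ring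
        _ = _ := by
            rw [← Real.rpow_add h0, ← Real.rpow_sub h0]
            congr 2
            ring
    have h5 : R ^ (-(1 / 2) + 273 * c + 2 * s) ≤ R ^ (-(1 / 2) + 555 * c + 3 * s) :=
      Real.rpow_le_rpow_of_exponent_le hR (by linarith)
    linarith
  · -- range lemma
    intro y hy ψ hψ1 hψ2
    have hy' := (Finset.mem_filter.mp hy).2
    have hL0 : (1 : ℝ) ≤ R ^ (137 * c) := Real.one_le_rpow hR (by linarith)
    have hL1 : R ^ (137 * c) ≤ (⌈R ^ (137 * c)⌉₊ : ℝ) := Nat.le_ceil _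
    have hL2 : (⌈R ^ (137 * c)⌉₊ : ℝ) ≤ 2 * R ^ (137 * c) := by
      have := Nat.ceil_lt_add_one (pp (137 * c)).le
      linarith
    have hL3 : 1 ≤ ⌈R ^ (137 * c)⌉₊ := by
      have : (1 : ℝ) ≤ (⌈R ^ (137 * c)⌉₊ : ℝ) := hL0.trans hL1
      exact_mod_cast this
    have hlg : (1 : ℝ) ≤ R ^ (s / 4) := Real.one_le_rpow hR (by linarith)
    have h1 := g8 y ψ hψ1 hψ2 _ hL3 _ hlg
    have h2 : (1 - (P y - P' y + G y + G2 y)) = 1 - (P y - P' y) - G y - G2 y := by abel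
    rw [h2]
    refine h1.trans ?_
    have hlc : Real.log (Fintype.card ι) ≤ Real.log R := by
      rcases Nat.eq_zero_or_pos (Fintype.card ι) with h | h
      · rw [h, Nat.cast_zero, Real.log_zero]
        exact Real.log_nonneg hR
      · exact Real.log_le_log (by exact_mod_cast h) hC.card
    exact g3_RL hs0 hc0 hR n5 n6 n7 n8 n9 n10 n11 (hW0 y) (trW y hy') (trWG y hy')
      hL1 hL2 hlc


alias g3 := g3_pr

end Pool.Agent.LRC
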