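import Pool.Agent.Lib_helper94.LRF.K4
import Pool.Agent.Lib_helper94.LRF.F3

/-!
# Block LB: the part of `l` from the big eigenvalues
-/

set_option autoImplicit false
set_option linter.unusedSectionVars false

open Finset Matrix

namespace Pool.Agent.LRC

open Pool.Agent.LR2

section LB

variable {X Y ι : Type} [Fintype X] [Fintype Y] [Fintype ι] [DecidableEq ι]
variable {μ : X → ℝ} {ν : Y → ℝ} {M : X → Y → ℝ} {U : ℝ} {V : ι → ℝ} {be : X → ι → ℝ}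
    {z : Y → ι → ℝ} {t2 kap rho del2 w0 q2 : ℝ}

theorem lb_smul_sq (c : ℝ) (w : ι → ℝ) : (c • w) ⬝ᵥ (c • w) = c ^ 2 * (w ⬝ᵥ w) := by
  simp only [smul_dotProduct, dotProduct_smul, smul_eq_mul]
  ring

/-- operator bound of a normalised leg -/
theorem lb_op (hc : Core μ ν M U V be z t2 kap rho del2 w0 q2)
    {m0 W : ℝ} (hm0 : 0 < m0) (hW : 5 / m0 ≤ W) (x : X)
    (h1 : m0 ^ 2 ≤ be x ⬝ᵥ be x)
    (h3 : t2 * ∑ y, ν y * (ctd μ ν M x y - be x ⬝ᵥ z y) ^ 2 ≤ 1) :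
    OpB (TV ν z ((Real.sqrt (be x ⬝ᵥ be x))⁻¹ • be x)) W := by
  have hm : m0 ≤ Real.sqrt (be x ⬝ᵥ be x) := Real.le_sqrt_of_sq_le h1
  set m := Real.sqrt (be x ⬝ᵥ be x)
  have hmp : 0 < m := lt_of_lt_of_le hm0 hm
  have h5 : OpB (TV ν z (be x)) 5 := by
    refine (hc.f2 x).1.mono (by positivity) ?_
    have h6 : Real.sqrt (t2 * ∑ y, ν y * (ctd μ ν M x y - be x ⬝ᵥ z y) ^ 2) ≤ 1 := by
      exact Real.sqrt_le_iff.mpr ⟨zero_le_one, by rw [one_pow]; exact h3⟩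
    linarith
  have h7 : OpB (TV ν z (m⁻¹ • be x)) (5 / m) := by
    intro w
    rw [TV_smul, Matrix.smul_mulVec, lb_smul_sq]
    have h8 := mul_le_mul_of_nonneg_left (h5 w) (sq_nonneg m⁻¹)
    refine h8.trans (le_of_eq ?_)
    field_simp
  refine h7.mono (by positivity) (le_trans ?_ hW)
  exact div_le_div_of_nonneg_left (by norm_num) hm0 hm

/-- the second moment of `A β` -/
theorem lb_mom (hc : Core μ ν M U V be z t2 kap rho del2 w0 q2) (A : Matrix ι ι ℝ) :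
    ∑ x, μ x * ((A *ᵥ be x) ⬝ᵥ (A *ᵥ be x)) ≤ del2 * hs A := by
  have h1 : ∀ x, μ x * ((A *ᵥ be x) ⬝ᵥ (A *ᵥ be x)) =
      ∑ k, ∑ i, ∑ j, A k i * A k j * (μ x * (be x i * be x j)) := by
    intro x
    simp only [dotProduct, mulVec]
    rw [Finset.mul_sum]
    apply Finset.sum_congr rfl
    intro k _
    rw [Finset.sum_mul_sum, Finset.mul_sum]
    apply Finset.sum_congr rfl
    intro i _
    rw [Finset.mul_sum]
    apply Finset.sum_congr rfl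
    intro j _
    ring
  have h2 : ∑ x, μ x * ((A *ᵥ be x) ⬝ᵥ (A *ᵥ be x)) =
      ∑ k, ∑ i, ∑ j, A k i * A k j * ∑ x, (μ x * (be x i * be x j)) := by
    rw [Finset.sum_congr rfl fun x _ => h1 x, Finset.sum_comm]
    apply Finset.sum_congr rfl
    intro k _
    rw [Finset.sum_comm]
    apply Finset.sum_congr rfl
    intro i _
    rw [Finset.sum_comm]
    apply Finset.sum_congr rfl
    intro j _
    rw [Finset.mul_sum]
  rw [h2]
  have h3 : ∀ k i, ∑ j, A k i * A k j * ∑ x, (μ x * (be x i * be x j)) = A k i ^ 2 * V i := by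
    intro k i
    rw [Finset.sum_eq_single i]
    · rw [hc.mom, if_pos rfl, sq]
    · intro j _ hj
      rw [hc.mom, if_neg (Ne.symm hj), mul_zero]
    · intro h
      exact (h (Finset.mem_univ i)).elim
  simp only [h3, hs]
  rw [Finset.mul_sum]
  apply Finset.sum_le_sum
  intro k _
  rw [Finset.mul_sum]
  apply Finset.sum_le_sum
  intro i _
  rw [mul_comm del2]
  exact mul_le_mul_of_nonneg_left (hc.V_le i) (sq_nonneg _)

/-- LB: the part of `l` from the big eigenvalues (`k4`; `E_x |K P' β|² ≤ del2 |K P'|²`) -/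
theorem lb_pr (hc : Core μ ν M U V be z t2 kap rho del2 w0 q2)
    {m0 W : ℝ} (hm0 : 0 < m0) (hm1 : m0 ≤ 1) (hW : 5 / m0 ≤ W) (Xg : Finset X) (b : X → ι → ℝ)
    (hbx : ∀ x, b x = (Real.sqrt (be x ⬝ᵥ be x))⁻¹ • be x)
    (h1 : ∀ x ∈ Xg, m0 ^ 2 ≤ be x ⬝ᵥ be x)
    (h3 : ∀ x ∈ Xg, t2 * ∑ y, ν y * (ctd μ ν M x y - be x ⬝ᵥ z y) ^ 2 ≤ 1)
    (Yg : Finset Y) (P' : Y → Matrix ι ι ℝ) {h' : ℝ} (hh' : 0 < h')
    (hPh : ∀ y, h' ^ 2 * hs (TV ν z (z y) * P' y) ≤ hs (TV ν z (z y) * TV ν z (z y))) :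
    ∑ x ∈ Xg, ∑ y ∈ Yg, μ x * ν y *
      ((TV ν z (b x) *ᵥ ((TV ν z (z y) * P' y) *ᵥ b x)) ⬝ᵥ
       (TV ν z (b x) *ᵥ ((TV ν z (z y) * P' y) *ᵥ b x))) ≤
      W ^ 2 * (del2 / m0 ^ 2 * (4 * t2 ^ 3 * Fintype.card ι / h' ^ 2)) := by
  have hμ0 : ∀ x, 0 ≤ μ x := hc.prX.1
  have hν0 : ∀ y, 0 ≤ ν y := hc.prY.1
  have hm2 : 0 < m0 ^ 2 := by positivity
  have hh2 : 0 < h' ^ 2 := by positivity
  have hW0 : 0 ≤ W ^ 2 := sq_nonneg W
  set A : Y → Matrix ι ι ℝ := fun y => TV ν z (z y) * P' y with hA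
  have hterm : ∀ x ∈ Xg, ∀ y,
      (TV ν z (b x) *ᵥ (A y *ᵥ b x)) ⬝ᵥ (TV ν z (b x) *ᵥ (A y *ᵥ b x)) ≤
      W ^ 2 / m0 ^ 2 * ((A y *ᵥ be x) ⬝ᵥ (A y *ᵥ be x)) := by
    intro x hx y
    have hop := lb_op hc hm0 hW x (h1 x hx) (h3 x hx)
    rw [← hbx x] at hop
    refine (hop _).trans ?_
    have h4 : (A y *ᵥ b x) ⬝ᵥ (A y *ᵥ b x) = (be x ⬝ᵥ be x)⁻¹ * ((A y *ᵥ be x) ⬝ᵥ (A y *ᵥ be x)) := by
      rw [hbx x, Matrix.mulVec_smul, lb_smul_sq, inv_pow, Real.sq_sqrt (dot_self_nonneg _)]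
    rw [h4, div_mul_eq_mul_div, mul_div_assoc]
    refine mul_le_mul_of_nonneg_left ?_ hW0
    rw [div_eq_inv_mul]
    refine mul_le_mul_of_nonneg_right ?_ (dot_self_nonneg _)
    exact inv_anti₀ hm2 (h1 x hx)
  have hk4 := k4 (ν := ν) (z := z) (t2 := t2) hc.prY hc.iso hc.f1 hc.t2_one (fun c => hc.hs_TV c)
  calc ∑ x ∈ Xg, ∑ y ∈ Yg, μ x * ν y *
      ((TV ν z (b x) *ᵥ (A y *ᵥ b x)) ⬝ᵥ (TV ν z (b x) *ᵥ (A y *ᵥ b x)))
      ≤ ∑ x ∈ Xg, ∑ y ∈ Yg, μ x * ν y *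
        (W ^ 2 / m0 ^ 2 * ((A y *ᵥ be x) ⬝ᵥ (A y *ᵥ be x))) := by
        apply Finset.sum_le_sum
        intro x hx
        apply Finset.sum_le_sum
        intro y _
        exact mul_le_mul_of_nonneg_left (hterm x hx y) (mul_nonneg (hμ0 x) (hν0 y))
    _ ≤ ∑ x, ∑ y, μ x * ν y * (W ^ 2 / m0 ^ 2 * ((A y *ᵥ be x) ⬝ᵥ (A y *ᵥ be x))) := by
        have hnn : ∀ x y, 0 ≤ μ x * ν y * (W ^ 2 / m0 ^ 2 * ((A y *ᵥ be x) ⬝ᵥ (A y *ᵥ be x))) := by
          intro x y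
          exact mul_nonneg (mul_nonneg (hμ0 x) (hν0 y))
            (mul_nonneg (div_nonneg hW0 hm2.le) (dot_self_nonneg _))
        refine (Finset.sum_le_sum fun x _ => Finset.sum_le_sum_of_subset_of_nonneg
          (Finset.subset_univ Yg) fun y _ _ => hnn x y).trans ?_
        exact Finset.sum_le_sum_of_subset_of_nonneg (Finset.subset_univ Xg)
          fun x _ _ => Finset.sum_nonneg fun y _ => hnn x y
    _ = W ^ 2 / m0 ^ 2 * ∑ y, ν y * ∑ x, μ x * ((A y *ᵥ be x) ⬝ᵥ (A y *ᵥ be x)) := by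
        rw [Finset.sum_comm, Finset.mul_sum]
        apply Finset.sum_congr rfl
        intro y _
        rw [Finset.mul_sum, Finset.mul_sum]
        apply Finset.sum_congr rfl
        intro x _
        ring
    _ ≤ W ^ 2 / m0 ^ 2 * ∑ y, ν y * (del2 * (hs (TV ν z (z y) * TV ν z (z y)) / h' ^ 2)) := by
        refine mul_le_mul_of_nonneg_left ?_ (div_nonneg hW0 hm2.le)
        apply Finset.sum_le_sum
        intro y _
        refine mul_le_mul_of_nonneg_left ((lb_mom hc (A y)).trans ?_) (hν0 y)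
        refine mul_le_mul_of_nonneg_left ?_ hc.del2_nonneg
        rw [le_div_iff₀ hh2, mul_comm]
        exact hPh y
    _ = W ^ 2 / m0 ^ 2 * (del2 / h' ^ 2 * ∑ y, ν y * hs (TV ν z (z y) * TV ν z (z y))) := by
        congr 1
        rw [Finset.mul_sum]
        apply Finset.sum_congr rfl
        intro y _
        ring
    _ ≤ W ^ 2 / m0 ^ 2 * (del2 / h' ^ 2 * (4 * t2 ^ 3 * Fintype.card ι)) := by
        refine mul_le_mul_of_nonneg_left ?_ (div_nonneg hW0 hm2.le)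
        exact mul_le_mul_of_nonneg_left hk4 (div_nonneg hc.del2_nonneg hh2.le)
    _ = W ^ 2 * (del2 / m0 ^ 2 * (4 * t2 ^ 3 * Fintype.card ι / h' ^ 2)) := by
        ring

end LB

alias lb := lb_pr

end Pool.Agent.LRC
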