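import Pool.Agent.Lib_helper94.LRF.TAIL
import Pool.Agent.Lib_helper94.LRF.F3

/-!
# N2OF: the bound `n2` of `c2` from the range lemma and the bilinear bound
-/

set_option autoImplicit false
set_option linter.unusedSectionVars false

open Finset Matrix

namespace Pool.Agent.LRC

open Pool.Agent.LR2

section N2OFgen

variable {ι : Type} [Fintype ι] [DecidableEq ι]

theorem n2of_proj_sq {P : Matrix ι ι ℝ} (hP : IsProj P) (w : ι → ℝ) :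
    (P *ᵥ w) ⬝ᵥ (P *ᵥ w) = (P *ᵥ w) ⬝ᵥ w := by
  obtain ⟨h1, h2⟩ := hP
  have h3 := dot_symm_mulVec h1 (P *ᵥ w) w
  rw [Matrix.mulVec_mulVec, h2] at h3
  exact h3

theorem n2of_split {P : Matrix ι ι ℝ} (hP : IsProj P) (w : ι → ℝ) :
    ((1 - P) *ᵥ w) ⬝ᵥ ((1 - P) *ᵥ w) + (P *ᵥ w) ⬝ᵥ w = w ⬝ᵥ w := by
  have h := n2of_proj_sq hP w
  rw [Matrix.sub_mulVec, Matrix.one_mulVec]
  simp only [sub_dotProduct, dotProduct_sub]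
  rw [h, dotProduct_comm w (P *ᵥ w)]
  ring

theorem n2of_proj_le {P : Matrix ι ι ℝ} (hP : IsProj P) (w : ι → ℝ) :
    (P *ᵥ w) ⬝ᵥ (P *ᵥ w) ≤ w ⬝ᵥ w := by
  have h := n2of_split hP w
  have h1 := dot_self_nonneg ((1 - P) *ᵥ w)
  rw [n2of_proj_sq hP w]
  linarith

theorem n2of_smul_sq (c : ℝ) (w : ι → ℝ) : (c • w) ⬝ᵥ (c • w) = c ^ 2 * (w ⬝ᵥ w) := by
  simp only [smul_dotProduct, dotProduct_smul, smul_eq_mul]
  ring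

end N2OFgen

section N2OF

variable {X Y ι : Type} [Fintype X] [Fintype Y] [Inhabited Y] [Fintype ι] [DecidableEq ι]
  [Nonempty ι]
variable {μ : X → ℝ} {ν : Y → ℝ} {M : X → Y → ℝ} {U : ℝ} {V : ι → ℝ} {be : X → ι → ℝ}
    {z : Y → ι → ℝ} {t2 kap rho del2 w0 q2 : ℝ}

/-- operator bound of a normalised leg -/
theorem n2of_op (hc : Core μ ν M U V be z t2 kap rho del2 w0 q2)
    {m0 W : ℝ} (hm0 : 0 < m0) (hW : 5 / m0 ≤ W) (x : X)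
    (h1 : m0 ^ 2 ≤ be x ⬝ᵥ be x)
    (h3 : t2 * ∑ y, ν y * (ctd μ ν M x y - be x ⬝ᵥ z y) ^ 2 ≤ 1) :
    OpB (TV ν z ((Real.sqrt (be x ⬝ᵥ be x))⁻¹ • be x)) W := by
  have hm : m0 ≤ Real.sqrt (be x ⬝ᵥ be x) := Real.le_sqrt_of_sq_le h1
  set m := Real.sqrt (be x ⬝ᵥ be x)
  have hmp : 0 < m := lt_of_lt_of_le hm0 hm
  have h5 : OpB (TV ν z (be x)) 5 := by
    refine (hc.f2 x).1.mono (by positivity) ?_
    have h6 : Real.sqrt (t2 * ∑ y, ν y * (ctd μ ν M x y - be x ⬝ᵥ z y) ^ 2) ≤ 1 := by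
      exact Real.sqrt_le_iff.mpr ⟨zero_le_one, by rw [one_pow]; exact h3⟩
    linarith
  have h7 : OpB (TV ν z (m⁻¹ • be x)) (5 / m) := by
    intro w
    rw [TV_smul, Matrix.smul_mulVec, n2of_smul_sq]
    have h8 := mul_le_mul_of_nonneg_left (h5 w) (sq_nonneg m⁻¹)
    refine h8.trans (le_of_eq ?_)
    field_simp
  refine h7.mono (by positivity) (le_trans ?_ hW)
  exact div_le_div_of_nonneg_left (by norm_num) hm0 hm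

/-- the tail of the squared lengths of `τ z_y` -/
theorem n2of_tail (hc : Core μ ν M U V be z t2 kap rho del2 w0 q2) {b : ι → ℝ}
    (hb : b ⬝ᵥ b = 1) {W : ℝ} (hop : OpB (TV ν z b) W) {s R1 : ℝ} (hs : 1 ≤ s)
    (hR : 2 * t2 + 2 * rho * W ^ 2 + rho * W ^ 2 * s ≤ R1 ^ 2) :
    ∑ y, ν y * (if R1 ^ 2 < (TV ν z b *ᵥ z y) ⬝ᵥ (TV ν z b *ᵥ z y) then
      (TV ν z b *ᵥ z y) ⬝ᵥ (TV ν z b *ᵥ z y) else 0) ≤ Real.exp (-s) * R1 ^ 2 := by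
  set V0 : Y → ℝ := fun y => (TV ν z b *ᵥ z y) ⬝ᵥ (TV ν z b *ᵥ z y) with hV0
  have hVn : ∀ y, 0 ≤ V0 y := fun y => dot_self_nonneg _
  have ht2 : 0 ≤ t2 := by linarith [hc.t2_one]
  have hrho := hc.rho_nonneg
  have hsym : (TV ν z b * TV ν z b)ᵀ = TV ν z b * TV ν z b := by
    rw [Matrix.transpose_mul, TV_transpose]
  have hq : ∀ w : ι → ℝ, w ⬝ᵥ ((TV ν z b * TV ν z b) *ᵥ w) =
      (TV ν z b *ᵥ w) ⬝ᵥ (TV ν z b *ᵥ w) := by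
    intro w
    rw [← Matrix.mulVec_mulVec, dot_symm_mulVec (TV_transpose b)]
  have htr : ∑ i, (TV ν z b * TV ν z b) i i ≤ t2 := by
    have h1 := hc.hs_TV b
    rw [hb, mul_one, hs_symm (TV_transpose b)] at h1
    exact h1
  have key := tail_one (ν := ν) hc.prY (V := V0) hVn (a := 2 * t2 + 2 * rho * W ^ 2)
    (b := rho * W ^ 2) (by positivity) (by positivity) (by
      intro q hqp s0 hs0 hqs
      have h1 := hc.f5 q hqp s0 hs0 hqs (TV ν z b * TV ν z b) (W ^ 2) hsym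
        (fun w => by rw [hq w]; exact dot_self_nonneg _)
        (fun w => by rw [hq w]; exact hop w)
      have h2 : ∑ y, q y * V0 y = ∑ y, q y * (z y ⬝ᵥ ((TV ν z b * TV ν z b) *ᵥ z y)) := by
        apply Finset.sum_congr rfl
        intro y _
        rw [hq]
      rw [h2]
      refine h1.trans ?_
      simp only [one_mul]
      nlinarith) hs
  refine le_trans ?_ (key.trans (mul_le_mul_of_nonneg_left hR (Real.exp_pos _).le))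
  apply Finset.sum_le_sum
  intro y _
  apply mul_le_mul_of_nonneg_left _ (hc.prY.nonneg y)
  change (if R1 ^ 2 < V0 y then V0 y else 0) ≤ _
  by_cases h1 : R1 ^ 2 < V0 y
  · rw [if_pos h1, if_pos (lt_of_le_of_lt hR h1)]
  · rw [if_neg h1]
    split_ifs
    · exact hVn y
    · exact le_refl _

/-- the bound for one pair -/
theorem n2of_pair {m0 W : ℝ} (hm0 : 0 < m0) {be b : ι → ℝ}
    (hbx : b = (Real.sqrt (be ⬝ᵥ be))⁻¹ • be) (h1 : m0 ^ 2 ≤ be ⬝ᵥ be)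
    (hop : OpB (TV ν z b) W) {P F : Matrix ι ι ℝ} (hP : IsProj P) (hF : IsProj F) {zy : ι → ℝ}
    (hPK : P * TV ν z zy = TV ν z zy * P) {R1 : ℝ} (hR1 : 0 < R1) {ψ : ι → ℝ}
    (hψ1 : ((TV ν z zy * P) *ᵥ b) ⬝ᵥ ((TV ν z zy * P) *ᵥ b) ≤ R1 ^ 2 →
      ψ = R1⁻¹ • ((TV ν z zy * P) *ᵥ b)) :
    (TV ν z b *ᵥ ((TV ν z zy * P) *ᵥ b)) ⬝ᵥ (TV ν z b *ᵥ ((TV ν z zy * P) *ᵥ b)) ≤
      R1 ^ 2 / m0 ^ 2 * (((1 - F) *ᵥ (TV ν z be *ᵥ ψ)) ⬝ᵥ ((1 - F) *ᵥ (TV ν z be *ᵥ ψ)) +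
        (F *ᵥ (TV ν z be *ᵥ ψ)) ⬝ᵥ (TV ν z be *ᵥ ψ)) +
      W ^ 2 * (if R1 ^ 2 < (TV ν z b *ᵥ zy) ⬝ᵥ (TV ν z b *ᵥ zy) then
        (TV ν z b *ᵥ zy) ⬝ᵥ (TV ν z b *ᵥ zy) else 0) := by
  set l := (TV ν z zy * P) *ᵥ b with hl
  have hlV : l ⬝ᵥ l ≤ (TV ν z b *ᵥ zy) ⬝ᵥ (TV ν z b *ᵥ zy) := by
    have h2 : l = P *ᵥ (TV ν z b *ᵥ zy) := by
      rw [hl, ← hPK, ← Matrix.mulVec_mulVec, TV_comm zy b]
    rw [h2]
    exact n2of_proj_le hP _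
  rw [n2of_split hF]
  have hv := dot_self_nonneg (TV ν z be *ᵥ ψ)
  by_cases hc : l ⬝ᵥ l ≤ R1 ^ 2
  · have hψ := hψ1 hc
    have h2 : l = R1 • ψ := by
      rw [hψ, smul_smul, mul_inv_cancel₀ hR1.ne', one_smul]
    have hm : m0 ^ 2 ≤ Real.sqrt (be ⬝ᵥ be) ^ 2 := by
      rw [Real.sq_sqrt (dot_self_nonneg be)]
      exact h1
    have h3 : (TV ν z b *ᵥ l) ⬝ᵥ (TV ν z b *ᵥ l) =
        R1 ^ 2 / Real.sqrt (be ⬝ᵥ be) ^ 2 * ((TV ν z be *ᵥ ψ) ⬝ᵥ (TV ν z be *ᵥ ψ)) := by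
      rw [h2, hbx, TV_smul, Matrix.smul_mulVec, Matrix.mulVec_smul, smul_smul, n2of_smul_sq]
      rw [mul_pow, inv_pow]
      ring
    rw [h3]
    have h4 : R1 ^ 2 / Real.sqrt (be ⬝ᵥ be) ^ 2 ≤ R1 ^ 2 / m0 ^ 2 :=
      div_le_div_of_nonneg_left (sq_nonneg _) (by positivity) hm
    have h5 := mul_le_mul_of_nonneg_right h4 hv
    have h6 : 0 ≤ W ^ 2 * (if R1 ^ 2 < (TV ν z b *ᵥ zy) ⬝ᵥ (TV ν z b *ᵥ zy) then
        (TV ν z b *ᵥ zy) ⬝ᵥ (TV ν z b *ᵥ zy) else 0) := by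
      apply mul_nonneg (sq_nonneg _)
      split_ifs
      · exact dot_self_nonneg _
      · exact le_refl _
    linarith
  · push Not at hc
    rw [if_pos (lt_of_lt_of_le hc hlV)]
    have h2 := hop l
    have h3 := mul_le_mul_of_nonneg_left hlV (sq_nonneg W)
    have h4 : 0 ≤ R1 ^ 2 / m0 ^ 2 * ((TV ν z be *ᵥ ψ) ⬝ᵥ (TV ν z be *ᵥ ψ)) := by positivity
    linarith

theorem n2_of_pr (hc : Core μ ν M U V be z t2 kap rho del2 w0 q2)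
    {m0 W : ℝ} (hm0 : 0 < m0) (hm1 : m0 ≤ 1) (hW : 5 / m0 ≤ W) (Xg : Finset X) (b : X → ι → ℝ)
    (hbx : ∀ x, b x = (Real.sqrt (be x ⬝ᵥ be x))⁻¹ • be x)
    (h1 : ∀ x ∈ Xg, m0 ^ 2 ≤ be x ⬝ᵥ be x)
    (h3 : ∀ x ∈ Xg, t2 * ∑ y, ν y * (ctd μ ν M x y - be x ⬝ᵥ z y) ^ 2 ≤ 1)
    (Yg : Finset Y) (P F : Y → Matrix ι ι ℝ) (hP : ∀ y, IsProj (P y)) (hF : ∀ y, IsProj (F y))
    (hPK : ∀ y, P y * TV ν z (z y) = TV ν z (z y) * P y) {RL : ℝ}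
    (hRL : ∀ y ∈ Yg, ∀ ψ : X → ι → ℝ, (∀ x, P y *ᵥ ψ x = ψ x) → (∀ x, ψ x ⬝ᵥ ψ x ≤ 1) →
      ∑ x, μ x * (((1 - F y) *ᵥ (TV ν z (be x) *ᵥ ψ x)) ⬝ᵥ
          ((1 - F y) *ᵥ (TV ν z (be x) *ᵥ ψ x))) ≤ RL) (hRL0 : 0 ≤ RL)
    {s R1 : ℝ} (hs : 1 ≤ s) (hR1 : 0 < R1) (hR : 2 * t2 + 2 * rho * W ^ 2 + rho * W ^ 2 * s ≤ R1 ^ 2)
    (ψ : X → Y → ι → ℝ) (hψ1 : ∀ x ∈ Xg, ∀ y, ((TV ν z (z y) * P y) *ᵥ b x) ⬝ᵥ
      ((TV ν z (z y) * P y) *ᵥ b x) ≤ R1 ^ 2 → ψ x y = R1⁻¹ • ((TV ν z (z y) * P y) *ᵥ b x))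
    (hψ0 : ∀ x y, (x ∉ Xg ∨ R1 ^ 2 < ((TV ν z (z y) * P y) *ᵥ b x) ⬝ᵥ
      ((TV ν z (z y) * P y) *ᵥ b x)) → ψ x y = 0)
    {n3 : ℝ} (hn3 : ∑ x ∈ Xg, ∑ y ∈ Yg, μ x * ν y * ((F y *ᵥ (TV ν z (be x) *ᵥ ψ x y)) ⬝ᵥ
      (TV ν z (be x) *ᵥ ψ x y)) ≤ n3) :
    ∑ x ∈ Xg, ∑ y ∈ Yg, μ x * ν y *
      ((TV ν z (b x) *ᵥ ((TV ν z (z y) * P y) *ᵥ b x)) ⬝ᵥ
       (TV ν z (b x) *ᵥ ((TV ν z (z y) * P y) *ᵥ b x))) ≤
      R1 ^ 2 / m0 ^ 2 * (RL + n3) + W ^ 2 * (Real.exp (-s) * R1 ^ 2) := by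
  have hμ0 := hc.prX.nonneg
  have hν0 := hc.prY.nonneg
  -- normalised legs
  have hbb : ∀ x ∈ Xg, b x ⬝ᵥ b x = 1 := by
    intro x hx
    have h4 : 0 < be x ⬝ᵥ be x := lt_of_lt_of_le (by positivity) (h1 x hx)
    rw [hbx, n2of_smul_sq, inv_pow, Real.sq_sqrt h4.le]
    exact inv_mul_cancel₀ h4.ne'
  have hop : ∀ x ∈ Xg, OpB (TV ν z (b x)) W := by
    intro x hx
    rw [hbx]
    exact n2of_op hc hm0 hW x (h1 x hx) (h3 x hx)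
  -- the three parts
  set T1 : X → Y → ℝ := fun x y => ((1 - F y) *ᵥ (TV ν z (be x) *ᵥ ψ x y)) ⬝ᵥ
    ((1 - F y) *ᵥ (TV ν z (be x) *ᵥ ψ x y)) with hT1
  set T2 : X → Y → ℝ := fun x y => (F y *ᵥ (TV ν z (be x) *ᵥ ψ x y)) ⬝ᵥ
    (TV ν z (be x) *ᵥ ψ x y) with hT2
  set T3 : X → Y → ℝ := fun x y =>
    (if R1 ^ 2 < (TV ν z (b x) *ᵥ z y) ⬝ᵥ (TV ν z (b x) *ᵥ z y) then
        (TV ν z (b x) *ᵥ z y) ⬝ᵥ (TV ν z (b x) *ᵥ z y) else 0) with hT3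
  have hT1n : ∀ x y, 0 ≤ T1 x y := fun x y => dot_self_nonneg _
  have hT3n : ∀ x y, 0 ≤ T3 x y := by
    intro x y
    simp only [hT3]
    split_ifs
    · exact dot_self_nonneg _
    · exact le_refl _
  have hstep : ∑ x ∈ Xg, ∑ y ∈ Yg, μ x * ν y *
      ((TV ν z (b x) *ᵥ ((TV ν z (z y) * P y) *ᵥ b x)) ⬝ᵥ
       (TV ν z (b x) *ᵥ ((TV ν z (z y) * P y) *ᵥ b x))) ≤
      ∑ x ∈ Xg, ∑ y ∈ Yg, μ x * ν y *
        (R1 ^ 2 / m0 ^ 2 * (T1 x y + T2 x y) + W ^ 2 * T3 x y) := by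
    apply Finset.sum_le_sum
    intro x hx
    apply Finset.sum_le_sum
    intro y _
    apply mul_le_mul_of_nonneg_left _ (mul_nonneg (hμ0 x) (hν0 y))
    exact n2of_pair hm0 (hbx x) (h1 x hx) (hop x hx) (hP y) (hF y) (hPK y) hR1 (hψ1 x hx y)
  refine hstep.trans ?_
  have hsplit : ∑ x ∈ Xg, ∑ y ∈ Yg, μ x * ν y *
        (R1 ^ 2 / m0 ^ 2 * (T1 x y + T2 x y) + W ^ 2 * T3 x y) =
      R1 ^ 2 / m0 ^ 2 * (∑ x ∈ Xg, ∑ y ∈ Yg, μ x * ν y * T1 x y +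
        ∑ x ∈ Xg, ∑ y ∈ Yg, μ x * ν y * T2 x y) +
      W ^ 2 * ∑ x ∈ Xg, ∑ y ∈ Yg, μ x * ν y * T3 x y := by
    simp only [Finset.mul_sum, ← Finset.sum_add_distrib]
    apply Finset.sum_congr rfl
    intro x _
    apply Finset.sum_congr rfl
    intro y _
    ring
  rw [hsplit]
  have hA : ∑ x ∈ Xg, ∑ y ∈ Yg, μ x * ν y * T1 x y ≤ RL := by
    rw [Finset.sum_comm]
    have hA1 : ∀ y ∈ Yg, ∑ x ∈ Xg, μ x * ν y * T1 x y ≤ ν y * RL := by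
      intro y hy
      have h4 := hRL y hy (fun x => ψ x y) (by
        intro x
        change P y *ᵥ ψ x y = ψ x y
        by_cases h5 : x ∉ Xg ∨ R1 ^ 2 < ((TV ν z (z y) * P y) *ᵥ b x) ⬝ᵥ
          ((TV ν z (z y) * P y) *ᵥ b x)
        · rw [hψ0 x y h5, Matrix.mulVec_zero]
        · push Not at h5
          rw [hψ1 x h5.1 y h5.2, Matrix.mulVec_smul, ← hPK y, Matrix.mulVec_mulVec,
            ← Matrix.mul_assoc, (hP y).2]) (by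
        intro x
        change ψ x y ⬝ᵥ ψ x y ≤ 1
        by_cases h5 : x ∉ Xg ∨ R1 ^ 2 < ((TV ν z (z y) * P y) *ᵥ b x) ⬝ᵥ
          ((TV ν z (z y) * P y) *ᵥ b x)
        · rw [hψ0 x y h5, zero_dotProduct]
          exact zero_le_one
        · push Not at h5
          rw [hψ1 x h5.1 y h5.2, n2of_smul_sq, inv_pow]
          rw [inv_mul_le_iff₀ (by positivity), mul_one]
          exact h5.2)
      have h6 : ∑ x ∈ Xg, μ x * T1 x y ≤ RL := by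
        refine le_trans ?_ h4
        exact Finset.sum_le_univ_sum_of_nonneg (fun x => mul_nonneg (hμ0 x) (hT1n x y))
      have h7 : ∑ x ∈ Xg, μ x * ν y * T1 x y = ν y * ∑ x ∈ Xg, μ x * T1 x y := by
        rw [Finset.mul_sum]
        apply Finset.sum_congr rfl
        intro x _
        ring
      rw [h7]
      exact mul_le_mul_of_nonneg_left h6 (hν0 y)
    refine (Finset.sum_le_sum hA1).trans ?_
    rw [← Finset.sum_mul]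
    have h8 : ∑ y ∈ Yg, ν y ≤ 1 := by
      rw [← hc.prY.sum]
      exact Finset.sum_le_univ_sum_of_nonneg hν0
    calc (∑ y ∈ Yg, ν y) * RL ≤ 1 * RL := mul_le_mul_of_nonneg_right h8 hRL0
      _ = RL := one_mul _
  have hB : ∑ x ∈ Xg, ∑ y ∈ Yg, μ x * ν y * T3 x y ≤ Real.exp (-s) * R1 ^ 2 := by
    have hB1 : ∀ x ∈ Xg, ∑ y ∈ Yg, μ x * ν y * T3 x y ≤ μ x * (Real.exp (-s) * R1 ^ 2) := by
      intro x hx
      have h4 := n2of_tail hc (hbb x hx) (hop x hx) hs hR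
      have h6 : ∑ y ∈ Yg, ν y * T3 x y ≤ Real.exp (-s) * R1 ^ 2 := by
        refine le_trans ?_ h4
        exact Finset.sum_le_univ_sum_of_nonneg (fun y => mul_nonneg (hν0 y) (hT3n x y))
      have h7 : ∑ y ∈ Yg, μ x * ν y * T3 x y = μ x * ∑ y ∈ Yg, ν y * T3 x y := by
        rw [Finset.mul_sum]
        apply Finset.sum_congr rfl
        intro y _
        ring
      rw [h7]
      exact mul_le_mul_of_nonneg_left h6 (hμ0 x)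
    refine (Finset.sum_le_sum hB1).trans ?_
    rw [← Finset.sum_mul]
    have h8 : ∑ x ∈ Xg, μ x ≤ 1 := by
      rw [← hc.prX.sum]
      exact Finset.sum_le_univ_sum_of_nonneg hμ0
    calc (∑ x ∈ Xg, μ x) * (Real.exp (-s) * R1 ^ 2) ≤ 1 * (Real.exp (-s) * R1 ^ 2) :=
          mul_le_mul_of_nonneg_right h8 (by positivity)
      _ = Real.exp (-s) * R1 ^ 2 := one_mul _
  have hC : ∑ x ∈ Xg, ∑ y ∈ Yg, μ x * ν y * T2 x y ≤ n3 := hn3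
  have h9 : 0 ≤ R1 ^ 2 / m0 ^ 2 := by positivity
  have h10 := mul_le_mul_of_nonneg_left (add_le_add hA hC) h9
  have h11 := mul_le_mul_of_nonneg_left hB (sq_nonneg W)
  linarith

end N2OF

alias n2_of := n2_of_pr

end Pool.Agent.LRC
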