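import Pool.Agent.Lib_helper94.LRF.G4
import Pool.Agent.Lib_helper94.LRF.LB
import Pool.Agent.Lib_helper94.LRF.N2OF

/-!
# Block G5: the bound of `n2` for the whole projection
-/

set_option autoImplicit false
set_option linter.unusedSectionVars false

open Finset Matrix

namespace Pool.Agent.LRC

open Pool.Agent.LR2

/-- powers beat logarithms -/
theorem g5_plog (K s : ℝ) (hK : 0 ≤ K) (hs : 0 < s) :
    ∃ R0 : ℝ, 1 ≤ R0 ∧ ∀ R, R0 ≤ R → K * (1 + Real.log R) ≤ R ^ s := by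
  set ε := s / 2 with hε
  have hε0 : 0 < ε := by positivity
  set K' := K * (1 + 1 / ε) + 1 with hK'
  have hK0 : 0 ≤ K * (1 + 1 / ε) := by positivity
  have hK1 : 1 ≤ K' := by linarith
  refine ⟨K' ^ (2 / s), Real.one_le_rpow hK1 (by positivity), fun R hR => ?_⟩
  have hR1 : 1 ≤ R := (Real.one_le_rpow hK1 (by positivity)).trans hR
  have hR0 : 0 < R := by linarith
  have h1 := Real.log_le_rpow_div hR0.le hε0
  have h2 : 1 ≤ R ^ ε := Real.one_le_rpow hR1 hε0.le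
  have h3 : 1 + Real.log R ≤ (1 + 1 / ε) * R ^ ε := by
    have : (1 + 1 / ε) * R ^ ε = R ^ ε + R ^ ε / ε := by ring
    rw [this]
    linarith
  have h6 : K' ≤ R ^ ε := by
    have h7 : K' = (K' ^ (2 / s)) ^ ε := by
      rw [← Real.rpow_mul (by linarith)]
      have : 2 / s * ε = 1 := by rw [hε]; field_simp
      rw [this, Real.rpow_one]
    rw [h7]
    exact Real.rpow_le_rpow (Real.rpow_nonneg (by linarith) _) hR (by positivity)
  have h8 : R ^ s = R ^ ε * R ^ ε := by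
    rw [← Real.rpow_add hR0]
    congr 1
    rw [hε]
    ring
  have h9 : 0 ≤ R ^ ε := Real.rpow_nonneg hR0.le _
  calc K * (1 + Real.log R) ≤ K * ((1 + 1 / ε) * R ^ ε) :=
        mul_le_mul_of_nonneg_left h3 hK
    _ = K * (1 + 1 / ε) * R ^ ε := by ring
    _ ≤ R ^ ε * R ^ ε := mul_le_mul_of_nonneg_right (by linarith) h9
    _ = R ^ s := h8.symm

/-- the numerical estimates -/
theorem g5_num {R s c : ℝ} (hR : 3 ≤ R) (hs0 : 0 < s) (hsc : 1000 * s ≤ c) (hc : c ≤ 1 / 10 ^ 8)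
    (hK : 100 * (1 + Real.log R) ≤ R ^ s) :
    5 / R ^ (-s) ≤ R ^ (5 * s) ∧
    2 * R ^ (1 / 2 + s) + 2 * R ^ (1 / 2 + s) * (R ^ (5 * s)) ^ 2 +
      R ^ (1 / 2 + s) * (R ^ (5 * s)) ^ 2 * (2 * Real.log R) ≤ (R ^ (1 / 4 + 6 * s)) ^ 2 ∧
    (∀ k : ℝ, 0 ≤ k → k ≤ R →
    2 * ((R ^ (1 / 4 + 6 * s)) ^ 2 / (R ^ (-s)) ^ 2 * (R ^ (-(7 * c)) + R ^ (-(7 * c))) +
      (R ^ (5 * s)) ^ 2 * (Real.exp (-(2 * Real.log R)) * (R ^ (1 / 4 + 6 * s)) ^ 2)) +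
      2 * ((R ^ (5 * s)) ^ 2 * (R ^ (-1 + s) / (R ^ (-s)) ^ 2 *
        (4 * (R ^ (1 / 2 + s)) ^ 3 * k / (R ^ (1 / 2 + 8 * c)) ^ 2))) ≤
      R ^ (1 / 2 - 6.5 * c)) := by
  have hR0 : 0 < R := by linarith
  have hR1 : 1 ≤ R := by linarith
  have hlog : 0 ≤ Real.log R := Real.log_nonneg hR1
  have hmono : ∀ {a b : ℝ}, a ≤ b → R ^ a ≤ R ^ b := fun h =>
    Real.rpow_le_rpow_of_exponent_le hR1 h
  have hpos : ∀ a : ℝ, 0 < R ^ a := fun a => Real.rpow_pos_of_pos hR0 a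
  have hpw : ∀ (a : ℝ) (k : ℕ), (R ^ a) ^ k = R ^ (a * k) := by
    intro a k
    rw [Real.rpow_mul_natCast hR0.le]
  have hmul : ∀ a b : ℝ, R ^ a * R ^ b = R ^ (a + b) := fun a b => (Real.rpow_add hR0 a b).symm
  have hdiv : ∀ a b : ℝ, R ^ a / R ^ b = R ^ (a - b) := fun a b => (Real.rpow_sub hR0 a b).symm
  have h100 : 100 ≤ R ^ s := by linarith
  refine ⟨?_, ?_, ?_⟩
  · rw [div_le_iff₀ (hpos _), hmul]
    have h1 : R ^ s ≤ R ^ (5 * s + -s) := hmono (by linarith)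
    linarith
  · rw [hpw, hpw]
    push_cast
    have h1 : R ^ (1 / 2 + s) * R ^ (5 * s * 2) = R ^ (1 / 2 + 11 * s) := by
      rw [hmul]
      congr 1
      ring
    have h2 : R ^ (1 / 2 + s) ≤ R ^ (1 / 2 + 11 * s) := hmono (by linarith)
    have h3 : R ^ ((1 / 4 + 6 * s) * 2) = R ^ s * R ^ (1 / 2 + 11 * s) := by
      rw [hmul]
      congr 1
      ring
    rw [h3, mul_assoc 2, h1]
    have h4 := mul_le_mul_of_nonneg_right hK (hpos (1 / 2 + 11 * s)).le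
    have h5 : 0 ≤ Real.log R * R ^ (1 / 2 + 11 * s) := mul_nonneg hlog (hpos _).le
    nlinarith [hpos (1 / 2 + 11 * s)]
  · intro k hk0 hkR
    have hexp : Real.exp (-(2 * Real.log R)) = R ^ (-2 : ℝ) := by
      rw [Real.rpow_def_of_pos hR0]
      congr 1
      ring
    have e1 : (R ^ (1 / 4 + 6 * s)) ^ 2 / (R ^ (-s)) ^ 2 * (R ^ (-(7 * c)) + R ^ (-(7 * c))) =
        2 * R ^ (1 / 2 + 14 * s - 7 * c) := by
      rw [hpw, hpw, hdiv, ← two_mul, mul_left_comm, hmul]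
      congr 2
      push_cast
      ring
    have e2 : (R ^ (5 * s)) ^ 2 * (Real.exp (-(2 * Real.log R)) * (R ^ (1 / 4 + 6 * s)) ^ 2) ≤
        R ^ (1 / 2 + 14 * s - 7 * c) := by
      rw [hexp, hpw, hpw, hmul, hmul]
      apply hmono
      push_cast
      linarith
    have e3 : (R ^ (5 * s)) ^ 2 * (R ^ (-1 + s) / (R ^ (-s)) ^ 2 *
        (4 * (R ^ (1 / 2 + s)) ^ 3 * k / (R ^ (1 / 2 + 8 * c)) ^ 2)) ≤
        4 * R ^ (1 / 2 + 14 * s - 7 * c) := by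
      have h1 : (R ^ (5 * s)) ^ 2 * (R ^ (-1 + s) / (R ^ (-s)) ^ 2 *
          (4 * (R ^ (1 / 2 + s)) ^ 3 * k / (R ^ (1 / 2 + 8 * c)) ^ 2)) =
          4 * k * ((R ^ (5 * s)) ^ 2 * (R ^ (-1 + s) / (R ^ (-s)) ^ 2 *
          ((R ^ (1 / 2 + s)) ^ 3 / (R ^ (1 / 2 + 8 * c)) ^ 2))) := by ring
      rw [h1, hpw, hpw, hpw, hpw, hdiv, hdiv, hmul, hmul]
      set a := R ^ (5 * s * ((2 : ℕ) : ℝ) + (-1 + s - -s * ((2 : ℕ) : ℝ) +
        ((1 / 2 + s) * ((3 : ℕ) : ℝ) - (1 / 2 + 8 * c) * ((2 : ℕ) : ℝ)))) with ha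
      have ha0 : 0 < a := hpos _
      have h2 : R * a ≤ R ^ (1 / 2 + 14 * s - 7 * c) := by
        have h3 : R * a = R ^ (1 : ℝ) * a := by rw [Real.rpow_one]
        rw [h3, ha, hmul]
        apply hmono
        push_cast
        linarith
      have h4 : k * a ≤ R * a := mul_le_mul_of_nonneg_right hkR ha0.le
      linarith
    have e4 : 14 * R ^ (1 / 2 + 14 * s - 7 * c) ≤ R ^ (1 / 2 - 6.5 * c) := by
      have h1 : 14 * R ^ (1 / 2 + 14 * s - 7 * c) ≤ R ^ s * R ^ (1 / 2 + 14 * s - 7 * c) :=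
        mul_le_mul_of_nonneg_right (by linarith) (hpos _).le
      rw [hmul] at h1
      refine h1.trans (hmono ?_)
      norm_num
      linarith
    rw [e1]
    linarith

/-- G5 -/
theorem g5_pr (s c : ℝ) (hs0 : 0 < s) (hsc : 1000 * s ≤ c) (hc : c ≤ 1 / 10 ^ 8) :
    ∃ R0 : ℝ, ∀ R : ℝ, R0 ≤ R → ∀ {X Y ι : Type} [Fintype X] [Fintype Y] [Fintype ι]
      [DecidableEq ι] {μ : X → ℝ} {ν : Y → ℝ} {M : X → Y → ℝ} {U : ℝ} {V : ι → ℝ}
      {be : X → ι → ℝ} {z : Y → ι → ℝ}, CoreR R s μ ν M U V be z →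
      ∀ Xg : Finset X, RowsG R s μ ν M U be z Xg →
      ∀ (Yg : Finset Y) (P P' F : Y → Matrix ι ι ℝ), ColsG R s c μ ν be z Yg P P' F →
      ∑ x ∈ Xg, ∑ y ∈ Yg, μ x * ν y *
      ((TV ν z (bn be x) *ᵥ ((TV ν z (z y) * P y) *ᵥ bn be x)) ⬝ᵥ
       (TV ν z (bn be x) *ᵥ ((TV ν z (z y) * P y) *ᵥ bn be x))) ≤ R ^ (1 / 2 - 6.5 * c) := by
  classical
  obtain ⟨R4, h4⟩ := g4 s c hs0 hsc hc
  obtain ⟨R5, hR5, h5⟩ := g5_plog 100 s (by norm_num) hs0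
  refine ⟨max 3 (max R4 R5), ?_⟩
  intro R hR X Y ι _ _ _ _ μ ν M U V be z hC Xg hX Yg P P' F hY
  simp only [max_le_iff] at hR
  obtain ⟨hR3, hR4, hR5'⟩ := hR
  have hR0 : 0 < R := by linarith
  have hR1 : 1 ≤ R := by linarith
  have hpos : ∀ a : ℝ, 0 < R ^ a := fun a => Real.rpow_pos_of_pos hR0 a
  obtain ⟨n1, n2, n3⟩ := g5_num hR3 hs0 hsc hc (h5 R hR5')
  have hcore := hC.core.toCore
  have hμ := hcore.prX
  have hν := hcore.prY
  rcases isEmpty_or_nonempty ι with hι | hι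
  · have h0 : ∀ u w : ι → ℝ, u ⬝ᵥ w = 0 := by
      intro u w
      unfold dotProduct
      exact Finset.sum_eq_zero fun i _ => hι.elim i
    simp only [h0, mul_zero, Finset.sum_const_zero]
    exact (hpos _).le
  have hYn : Nonempty Y := by
    by_contra hne
    rw [not_nonempty_iff] at hne
    have h0 := hν.sum
    rw [Finset.univ_eq_empty, Finset.sum_empty] at h0
    exact zero_ne_one h0
  have : Inhabited Y := Classical.inhabited_of_nonempty hYn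
  set m0 := R ^ (-s) with hm0
  set W := R ^ (5 * s) with hW
  set R1 := R ^ (1 / 4 + 6 * s) with hR1d
  have hm01 : m0 ≤ 1 := Real.rpow_le_one_of_one_le_of_nonpos hR1 (by linarith)
  have hlog1 : 1 ≤ 2 * Real.log R := by
    have h1 : Real.exp (1 / 2) ≤ R := by
      have h2 : Real.exp (1 / 2) ≤ Real.exp 1 := Real.exp_le_exp.2 (by norm_num)
      have h3 := Real.exp_one_lt_d9
      linarith
    have h4 := (Real.le_log_iff_exp_le hR0).2 h1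
    linarith
  have hPw : ∀ y, IsProj (P y - P' y) := by
    intro y
    obtain ⟨a1, a2⟩ := hY.nest y
    obtain ⟨b1, b2⟩ := hY.projP y
    obtain ⟨c1, c2⟩ := hY.projP' y
    refine ⟨by rw [Matrix.transpose_sub, b1, c1], ?_⟩
    rw [sub_mul, mul_sub, mul_sub, b2, c2, a1, a2]
    abel
  have hcomm : ∀ y, (P y - P' y) * TV ν z (z y) = TV ν z (z y) * (P y - P' y) := by
    intro y
    rw [sub_mul, mul_sub, hY.comm, hY.comm']
  -- the cut-off field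
  set l : X → Y → ι → ℝ := fun x y => (TV ν z (z y) * (P y - P' y)) *ᵥ bn be x with hl
  set ψ : X → Y → ι → ℝ := fun x y =>
    if x ∈ Xg ∧ l x y ⬝ᵥ l x y ≤ R1 ^ 2 then R1⁻¹ • l x y else 0 with hψ
  have hψ1 : ∀ x ∈ Xg, ∀ y, ((TV ν z (z y) * (P y - P' y)) *ᵥ bn be x) ⬝ᵥ
      ((TV ν z (z y) * (P y - P' y)) *ᵥ bn be x) ≤ R1 ^ 2 →
      ψ x y = R1⁻¹ • ((TV ν z (z y) * (P y - P' y)) *ᵥ bn be x) := by
    intro x hx y h
    simp only [hψ]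
    rw [if_pos ⟨hx, h⟩]
  have hψ0 : ∀ x y, (x ∉ Xg ∨ R1 ^ 2 < ((TV ν z (z y) * (P y - P' y)) *ᵥ bn be x) ⬝ᵥ
      ((TV ν z (z y) * (P y - P' y)) *ᵥ bn be x)) → ψ x y = 0 := by
    intro x y h
    simp only [hψ]
    rw [if_neg]
    rintro ⟨h1, h2⟩
    rcases h with h | h
    · exact h h1
    · exact absurd h2 (not_le.2 h)
  have hn3 := h4 R hR4 hC Xg hX Yg P P' F hY ψ hψ1 hψ0
  have hwin := n2_of hcore (hpos _) hm01 n1 Xg (bn be) (fun x => rfl) hX.h1 hX.h3 Yg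
    (fun y => P y - P' y) F hPw hY.projF hcomm hY.rl (hpos _).le hlog1 (hpos _) n2 ψ hψ1 hψ0 hn3
  have hlb := lb hcore (hpos _) hm01 n1 Xg (bn be) (fun x => rfl) hX.h1 hX.h3 Yg P' (hpos _)
    hY.big
  have hsplit : ∀ x y, (TV ν z (bn be x) *ᵥ ((TV ν z (z y) * P y) *ᵥ bn be x)) ⬝ᵥ
      (TV ν z (bn be x) *ᵥ ((TV ν z (z y) * P y) *ᵥ bn be x)) ≤
      2 * ((TV ν z (bn be x) *ᵥ ((TV ν z (z y) * (P y - P' y)) *ᵥ bn be x)) ⬝ᵥ
      (TV ν z (bn be x) *ᵥ ((TV ν z (z y) * (P y - P' y)) *ᵥ bn be x))) +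
      2 * ((TV ν z (bn be x) *ᵥ ((TV ν z (z y) * P' y) *ᵥ bn be x)) ⬝ᵥ
      (TV ν z (bn be x) *ᵥ ((TV ν z (z y) * P' y) *ᵥ bn be x))) := by
    intro x y
    have h1 : TV ν z (bn be x) *ᵥ ((TV ν z (z y) * P y) *ᵥ bn be x) =
        TV ν z (bn be x) *ᵥ ((TV ν z (z y) * (P y - P' y)) *ᵥ bn be x) +
        TV ν z (bn be x) *ᵥ ((TV ν z (z y) * P' y) *ᵥ bn be x) := by
      rw [← Matrix.mulVec_add, ← Matrix.add_mulVec, ← Matrix.mul_add, sub_add_cancel]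
    rw [h1]
    exact dot_add_sq_le _ _
  have hsum : ∑ x ∈ Xg, ∑ y ∈ Yg, μ x * ν y *
      ((TV ν z (bn be x) *ᵥ ((TV ν z (z y) * P y) *ᵥ bn be x)) ⬝ᵥ
       (TV ν z (bn be x) *ᵥ ((TV ν z (z y) * P y) *ᵥ bn be x))) ≤
      2 * (∑ x ∈ Xg, ∑ y ∈ Yg, μ x * ν y *
      ((TV ν z (bn be x) *ᵥ ((TV ν z (z y) * (P y - P' y)) *ᵥ bn be x)) ⬝ᵥ
       (TV ν z (bn be x) *ᵥ ((TV ν z (z y) * (P y - P' y)) *ᵥ bn be x)))) +
      2 * (∑ x ∈ Xg, ∑ y ∈ Yg, μ x * ν y *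
      ((TV ν z (bn be x) *ᵥ ((TV ν z (z y) * P' y) *ᵥ bn be x)) ⬝ᵥ
       (TV ν z (bn be x) *ᵥ ((TV ν z (z y) * P' y) *ᵥ bn be x)))) := by
    simp only [Finset.mul_sum, ← Finset.sum_add_distrib]
    apply Finset.sum_le_sum
    intro x _
    apply Finset.sum_le_sum
    intro y _
    have h1 := mul_le_mul_of_nonneg_left (hsplit x y) (mul_nonneg (hμ.nonneg x) (hν.nonneg y))
    linarith
  have hfin := n3 (Fintype.card ι) (Nat.cast_nonneg _) hC.card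
  linarith only [hsum, hwin, hlb, hfin]


alias g5 := g5_pr

end Pool.Agent.LRC
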