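import Pool.Agent.Lib_helper94.LRF.N1
import Pool.Agent.Lib_helper94.LRF.F3
import Pool.Agent.Lib_helper94.LRC.Defs2

/-!
# Block N1R: the asymptotic form of (N1)
-/

set_option autoImplicit false
set_option linter.unusedSectionVars false

open Finset Matrix

namespace Pool.Agent.LRC

open Pool.Agent.LR2

/-- for large `R`, `K (1 + log R) ≤ R ^ s` -/
theorem n1R_large {s : ℝ} (hs : 0 < s) (K : ℝ) :
    ∃ R0 : ℝ, 1 ≤ R0 ∧ ∀ R : ℝ, R0 ≤ R → K * (1 + Real.log R) ≤ R ^ s := by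
  have h1 : (fun R : ℝ => K * (1 + Real.log R)) =o[Filter.atTop] fun R : ℝ => R ^ s := by
    have h2 := isLittleO_log_rpow_atTop hs
    have h3 : (fun _ : ℝ => (1 : ℝ)) =o[Filter.atTop] fun R : ℝ => R ^ s := by
      rw [Asymptotics.isLittleO_one_left_iff]
      have := tendsto_rpow_atTop hs
      refine Filter.Tendsto.congr' ?_ this
      filter_upwards [Filter.eventually_ge_atTop 0] with R hR
      rw [Real.norm_eq_abs, abs_of_nonneg (Real.rpow_nonneg hR _)]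
    exact (h3.add h2).const_mul_left K
  have h4 := h1.bound (c := 1) one_pos
  rw [Filter.eventually_atTop] at h4
  obtain ⟨R1, hR1⟩ := h4
  refine ⟨max R1 1, le_max_right _ _, fun R hR => ?_⟩
  have h5 := hR1 R ((le_max_left _ _).trans hR)
  have h6 : (0 : ℝ) ≤ R := zero_le_one.trans ((le_max_right _ _).trans hR)
  rw [one_mul, Real.norm_eq_abs, Real.norm_eq_abs, abs_of_nonneg (Real.rpow_nonneg h6 s)] at h5
  exact (le_abs_self _).trans h5

theorem n1R_a2 {r q l : ℝ} (hrq : 1 ≤ r * q) (hq : 1000000 ≤ q)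
    (h : r * q * (2 + 20 * l) ≤ r * q * (q / 10000)) :
    2 + 2 * (r * q) + r * q * (20 * l) ≤ r * q ^ 2 := by
  have h1 : r * q * 1000000 ≤ r * q * q := mul_le_mul_of_nonneg_left hq (by linarith)
  have h2 : r * q * (2 + 20 * l) = 2 * (r * q) + r * q * (20 * l) := by ring
  have h3 : r * q * (q / 10000) = (r * q * q) / 10000 := by ring
  have h4 : r * q ^ 2 = r * q * q := by ring
  linarith only [h, h1, h2, h3, h4, hrq]

theorem n1R_a3 {r q l N : ℝ} (h1 : r * q * (2 + 20 * l) ≤ r * q * (q / 10000))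
    (h2 : r * q ^ 2 ≤ r * r) (hN : N ≤ r ^ 2) (hq : 3 ≤ q) :
    2 * N + 2 * (r * q) + r * q * (20 * l) ≤ r ^ 2 * q := by
  have h3 : r * q * (2 + 20 * l) = 2 * (r * q) + r * q * (20 * l) := by ring
  have h4 : r * q * (q / 10000) = (r * q ^ 2) / 10000 := by ring
  have h5 : r * r = r ^ 2 := by ring
  have h6 : r ^ 2 * 3 ≤ r ^ 2 * q := mul_le_mul_of_nonneg_left hq (sq_nonneg r)
  have h7 := sq_nonneg r
  linarith only [h1, h2, hN, h3, h4, h5, h6, h7]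

theorem n1R_a4 {r q : ℝ} (h2 : (2 + 2 * (r * q)) ^ 2 ≤ (4 * (r * q)) ^ 2)
    (h4 : 52 * (r ^ 2 * q ^ 2) ≤ q * (r ^ 2 * q ^ 2)) :
    2 * (2 + 2 * (r * q)) ^ 2 + 20 * (r * q) ^ 2 ≤ r ^ 2 * q ^ 3 := by
  have h5 : (4 * (r * q)) ^ 2 = 16 * (r ^ 2 * q ^ 2) := by ring
  have h6 : (r * q) ^ 2 = r ^ 2 * q ^ 2 := by ring
  have h7 : q * (r ^ 2 * q ^ 2) = r ^ 2 * q ^ 3 := by ring
  rw [h5] at h2
  rw [h6, ← h7]
  linarith only [h2, h4]

theorem n1R_a5 {q : ℝ} (hq : 3 ≤ q) : 2 * q ^ 3 + q ^ 2 ≤ q ^ 4 := by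
  have h1 : 2 * q + 1 ≤ q * q := by
    have : 3 * q ≤ q * q := mul_le_mul_of_nonneg_right hq (by linarith)
    linarith only [this, hq]
  have h2 : q ^ 2 * (2 * q + 1) ≤ q ^ 2 * (q * q) := mul_le_mul_of_nonneg_left h1 (sq_nonneg q)
  have h3 : q ^ 2 * (2 * q + 1) = 2 * q ^ 3 + q ^ 2 := by ring
  have h4 : q ^ 2 * (q * q) = q ^ 4 := by ring
  linarith only [h2, h3, h4]

theorem n1R_a6 {q : ℝ} (hq : 3 ≤ q) : 2 + q ^ 3 ≤ q ^ 4 := by
  have h1 : 3 * q ^ 3 ≤ q * q ^ 3 := mul_le_mul_of_nonneg_right hq (by positivity)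
  have h2 : q * q ^ 3 = q ^ 4 := by ring
  have h3 : (1 : ℝ) ≤ q ^ 3 := one_le_pow₀ (by linarith)
  linarith only [h1, h2, h3]

theorem n1R_a7 {r e : ℝ} (hr : 0 ≤ r) (he : 1 ≤ e) : r ≤ r * e * e := by
  have h1 : r * 1 ≤ r * e := mul_le_mul_of_nonneg_left he hr
  have h2 : r * e * 1 ≤ r * e * e := mul_le_mul_of_nonneg_left he (by positivity)
  linarith only [h1, h2]

/-- the arithmetic of the block; `r = R^(1/2)`, `q = R^s`, `e = R^cE`, `l = log R` -/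
theorem n1R_arith {r q e l N : ℝ} (hr : 1 ≤ r) (hq : 1000000 * (1 + l) ≤ q) (hl : 0 ≤ l)
    (hqr : q ^ 2 ≤ r) (he : 1 ≤ e) (her : e ≤ r) (hN : N ≤ r ^ 2) (hN0 : 0 ≤ N) {X : ℝ}
    (hX0 : 0 ≤ X) (hX : X ≤ (r ^ 40)⁻¹) {Z1 Z w4 w4' AB : ℝ}
    (hZ1 : Z1 = 2 + 2 * (r * q) + r * q * (20 * l))
    (hZ : Z = 2 * N + 2 * (r * q) + r * q * (20 * l))
    (hw4 : w4 = 2 * (2 * (r * q) + 2 * (r * q) * (25 * q ^ 2)) ^ 2 + 20 * (r * q * (25 * q ^ 2)) ^ 2)
    (hw4' : w4' = 2 * (2 + 2 * (r * q)) ^ 2 + 20 * (r * q) ^ 2)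
    (hAB : AB = 2 * (q / r ^ 2) * (r / e) ^ 2 * (r * q * Z / (r / e)) +
      2 * (q / r) * (r / e) ^ 2 * (r * e) + q / r * (r / e) ^ 2 * (r * e) * (20 * l)) :
    (r / e + Z1 * (r * q) / (r * e) + Real.sqrt (r * q * (X * (Z + Z1)) * w4')) * w4 +
      AB * q ^ 2 * (r * q + (r / e) ^ 2 * Z1 * X) ≤ r ^ 3 * q ^ 12 / e := by
  have hq1 : 1000000 ≤ q := by linarith only [hq, hl]
  have hq0 : 0 < q := by linarith
  have hr0 : 0 < r := by linarith
  have he0 : 0 < e := by linarith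
  have hq' : 1 ≤ q := by linarith
  have hlq : 2 + 20 * l ≤ q / 10000 := by linarith
  have hrq : 1 ≤ r * q := one_le_mul_of_one_le_of_one_le hr hq'
  have hZ1b : Z1 ≤ r * q ^ 2 := by
    rw [hZ1]
    have : r * q * (2 + 20 * l) ≤ r * q * (q / 10000) := mul_le_mul_of_nonneg_left hlq (by positivity)
    exact n1R_a2 hrq hq1 this
  have hZ10 : 0 ≤ Z1 := by rw [hZ1]; positivity
  have hZb : Z ≤ r ^ 2 * q := by
    have h1 : r * q * (2 + 20 * l) ≤ r * q * (q / 10000) := mul_le_mul_of_nonneg_left hlq (by positivity)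
    have h2 : r * q ^ 2 ≤ r * r := mul_le_mul_of_nonneg_left hqr hr0.le
    rw [hZ]
    exact n1R_a3 h1 h2 hN (by linarith only [hq1])
  have hZ0 : 0 ≤ Z := by rw [hZ]; positivity
  have hw4b : w4 ≤ r ^ 2 * q ^ 7 := by
    have h1 : 2 * (r * q) + 2 * (r * q) * (25 * q ^ 2) ≤ 52 * (r * q ^ 3) := by
      have h2 : r * q * 1 ≤ r * q * q ^ 2 :=
        mul_le_mul_of_nonneg_left (one_le_pow₀ hq') (by positivity)
      have h3 : r * q * q ^ 2 = r * q ^ 3 := by ring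
      linarith
    have h2 : (2 * (r * q) + 2 * (r * q) * (25 * q ^ 2)) ^ 2 ≤ (52 * (r * q ^ 3)) ^ 2 :=
      pow_le_pow_left₀ (by positivity) h1 2
    rw [hw4]
    have h3 : (0 : ℝ) ≤ r ^ 2 * q ^ 6 := by positivity
    have h4 : 17908 * (r ^ 2 * q ^ 6) ≤ q * (r ^ 2 * q ^ 6) :=
      mul_le_mul_of_nonneg_right (by linarith) h3
    have h5 : (52 * (r * q ^ 3)) ^ 2 = 2704 * (r ^ 2 * q ^ 6) := by ring
    have h6 : 20 * (r * q * (25 * q ^ 2)) ^ 2 = 12500 * (r ^ 2 * q ^ 6) := by ring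
    have h7 : q * (r ^ 2 * q ^ 6) = r ^ 2 * q ^ 7 := by ring
    linarith
  have hw40 : 0 ≤ w4 := by rw [hw4]; positivity
  have hw4'b : w4' ≤ r ^ 2 * q ^ 3 := by
    have h1 : 2 + 2 * (r * q) ≤ 4 * (r * q) := by linarith
    have h2 : (2 + 2 * (r * q)) ^ 2 ≤ (4 * (r * q)) ^ 2 := pow_le_pow_left₀ (by positivity) h1 2
    rw [hw4']
    have h3 : (0 : ℝ) ≤ r ^ 2 * q ^ 2 := by positivity
    have h4 : 52 * (r ^ 2 * q ^ 2) ≤ q * (r ^ 2 * q ^ 2) :=
      mul_le_mul_of_nonneg_right (by linarith only [hq1]) h3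
    exact n1R_a4 h2 h4
  have hw4'0 : 0 ≤ w4' := by rw [hw4']; positivity
  have hABb : AB ≤ r ^ 2 * q ^ 4 / e := by
    have h1 : 2 * (q / r ^ 2) * (r / e) ^ 2 * (r * q * Z / (r / e)) = 2 * q ^ 2 / e * Z := by
      field_simp
    have h2 : 2 * (q / r) * (r / e) ^ 2 * (r * e) + q / r * (r / e) ^ 2 * (r * e) * (20 * l) =
        q * r ^ 2 / e * (2 + 20 * l) := by
      field_simp
    rw [hAB, add_assoc, h2, h1]
    have h3 : 2 * q ^ 2 / e * Z ≤ 2 * q ^ 2 / e * (r ^ 2 * q) :=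
      mul_le_mul_of_nonneg_left hZb (by positivity)
    have h4 : q * r ^ 2 / e * (2 + 20 * l) ≤ q * r ^ 2 / e * q :=
      mul_le_mul_of_nonneg_left (by linarith) (by positivity)
    have h5 : 2 * q ^ 2 / e * (r ^ 2 * q) + q * r ^ 2 / e * q = (r ^ 2 / e) * (2 * q ^ 3 + q ^ 2) := by
      ring
    have h6 : 2 * q ^ 3 + q ^ 2 ≤ q ^ 4 := n1R_a5 (by linarith only [hq1])
    have h7 : (r ^ 2 / e) * (2 * q ^ 3 + q ^ 2) ≤ (r ^ 2 / e) * q ^ 4 :=
      mul_le_mul_of_nonneg_left h6 (by positivity)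
    have h8 : (r ^ 2 / e) * q ^ 4 = r ^ 2 * q ^ 4 / e := by ring
    linarith
  have hAB0 : 0 ≤ AB := by rw [hAB]; positivity
  have hsq : Real.sqrt (r * q * (X * (Z + Z1)) * w4') ≤ r / e := by
    rw [Real.sqrt_le_left (by positivity)]
    have h1 : Z + Z1 ≤ 2 * (r ^ 2 * q ^ 2) := by
      have : r * q ^ 2 ≤ r ^ 2 * q ^ 2 := by
        apply mul_le_mul_of_nonneg_right _ (by positivity)
        exact le_self_pow₀ hr two_ne_zero
      have : r ^ 2 * q ≤ r ^ 2 * q ^ 2 := by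
        apply mul_le_mul_of_nonneg_left _ (by positivity)
        exact le_self_pow₀ hq' two_ne_zero
      linarith
    have hqr1 : q ≤ r := (le_self_pow₀ hq' two_ne_zero).trans hqr
    have h2 : r * q * (X * (Z + Z1)) * w4' ≤ r * q * (X * (2 * (r ^ 2 * q ^ 2))) * (r ^ 2 * q ^ 3) := by
      apply mul_le_mul _ hw4'b hw4'0 (by positivity)
      apply mul_le_mul_of_nonneg_left _ (by positivity)
      exact mul_le_mul_of_nonneg_left h1 hX0
    have h3 : r * q * (X * (2 * (r ^ 2 * q ^ 2))) * (r ^ 2 * q ^ 3) = X * (2 * r ^ 5 * q ^ 6) := by ring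
    have h4 : X * (2 * r ^ 5 * q ^ 6) ≤ (r ^ 40)⁻¹ * (r ^ 1 * r ^ 5 * r ^ 6) := by
      apply mul_le_mul hX _ (by positivity) (by positivity)
      have h5 : q ^ 6 ≤ r ^ 6 := pow_le_pow_left₀ hq0.le hqr1 6
      have h6 : (2 : ℝ) ≤ r := by linarith only [hqr1, hq1]
      have h7 : 2 * r ^ 5 ≤ r ^ 1 * r ^ 5 := by
        rw [pow_one]
        exact mul_le_mul_of_nonneg_right h6 (by positivity)
      exact mul_le_mul h7 h5 (by positivity) (by positivity)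
    have h8 : (r ^ 40)⁻¹ * (r ^ 1 * r ^ 5 * r ^ 6) ≤ 1 := by
      rw [inv_mul_le_one₀ (by positivity)]
      have : r ^ 1 * r ^ 5 * r ^ 6 = r ^ 12 := by ring
      rw [this]
      exact pow_le_pow_right₀ hr (by norm_num)
    have h9 : 1 ≤ (r / e) ^ 2 := by
      apply one_le_pow₀
      rw [le_div_iff₀ he0]
      linarith
    linarith
  have hC : r / e + Z1 * (r * q) / (r * e) + Real.sqrt (r * q * (X * (Z + Z1)) * w4') ≤
      r * q ^ 4 / e := by
    have h1 : Z1 * (r * q) / (r * e) ≤ r * q ^ 3 / e := by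
      have h2 : Z1 * (r * q) / (r * e) = Z1 * (q / e) := by
        field_simp
      rw [h2]
      calc _ ≤ (r * q ^ 2) * (q / e) := mul_le_mul_of_nonneg_right hZ1b (by positivity)
        _ = _ := by ring
    have h3 : 2 * (r / e) + r * q ^ 3 / e ≤ r * q ^ 4 / e := by
      have h4 : 2 * (r / e) + r * q ^ 3 / e = (r / e) * (2 + q ^ 3) := by ring
      have h5 : r * q ^ 4 / e = (r / e) * q ^ 4 := by ring
      rw [h4, h5]
      apply mul_le_mul_of_nonneg_left _ (by positivity)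
      exact n1R_a6 (by linarith only [hq1])
    linarith only [h1, h3, hsq]
  have hC0 : 0 ≤ r / e + Z1 * (r * q) / (r * e) + Real.sqrt (r * q * (X * (Z + Z1)) * w4') := by
    positivity
  have hT : r * q + (r / e) ^ 2 * Z1 * X ≤ 2 * (r * q) := by
    have h1 : (r / e) ^ 2 ≤ r ^ 2 := by
      apply pow_le_pow_left₀ (by positivity)
      rw [div_le_iff₀ he0]
      exact le_mul_of_one_le_right hr0.le he
    have h2 : (r / e) ^ 2 * Z1 * X ≤ r ^ 2 * (r * q ^ 2) * (r ^ 40)⁻¹ := by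
      apply mul_le_mul _ hX hX0 (by positivity)
      exact mul_le_mul h1 hZ1b hZ10 (by positivity)
    have h3 : r ^ 2 * (r * q ^ 2) * (r ^ 40)⁻¹ ≤ 1 := by
      rw [← div_eq_mul_inv, div_le_one (by positivity)]
      calc r ^ 2 * (r * q ^ 2) ≤ r ^ 2 * (r * r) := by
            apply mul_le_mul_of_nonneg_left _ (by positivity)
            exact mul_le_mul_of_nonneg_left hqr hr0.le
        _ = r ^ 4 := by ring
        _ ≤ r ^ 40 := pow_le_pow_right₀ hr (by norm_num)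
    linarith
  have hT0 : 0 ≤ r * q + (r / e) ^ 2 * Z1 * X := by positivity
  have hF1 : (r / e + Z1 * (r * q) / (r * e) + Real.sqrt (r * q * (X * (Z + Z1)) * w4')) * w4 ≤
      (r * q ^ 4 / e) * (r ^ 2 * q ^ 7) := mul_le_mul hC hw4b hw40 (by positivity)
  have hF2 : AB * q ^ 2 * (r * q + (r / e) ^ 2 * Z1 * X) ≤
      (r ^ 2 * q ^ 4 / e) * q ^ 2 * (2 * (r * q)) := by
    apply mul_le_mul _ hT hT0 (by positivity)
    exact mul_le_mul_of_nonneg_right hABb (by positivity)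
  have h1 : (r * q ^ 4 / e) * (r ^ 2 * q ^ 7) + (r ^ 2 * q ^ 4 / e) * q ^ 2 * (2 * (r * q)) =
      (r ^ 3 / e) * (q ^ 11 + 2 * q ^ 7) := by ring
  have h2 : q ^ 11 + 2 * q ^ 7 ≤ q ^ 12 := by
    have h6 : (1 : ℝ) ≤ q ^ 4 := one_le_pow₀ hq'
    have h7 : q ^ 7 ≤ q ^ 11 := pow_le_pow_right₀ hq' (by norm_num)
    have h8 : 3 * q ^ 11 ≤ q * q ^ 11 := mul_le_mul_of_nonneg_right (by linarith) (by positivity)
    have h9 : q * q ^ 11 = q ^ 12 := by ring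
    linarith
  have h3 : (r ^ 3 / e) * (q ^ 11 + 2 * q ^ 7) ≤ (r ^ 3 / e) * q ^ 12 :=
    mul_le_mul_of_nonneg_left h2 (by positivity)
  have h4 : (r ^ 3 / e) * q ^ 12 = r ^ 3 * q ^ 12 / e := by ring
  linarith

section Main

variable {X Y ι : Type} [Fintype X] [Fintype Y] [Fintype ι] [DecidableEq ι]
variable {μ : X → ℝ} {ν : Y → ℝ} {M : X → Y → ℝ} {U : ℝ} {V : ι → ℝ} {be : X → ι → ℝ}
    {z : Y → ι → ℝ} {t2 kap rho del2 w0 q2 : ℝ}

/-- the trivial bound of the light part -/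
theorem n1R_triv (h1F : ∀ c : ι → ℝ, hs (TV ν z c) ≤ t2 * (c ⬝ᵥ c)) (ht2 : 0 ≤ t2)
    {K P : Matrix ι ι ℝ} {h : ℝ} (hPh : OpB (K * (1 - P)) h) {b : ι → ℝ} (hb : b ⬝ᵥ b = 1) :
    (TV ν z ((K * (1 - P)) *ᵥ b) *ᵥ ((K * (1 - P)) *ᵥ b)) ⬝ᵥ
      (TV ν z ((K * (1 - P)) *ᵥ b) *ᵥ ((K * (1 - P)) *ᵥ b)) ≤ t2 * (h ^ 2) ^ 2 := by
  set r := (K * (1 - P)) *ᵥ b with hr
  have h1 : r ⬝ᵥ r ≤ h ^ 2 := by
    have := hPh b
    rw [hb, mul_one] at this
    exact this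
  have h0 := dot_self_nonneg r
  calc _ ≤ hs (TV ν z r) * (r ⬝ᵥ r) := mulVec_sq_le _ _
    _ ≤ t2 * (r ⬝ᵥ r) * (r ⬝ᵥ r) := mul_le_mul_of_nonneg_right (h1F r) h0
    _ = t2 * (r ⬝ᵥ r) ^ 2 := by ring
    _ ≤ _ := mul_le_mul_of_nonneg_left (pow_le_pow_left₀ h0 h1 2) ht2

/-- the operator norm of `T_b` on the rows with small weak part -/
theorem n1R_op (hc : Core μ ν M U V be z t2 kap rho del2 w0 q2) {m0 : ℝ} (hm0 : 0 < m0) {x : X}
    (h1 : m0 ^ 2 ≤ be x ⬝ᵥ be x)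
    (h3 : t2 * ∑ y, ν y * (ctd μ ν M x y - be x ⬝ᵥ z y) ^ 2 ≤ 1) :
    OpB (TV ν z ((Real.sqrt (be x ⬝ᵥ be x))⁻¹ • be x)) (5 / m0) := by
  have h2 := (hc.f2 x).1
  have h4 : Real.sqrt (t2 * ∑ y, ν y * (ctd μ ν M x y - be x ⬝ᵥ z y) ^ 2) ≤ 1 := by
    rw [Real.sqrt_le_one]
    exact h3
  have h5 : OpB (TV ν z (be x)) 5 := h2.mono (by positivity) (by linarith)
  intro w
  rw [TV_smul, Matrix.smul_mulVec, smul_dotProduct, dotProduct_smul, smul_eq_mul, smul_eq_mul,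
    ← mul_assoc, ← mul_inv]
  have h6 : 0 < be x ⬝ᵥ be x := lt_of_lt_of_le (by positivity) h1
  rw [Real.mul_self_sqrt h6.le]
  have h7 := h5 w
  have hw := dot_self_nonneg w
  have h8 : (be x ⬝ᵥ be x)⁻¹ ≤ (m0 ^ 2)⁻¹ := inv_anti₀ (by positivity) h1
  calc _ ≤ (m0 ^ 2)⁻¹ * (5 ^ 2 * (w ⬝ᵥ w)) :=
        mul_le_mul h8 h7 (dot_self_nonneg _) (by positivity)
    _ = _ := by
        rw [div_pow]
        ring

end Main

/-- N1R -/
theorem n1R_pr (s cD cE : ℝ) (hs0 : 0 < s) (hsD : 100 * s ≤ cD) (hD : 2 * cD ≤ cE) (hE : cE ≤ 1 / 10) :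
    ∃ R0 : ℝ, ∀ R : ℝ, R0 ≤ R → ∀ {X Y ι : Type} [Fintype X] [Fintype Y] [Fintype ι]
      [DecidableEq ι] {μ : X → ℝ} {ν : Y → ℝ} {M : X → Y → ℝ} {U : ℝ} {V : ι → ℝ}
      {be : X → ι → ℝ} {z : Y → ι → ℝ}, CoreR R s μ ν M U V be z →
      ∀ (Xg : Finset X) (b : X → ι → ℝ), (∀ x, b x = (Real.sqrt (be x ⬝ᵥ be x))⁻¹ • be x) →
      (∀ x ∈ Xg, (R ^ (-s)) ^ 2 ≤ be x ⬝ᵥ be x) →
      ∀ (Yg : Finset Y), (∀ y ∈ Yg, z y ⬝ᵥ z y ≤ 3 * R) →
      ∀ (P : Y → Matrix ι ι ℝ), (∀ y, IsProj (P y)) →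
      (∀ y, P y * TV ν z (z y) = TV ν z (z y) * P y) →
      (∀ y, OpB (TV ν z (z y) * (1 - P y)) (R ^ (1 / 2 - cE))) →
      ∑ x ∈ Xg, ∑ y ∈ Yg, μ x * ν y *
      ((TV ν z ((TV ν z (z y) * (1 - P y)) *ᵥ b x) *ᵥ ((TV ν z (z y) * (1 - P y)) *ᵥ b x)) ⬝ᵥ
       (TV ν z ((TV ν z (z y) * (1 - P y)) *ᵥ b x) *ᵥ ((TV ν z (z y) * (1 - P y)) *ᵥ b x))) ≤
      R ^ (3 / 2 - cD) := by
  classical
  obtain ⟨R0, hR01, hR0⟩ := n1R_large hs0 2000000
  refine ⟨R0, fun R hR X Y ι _ _ _ _ μ ν M U V be z hcr Xg b hbx h1 Yg _ P hP hPK hPh => ?_⟩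
  have hR1 : 1 ≤ R := hR01.trans hR
  have hRp : 0 < R := by linarith
  rcases isEmpty_or_nonempty ι with hι | hι
  · have h0 : ∀ x y, ((TV ν z ((TV ν z (z y) * (1 - P y)) *ᵥ b x) *ᵥ
        ((TV ν z (z y) * (1 - P y)) *ᵥ b x)) ⬝ᵥ
       (TV ν z ((TV ν z (z y) * (1 - P y)) *ᵥ b x) *ᵥ ((TV ν z (z y) * (1 - P y)) *ᵥ b x))) = 0 := by
      intro x y
      simp [dotProduct]
    simp only [h0, mul_zero, Finset.sum_const_zero]
    positivity
  have hl : 2000000 * (1 + Real.log R) ≤ R ^ s := hR0 R hR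
  have hl0 : 0 ≤ Real.log R := Real.log_nonneg hR1
  have hc := hcr.core.toCore
  have hμ := hc.prX
  have hν := hc.prY
  have h1F : ∀ c : ι → ℝ, hs (TV ν z c) ≤ R ^ (1 / 2 + s) * (c ⬝ᵥ c) := fun c => hc.hs_TV c
  -- names
  set r := R ^ (1 / 2 : ℝ) with hr
  set q := R ^ s with hq
  set e := R ^ cE with he
  have hrp : 0 < r := Real.rpow_pos_of_pos hRp _
  have hqp : 0 < q := Real.rpow_pos_of_pos hRp _
  have hep : 0 < e := Real.rpow_pos_of_pos hRp _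
  have hr1 : 1 ≤ r := Real.one_le_rpow hR1 (by norm_num)
  have hrr : r ^ 2 = R := by
    rw [hr, ← Real.rpow_natCast, ← Real.rpow_mul hRp.le]
    norm_num
  have e1 : R ^ (1 / 2 + s) = r * q := Real.rpow_add hRp _ _
  have e2 : R ^ (-(1 / 2) + s) = q / r := by
    rw [Real.rpow_add hRp, Real.rpow_neg hRp.le, ← hr, ← hq]
    field_simp
  have e3 : R ^ (-1 + s) = q / r ^ 2 := by
    rw [Real.rpow_add hRp, Real.rpow_neg hRp.le, Real.rpow_one, hrr, ← hq]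
    field_simp
  have e4 : R ^ (1 / 2 - cE) = r / e := by
    rw [Real.rpow_sub hRp]
  have e5 : R ^ (-s) = 1 / q := by
    rw [Real.rpow_neg hRp.le, ← hq, one_div]
  have hs1 : s ≤ 1 / 4 := by linarith
  have hqr : q ^ 2 ≤ r := by
    rw [hq, hr, ← Real.rpow_natCast, ← Real.rpow_mul hRp.le]
    apply Real.rpow_le_rpow_of_exponent_le hR1
    push_cast
    linarith
  have he1 : 1 ≤ e := Real.one_le_rpow hR1 (by linarith)
  have her : e ≤ r := Real.rpow_le_rpow_of_exponent_le hR1 (by linarith)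
  have hq1 : 1000000 ≤ q := by linarith
  -- split the rows
  set Xb : Finset X := Xg.filter fun x =>
    ¬ R ^ (1 / 2 + s) * ∑ y, ν y * (ctd μ ν M x y - be x ⬝ᵥ z y) ^ 2 ≤ 1 with hXb
  set Xc : Finset X := Xg.filter fun x =>
    R ^ (1 / 2 + s) * ∑ y, ν y * (ctd μ ν M x y - be x ⬝ᵥ z y) ^ 2 ≤ 1 with hXc
  rw [← Finset.sum_filter_add_sum_filter_not Xg (fun x =>
    R ^ (1 / 2 + s) * ∑ y, ν y * (ctd μ ν M x y - be x ⬝ᵥ z y) ^ 2 ≤ 1)]
  have hm0 : 0 < R ^ (-s) := Real.rpow_pos_of_pos hRp _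
  have hb1 : ∀ x ∈ Xg, b x ⬝ᵥ b x = 1 := by
    intro x hx
    have h2 : 0 < be x ⬝ᵥ be x := lt_of_lt_of_le (by positivity) (h1 x hx)
    rw [hbx, smul_dotProduct, dotProduct_smul, smul_eq_mul, smul_eq_mul, ← mul_assoc, ← mul_inv,
      Real.mul_self_sqrt h2.le, inv_mul_cancel₀ h2.ne']
  have hμX : ∀ T : Finset X, ∑ x ∈ T, μ x ≤ 1 := by
    intro T
    rw [← hμ.2]
    exact Finset.sum_le_sum_of_subset_of_nonneg (Finset.subset_univ _) fun x _ _ => hμ.1 x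
  have hYg1 : ∑ y ∈ Yg, ν y ≤ 1 := by
    rw [← hν.2]
    exact Finset.sum_le_sum_of_subset_of_nonneg (Finset.subset_univ _) fun y _ _ => hν.1 y
  -- the good rows
  set l := Real.log R + 1 / 20 with hldef
  have hl' : 1000000 * (1 + l) ≤ q := by rw [hldef]; linarith
  have hl0' : 0 ≤ l := by rw [hldef]; linarith
  have hX : Real.exp (-(20 * l)) ≤ (r ^ 40)⁻¹ := by
    have h2 : (r ^ 40)⁻¹ = Real.exp (-(20 * Real.log R)) := by
      have h3 : r ^ 40 = Real.exp (20 * Real.log R) := by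
        have h4 : r ^ 40 = R ^ 20 := by
          rw [← hrr]
          ring
        rw [h4, mul_comm, ← Real.rpow_natCast, Real.rpow_def_of_pos hRp]
        norm_num
      rw [h3, Real.exp_neg]
    rw [h2]
    apply Real.exp_le_exp.2
    rw [hldef]
    linarith
  have hW : (5 / (1 / q)) ^ 2 = 25 * q ^ 2 := by
    field_simp
    norm_num
  have hgood := n1_direct hc h1F hm0 Xc b hbx
    (fun x hx => h1 x (Finset.mem_filter.1 hx).1)
    (fun x hx => by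
      rw [hbx x]
      exact n1R_op hc hm0 (h1 x (Finset.mem_filter.1 hx).1) (Finset.mem_filter.1 hx).2)
    Yg P hP hPK hPh (a := r / e) (c := r * e) (s := 20 * l)
    (by positivity) (by
      rw [div_le_iff₀ hep]
      exact n1R_a7 hrp.le he1) (by rw [hldef]; linarith) rfl rfl rfl rfl rfl
  rw [e1, e2, e3, e4, e5, hW] at hgood
  have hN : (Fintype.card ι : ℝ) ≤ r ^ 2 := by rw [hrr]; exact hcr.card
  have har := n1R_arith (N := Fintype.card ι) hr1 hl' hl0' hqr he1 her hN (Nat.cast_nonneg _)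
    (Real.exp_pos _).le hX rfl rfl rfl rfl rfl
  have hgood2 := hgood.trans (le_trans (le_of_eq (by
    rw [one_div, inv_pow, div_inv_eq_mul])) har)
  -- the bad rows
  have hw0 : ∑ x ∈ Xb, μ x ≤ R ^ (1 / 2 + s) * R ^ (-18 : ℝ) := by
    calc _ ≤ ∑ x ∈ Xb, μ x * (R ^ (1 / 2 + s) *
          ∑ y, ν y * (ctd μ ν M x y - be x ⬝ᵥ z y) ^ 2) := by
          apply Finset.sum_le_sum
          intro x hx
          have h2 := (Finset.mem_filter.1 hx).2
          have h3 := hμ.1 x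
          exact le_mul_of_one_le_right h3 (not_le.1 h2).le
      _ ≤ ∑ x, μ x * (R ^ (1 / 2 + s) *
          ∑ y, ν y * (ctd μ ν M x y - be x ⬝ᵥ z y) ^ 2) := by
          apply Finset.sum_le_sum_of_subset_of_nonneg (Finset.subset_univ _)
          intro x _ _
          apply mul_nonneg (hμ.1 x)
          apply mul_nonneg (by positivity)
          exact Finset.sum_nonneg fun y _ => mul_nonneg (hν.1 y) (sq_nonneg _)
      _ = R ^ (1 / 2 + s) * ∑ x, μ x *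
          ∑ y, ν y * (ctd μ ν M x y - be x ⬝ᵥ z y) ^ 2 := by
          rw [Finset.mul_sum]
          exact Finset.sum_congr rfl fun x _ => by ring
      _ ≤ _ := mul_le_mul_of_nonneg_left hc.weak (by positivity)
  have hbad : ∑ x ∈ Xb, ∑ y ∈ Yg, μ x * ν y *
      ((TV ν z ((TV ν z (z y) * (1 - P y)) *ᵥ b x) *ᵥ ((TV ν z (z y) * (1 - P y)) *ᵥ b x)) ⬝ᵥ
       (TV ν z ((TV ν z (z y) * (1 - P y)) *ᵥ b x) *ᵥ ((TV ν z (z y) * (1 - P y)) *ᵥ b x))) ≤
      (r * q * R ^ (-18 : ℝ)) * (r * q * ((r / e) ^ 2) ^ 2) := by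
    have hT0 : 0 ≤ r * q * ((r / e) ^ 2) ^ 2 := by positivity
    calc _ ≤ ∑ x ∈ Xb, ∑ y ∈ Yg, μ x * ν y * (r * q * ((r / e) ^ 2) ^ 2) := by
          apply Finset.sum_le_sum
          intro x hx
          apply Finset.sum_le_sum
          intro y _
          apply mul_le_mul_of_nonneg_left _ (mul_nonneg (hμ.1 x) (hν.1 y))
          rw [← e1, ← e4]
          exact n1R_triv h1F (by positivity) (hPh y) (hb1 x (Finset.mem_filter.1 hx).1)
      _ = (∑ x ∈ Xb, μ x) * (∑ y ∈ Yg, ν y) * (r * q * ((r / e) ^ 2) ^ 2) := by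
          rw [Finset.sum_mul_sum, Finset.sum_mul]
          apply Finset.sum_congr rfl
          intro x _
          rw [Finset.sum_mul]
      _ ≤ (r * q * R ^ (-18 : ℝ)) * 1 * (r * q * ((r / e) ^ 2) ^ 2) := by
          apply mul_le_mul_of_nonneg_right _ hT0
          rw [e1] at hw0
          exact mul_le_mul hw0 hYg1 (Finset.sum_nonneg fun y _ => hν.1 y) (by positivity)
      _ = _ := by ring
  have e6 : R ^ (-18 : ℝ) = (r ^ 36)⁻¹ := by
    rw [Real.rpow_neg hRp.le]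
    congr 1
    have : r ^ 36 = R ^ 18 := by
      rw [← hrr]
      ring
    rw [this]
    exact_mod_cast Real.rpow_natCast R 18
  have hqr1 : q ≤ r := (le_self_pow₀ (by linarith only [hq1]) two_ne_zero).trans hqr
  have hbad2 : (r * q * R ^ (-18 : ℝ)) * (r * q * ((r / e) ^ 2) ^ 2) ≤ 1 := by
    rw [e6]
    have h2 : r / e ≤ r := by
      rw [div_le_iff₀ hep]
      exact le_mul_of_one_le_right hrp.le he1
    have h3 : ((r / e) ^ 2) ^ 2 ≤ (r ^ 2) ^ 2 :=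
      pow_le_pow_left₀ (by positivity) (pow_le_pow_left₀ (by positivity) h2 2) 2
    calc (r * q * (r ^ 36)⁻¹) * (r * q * ((r / e) ^ 2) ^ 2)
        ≤ (r * r * (r ^ 36)⁻¹) * (r * r * (r ^ 2) ^ 2) := by
          apply mul_le_mul _ _ (by positivity) (by positivity)
          · apply mul_le_mul_of_nonneg_right _ (by positivity)
            exact mul_le_mul_of_nonneg_left hqr1 hrp.le
          · apply mul_le_mul _ h3 (by positivity) (by positivity)
            exact mul_le_mul_of_nonneg_left hqr1 hrp.le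
      _ = r ^ 8 * (r ^ 36)⁻¹ := by ring
      _ ≤ 1 := by
          rw [← div_eq_mul_inv, div_le_one (by positivity)]
          exact pow_le_pow_right₀ hr1 (by norm_num)
  have hone : 1 ≤ r ^ 3 * q ^ 12 / e := by
    rw [le_div_iff₀ hep, one_mul]
    calc e ≤ r := her
      _ = r ^ 1 * 1 := by ring
      _ ≤ r ^ 3 * q ^ 12 := by
          apply mul_le_mul (pow_le_pow_right₀ hr1 (by norm_num)) (one_le_pow₀ (by linarith))
            (by norm_num) (by positivity)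
  -- the end
  have hfin : 2 * (r ^ 3 * q ^ 12 / e) ≤ R ^ (3 / 2 - cD) := by
    set d := R ^ cD with hd
    have hdp : 0 < d := Real.rpow_pos_of_pos hRp _
    have h2 : R ^ (3 / 2 - cD) = r ^ 3 / d := by
      rw [Real.rpow_sub hRp, ← hd]
      congr 1
      rw [hr, ← Real.rpow_natCast, ← Real.rpow_mul hRp.le]
      norm_num
    have h3 : q ^ 13 ≤ d := by
      rw [hq, hd, ← Real.rpow_natCast, ← Real.rpow_mul hRp.le]
      apply Real.rpow_le_rpow_of_exponent_le hR1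
      push_cast
      linarith
    have h4 : d ^ 2 ≤ e := by
      rw [hd, he, ← Real.rpow_natCast, ← Real.rpow_mul hRp.le]
      apply Real.rpow_le_rpow_of_exponent_le hR1
      push_cast
      linarith
    rw [h2, le_div_iff₀ hdp]
    have h5 : 2 * q ^ 12 * d ≤ e := by
      calc 2 * q ^ 12 * d ≤ q * q ^ 12 * d := by
            apply mul_le_mul_of_nonneg_right _ hdp.le
            exact mul_le_mul_of_nonneg_right (by linarith) (by positivity)
        _ = q ^ 13 * d := by ring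
        _ ≤ d * d := mul_le_mul_of_nonneg_right h3 hdp.le
        _ = d ^ 2 := by ring
        _ ≤ e := h4
    have h6 : 2 * (r ^ 3 * q ^ 12 / e) * d = r ^ 3 * ((2 * q ^ 12 * d) / e) := by ring
    rw [h6]
    calc r ^ 3 * ((2 * q ^ 12 * d) / e) ≤ r ^ 3 * 1 := by
          apply mul_le_mul_of_nonneg_left _ (by positivity)
          rw [div_le_one hep]
          exact h5
      _ = r ^ 3 := mul_one _
  calc _ ≤ r ^ 3 * q ^ 12 / e + (r * q * R ^ (-18 : ℝ)) * (r * q * ((r / e) ^ 2) ^ 2) :=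
        add_le_add hgood2 hbad
    _ ≤ 2 * (r ^ 3 * q ^ 12 / e) := by linarith
    _ ≤ _ := hfin

alias n1R := n1R_pr

end Pool.Agent.LRC
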