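import Pool.Agent.Lib_helper94.LRF.C2
import Pool.Agent.Lib_helper94.LRF.N1R

/-!
# Block G6: the second decoder in powers of `R`
-/

set_option autoImplicit false
set_option linter.unusedSectionVars false

open Finset Matrix

namespace Pool.Agent.LRC

open Pool.Agent.LR2

section Mono

variable {X Y ι : Type} [Fintype X] [Fintype Y] [Fintype ι] [DecidableEq ι]
variable {μ : X → ℝ} {ν : Y → ℝ} {M : X → Y → ℝ} {U : ℝ} {V : ι → ℝ} {be : X → ι → ℝ}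
    {z : Y → ι → ℝ}

theorem g6_FT_mono [Nonempty ι] {A : Type} [Fintype A] {al : A → ℝ} {f : A → ι → ℝ} {D : ι → ℝ}
    {k k' : ℝ} (h : FT al f D k) (hk : k ≤ k') : FT al f D k' := by
  intro p hp s hs0 hps K c hK hK0 hKc
  refine (h p hp s hs0 hps K c hK hK0 hKc).trans ?_
  obtain ⟨i⟩ := ‹Nonempty ι›
  have hc0 : 0 ≤ c := by
    have e1 := hK0 (Pi.single i 1)
    have e2 := hKc (Pi.single i 1)
    have e3 : (Pi.single i (1 : ℝ) : ι → ℝ) ⬝ᵥ Pi.single i (1 : ℝ) = 1 := by simp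
    rw [e3, mul_one] at e2
    linarith
  have e4 : k * c * (s + 2) ≤ k' * c * (s + 2) :=
    mul_le_mul_of_nonneg_right (mul_le_mul_of_nonneg_right hk hc0) (by linarith)
  linarith

theorem g6_core_mono [Nonempty ι] {t2 kap rho del2 w0 q2 t2' kap' rho' del2' w0' q2' : ℝ}
    (hc : Core μ ν M U V be z t2 kap rho del2 w0 q2) (h1 : t2 ≤ t2') (h2 : kap ≤ kap')
    (h3 : rho ≤ rho') (h4 : del2 ≤ del2') (h5 : w0 ≤ w0') (h6 : q2 ≤ q2') :
    Core μ ν M U V be z t2' kap' rho' del2' w0' q2' where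
  prX := hc.prX
  prY := hc.prY
  sgn := hc.sgn
  mean := hc.mean
  iso := hc.iso
  cen := hc.cen
  bez := hc.bez
  mom := hc.mom
  V_nonneg := hc.V_nonneg
  V_le := fun i => (hc.V_le i).trans h4
  weak := hc.weak.trans h5
  f1 := by
    intro h
    refine (hc.f1 h).trans ?_
    refine mul_le_mul_of_nonneg_right h1 ?_
    exact Finset.sum_nonneg fun y _ => mul_nonneg (hc.prY.nonneg y) (sq_nonneg _)
  f4 := g6_FT_mono hc.f4 h2
  f5 := g6_FT_mono hc.f5 h3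
  row := hc.row.trans h6
  col := hc.col.trans h6
  t2_one := hc.t2_one.trans h1
  kap_nonneg := hc.kap_nonneg.trans h2
  rho_nonneg := hc.rho_nonneg.trans h3
  del2_nonneg := hc.del2_nonneg.trans h4

theorem g6_core2_mono [Nonempty ι] {t2 kap rho del2 w0 q2 lam a0 t2' kap' rho' del2' w0' q2'
    lam' : ℝ} (hc : Core2 μ ν M U V be z t2 kap rho del2 w0 q2 lam a0) (h1 : t2 ≤ t2')
    (h2 : kap ≤ kap') (h3 : rho ≤ rho') (h4 : del2 ≤ del2') (h5 : w0 ≤ w0') (h6 : q2 ≤ q2')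
    (h7 : lam ≤ lam') :
    Core2 μ ν M U V be z t2' kap' rho' del2' w0' q2' lam' a0 where
  toCore := g6_core_mono hc.toCore h1 h2 h3 h4 h5 h6
  lam_pos := hc.lam_pos.trans_le h7
  a0_nonneg := hc.a0_nonneg
  ps := by
    intro p q s t hp hq hps hqt
    refine (hc.ps p q s t hp hq hps hqt).trans ?_
    have hex : ∀ {A : Type} [Fintype A] {f g : A → ℝ} {r : ℝ}, IsPr f → IsPr g →
        (∀ a, f a ≤ Real.exp r * g a) → 0 ≤ r := by
      intro A _ f g r hf hg hfg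
      have e1 : ∑ a, f a ≤ ∑ a, Real.exp r * g a := Finset.sum_le_sum fun a _ => hfg a
      rw [← Finset.mul_sum, hf.sum, hg.sum, mul_one] at e1
      by_contra hlt
      push Not at hlt
      have := Real.exp_lt_exp.mpr hlt
      rw [Real.exp_zero] at this
      linarith
    have hs := hex hp hc.prX hps
    have ht := hex hq hc.prY hqt
    exact mul_le_mul_of_nonneg_right h7 (by linarith)
  pkl := by
    intro p q hp hq hpa hqa
    refine (hc.pkl p q hp hq hpa hqa).trans ?_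
    have e1 := KL_nonneg hp hc.prX hpa
    have e2 := KL_nonneg hq hc.prY hqa
    have e3 : 2 * lam * (KL p μ + KL q ν) ≤ 2 * lam' * (KL p μ + KL q ν) :=
      mul_le_mul_of_nonneg_right (by linarith) (by linarith)
    linarith
  upr := by
    intro θ h0 h1' p q hp hq hpa hqa
    refine (hc.upr θ h0 h1' p q hp hq hpa hqa).trans ?_
    have e1 := KL_nonneg hp hc.prX hpa
    have e2 := KL_nonneg hq hc.prY hqa
    have e3 : lam / θ ≤ lam' / θ := div_le_div_of_nonneg_right h7 h0.le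
    have e4 : 4 * (lam / θ) * (KL p μ + KL q ν) ≤ 4 * (lam' / θ) * (KL p μ + KL q ν) :=
      mul_le_mul_of_nonneg_right (by linarith) (by linarith)
    linarith
  mrow := by
    intro θ h0 h1' p hp hpa
    refine (hc.mrow θ h0 h1' p hp hpa).trans ?_
    have e1 := KL_nonneg hp hc.prX hpa
    have e3 : lam / θ ≤ lam' / θ := div_le_div_of_nonneg_right h7 h0.le
    have e4 : lam / θ * (3 * KL p μ + 17) ≤ lam' / θ * (3 * KL p μ + 17) :=
      mul_le_mul_of_nonneg_right e3 (by linarith)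
    linarith
  mcol := by
    intro θ h0 h1' p hp hpa
    refine (hc.mcol θ h0 h1' p hp hpa).trans ?_
    have e1 := KL_nonneg hp hc.prY hpa
    have e3 : lam / θ ≤ lam' / θ := div_le_div_of_nonneg_right h7 h0.le
    have e4 : lam / θ * (3 * KL p ν + 17) ≤ lam' / θ * (3 * KL p ν + 17) :=
      mul_le_mul_of_nonneg_right e3 (by linarith)
    linarith

/-- `CoreR` is monotone in the exponent -/
theorem g6_coreR_mono [Nonempty ι] {R s s' : ℝ} (hR : 1 ≤ R) (hss : s ≤ s')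
    (h : CoreR R s μ ν M U V be z) : CoreR R s' μ ν M U V be z where
  core := by
    have hp : ∀ a b : ℝ, a ≤ b → R ^ a ≤ R ^ b := fun a b hab =>
      Real.rpow_le_rpow_of_exponent_le hR hab
    exact g6_core2_mono h.core (hp _ _ (by linarith)) (hp _ _ (by linarith))
      (hp _ _ (by linarith)) (hp _ _ (by linarith)) le_rfl (hp _ _ (by linarith))
      (hp _ _ (by linarith))
  card := h.card
  rank := h.rank

end Mono

section Pw

/-- absorbing a constant -/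
theorem g6_abs {R s C e f : ℝ} (hR : 1 ≤ R) (hC : C ≤ R ^ s) (he : e + s ≤ f) :
    C * R ^ e ≤ R ^ f := by
  have hR0 : 0 < R := by linarith
  calc C * R ^ e ≤ R ^ s * R ^ e := mul_le_mul_of_nonneg_right hC (Real.rpow_nonneg hR0.le _)
    _ = R ^ (s + e) := (Real.rpow_add hR0 _ _).symm
    _ ≤ R ^ f := Real.rpow_le_rpow_of_exponent_le hR (by linarith)

/-- the parameters of the second decoder: `Δ` -/
theorem g6_delta {R s c L : ℝ} {t m : ℕ} (hs0 : 0 < s) (hsc : 1000 * s ≤ c) (hc : c ≤ 1 / 10 ^ 8)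
    (hR : 1 ≤ R) (hK : 10 ^ 6 ≤ R ^ s) (hL0 : 0 ≤ L) (hL : L ≤ R ^ s)
    (ht : t = ⌈R ^ (1 / 2 - 32 * c)⌉₊) (hm : m = ⌈R ^ (1 / 2 - 16 * c)⌉₊) :
    Real.sqrt (12 * (((t : ℝ) + t) * L + 2) / m) +
      (2 * ((R ^ (-(8 * c)) * 1 + 17 * (R ^ (-(1 / 2) + s) / R ^ (-(8 * c)))) +
        4 * (R ^ (-(1 / 2) + s) / R ^ (-(8 * c))) * (m * Real.log 2 + 2)) + 0) ≤
      R ^ (-(8 * c) + 2 * s) := by
  have hR0 : 0 < R := by linarith
  have hp : ∀ a b : ℝ, a ≤ b → R ^ a ≤ R ^ b := fun a b hab =>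
    Real.rpow_le_rpow_of_exponent_le hR hab
  have h1 : ∀ a : ℝ, 0 ≤ a → 1 ≤ R ^ a := fun a ha => Real.one_le_rpow hR ha
  have h0 : ∀ a : ℝ, 0 < R ^ a := fun a => Real.rpow_pos_of_pos hR0 a
  have hadd : ∀ a b : ℝ, R ^ a * R ^ b = R ^ (a + b) := fun a b => (Real.rpow_add hR0 a b).symm
  have ht2 : (t : ℝ) ≤ 2 * R ^ (1 / 2 - 32 * c) := by
    rw [ht]
    have e1 := (Nat.ceil_lt_add_one (h0 (1 / 2 - 32 * c)).le).le
    have e2 := h1 (1 / 2 - 32 * c) (by linarith)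
    linarith
  have hm1 : R ^ (1 / 2 - 16 * c) ≤ (m : ℝ) := by rw [hm]; exact Nat.le_ceil _
  have hm2 : (m : ℝ) ≤ 2 * R ^ (1 / 2 - 16 * c) := by
    rw [hm]
    have e1 := (Nat.ceil_lt_add_one (h0 (1 / 2 - 16 * c)).le).le
    have e2 := h1 (1 / 2 - 16 * c) (by linarith)
    linarith
  have hm0 : (0 : ℝ) < m := (h0 _).trans_le hm1
  -- the square root
  have hA : Real.sqrt (12 * (((t : ℝ) + t) * L + 2) / m) ≤ 9 * R ^ (-(8 * c) + s) := by
    rw [Real.sqrt_le_left (by have := h0 (-(8 * c) + s); linarith)]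
    rw [div_le_iff₀ hm0, mul_pow, ← Real.rpow_natCast (R ^ _), ← Real.rpow_mul hR0.le]
    have e1 : ((t : ℝ) + t) * L ≤ 4 * R ^ (1 / 2 - 32 * c) * R ^ s := by
      refine mul_le_mul (by linarith) hL hL0 (by have := h0 (1 / 2 - 32 * c); linarith)
    rw [mul_assoc, hadd] at e1
    have e2 : 2 ≤ 2 * R ^ (1 / 2 - 32 * c + s) := by
      have := h1 (1 / 2 - 32 * c + s) (by linarith)
      linarith
    have e3 : (9 : ℝ) ^ 2 * R ^ ((-(8 * c) + s) * ((2 : ℕ) : ℝ)) * R ^ (1 / 2 - 16 * c) ≤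
        9 ^ 2 * R ^ ((-(8 * c) + s) * ((2 : ℕ) : ℝ)) * m :=
      mul_le_mul_of_nonneg_left hm1 (mul_nonneg (by norm_num) (h0 _).le)
    refine le_trans ?_ e3
    rw [mul_assoc, hadd]
    have e4 : R ^ (1 / 2 - 32 * c + s) ≤
        R ^ ((-(8 * c) + s) * ((2 : ℕ) : ℝ) + (1 / 2 - 16 * c)) := by
      apply hp
      push_cast
      linarith
    have := h0 (1 / 2 - 32 * c + s)
    nlinarith
  have hlog : Real.log 2 ≤ 1 := by
    have := Real.log_two_lt_d9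
    linarith
  have hdiv : R ^ (-(1 / 2) + s) / R ^ (-(8 * c)) = R ^ (-(1 / 2) + s + 8 * c) := by
    rw [← Real.rpow_sub hR0]
    congr 1
    ring
  rw [hdiv]
  have hB : 4 * R ^ (-(1 / 2) + s + 8 * c) * (m * Real.log 2 + 2) ≤ 16 * R ^ (-(8 * c) + s) := by
    have e1 : (m : ℝ) * Real.log 2 + 2 ≤ 4 * R ^ (1 / 2 - 16 * c) := by
      have e2 : (m : ℝ) * Real.log 2 ≤ m * 1 := mul_le_mul_of_nonneg_left hlog hm0.le
      have e3 := h1 (1 / 2 - 16 * c) (by linarith)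
      linarith
    calc 4 * R ^ (-(1 / 2) + s + 8 * c) * (m * Real.log 2 + 2)
        ≤ 4 * R ^ (-(1 / 2) + s + 8 * c) * (4 * R ^ (1 / 2 - 16 * c)) :=
          mul_le_mul_of_nonneg_left e1 (by have := h0 (-(1 / 2) + s + 8 * c); linarith)
      _ = 16 * (R ^ (-(1 / 2) + s + 8 * c) * R ^ (1 / 2 - 16 * c)) := by ring
      _ = 16 * R ^ (-(8 * c) + s) := by
          rw [hadd]
          congr 2
          ring
  have hC : R ^ (-(8 * c)) ≤ R ^ (-(8 * c) + s) := hp _ _ (by linarith)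
  have hD : R ^ (-(1 / 2) + s + 8 * c) ≤ R ^ (-(8 * c) + s) := hp _ _ (by linarith)
  have hE : 77 * R ^ (-(8 * c) + s) ≤ R ^ (-(8 * c) + 2 * s) :=
    g6_abs (s := s) hR (by linarith) (by linarith)
  have := h0 (-(8 * c) + s)
  linarith

/-- the parameters of the second decoder: `N` -/
theorem g6_N {R s c : ℝ} {t : ℕ} (hs0 : 0 < s) (hsc : 1000 * s ≤ c) (hc : c ≤ 1 / 10 ^ 8)
    (hR : 1 ≤ R) (hK : 10 ^ 6 ≤ R ^ s) (ht : t = ⌈R ^ (1 / 2 - 32 * c)⌉₊) {w4 : ℝ}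
    (hw4 : w4 ≤ 52 * R ^ (1 + 22 * s)) :
    4 * (R ^ (5 * s)) ^ 4 * w4 +
      1 / (t : ℝ) * ((R ^ (1 / 2 - 64 * c)) ^ 2 * (4 * (R ^ (5 * s)) ^ 4) * R ^ (1 / 2 + s)) +
      1 / (t : ℝ) * ((R ^ (5 * s)) ^ 2 * R ^ (3 / 2 - 32 * c)) +
      1 / ((t : ℝ) * t) * ((R ^ (1 / 2 - 64 * c)) ^ 2 * (R ^ (5 * s)) ^ 2 * R ^ (1 / 2 + s) *
        R ^ (1 / 2 + s)) ≤ R ^ (1 + 43 * s) := by
  have hR0 : 0 < R := by linarith
  have hp : ∀ a b : ℝ, a ≤ b → R ^ a ≤ R ^ b := fun a b hab =>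
    Real.rpow_le_rpow_of_exponent_le hR hab
  have h0 : ∀ a : ℝ, 0 < R ^ a := fun a => Real.rpow_pos_of_pos hR0 a
  have hadd : ∀ a b : ℝ, R ^ a * R ^ b = R ^ (a + b) := fun a b => (Real.rpow_add hR0 a b).symm
  have hpow : ∀ (a : ℝ) (n : ℕ), (R ^ a) ^ n = R ^ (a * n) := fun a n => by
    rw [← Real.rpow_natCast (R ^ a), ← Real.rpow_mul hR0.le]
  have ht1 : R ^ (1 / 2 - 32 * c) ≤ (t : ℝ) := by rw [ht]; exact Nat.le_ceil _
  have hti : 1 / (t : ℝ) ≤ R ^ (-(1 / 2 - 32 * c)) := by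
    rw [Real.rpow_neg hR0.le, ← one_div]
    exact one_div_le_one_div_of_le (h0 _) ht1
  have hti0 : 0 ≤ 1 / (t : ℝ) := by positivity
  have htt : 1 / ((t : ℝ) * t) ≤ R ^ (-(1 / 2 - 32 * c)) * R ^ (-(1 / 2 - 32 * c)) := by
    have : 1 / ((t : ℝ) * t) = 1 / (t : ℝ) * (1 / (t : ℝ)) := by
      rw [one_div_mul_one_div]
    rw [this]
    exact mul_le_mul hti hti hti0 (h0 _).le
  have hone : ∀ {a : ℝ}, a ≤ 1 + 42 * s → R ^ a ≤ R ^ (1 + 42 * s) := fun ha => hp _ _ ha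
  have hA : 4 * (R ^ (5 * s)) ^ 4 * w4 ≤ 208 * R ^ (1 + 42 * s) := by
    calc 4 * (R ^ (5 * s)) ^ 4 * w4 ≤ 4 * (R ^ (5 * s)) ^ 4 * (52 * R ^ (1 + 22 * s)) :=
          mul_le_mul_of_nonneg_left hw4 (by positivity)
      _ = 208 * ((R ^ (5 * s)) ^ 4 * R ^ (1 + 22 * s)) := by ring
      _ = 208 * R ^ (1 + 42 * s) := by
          rw [hpow, hadd]
          congr 2
          push_cast
          ring
  have hB : 1 / (t : ℝ) * ((R ^ (1 / 2 - 64 * c)) ^ 2 * (4 * (R ^ (5 * s)) ^ 4) *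
      R ^ (1 / 2 + s)) ≤ 4 * R ^ (1 + 42 * s) := by
    calc 1 / (t : ℝ) * ((R ^ (1 / 2 - 64 * c)) ^ 2 * (4 * (R ^ (5 * s)) ^ 4) * R ^ (1 / 2 + s))
        ≤ R ^ (-(1 / 2 - 32 * c)) * ((R ^ (1 / 2 - 64 * c)) ^ 2 * (4 * (R ^ (5 * s)) ^ 4) *
          R ^ (1 / 2 + s)) := mul_le_mul_of_nonneg_right hti (by positivity)
      _ = 4 * (R ^ (-(1 / 2 - 32 * c)) * ((R ^ (1 / 2 - 64 * c)) ^ 2 * (R ^ (5 * s)) ^ 4 *
          R ^ (1 / 2 + s))) := by ring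
      _ ≤ 4 * R ^ (1 + 42 * s) := by
          rw [hpow, hpow, hadd, hadd, hadd]
          refine mul_le_mul_of_nonneg_left (hp _ _ ?_) (by norm_num)
          push_cast
          linarith
  have hC : 1 / (t : ℝ) * ((R ^ (5 * s)) ^ 2 * R ^ (3 / 2 - 32 * c)) ≤ R ^ (1 + 42 * s) := by
    calc 1 / (t : ℝ) * ((R ^ (5 * s)) ^ 2 * R ^ (3 / 2 - 32 * c))
        ≤ R ^ (-(1 / 2 - 32 * c)) * ((R ^ (5 * s)) ^ 2 * R ^ (3 / 2 - 32 * c)) :=
          mul_le_mul_of_nonneg_right hti (by positivity)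
      _ ≤ R ^ (1 + 42 * s) := by
          rw [hpow, hadd, hadd]
          apply hp
          push_cast
          linarith
  have hD : 1 / ((t : ℝ) * t) * ((R ^ (1 / 2 - 64 * c)) ^ 2 * (R ^ (5 * s)) ^ 2 *
      R ^ (1 / 2 + s) * R ^ (1 / 2 + s)) ≤ R ^ (1 + 42 * s) := by
    calc 1 / ((t : ℝ) * t) * ((R ^ (1 / 2 - 64 * c)) ^ 2 * (R ^ (5 * s)) ^ 2 *
        R ^ (1 / 2 + s) * R ^ (1 / 2 + s))
        ≤ R ^ (-(1 / 2 - 32 * c)) * R ^ (-(1 / 2 - 32 * c)) * ((R ^ (1 / 2 - 64 * c)) ^ 2 *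
          (R ^ (5 * s)) ^ 2 * R ^ (1 / 2 + s) * R ^ (1 / 2 + s)) :=
          mul_le_mul_of_nonneg_right htt (by positivity)
      _ ≤ R ^ (1 + 42 * s) := by
          rw [hpow, hpow, hadd, hadd, hadd, hadd, hadd]
          apply hp
          push_cast
          linarith
  have hE : 214 * R ^ (1 + 42 * s) ≤ R ^ (1 + 43 * s) :=
    g6_abs (s := s) hR (by linarith) (by linarith)
  linarith

/-- the end of the argument -/
theorem g6_end {R s c Q U Δ N w4 : ℝ} (hs0 : 0 < s) (hsc : 1000 * s ≤ c) (hc : c ≤ 1 / 10 ^ 8)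
    (hR : 1 ≤ R) (hK : 10 ^ 6 ≤ R ^ s) (hU : R ^ (-s) ≤ U)
    (hw4 : w4 ≤ 52 * R ^ (1 + 22 * s)) (hΔ : Δ = R ^ (-(8 * c) + 2 * s))
    (hN : N ≤ R ^ (1 + 43 * s))
    (hmain : 2 * U * Q ≤ 4 * (R ^ (5 * s)) ^ 3 * Real.sqrt (R ^ (1 / 2 + s) *
        R ^ (1 / 2 - 6.5 * c)) + 4 * R ^ (-(1 / 4) + 4 * s) * Real.sqrt (R ^ (3 / 2 - 32 * c)) +
      (R ^ (5 * s)) ^ 3 * R ^ (1 / 2 + s) * (4 * Real.sqrt (R ^ (-(1 / 2) + s) +
        R ^ (-18 : ℝ))) + 8 * (R ^ (5 * s)) ^ 2 * Real.sqrt (w4 * (R ^ (-(1 / 2) + s) +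
        R ^ (-10 : ℝ))) + Real.sqrt (8 * Δ * N)) :
    Q < R ^ (1 / 2 - 3 * c) := by
  have hR0 : 0 < R := by linarith
  have hp : ∀ a b : ℝ, a ≤ b → R ^ a ≤ R ^ b := fun a b hab =>
    Real.rpow_le_rpow_of_exponent_le hR hab
  have h0 : ∀ a : ℝ, 0 < R ^ a := fun a => Real.rpow_pos_of_pos hR0 a
  have hadd : ∀ a b : ℝ, R ^ a * R ^ b = R ^ (a + b) := fun a b => (Real.rpow_add hR0 a b).symm
  have hpow : ∀ (a : ℝ) (n : ℕ), (R ^ a) ^ n = R ^ (a * n) := fun a n => by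
    rw [← Real.rpow_natCast (R ^ a), ← Real.rpow_mul hR0.le]
  -- square roots of powers
  have hsq : ∀ {y C e : ℝ}, 0 ≤ C → y ≤ C ^ 2 * R ^ (2 * e) → Real.sqrt y ≤ C * R ^ e := by
    intro y C e hC hy
    rw [Real.sqrt_le_left (mul_nonneg hC (h0 e).le), mul_pow, hpow]
    refine hy.trans (le_of_eq ?_)
    congr 2
    push_cast
    ring
  set E : ℝ := R ^ (1 / 2 - 3 * c - s) with hE
  have hE0 : 0 < E := h0 _
  have T1 : 4 * (R ^ (5 * s)) ^ 3 * Real.sqrt (R ^ (1 / 2 + s) * R ^ (1 / 2 - 6.5 * c)) ≤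
      E / 5 := by
    have e1 : Real.sqrt (R ^ (1 / 2 + s) * R ^ (1 / 2 - 6.5 * c)) ≤
        1 * R ^ (1 / 2 + s / 2 - 3.25 * c) := by
      apply hsq (by norm_num)
      rw [hadd, one_pow, one_mul]
      apply hp
      linarith
    have e2 : 20 * R ^ (5 * s * 3 + (1 / 2 + s / 2 - 3.25 * c)) ≤ E :=
      g6_abs (s := s) hR (by linarith) (by linarith)
    have e3 : 4 * (R ^ (5 * s)) ^ 3 * Real.sqrt (R ^ (1 / 2 + s) * R ^ (1 / 2 - 6.5 * c)) ≤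
        4 * R ^ (5 * s * 3 + (1 / 2 + s / 2 - 3.25 * c)) := by
      refine (mul_le_mul_of_nonneg_left e1 (by positivity)).trans (le_of_eq ?_)
      rw [hpow, ← hadd]
      push_cast
      ring
    linarith
  have T2 : 4 * R ^ (-(1 / 4) + 4 * s) * Real.sqrt (R ^ (3 / 2 - 32 * c)) ≤ E / 5 := by
    have e1 : Real.sqrt (R ^ (3 / 2 - 32 * c)) ≤ 1 * R ^ (3 / 4 - 16 * c) := by
      apply hsq (by norm_num)
      rw [one_pow, one_mul]
      apply hp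
      linarith
    have e2 : 20 * R ^ (-(1 / 4) + 4 * s + (3 / 4 - 16 * c)) ≤ E :=
      g6_abs (s := s) hR (by linarith) (by linarith)
    have e3 : 4 * R ^ (-(1 / 4) + 4 * s) * Real.sqrt (R ^ (3 / 2 - 32 * c)) ≤
        4 * R ^ (-(1 / 4) + 4 * s + (3 / 4 - 16 * c)) := by
      refine (mul_le_mul_of_nonneg_left e1 (by positivity)).trans (le_of_eq ?_)
      rw [← hadd (-(1 / 4) + 4 * s) (3 / 4 - 16 * c)]
      ring
    linarith
  have T3 : (R ^ (5 * s)) ^ 3 * R ^ (1 / 2 + s) * (4 * Real.sqrt (R ^ (-(1 / 2) + s) +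
      R ^ (-18 : ℝ))) ≤ E / 5 := by
    have e1 : Real.sqrt (R ^ (-(1 / 2) + s) + R ^ (-18 : ℝ)) ≤ 2 * R ^ (-(1 / 4) + s / 2) := by
      apply hsq (by norm_num)
      have i1 : R ^ (-18 : ℝ) ≤ R ^ (-(1 / 2) + s) := hp _ _ (by linarith)
      have i2 : R ^ (2 * (-(1 / 4) + s / 2)) = R ^ (-(1 / 2) + s) := by
        congr 1
        ring
      rw [i2]
      have := h0 (-(1 / 2) + s)
      linarith
    have e2 : 40 * R ^ (5 * s * 3 + (1 / 2 + s) + (-(1 / 4) + s / 2)) ≤ E :=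
      g6_abs (s := s) hR (by linarith) (by linarith)
    have e3 : (R ^ (5 * s)) ^ 3 * R ^ (1 / 2 + s) * (4 * Real.sqrt (R ^ (-(1 / 2) + s) +
        R ^ (-18 : ℝ))) ≤ 8 * R ^ (5 * s * 3 + (1 / 2 + s) + (-(1 / 4) + s / 2)) := by
      have e4 : 4 * Real.sqrt (R ^ (-(1 / 2) + s) + R ^ (-18 : ℝ)) ≤
          8 * R ^ (-(1 / 4) + s / 2) := by linarith
      refine (mul_le_mul_of_nonneg_left e4 (by positivity)).trans (le_of_eq ?_)
      rw [hpow, ← hadd (5 * s * 3 + (1 / 2 + s)) (-(1 / 4) + s / 2),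
        ← hadd (5 * s * 3) (1 / 2 + s)]
      push_cast
      ring
    linarith
  have T4 : 8 * (R ^ (5 * s)) ^ 2 * Real.sqrt (w4 * (R ^ (-(1 / 2) + s) +
      R ^ (-10 : ℝ))) ≤ E / 5 := by
    have e1 : Real.sqrt (w4 * (R ^ (-(1 / 2) + s) + R ^ (-10 : ℝ))) ≤
        11 * R ^ (1 / 4 + 23 / 2 * s) := by
      apply hsq (by norm_num)
      have i1 : R ^ (-10 : ℝ) ≤ R ^ (-(1 / 2) + s) := hp _ _ (by linarith)
      have i0 := h0 (-(1 / 2) + s)
      have i3 : w4 * (R ^ (-(1 / 2) + s) + R ^ (-10 : ℝ)) ≤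
          52 * R ^ (1 + 22 * s) * (2 * R ^ (-(1 / 2) + s)) :=
        mul_le_mul hw4 (by linarith) (add_nonneg i0.le (h0 _).le)
          (mul_nonneg (by norm_num) (h0 _).le)
      refine i3.trans ?_
      have i4 : 52 * R ^ (1 + 22 * s) * (2 * R ^ (-(1 / 2) + s)) =
          104 * R ^ (2 * (1 / 4 + 23 / 2 * s)) := by
        have : R ^ (2 * (1 / 4 + 23 / 2 * s)) = R ^ (1 + 22 * s) * R ^ (-(1 / 2) + s) := by
          rw [hadd]
          congr 1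
          ring
        rw [this]
        ring
      rw [i4]
      have := h0 (2 * (1 / 4 + 23 / 2 * s))
      linarith
    have e2 : 440 * R ^ (5 * s * 2 + (1 / 4 + 23 / 2 * s)) ≤ E :=
      g6_abs (s := s) hR (by linarith) (by linarith)
    have e3 : 8 * (R ^ (5 * s)) ^ 2 * Real.sqrt (w4 * (R ^ (-(1 / 2) + s) +
        R ^ (-10 : ℝ))) ≤ 88 * R ^ (5 * s * 2 + (1 / 4 + 23 / 2 * s)) := by
      refine (mul_le_mul_of_nonneg_left e1 (by positivity)).trans (le_of_eq ?_)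
      rw [hpow, ← hadd (5 * s * 2) (1 / 4 + 23 / 2 * s)]
      push_cast
      ring
    linarith
  have T5 : Real.sqrt (8 * Δ * N) ≤ E / 5 := by
    have e1 : Real.sqrt (8 * Δ * N) ≤ 3 * R ^ (1 / 2 - 4 * c + 45 / 2 * s) := by
      apply hsq (by norm_num)
      rw [hΔ]
      have i1 : 8 * R ^ (-(8 * c) + 2 * s) * N ≤
          8 * R ^ (-(8 * c) + 2 * s) * R ^ (1 + 43 * s) :=
        mul_le_mul_of_nonneg_left hN (mul_nonneg (by norm_num) (h0 _).le)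
      refine i1.trans ?_
      rw [mul_assoc, hadd]
      have i2 : R ^ (2 * (1 / 2 - 4 * c + 45 / 2 * s)) = R ^ (-(8 * c) + 2 * s + (1 + 43 * s)) := by
        congr 1
        ring
      rw [i2]
      have := h0 (-(8 * c) + 2 * s + (1 + 43 * s))
      linarith
    have e2 : 15 * R ^ (1 / 2 - 4 * c + 45 / 2 * s) ≤ E :=
      g6_abs (s := s) hR (by linarith) (by linarith)
    linarith
  by_contra hQ
  push Not at hQ
  have hUQ : E ≤ U * Q := by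
    have e1 : E = R ^ (-s) * R ^ (1 / 2 - 3 * c) := by
      rw [hadd, hE]
      congr 1
      ring
    rw [e1]
    exact mul_le_mul hU hQ (h0 _).le ((h0 _).le.trans hU)
  linarith

end Pw

/-- G6: the second decoder: `c2` with `h = R^(1/2-64c)`, `t = n = ⌈R^(1/2-32c)⌉`,
`m = ⌈R^(1/2-16c)⌉`, `Δ ≤ R^(-8c+2s)`, `n1 = R^(3/2-32c)` (`n1R`), `n2 = R^(1/2-6.5c)`:
`Q < R^(1/2-3c)` -/
theorem g6_pr (s c : ℝ) (hs0 : 0 < s) (hsc : 1000 * s ≤ c) (hc : c ≤ 1 / 10 ^ 8) :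
    ∃ R0 : ℝ, ∀ R : ℝ, R0 ≤ R → ∀ {X Y ι : Type} [Fintype X] [Fintype Y] [Fintype ι]
      [DecidableEq ι] {μ : X → ℝ} {ν : Y → ℝ} {M : X → Y → ℝ} {U : ℝ} {V : ι → ℝ}
      {be : X → ι → ℝ} {z : Y → ι → ℝ}, CoreR R s μ ν M U V be z → R ^ (-s) ≤ U →
      ∀ Xg : Finset X, RowsG R s μ ν M U be z Xg →
      ∀ (Yg : Finset Y) (P P' F : Y → Matrix ι ι ℝ), ColsG R s c μ ν be z Yg P P' F →
      ∑ x ∈ Xg, ∑ y ∈ Yg, μ x * ν y *
      ((TV ν z (bn be x) *ᵥ ((TV ν z (z y) * P y) *ᵥ bn be x)) ⬝ᵥ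
       (TV ν z (bn be x) *ᵥ ((TV ν z (z y) * P y) *ᵥ bn be x))) ≤ R ^ (1 / 2 - 6.5 * c) →
      ∑ x ∈ Xg, μ x * hs (TV ν z (bn be x) * TV ν z (bn be x)) < R ^ (1 / 2 - 3 * c) := by
  obtain ⟨R1, hn1⟩ := n1R (2 * s) (32 * c) (64 * c) (by linarith) (by linarith) (by linarith)
    (by linarith)
  have ev1 : ∀ᶠ R : ℝ in Filter.atTop, 10 ^ 6 ≤ R ^ s :=
    (tendsto_rpow_atTop hs0).eventually_ge_atTop _
  have ev2 : ∀ᶠ R : ℝ in Filter.atTop, Real.log R ≤ R ^ s := by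
    have := (isLittleO_log_rpow_atTop hs0).bound (show (0 : ℝ) < 1 by norm_num)
    filter_upwards [this, Filter.eventually_ge_atTop (1 : ℝ)] with R hR hR1
    rw [one_mul, Real.norm_of_nonneg (Real.log_nonneg hR1),
      Real.norm_of_nonneg (Real.rpow_nonneg (by linarith) _)] at hR
    exact hR
  obtain ⟨R2, hR2⟩ := Filter.eventually_atTop.mp (ev1.and ev2)
  refine ⟨max 1 (max R1 R2), ?_⟩
  intro R hRR X Y ι _ _ _ _ μ ν M U V be z hC hU Xg hX Yg P P' F hY hn2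
  simp only [max_le_iff] at hRR
  obtain ⟨hR, r1, r2⟩ := hRR
  obtain ⟨hK, hlogR⟩ := hR2 R r2
  have hR0 : 0 < R := by linarith
  have hp : ∀ a b : ℝ, a ≤ b → R ^ a ≤ R ^ b := fun a b hab =>
    Real.rpow_le_rpow_of_exponent_le hR hab
  have h0 : ∀ a : ℝ, 0 < R ^ a := fun a => Real.rpow_pos_of_pos hR0 a
  have hadd : ∀ a b : ℝ, R ^ a * R ^ b = R ^ (a + b) := fun a b => (Real.rpow_add hR0 a b).symm
  have hpow : ∀ (a : ℝ) (n : ℕ), (R ^ a) ^ n = R ^ (a * n) := fun a n => by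
    rw [← Real.rpow_natCast (R ^ a), ← Real.rpow_mul hR0.le]
  by_cases hι : Nonempty ι
  swap
  · have hι' : IsEmpty ι := not_nonempty_iff.mp hι
    have e1 : ∑ x ∈ Xg, μ x * hs (TV ν z (bn be x) * TV ν z (bn be x)) = 0 := by
      refine Finset.sum_eq_zero fun x _ => ?_
      have : hs (TV ν z (bn be x) * TV ν z (bn be x)) = 0 := by
        simp [hs]
      rw [this, mul_zero]
    rw [e1]
    exact h0 _
  have hYne : Nonempty Y := by
    by_contra hne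
    have : IsEmpty Y := not_nonempty_iff.mp hne
    have h2 := hC.core.prY.sum
    simp at h2
  let _ : Inhabited Y := ⟨hYne.some⟩
  have hc2 := hC.core
  have hcore := hc2.toCore
  set t : ℕ := ⌈R ^ (1 / 2 - 32 * c)⌉₊ with ht
  set m : ℕ := ⌈R ^ (1 / 2 - 16 * c)⌉₊ with hm
  have ht1 : 1 ≤ t := Nat.one_le_ceil_iff.mpr (h0 _)
  have hm1 : 1 ≤ m := Nat.one_le_ceil_iff.mpr (h0 _)
  have hL0 : 0 ≤ Real.log (Fintype.card ι) := Real.log_natCast_nonneg _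
  have hL : Real.log (Fintype.card ι) ≤ R ^ s := by
    refine le_trans ?_ hlogR
    exact Real.log_le_log (by exact_mod_cast Fintype.card_pos) hC.card
  have hθ0 : 0 < R ^ (-(8 * c)) := h0 _
  have hθ : R ^ (-(8 * c)) ≤ 1 / 2 := by
    have e1 : R ^ (-(8 * c)) ≤ R ^ (-s) := hp _ _ (by linarith)
    have e2 : R ^ (-s) * R ^ s = 1 := by
      rw [hadd]
      simp
    have e3 : R ^ (-s) * 10 ^ 6 ≤ 1 := by
      rw [← e2]
      exact mul_le_mul_of_nonneg_left hK (h0 _).le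
    linarith
  have hU0 : 0 ≤ U := (h0 _).le.trans hU
  have hdel := g6_delta hs0 hsc hc hR hK hL0 hL ht hm
  have hw4 : (2 : ℝ) * (2 * R ^ (1 / 2 + s) + 2 * R ^ (1 / 2 + s) * (R ^ (5 * s)) ^ 2) ^ 2 +
      20 * (R ^ (1 / 2 + s) * (R ^ (5 * s)) ^ 2) ^ 2 ≤ 52 * R ^ (1 + 22 * s) := by
    have e1 : R ^ (1 / 2 + s) * (R ^ (5 * s)) ^ 2 = R ^ (1 / 2 + 11 * s) := by
      rw [hpow, hadd]
      congr 1
      push_cast
      ring
    have e2 : R ^ (1 / 2 + s) ≤ R ^ (1 / 2 + 11 * s) := hp _ _ (by linarith)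
    have e3 : (R ^ (1 / 2 + 11 * s)) ^ 2 = R ^ (1 + 22 * s) := by
      rw [hpow]
      congr 1
      push_cast
      ring
    have e4 : (2 : ℝ) * R ^ (1 / 2 + s) + 2 * R ^ (1 / 2 + s) * (R ^ (5 * s)) ^ 2 ≤
        4 * R ^ (1 / 2 + 11 * s) := by
      rw [mul_assoc 2 (R ^ (1 / 2 + s)) ((R ^ (5 * s)) ^ 2), e1]
      linarith
    have e5 : ((2 : ℝ) * R ^ (1 / 2 + s) + 2 * R ^ (1 / 2 + s) * (R ^ (5 * s)) ^ 2) ^ 2 ≤
        (4 * R ^ (1 / 2 + 11 * s)) ^ 2 :=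
      pow_le_pow_left₀ (by positivity) e4 2
    rw [e1, e3]
    rw [mul_pow, e3] at e5
    linarith
  have key := c2 hcore hU0 (A := R ^ (-(8 * c)) * 1 + 17 * (R ^ (-(1 / 2) + s) / R ^ (-(8 * c))))
    (B := 4 * (R ^ (-(1 / 2) + s) / R ^ (-(8 * c)))) (by positivity) (by positivity)
    (hc2.upr _ hθ0 hθ) (m0 := R ^ (-s)) (δ := R ^ (-(1 / 4) + 4 * s)) (W := R ^ (5 * s))
    (h0 _) (Real.rpow_le_one_of_one_le_of_nonpos hR (by linarith))
    (by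
      rw [div_le_iff₀ (h0 _), hadd]
      have e1 : R ^ s ≤ R ^ (5 * s + -s) := hp _ _ (by linarith)
      linarith)
    (h0 _).le (Real.rpow_le_one_of_one_le_of_nonpos hR (by linarith))
    (by
      rw [hpow, hpow, hadd]
      apply hp
      push_cast
      linarith)
    Xg (bn be) (fun x => rfl) hX.h1 hX.h2 hX.h3 Yg (pb := R ^ (-10 : ℝ)) hY.pb
    (h := R ^ (1 / 2 - 64 * c)) (h0 _) P hY.projP hY.comm hY.low ht1 ht1 hm1
    (Δ := R ^ (-(8 * c) + 2 * s)) (n1 := R ^ (3 / 2 - 32 * c)) (n2 := R ^ (1 / 2 - 6.5 * c))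
    (by
      rw [hcore.mean, sub_self]
      exact hdel)
    rfl
    (by
      have hC2 : CoreR R (2 * s) μ ν M U V be z := g6_coreR_mono hR (by linarith) hC
      refine hn1 R r1 hC2 Xg (bn be) (fun x => rfl) ?_ Yg hY.zy P hY.projP hY.comm hY.low
      intro x hx
      refine le_trans ?_ (hX.h1 x hx)
      apply pow_le_pow_left₀ (h0 _).le
      exact hp _ _ (by linarith))
    hn2 rfl rfl
  exact g6_end hs0 hsc hc hR hK hU hw4 rfl (g6_N hs0 hsc hc hR hK ht hw4) key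

alias g6 := g6_pr

end Pool.Agent.LRC
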