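import Pool.Agent.Lib_helper94.LRF.G1
import Pool.Agent.Lib_helper94.LRF.G2
import Pool.Agent.Lib_helper94.LRF.G3
import Pool.Agent.Lib_helper94.LRF.G5
import Pool.Agent.Lib_helper94.LRF.G6

/-!
# An extremal state of non-negligible mean is almost constant
-/

set_option autoImplicit false
set_option linter.unusedSectionVars false

open Finset Matrix

namespace Pool.Agent.LRC

open Pool.Agent.LR2

/-- an extremal state of non-negligible mean is almost constant -/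
theorem finR {s : ℝ} (hs0 : 0 < s) (hsc : 1000 * s ≤ 1 / 10 ^ 8) :
    ∃ R0 : ℝ, ∀ R : ℝ, R0 ≤ R → ∀ {X Y ι : Type} [Fintype X]
      [Fintype Y] [Fintype ι] [DecidableEq ι] {μ : X → ℝ} {ν : Y → ℝ} {M : X → Y → ℝ} {U : ℝ}
      {V : ι → ℝ} {be : X → ι → ℝ} {z : Y → ι → ℝ}, CoreR R s μ ν M U V be z →
      R ^ (-s) ≤ U → 1 - U ^ 2 ≤ R ^ (-s) := by
  have hs1 : s ≤ 1 / 1000 := by
    have : (1 : ℝ) / 10 ^ 8 ≤ 1 := by norm_num
    linarith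
  obtain ⟨R1, h1⟩ := g1 s hs0 hs1
  obtain ⟨R2, h2⟩ := g2 s (1 / 10 ^ 8) hs0 hsc le_rfl
  obtain ⟨R3, h3⟩ := g3 s (1 / 10 ^ 8) hs0 hsc le_rfl
  obtain ⟨R5, h5⟩ := g5 s (1 / 10 ^ 8) hs0 hsc le_rfl
  obtain ⟨R6, h6⟩ := g6 s (1 / 10 ^ 8) hs0 hsc le_rfl
  refine ⟨max R1 (max R2 (max R3 (max R5 R6))), ?_⟩
  intro R hR X Y ι _ _ _ _ μ ν M U V be z hC hU
  simp only [max_le_iff] at hR
  obtain ⟨r1, r2, r3, r5, r6⟩ := hR
  by_contra hcon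
  push Not at hcon
  obtain ⟨Xg, hX⟩ := h1 R r1 hC hcon.le
  obtain ⟨Yg, P, P', F, hY⟩ := h3 R r3 hC
  have q1 := h2 R r2 hC hU Xg hX
  have q2 := h6 R r6 hC hU Xg hX Yg P P' F hY (h5 R r5 hC Xg hX Yg P P' F hY)
  linarith

end Pool.Agent.LRC
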