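import Pool.Agent.Lib_helper40.LR2.Top3
import Pool.Agent.Lib_helper94.LRF.CORER

/-!
# The final theorem from FINR
-/

set_option autoImplicit false
set_option linter.unusedSectionVars false

open Finset Matrix

namespace Pool.Agent.LR2

namespace Top

open Pool.Agent.Lib_helper10.LogRank (Protocol realRank)
open Pool.Agent.LRC

/-- FINR at the exponent `s` -/
def FinR (s : ℝ) : Prop := ∃ R0 : ℝ, ∀ R : ℝ, R0 ≤ R → ∀ {X Y ι : Type} [Fintype X]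
      [Fintype Y] [Fintype ι] [DecidableEq ι] {μ : X → ℝ} {ν : Y → ℝ} {M : X → Y → ℝ} {U : ℝ}
      {V : ι → ℝ} {be : X → ι → ℝ} {z : Y → ι → ℝ}, CoreR R s μ ν M U V be z →
      R ^ (-s) ≤ U → 1 - U ^ 2 ≤ R ^ (-s)

theorem base_of {s : ℝ} (hs0 : 0 < s) (hs1 : s ≤ 1 / 4) (hfin : FinR s) :
    ∃ R0 : ℕ, Base s R0 := by
  obtain ⟨Ra, ha⟩ := coreR_state s hs0 hs1
  obtain ⟨Rb, hb⟩ := hfin
  refine ⟨max ⌈Ra⌉₊ ⌈Rb⌉₊, ?_⟩
  intro R hR X Y _ _ _ _ M μ₀ ν₀ hM hrank hμ hν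
  have hRa : Ra ≤ (R : ℝ) :=
    (Nat.le_ceil Ra).trans (by exact_mod_cast (le_max_left _ _).trans hR)
  have hRb : Rb ≤ (R : ℝ) :=
    (Nat.le_ceil Rb).trans (by exact_mod_cast (le_max_right _ _).trans hR)
  obtain ⟨α, β, hα, hβ, h1, h2⟩ := ha R hRa M hM hrank hμ hν
  refine ⟨α, β, hα, hβ, h1, fun hU => ?_⟩
  rcases h2 with h2 | ⟨ι, i1, i2, V, b, z, hC⟩
  · exact h2
  · exact hb R hRb hC hU

/-- A power saving in the log-rank problem for all Boolean matrices. -/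
theorem final {s κ : ℝ} (hs0 : 0 < s) (hs1 : s ≤ 1 / 4) (hfin : FinR s) (hκ0 : 0 < κ)
    (hκs : 128 * κ ≤ s) :
    ∃ C : ℝ, ∀ (X Y : Type) [Fintype X] [Fintype Y] (F : X → Y → Bool),
      ∃ π : Protocol X Y, (∀ x y, π.eval x y = F x y) ∧
        (π.cost : ℝ) ≤ C * (realRank F : ℝ) ^ (1 / 2 - κ / 2) := by
  obtain ⟨R0, hbase⟩ := base_of hs0 hs1 hfin
  exact top hbase hκ0 (by linarith) (by linarith)

end Top

end Pool.Agent.LR2
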