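import Pool.Agent.Lib_helper94.LRF.F3
import Pool.Agent.Lib_helper94.LRC.Defs2

/-!
# LRC, block G1: good rows
-/

set_option autoImplicit false
set_option linter.unusedSectionVars false

open Finset Matrix

namespace Pool.Agent.LRC

open Pool.Agent.LR2

/-- powers of `R` -/
theorem g1_pow {R s e : ℝ} (hR : 1 ≤ R) (he : e ≤ -s) : R ^ e ≤ R ^ (-s) :=
  Real.rpow_le_rpow_of_exponent_le hR he

theorem g1_small {R s : ℝ} (hs0 : 0 < s) (hR : ((10 : ℝ) ^ 6) ^ (1 / s) ≤ R) :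
    1 ≤ R ∧ R ^ (-s) ≤ 1 / 10 ^ 6 := by
  have h0 : (1 : ℝ) ≤ ((10 : ℝ) ^ 6) ^ (1 / s) :=
    Real.one_le_rpow (by norm_num) (by positivity)
  have h1 : 1 ≤ R := h0.trans hR
  have hRp : 0 < R := by linarith
  refine ⟨h1, ?_⟩
  have h2 : (10 : ℝ) ^ 6 ≤ R ^ s := by
    calc (10 : ℝ) ^ 6 = (((10 : ℝ) ^ 6) ^ (1 / s)) ^ s := by
          rw [← Real.rpow_mul (by norm_num), one_div, inv_mul_cancel₀ hs0.ne', Real.rpow_one]
      _ ≤ R ^ s := Real.rpow_le_rpow (by positivity) hR hs0.le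
  rw [Real.rpow_neg hRp.le, one_div]
  exact inv_anti₀ (by norm_num) h2

theorem g1_pr (s : ℝ) (hs0 : 0 < s) (hs1 : s ≤ 1 / 1000) :
    ∃ R0 : ℝ, ∀ R : ℝ, R0 ≤ R → ∀ {X Y ι : Type} [Fintype X] [Fintype Y] [Fintype ι]
      [DecidableEq ι] {μ : X → ℝ} {ν : Y → ℝ} {M : X → Y → ℝ} {U : ℝ} {V : ι → ℝ}
      {be : X → ι → ℝ} {z : Y → ι → ℝ}, CoreR R s μ ν M U V be z → R ^ (-s) ≤ 1 - U ^ 2 →
      ∃ Xg : Finset X, RowsG R s μ ν M U be z Xg := by
  refine ⟨((10 : ℝ) ^ 6) ^ (1 / s), ?_⟩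
  intro R hR X Y ι _ _ _ _ μ ν M U V be z hC hU
  classical
  obtain ⟨hR1, hsm⟩ := g1_small hs0 hR
  have hRp : 0 < R := by linarith
  have hc := hC.core.toCore
  have hT0 : 0 < R ^ (-s) := Real.rpow_pos_of_pos hRp _
  -- the three error functions
  set g1 : X → ℝ := fun x => |be x ⬝ᵥ be x - (1 - U ^ 2)| with hg1
  set g2 : X → ℝ := fun x => (TV ν z (be x) *ᵥ be x + (2 * U) • be x) ⬝ᵥ
      (TV ν z (be x) *ᵥ be x + (2 * U) • be x) with hg2
  set g3 : X → ℝ := fun x => ∑ y, ν y * (ctd μ ν M x y - be x ⬝ᵥ z y) ^ 2 with hg3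
  have e1 : ∑ x, μ x * g1 x ≤ 20 * Real.sqrt (R ^ (-(1 / 2) + s)) + 4 * R ^ (-(1 / 2) + s) +
      R ^ (-18 : ℝ) := Core.f3b hc
  have e2 : ∑ x, μ x * g2 x ≤ 2400 * (R ^ (-(1 / 2) + s) + (1 + R ^ (1 / 2 + s)) *
      R ^ (-18 : ℝ)) := Core.f3a hc
  have e3 : ∑ x, μ x * g3 x ≤ R ^ (-18 : ℝ) := hc.weak
  have p1 : ∀ x, 0 ≤ g1 x := fun x => abs_nonneg _
  have p2 : ∀ x, 0 ≤ g2 x := fun x => dot_self_nonneg _
  have p3 : ∀ x, 0 ≤ g3 x := fun x => Finset.sum_nonneg fun y _ =>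
    mul_nonneg (hc.prY.1 y) (sq_nonneg _)
  have hμ0 : ∀ x, 0 ≤ μ x := hc.prX.1
  -- estimates of the means
  have hsq : Real.sqrt (R ^ (-(1 / 2) + s)) = R ^ ((-(1 / 2) + s) / 2) := by
    rw [Real.sqrt_eq_rpow, ← Real.rpow_mul hRp.le]
    congr 1
    ring
  have m1 : 2 * R ^ s * ∑ x, μ x * g1 x ≤ 1 / 8 := by
    have hRs : 0 < R ^ s := Real.rpow_pos_of_pos hRp _
    rw [hsq] at e1
    have a1 : R ^ s * R ^ ((-(1 / 2) + s) / 2) ≤ R ^ (-s) := by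
      rw [← Real.rpow_add hRp]
      exact g1_pow hR1 (by linarith)
    have a2 : R ^ s * R ^ (-(1 / 2) + s) ≤ R ^ (-s) := by
      rw [← Real.rpow_add hRp]
      exact g1_pow hR1 (by linarith)
    have a3 : R ^ s * R ^ (-18 : ℝ) ≤ R ^ (-s) := by
      rw [← Real.rpow_add hRp]
      exact g1_pow hR1 (by linarith)
    have a4 := mul_le_mul_of_nonneg_left e1 hRs.le
    nlinarith
  have hd : ((R ^ (-s)) ^ 2 * R ^ (-(1 / 4) + 4 * s)) ^ 2 = R ^ (-(1 / 2) + 4 * s) := by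
    rw [← Real.rpow_natCast (R ^ (-s)) 2, ← Real.rpow_mul hRp.le, ← Real.rpow_add hRp,
      ← Real.rpow_natCast, ← Real.rpow_mul hRp.le]
    congr 1
    push_cast
    ring
  have m2 : R ^ (1 / 2 - 4 * s) * ∑ x, μ x * g2 x ≤ 1 / 8 := by
    have hR4 : 0 < R ^ (1 / 2 - 4 * s) := Real.rpow_pos_of_pos hRp _
    have a1 : R ^ (1 / 2 - 4 * s) * R ^ (-(1 / 2) + s) ≤ R ^ (-s) := by
      rw [← Real.rpow_add hRp]
      exact g1_pow hR1 (by linarith)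
    have a2 : R ^ (1 / 2 - 4 * s) * R ^ (-18 : ℝ) ≤ R ^ (-s) := by
      rw [← Real.rpow_add hRp]
      exact g1_pow hR1 (by linarith)
    have a3 : R ^ (1 / 2 - 4 * s) * (R ^ (1 / 2 + s) * R ^ (-18 : ℝ)) ≤ R ^ (-s) := by
      rw [← Real.rpow_add hRp, ← Real.rpow_add hRp]
      exact g1_pow hR1 (by linarith)
    have a4 := mul_le_mul_of_nonneg_left e2 hR4.le
    nlinarith
  have m3 : R ^ (1 / 2 + s) * ∑ x, μ x * g3 x ≤ 1 / 8 := by
    have hR4 : 0 < R ^ (1 / 2 + s) := Real.rpow_pos_of_pos hRp _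
    have a1 : R ^ (1 / 2 + s) * R ^ (-18 : ℝ) ≤ R ^ (-s) := by
      rw [← Real.rpow_add hRp]
      exact g1_pow hR1 (by linarith)
    have a4 := mul_le_mul_of_nonneg_left e3 hR4.le
    linarith
  refine ⟨Finset.univ.filter fun x => (R ^ (-s)) ^ 2 ≤ be x ⬝ᵥ be x ∧
    g2 x ≤ ((R ^ (-s)) ^ 2 * R ^ (-(1 / 4) + 4 * s)) ^ 2 ∧ R ^ (1 / 2 + s) * g3 x ≤ 1,
    ?_, ?_, ?_, ?_⟩
  · intro x hx
    exact (Finset.mem_filter.1 hx).2.1
  · intro x hx
    exact (Finset.mem_filter.1 hx).2.2.1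
  · intro x hx
    exact (Finset.mem_filter.1 hx).2.2.2
  · have hsum := Finset.sum_filter_add_sum_filter_not Finset.univ (fun x =>
      (R ^ (-s)) ^ 2 ≤ be x ⬝ᵥ be x ∧
      g2 x ≤ ((R ^ (-s)) ^ 2 * R ^ (-(1 / 4) + 4 * s)) ^ 2 ∧ R ^ (1 / 2 + s) * g3 x ≤ 1) μ
    rw [hc.prX.2] at hsum
    have hbad : ∑ x ∈ Finset.univ.filter (fun x => ¬ ((R ^ (-s)) ^ 2 ≤ be x ⬝ᵥ be x ∧
        g2 x ≤ ((R ^ (-s)) ^ 2 * R ^ (-(1 / 4) + 4 * s)) ^ 2 ∧ R ^ (1 / 2 + s) * g3 x ≤ 1)),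
        μ x ≤ ∑ x, μ x * (2 * R ^ s * g1 x + R ^ (1 / 2 - 4 * s) * g2 x +
          R ^ (1 / 2 + s) * g3 x) := by
      have hnn : ∀ x, 0 ≤ 2 * R ^ s * g1 x + R ^ (1 / 2 - 4 * s) * g2 x +
          R ^ (1 / 2 + s) * g3 x := fun x => by
        have := p1 x
        have := p2 x
        have := p3 x
        positivity
      refine (Finset.sum_le_sum fun x hx => ?_).trans
        (Finset.sum_le_sum_of_subset_of_nonneg (Finset.filter_subset _ _)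
          fun x _ _ => mul_nonneg (hμ0 x) (hnn x))
      have hx' := (Finset.mem_filter.1 hx).2
      have h1 : 1 ≤ 2 * R ^ s * g1 x + R ^ (1 / 2 - 4 * s) * g2 x + R ^ (1 / 2 + s) * g3 x := by
        have q1 : 0 ≤ 2 * R ^ s * g1 x := by have := p1 x; positivity
        have q2 : 0 ≤ R ^ (1 / 2 - 4 * s) * g2 x := by have := p2 x; positivity
        have q3 : 0 ≤ R ^ (1 / 2 + s) * g3 x := by have := p3 x; positivity
        by_cases c1 : (R ^ (-s)) ^ 2 ≤ be x ⬝ᵥ be x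
        · by_cases c2 : g2 x ≤ ((R ^ (-s)) ^ 2 * R ^ (-(1 / 4) + 4 * s)) ^ 2
          · have c3 : ¬ R ^ (1 / 2 + s) * g3 x ≤ 1 := fun h => hx' ⟨c1, c2, h⟩
            push Not at c3
            linarith
          · push Not at c2
            rw [hd] at c2
            have h3 : R ^ (1 / 2 - 4 * s) * R ^ (-(1 / 2) + 4 * s) = 1 := by
              rw [← Real.rpow_add hRp]
              rw [show (1 / 2 - 4 * s + (-(1 / 2) + 4 * s) : ℝ) = 0 by ring, Real.rpow_zero]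
            have h4 := mul_lt_mul_of_pos_left c2 (Real.rpow_pos_of_pos hRp (1 / 2 - 4 * s))
            rw [h3] at h4
            linarith
        · push Not at c1
          have h2 : R ^ (-s) / 2 ≤ g1 x := by
            have h3 : be x ⬝ᵥ be x ≤ R ^ (-s) / 2 := by nlinarith
            have h4 : (1 - U ^ 2) - be x ⬝ᵥ be x ≤ g1 x := by
              rw [hg1, ← neg_sub]
              exact neg_le_abs _
            linarith
          have h3 : R ^ s * R ^ (-s) = 1 := by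
            rw [← Real.rpow_add hRp, add_neg_cancel, Real.rpow_zero]
          have h4 := mul_le_mul_of_nonneg_left h2 (Real.rpow_pos_of_pos hRp s).le
          nlinarith
      calc μ x = μ x * 1 := (mul_one _).symm
        _ ≤ _ := mul_le_mul_of_nonneg_left h1 (hμ0 x)
    have hsplit : ∑ x, μ x * (2 * R ^ s * g1 x + R ^ (1 / 2 - 4 * s) * g2 x +
          R ^ (1 / 2 + s) * g3 x) = 2 * R ^ s * ∑ x, μ x * g1 x +
          R ^ (1 / 2 - 4 * s) * ∑ x, μ x * g2 x + R ^ (1 / 2 + s) * ∑ x, μ x * g3 x := by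
      rw [Finset.mul_sum, Finset.mul_sum, Finset.mul_sum, ← Finset.sum_add_distrib,
        ← Finset.sum_add_distrib]
      refine Finset.sum_congr rfl fun x _ => ?_
      ring
    rw [hsplit] at hbad
    linarith


alias g1 := g1_pr

end Pool.Agent.LRC
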