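import Pool.Agent.Lib_helper94.LRC.Defs2
import Pool.Agent.Lib_helper83.LRC.XQf

/-!
# Block XPR: linear fields have no extreme peaks
-/

set_option autoImplicit false
set_option linter.unusedSectionVars false
set_option linter.unusedVariables false

open Finset Matrix

namespace Pool.Agent.LRC

open Pool.Agent.LR2

theorem xpR_pr (s cX : ℝ) (hs0 : 0 < s) (hsX : 100 * s ≤ cX) (hX : cX ≤ 1 / 1000) :
    ∃ R0 : ℝ, ∀ R : ℝ, R0 ≤ R → ∀ {X Y ι A : Type} [Fintype X] [Fintype Y] [Fintype ι]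
      [DecidableEq ι] [Fintype A] {μ : X → ℝ} {ν : Y → ℝ} {M : X → Y → ℝ} {U : ℝ} {V : ι → ℝ}
      {be : X → ι → ℝ} {z : Y → ι → ℝ}, CoreR R s μ ν M U V be z →
      ∀ (gam : A → ℝ) (Ra : A → Matrix ι ι ℝ), (∀ a, 0 ≤ gam a) → ∑ a, gam a ≤ 1 →
      (∀ w : ι → ℝ, ∑ a, gam a * ((Ra a *ᵥ w) ⬝ᵥ (Ra a *ᵥ w)) ≤ R ^ (1 / 2 + cX) * (w ⬝ᵥ w)) →
      (∀ a, OpB (Ra a) (R ^ (1 / 2 + cX))) → (∀ a, hs (Ra a) ≤ R ^ (3 / 2 + cX)) →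
      ∑ x, ∑ a, ∑ y, μ x * gam a * ν y * (if R ^ (1 - 2 * cX) ≤ ((Ra a *ᵥ be x) ⬝ᵥ z y) ^ 2
        then ((Ra a *ᵥ be x) ⬝ᵥ z y) ^ 2 else 0) ≤ R ^ (1 / 2 - cX) := by
  obtain ⟨R0, hR0⟩ := Filter.eventually_atTop.mp (XN_ev hs0 hsX hX)
  refine ⟨R0, ?_⟩
  intro R hR X Y ι A _ _ _ _ _ μ ν M U V be z hC gam Ra h0 h1 hRa hop hhs
  exact xq_core hs0 hsX hX (hR0 R hR) hC.core.prX hC.core.prY hC.core.sgn hC.rank hC.core.ps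
    hC.core.pkl hC.core.bez hC.core.iso hC.core.mom hC.core.V_le hC.core.f4 hC.core.f5
    gam Ra h0 h1 hRa hop hhs


alias xpR := xpR_pr

end Pool.Agent.LRC
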