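import Pool.Agent.Lib_helper94.LRF.BLR
import Pool.Agent.Lib_helper94.LRF.F3
import Pool.Agent.Lib_helper94.LRF.XPR

/-!
# LRC, block G4: the bilinear form (N2)
-/

set_option autoImplicit false
set_option linter.unusedSectionVars false

open Finset Matrix

namespace Pool.Agent.LRC

open Pool.Agent.LR2

section G4

variable {X Y ι : Type} [Fintype X] [Fintype Y] [Fintype ι] [DecidableEq ι]

/-- a projection is a contraction -/
theorem g4_proj {Q : Matrix ι ι ℝ} (hQ : IsProj Q) (w : ι → ℝ) :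
    (Q *ᵥ w) ⬝ᵥ (Q *ᵥ w) ≤ w ⬝ᵥ w ∧ w ⬝ᵥ (Q *ᵥ w) = (Q *ᵥ w) ⬝ᵥ (Q *ᵥ w) := by
  obtain ⟨h1, h2⟩ := hQ
  have h3 : w ⬝ᵥ (Q *ᵥ w) = (Q *ᵥ w) ⬝ᵥ (Q *ᵥ w) := by
    rw [← dot_symm_mulVec h1 w (Q *ᵥ w), Matrix.mulVec_mulVec, h2]
  have h4 := dot_self_nonneg (w - Q *ᵥ w)
  simp only [sub_dotProduct, dotProduct_sub] at h4
  rw [dotProduct_comm (Q *ᵥ w) w, h3] at h4
  exact ⟨by linarith, h3⟩

theorem g4_projB {Q : Matrix ι ι ℝ} (hQ : IsProj Q) : OpB Q 1 := by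
  intro w
  rw [one_pow, one_mul]
  exact (g4_proj hQ w).1

theorem g4_win {P P' K : Matrix ι ι ℝ} (hP : IsProj P) (hP' : IsProj P')
    (hn : P * P' = P' ∧ P' * P = P') (hc : P * K = K * P) (hc' : P' * K = K * P') :
    IsProj (P - P') ∧ (P - P') * K = K * (P - P') := by
  refine ⟨⟨?_, ?_⟩, ?_⟩
  · rw [Matrix.transpose_sub, hP.1, hP'.1]
  · rw [sub_mul, mul_sub, mul_sub, hP.2, hP'.2, hn.1, hn.2, sub_self, sub_zero]
  · rw [sub_mul, mul_sub, hc, hc']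

theorem g4_zeroProj : IsProj (0 : Matrix ι ι ℝ) := by
  refine ⟨?_, ?_⟩ <;> simp

variable {μ : X → ℝ} {ν : Y → ℝ} {M : X → Y → ℝ} {U : ℝ} {V : ι → ℝ} {be : X → ι → ℝ}
    {z : Y → ι → ℝ} {t2 kap rho del2 w0 q2 : ℝ}

theorem g4_ctd_mean (hν : IsPr ν) (M : X → Y → ℝ) (x : X) :
    ∑ y, ν y * ctd μ ν M x y = 0 := by
  have h1 : ∀ y, ν y * ctd μ ν M x y = ν y * M x y - ν y * cmean μ M y +
      ν y * (em μ ν M - rmean ν M x) := by
    intro y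
    unfold ctd
    ring
  simp only [h1]
  rw [Finset.sum_add_distrib, Finset.sum_sub_distrib, ← Finset.sum_mul, hν.sum, ← em_col]
  have h2 : ∑ y, ν y * M x y = rmean ν M x := rfl
  rw [h2]
  ring

theorem g4_cen (hc : Core μ ν M U V be z t2 kap rho del2 w0 q2) (c : ι → ℝ) :
    ∑ y, ν y * (c ⬝ᵥ z y) = 0 := by
  have h1 : ∀ y, ν y * (c ⬝ᵥ z y) = ∑ i, c i * (ν y * z y i) := by
    intro y
    unfold dotProduct
    rw [Finset.mul_sum]
    apply Finset.sum_congr rfl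
    intro i _
    ring
  simp only [h1]
  rw [Finset.sum_comm]
  simp only [← Finset.mul_sum, hc.cen, mul_zero, Finset.sum_const_zero]

/-- the part of the remainder -/
theorem g4_om (hc : Core μ ν M U V be z t2 kap rho del2 w0 q2) (x : X) {w φ : ι → ℝ}
    (hw : w ⬝ᵥ w ≤ 1) (hφ : φ ⬝ᵥ φ ≤ 1) {e : ℝ} (he : 0 < e) :
    |∑ y, ν y * ((ctd μ ν M x y - be x ⬝ᵥ z y) * ((w ⬝ᵥ z y) * (φ ⬝ᵥ z y)))| ≤
      e / 2 + t2 * (∑ y, ν y * (ctd μ ν M x y - be x ⬝ᵥ z y) ^ 2) / (2 * e) := by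
  set h : Y → ℝ := fun y => ctd μ ν M x y - be x ⬝ᵥ z y with hh
  have h0 : ∑ y, ν y * h y = 0 := by
    have e1 : ∀ y, ν y * h y = ν y * ctd μ ν M x y - ν y * (be x ⬝ᵥ z y) := by
      intro y
      rw [hh]
      ring
    simp only [e1]
    rw [Finset.sum_sub_distrib, g4_ctd_mean hc.prY, g4_cen hc, sub_zero]
  have h1 := hc.f1 h
  rw [h0, zero_smul, sub_zero] at h1
  have h2 := dot_TH (ν := ν) (z := z) h w φ
  set θ : ℝ := w ⬝ᵥ (TH ν z h *ᵥ φ) with hθ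
  have h3 : θ ^ 2 ≤ t2 * ∑ y, ν y * h y ^ 2 := by
    calc θ ^ 2 ≤ (w ⬝ᵥ w) * ((TH ν z h *ᵥ φ) ⬝ᵥ (TH ν z h *ᵥ φ)) := dot_cs _ _
      _ ≤ 1 * ((TH ν z h *ᵥ φ) ⬝ᵥ (TH ν z h *ᵥ φ)) :=
          mul_le_mul_of_nonneg_right hw (dot_self_nonneg _)
      _ = (TH ν z h *ᵥ φ) ⬝ᵥ (TH ν z h *ᵥ φ) := one_mul _
      _ ≤ hs (TH ν z h) * (φ ⬝ᵥ φ) := mulVec_sq_le _ _
      _ ≤ hs (TH ν z h) * 1 := mul_le_mul_of_nonneg_left hφ (hs_nonneg _)
      _ = hs (TH ν z h) := mul_one _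
      _ ≤ _ := h1
  rw [← h2]
  have h4 : |θ| ^ 2 ≤ t2 * ∑ y, ν y * h y ^ 2 := by rw [sq_abs]; exact h3
  have h5 : e / 2 + t2 * (∑ y, ν y * h y ^ 2) / (2 * e) =
      (e ^ 2 + t2 * ∑ y, ν y * h y ^ 2) / (2 * e) := by
    field_simp
  rw [h5, le_div_iff₀ (by positivity)]
  nlinarith [sq_nonneg (|θ| - e)]

/-- the bilinear form, before the asymptotics -/
theorem g4_gen (hc : Core μ ν M U V be z t2 kap rho del2 w0 q2) (Xg : Finset X)
    (Yg : Finset Y) (F : Y → Matrix ι ι ℝ) (ψ : X → Y → ι → ℝ)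
    (hψ0 : ∀ x a, (x ∉ Xg ∨ a ∉ Yg) → ψ x a = 0) (hψ1 : ∀ x a, ψ x a ⬝ᵥ ψ x a ≤ 1)
    (gam : Y → ℝ) (hgam : ∀ a ∈ Yg, gam a = ν a) (hgam0 : ∀ a, 0 ≤ gam a)
    (hgam1 : ∑ a, gam a ≤ 1)
    (w : X → Y → ι → ℝ)
    (hw : ∀ x a, w x a = (1 / 5 : ℝ) • (F a *ᵥ (TV ν z (be x) *ᵥ ψ x a)))
    (hw1 : ∀ x a, w x a ⬝ᵥ w x a ≤ 1) {e : ℝ} (he : 0 < e) (ht2 : 0 ≤ t2) :
    ∑ x ∈ Xg, ∑ y ∈ Yg, μ x * ν y * ((F y *ᵥ (TV ν z (be x) *ᵥ ψ x y)) ⬝ᵥ
        (TV ν z (be x) *ᵥ ψ x y)) ≤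
      5 * |∑ x, ∑ a, ∑ y, μ x * gam a * ν y *
        (ctd μ ν M x y * ((ψ x a ⬝ᵥ z y) * (w x a ⬝ᵥ z y)))| +
      5 * (e / 2 + t2 * w0 / (2 * e)) := by
  have hμ0 := hc.prX.nonneg
  have hν0 := hc.prY.nonneg
  -- step A, B
  have hA : ∑ x ∈ Xg, ∑ y ∈ Yg, μ x * ν y * ((F y *ᵥ (TV ν z (be x) *ᵥ ψ x y)) ⬝ᵥ
        (TV ν z (be x) *ᵥ ψ x y)) =
      ∑ x, ∑ a, μ x * gam a * (5 * (w x a ⬝ᵥ (TV ν z (be x) *ᵥ ψ x a))) := by
    have e1 : ∀ x ∈ Xg, ∑ y ∈ Yg, μ x * ν y * ((F y *ᵥ (TV ν z (be x) *ᵥ ψ x y)) ⬝ᵥ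
        (TV ν z (be x) *ᵥ ψ x y)) =
        ∑ a, μ x * gam a * (5 * (w x a ⬝ᵥ (TV ν z (be x) *ᵥ ψ x a))) := by
      intro x _
      have e2 : ∀ a ∈ Yg, μ x * ν a * ((F a *ᵥ (TV ν z (be x) *ᵥ ψ x a)) ⬝ᵥ
          (TV ν z (be x) *ᵥ ψ x a)) =
          μ x * gam a * (5 * (w x a ⬝ᵥ (TV ν z (be x) *ᵥ ψ x a))) := by
        intro a ha
        rw [hgam a ha, hw, smul_dotProduct, smul_eq_mul]
        ring
      rw [Finset.sum_congr rfl e2]
      apply Finset.sum_subset (Finset.subset_univ _)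
      intro a _ ha
      rw [hψ0 x a (Or.inr ha), Matrix.mulVec_zero, dotProduct_zero]
      ring
    rw [Finset.sum_congr rfl e1]
    apply Finset.sum_subset (Finset.subset_univ _)
    intro x _ hx
    apply Finset.sum_eq_zero
    intro a _
    rw [hψ0 x a (Or.inl hx), Matrix.mulVec_zero, dotProduct_zero]
    ring
  -- step C
  have hC : ∀ x a, w x a ⬝ᵥ (TV ν z (be x) *ᵥ ψ x a) =
      ∑ y, ν y * (ctd μ ν M x y * ((ψ x a ⬝ᵥ z y) * (w x a ⬝ᵥ z y))) -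
      ∑ y, ν y * ((ctd μ ν M x y - be x ⬝ᵥ z y) * ((w x a ⬝ᵥ z y) * (ψ x a ⬝ᵥ z y))) := by
    intro x a
    rw [dot_TV, ← Finset.sum_sub_distrib]
    apply Finset.sum_congr rfl
    intro y _
    ring
  set S : X → Y → ℝ := fun x a =>
    ∑ y, ν y * ((ctd μ ν M x y - be x ⬝ᵥ z y) * ((w x a ⬝ᵥ z y) * (ψ x a ⬝ᵥ z y))) with hS
  set Om : X → ℝ := fun x => ∑ y, ν y * (ctd μ ν M x y - be x ⬝ᵥ z y) ^ 2 with hOm
  have hSle : ∀ x a, |S x a| ≤ e / 2 + t2 * Om x / (2 * e) := fun x a =>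
    g4_om hc x (hw1 x a) (hψ1 x a) he
  have hOm0 : ∀ x, 0 ≤ Om x := fun x =>
    Finset.sum_nonneg fun y _ => mul_nonneg (hν0 y) (sq_nonneg _)
  have hD : ∑ x, ∑ a, μ x * gam a * (5 * (w x a ⬝ᵥ (TV ν z (be x) *ᵥ ψ x a))) =
      5 * (∑ x, ∑ a, ∑ y, μ x * gam a * ν y *
        (ctd μ ν M x y * ((ψ x a ⬝ᵥ z y) * (w x a ⬝ᵥ z y)))) -
      5 * ∑ x, ∑ a, μ x * gam a * S x a := by
    rw [← mul_sub, ← Finset.sum_sub_distrib, Finset.mul_sum]
    apply Finset.sum_congr rfl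
    intro x _
    rw [← Finset.sum_sub_distrib, Finset.mul_sum]
    apply Finset.sum_congr rfl
    intro a _
    have e1 : ∑ y, μ x * gam a * ν y * (ctd μ ν M x y * ((ψ x a ⬝ᵥ z y) * (w x a ⬝ᵥ z y))) =
        μ x * gam a * ∑ y, ν y * (ctd μ ν M x y * ((ψ x a ⬝ᵥ z y) * (w x a ⬝ᵥ z y))) := by
      rw [Finset.mul_sum]
      apply Finset.sum_congr rfl
      intro y _
      ring
    rw [hC, e1]
    ring
  have hE : |∑ x, ∑ a, μ x * gam a * S x a| ≤ e / 2 + t2 * w0 / (2 * e) := by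
    have e1 : ∀ x, |∑ a, μ x * gam a * S x a| ≤ μ x * (e / 2 + t2 * Om x / (2 * e)) := by
      intro x
      have hpos : 0 ≤ e / 2 + t2 * Om x / (2 * e) := by
        have := hOm0 x
        positivity
      calc |∑ a, μ x * gam a * S x a| ≤ ∑ a, |μ x * gam a * S x a| :=
            Finset.abs_sum_le_sum_abs _ _
        _ ≤ ∑ a, μ x * (e / 2 + t2 * Om x / (2 * e)) * gam a := by
            apply Finset.sum_le_sum
            intro a _
            rw [abs_mul, abs_of_nonneg (mul_nonneg (hμ0 x) (hgam0 a))]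
            calc μ x * gam a * |S x a| ≤ μ x * gam a * (e / 2 + t2 * Om x / (2 * e)) :=
                  mul_le_mul_of_nonneg_left (hSle x a) (mul_nonneg (hμ0 x) (hgam0 a))
              _ = _ := by ring
        _ = μ x * (e / 2 + t2 * Om x / (2 * e)) * ∑ a, gam a := (Finset.mul_sum _ _ _).symm
        _ ≤ μ x * (e / 2 + t2 * Om x / (2 * e)) * 1 :=
            mul_le_mul_of_nonneg_left hgam1 (mul_nonneg (hμ0 x) hpos)
        _ = _ := mul_one _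
    calc |∑ x, ∑ a, μ x * gam a * S x a| ≤ ∑ x, |∑ a, μ x * gam a * S x a| :=
          Finset.abs_sum_le_sum_abs _ _
      _ ≤ ∑ x, μ x * (e / 2 + t2 * Om x / (2 * e)) := Finset.sum_le_sum fun x _ => e1 x
      _ = (e / 2) * ∑ x, μ x + t2 / (2 * e) * ∑ x, μ x * Om x := by
          rw [Finset.mul_sum, Finset.mul_sum, ← Finset.sum_add_distrib]
          apply Finset.sum_congr rfl
          intro x _
          ring
      _ ≤ (e / 2) * 1 + t2 / (2 * e) * w0 := by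
          rw [hc.prX.sum]
          have := mul_le_mul_of_nonneg_left hc.weak (show 0 ≤ t2 / (2 * e) by positivity)
          linarith
      _ = _ := by ring
  rw [hA, hD]
  have h1 := (abs_le.1 hE).1
  have h2 := le_abs_self (∑ x, ∑ a, ∑ y, μ x * gam a * ν y *
        (ctd μ ν M x y * ((ψ x a ⬝ᵥ z y) * (w x a ⬝ᵥ z y))))
  linarith

/-- comparison of the peaks -/
theorem g4_peak {p q κ κ0 L L' : ℝ} (hp : p ^ 2 = κ * q ^ 2) (hκ : κ ≤ κ0) (hκ0 : 0 < κ0)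
    (hL : κ0 * L' ≤ L) :
    (if L ≤ p ^ 2 then p ^ 2 else 0) ≤ κ0 * (if L' ≤ q ^ 2 then q ^ 2 else 0) := by
  have h0 : p ^ 2 ≤ κ0 * q ^ 2 := by
    rw [hp]
    exact mul_le_mul_of_nonneg_right hκ (sq_nonneg q)
  by_cases h1 : L ≤ p ^ 2
  · rw [if_pos h1]
    have h2 : L' ≤ q ^ 2 := le_of_mul_le_mul_left (hL.trans (h1.trans h0)) hκ0
    rw [if_pos h2]
    exact h0
  · rw [if_neg h1]
    split_ifs
    · positivity
    · simp

theorem g4_ev {e : ℝ} (he : 0 < e) (C : ℝ) : ∃ R0 : ℝ, ∀ R, R0 ≤ R → C ≤ R ^ e := by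
  have h := (tendsto_rpow_atTop he).eventually_ge_atTop C
  obtain ⟨a, ha⟩ := Filter.eventually_atTop.1 h
  exact ⟨a, fun R hR => ha R hR⟩

end G4

/-- G4: the bilinear form (N2) -/
theorem g4_pr (s c : ℝ) (hs0 : 0 < s) (hsc : 1000 * s ≤ c) (hc : c ≤ 1 / 10 ^ 8) :
    ∃ R0 : ℝ, ∀ R : ℝ, R0 ≤ R → ∀ {X Y ι : Type} [Fintype X] [Fintype Y] [Fintype ι]
      [DecidableEq ι] {μ : X → ℝ} {ν : Y → ℝ} {M : X → Y → ℝ} {U : ℝ} {V : ι → ℝ}
      {be : X → ι → ℝ} {z : Y → ι → ℝ}, CoreR R s μ ν M U V be z →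
      ∀ Xg : Finset X, RowsG R s μ ν M U be z Xg →
      ∀ (Yg : Finset Y) (P P' F : Y → Matrix ι ι ℝ), ColsG R s c μ ν be z Yg P P' F →
      ∀ ψ : X → Y → ι → ℝ, (∀ x ∈ Xg, ∀ y, ((TV ν z (z y) * (P y - P' y)) *ᵥ bn be x) ⬝ᵥ
        ((TV ν z (z y) * (P y - P' y)) *ᵥ bn be x) ≤ (R ^ (1 / 4 + 6 * s)) ^ 2 →
        ψ x y = (R ^ (1 / 4 + 6 * s))⁻¹ • ((TV ν z (z y) * (P y - P' y)) *ᵥ bn be x)) →
      (∀ x y, (x ∉ Xg ∨ (R ^ (1 / 4 + 6 * s)) ^ 2 <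
        ((TV ν z (z y) * (P y - P' y)) *ᵥ bn be x) ⬝ᵥ
        ((TV ν z (z y) * (P y - P' y)) *ᵥ bn be x)) → ψ x y = 0) →
      ∑ x ∈ Xg, ∑ y ∈ Yg, μ x * ν y * ((F y *ᵥ (TV ν z (be x) *ᵥ ψ x y)) ⬝ᵥ
        (TV ν z (be x) *ᵥ ψ x y)) ≤ R ^ (-(7 * c)) := by
  classical
  have hc0 : 0 < c := by linarith
  obtain ⟨Ra0, hx⟩ := xpR s (56000 * c) hs0 (by linarith) (by norm_num at hc ⊢; linarith)
  obtain ⟨Rb0, hb⟩ := blR s (560 * c) hs0 (by linarith) (by norm_num at hc ⊢; linarith)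
  obtain ⟨Rc0, h3⟩ := g4_ev (show 0 < 56000 * c - s by linarith) 3
  obtain ⟨Rd0, h10⟩ := g4_ev (show 0 < 553 * c by linarith) 10
  refine ⟨max (max Ra0 Rb0) (max 1 (max Rc0 Rd0)), ?_⟩
  intro R hR X Y ι _ _ _ _ μ ν M U V be z hC Xg hX Yg P P' F hY ψ hψa hψb
  simp only [max_le_iff] at hR
  obtain ⟨⟨rA, rB⟩, r1, rC, rD⟩ := hR
  have hR0 : 0 < R := by linarith
  have hcore := hC.core.toCore
  have hμ0 := hcore.prX.nonneg
  have hν0 := hcore.prY.nonneg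
  have hmono : ∀ {a b : ℝ}, a ≤ b → R ^ a ≤ R ^ b := fun h =>
    Real.rpow_le_rpow_of_exponent_le r1 h
  have hpos : ∀ a : ℝ, 0 < R ^ a := fun a => Real.rpow_pos_of_pos hR0 a
  -- the windows
  have hwin : ∀ y, IsProj (P y - P' y) ∧
      (P y - P' y) * TV ν z (z y) = TV ν z (z y) * (P y - P' y) := fun y =>
    g4_win (hY.projP y) (hY.projP' y) (hY.nest y) (hY.comm y) (hY.comm' y)
  set R1 : ℝ := R ^ (1 / 4 + 6 * s) with hR1
  have hR10 : 0 < R1 := hpos _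
  -- the data of the two theorems
  set gam : Y → ℝ := fun a => if a ∈ Yg then ν a else 0 with hgam
  have hgam0 : ∀ a, 0 ≤ gam a := by
    intro a
    simp only [hgam]
    split_ifs
    · exact hν0 a
    · exact le_rfl
  have hgamle : ∀ a, gam a ≤ ν a := by
    intro a
    simp only [hgam]
    split_ifs
    · exact le_rfl
    · exact hν0 a
  have hgam1 : ∑ a, gam a ≤ 1 := by
    rw [← hcore.prY.sum]
    exact Finset.sum_le_sum fun a _ => hgamle a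
  have hgamY : ∀ a ∈ Yg, gam a = ν a := fun a ha => by
    simp only [hgam]
    rw [if_pos ha]
  set Ra : Y → Matrix ι ι ℝ := fun a =>
    if a ∈ Yg then TV ν z (z a) * (P a - P' a) else 0 with hRa
  have hRaY : ∀ a ∈ Yg, Ra a = TV ν z (z a) * (P a - P' a) := fun a ha => by
    simp only [hRa]
    rw [if_pos ha]
  have hRaN : ∀ a, a ∉ Yg → Ra a = 0 := fun a ha => by
    simp only [hRa]
    rw [if_neg ha]
  set Fa : Y → Matrix ι ι ℝ := fun a => if a ∈ Yg then F a else 0 with hFa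
  have hFaY : ∀ a ∈ Yg, Fa a = F a := fun a ha => by
    simp only [hFa]
    rw [if_pos ha]
  have hFaN : ∀ a, a ∉ Yg → Fa a = 0 := fun a ha => by
    simp only [hFa]
    rw [if_neg ha]
  have hFaP : ∀ a, IsProj (Fa a) := by
    intro a
    by_cases ha : a ∈ Yg
    · rw [hFaY a ha]
      exact hY.projF a
    · rw [hFaN a ha]
      exact g4_zeroProj
  set ψ' : X → Y → ι → ℝ := fun x a => if a ∈ Yg then ψ x a else 0 with hψ'
  have hψY : ∀ x, ∀ a ∈ Yg, ψ' x a = ψ x a := fun x a ha => by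
    simp only [hψ']
    rw [if_pos ha]
  have hψN : ∀ x a, a ∉ Yg → ψ' x a = 0 := fun x a ha => by
    simp only [hψ']
    rw [if_neg ha]
  -- the form of `ψ'`
  have hform : ∀ x a, ψ' x a = 0 ∨ (x ∈ Xg ∧ a ∈ Yg ∧
      ψ' x a = R1⁻¹ • (Ra a *ᵥ bn be x) ∧ (Ra a *ᵥ bn be x) ⬝ᵥ (Ra a *ᵥ bn be x) ≤ R1 ^ 2) := by
    intro x a
    by_cases ha : a ∈ Yg
    · by_cases hx' : x ∈ Xg
      · rw [hψY x a ha, hRaY a ha]
        by_cases hle : ((TV ν z (z a) * (P a - P' a)) *ᵥ bn be x) ⬝ᵥ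
            ((TV ν z (z a) * (P a - P' a)) *ᵥ bn be x) ≤ R1 ^ 2
        · exact Or.inr ⟨hx', ha, hψa x hx' a hle, hle⟩
        · exact Or.inl (hψb x a (Or.inr (not_le.1 hle)))
      · rw [hψY x a ha]
        exact Or.inl (hψb x a (Or.inl hx'))
    · exact Or.inl (hψN x a ha)
  have hψ1 : ∀ x a, ψ' x a ⬝ᵥ ψ' x a ≤ 1 := by
    intro x a
    rcases hform x a with h | ⟨_, _, h, hle⟩
    · rw [h, dotProduct_zero]
      norm_num
    · rw [h, smul_dotProduct, dotProduct_smul, smul_eq_mul, smul_eq_mul]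
      calc R1⁻¹ * (R1⁻¹ * ((Ra a *ᵥ bn be x) ⬝ᵥ (Ra a *ᵥ bn be x))) ≤
          R1⁻¹ * (R1⁻¹ * R1 ^ 2) := by gcongr
        _ = 1 := by field_simp
  have hψF : ∀ x a, Fa a *ᵥ ψ' x a = ψ' x a := by
    intro x a
    rcases hform x a with h | ⟨_, ha, h, _⟩
    · rw [h, Matrix.mulVec_zero]
    · rw [h, hFaY a ha, hRaY a ha, Matrix.mulVec_smul, ← (hwin a).2, Matrix.mulVec_mulVec,
        ← Matrix.mul_assoc, hY.incl a]
  have hop : ∀ x ∈ Xg, OpB (TV ν z (be x)) 5 := by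
    intro x hx'
    refine (hcore.f2 x).1.mono (by positivity) ?_
    have h1 : Real.sqrt (R ^ (1 / 2 + s) * ∑ y, ν y * (ctd μ ν M x y - be x ⬝ᵥ z y) ^ 2) ≤ 1 := by
      rw [Real.sqrt_le_one]
      exact hX.h3 x hx'
    linarith
  set w : X → Y → ι → ℝ := fun x a =>
    (1 / 5 : ℝ) • (F a *ᵥ (TV ν z (be x) *ᵥ ψ' x a)) with hw
  have hwF : ∀ x a, Fa a *ᵥ w x a = w x a := by
    intro x a
    simp only [hw]
    by_cases ha : a ∈ Yg
    · rw [Matrix.mulVec_smul, hFaY a ha, Matrix.mulVec_mulVec, (hY.projF a).2]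
    · rw [hψN x a ha, Matrix.mulVec_zero, Matrix.mulVec_zero, smul_zero, Matrix.mulVec_zero]
  have hw1 : ∀ x a, w x a ⬝ᵥ w x a ≤ 1 := by
    intro x a
    simp only [hw]
    rcases hform x a with h | ⟨hx', ha, _, _⟩
    · rw [h, Matrix.mulVec_zero, Matrix.mulVec_zero, smul_zero, dotProduct_zero]
      norm_num
    · rw [smul_dotProduct, dotProduct_smul, smul_eq_mul, smul_eq_mul]
      have h1 := (g4_proj (hY.projF a) (TV ν z (be x) *ᵥ ψ' x a)).1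
      have h2 := hop x hx' (ψ' x a)
      have h3 := hψ1 x a
      linarith
  -- the peaks
  have hpk : ∑ x, ∑ a, ∑ y, μ x * gam a * ν y * (if R ^ (1 / 2 - 100 * (560 * c)) ≤
      (ψ' x a ⬝ᵥ z y) ^ 2 then (ψ' x a ⬝ᵥ z y) ^ 2 else 0) ≤ R ^ (-(100 * (560 * c))) := by
    have hx1 := hx R rA hC gam Ra hgam0 hgam1 (by
      intro v
      have e1 : ∀ a, gam a * ((Ra a *ᵥ v) ⬝ᵥ (Ra a *ᵥ v)) ≤
          ν a * ((TV ν z (z a) *ᵥ v) ⬝ᵥ (TV ν z (z a) *ᵥ v)) := by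
        intro a
        by_cases ha : a ∈ Yg
        · rw [hgamY a ha, hRaY a ha, ← (hwin a).2, ← Matrix.mulVec_mulVec]
          exact mul_le_mul_of_nonneg_left (g4_proj (hwin a).1 _).1 (hν0 a)
        · rw [hRaN a ha, Matrix.zero_mulVec, dotProduct_zero, mul_zero]
          exact mul_nonneg (hν0 a) (dot_self_nonneg _)
      refine (Finset.sum_le_sum fun a _ => e1 a).trans ?_
      have e2 : ∀ a, ν a * ((TV ν z (z a) *ᵥ v) ⬝ᵥ (TV ν z (z a) *ᵥ v)) =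
          ν a * ((TV ν z v *ᵥ z a) ⬝ᵥ (TV ν z v *ᵥ z a)) := by
        intro a
        rw [TV_comm]
      rw [Finset.sum_congr rfl fun a _ => e2 a, hcore.iso.avg_sq]
      refine (hcore.hs_TV v).trans ?_
      exact mul_le_mul_of_nonneg_right (hmono (by linarith)) (dot_self_nonneg v))
      (by
        intro a
        by_cases ha : a ∈ Yg
        · rw [hRaY a ha]
          exact (hY.win a).mono (hpos _).le (hmono (by linarith))
        · rw [hRaN a ha]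
          intro v
          rw [Matrix.zero_mulVec, dotProduct_zero]
          exact mul_nonneg (sq_nonneg _) (dot_self_nonneg _))
      (by
        intro a
        by_cases ha : a ∈ Yg
        · rw [hRaY a ha]
          have e1 := hs_mul_right (R := P a - P' a) (c := 1)
            (by rw [(hwin a).1.1]; exact g4_projB (hwin a).1) (TV ν z (z a))
          rw [one_pow, one_mul] at e1
          refine e1.trans ((hcore.hs_TV _).trans ?_)
          have e2 : R ^ (3 / 2 + 56000 * c) = R ^ (56000 * c - s) * (R ^ (1 / 2 + s) * R) := by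
            nth_rewrite 4 [← Real.rpow_one R]
            rw [← Real.rpow_add hR0, ← Real.rpow_add hR0]
            congr 1
            ring
          rw [e2]
          calc R ^ (1 / 2 + s) * (z a ⬝ᵥ z a) ≤ R ^ (1 / 2 + s) * (3 * R) :=
                mul_le_mul_of_nonneg_left (hY.zy a ha) (hpos _).le
            _ = 3 * (R ^ (1 / 2 + s) * R) := by ring
            _ ≤ _ := mul_le_mul_of_nonneg_right (h3 R rC) (mul_nonneg (hpos _).le hR0.le)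
        · rw [hRaN a ha]
          have : hs (0 : Matrix ι ι ℝ) = 0 := by simp [hs]
          rw [this]
          exact (hpos _).le)
    have hterm : ∀ x a y, μ x * gam a * ν y * (if R ^ (1 / 2 - 100 * (560 * c)) ≤
        (ψ' x a ⬝ᵥ z y) ^ 2 then (ψ' x a ⬝ᵥ z y) ^ 2 else 0) ≤
        R ^ (-(1 / 2) - 10 * s) * (μ x * gam a * ν y * (if R ^ (1 - 2 * (56000 * c)) ≤
          ((Ra a *ᵥ be x) ⬝ᵥ z y) ^ 2 then ((Ra a *ᵥ be x) ⬝ᵥ z y) ^ 2 else 0)) := by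
      intro x a y
      have hL : R ^ (-(1 / 2) - 10 * s) * R ^ (1 - 2 * (56000 * c)) ≤
          R ^ (1 / 2 - 100 * (560 * c)) := by
        rw [← Real.rpow_add hR0]
        exact hmono (by linarith)
      have hm0 : 0 ≤ μ x * gam a * ν y := mul_nonneg (mul_nonneg (hμ0 x) (hgam0 a)) (hν0 y)
      have key : (if R ^ (1 / 2 - 100 * (560 * c)) ≤
          (ψ' x a ⬝ᵥ z y) ^ 2 then (ψ' x a ⬝ᵥ z y) ^ 2 else 0) ≤
          R ^ (-(1 / 2) - 10 * s) * (if R ^ (1 - 2 * (56000 * c)) ≤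
          ((Ra a *ᵥ be x) ⬝ᵥ z y) ^ 2 then ((Ra a *ᵥ be x) ⬝ᵥ z y) ^ 2 else 0) := by
        rcases hform x a with h | ⟨hx', ha, h, _⟩
        · refine g4_peak (κ := 0) ?_ (hpos _).le (hpos _) hL
          rw [h, zero_dotProduct]
          ring
        · have hbb := hX.h1 x hx'
          have hRs : 0 < R ^ (-s) := hpos _
          have hbb0 : 0 < be x ⬝ᵥ be x := lt_of_lt_of_le (by positivity) hbb
          refine g4_peak (κ := (R1 ^ 2)⁻¹ * (be x ⬝ᵥ be x)⁻¹) ?_ ?_ (hpos _) hL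
          · rw [h]
            unfold bn
            rw [Matrix.mulVec_smul, smul_dotProduct, smul_dotProduct, smul_eq_mul, smul_eq_mul,
              mul_pow, mul_pow, inv_pow, inv_pow, Real.sq_sqrt hbb0.le]
            ring
          · have e1 : (be x ⬝ᵥ be x)⁻¹ ≤ ((R ^ (-s)) ^ 2)⁻¹ :=
              inv_anti₀ (by positivity) hbb
            have e2 : (R1 ^ 2)⁻¹ * ((R ^ (-s)) ^ 2)⁻¹ = R ^ (-(1 / 2) - 10 * s) := by
              rw [hR1, ← Real.rpow_natCast, ← Real.rpow_natCast, ← Real.rpow_mul hR0.le,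
                ← Real.rpow_mul hR0.le, ← Real.rpow_neg hR0.le, ← Real.rpow_neg hR0.le,
                ← Real.rpow_add hR0]
              congr 1
              push_cast
              ring
            rw [← e2]
            exact mul_le_mul_of_nonneg_left e1 (by positivity)
      calc _ ≤ μ x * gam a * ν y * (R ^ (-(1 / 2) - 10 * s) *
            (if R ^ (1 - 2 * (56000 * c)) ≤
          ((Ra a *ᵥ be x) ⬝ᵥ z y) ^ 2 then ((Ra a *ᵥ be x) ⬝ᵥ z y) ^ 2 else 0)) :=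
            mul_le_mul_of_nonneg_left key hm0
        _ = _ := by ring
    calc _ ≤ ∑ x, ∑ a, ∑ y, R ^ (-(1 / 2) - 10 * s) * (μ x * gam a * ν y *
          (if R ^ (1 - 2 * (56000 * c)) ≤
          ((Ra a *ᵥ be x) ⬝ᵥ z y) ^ 2 then ((Ra a *ᵥ be x) ⬝ᵥ z y) ^ 2 else 0)) :=
          Finset.sum_le_sum fun x _ => Finset.sum_le_sum fun a _ =>
            Finset.sum_le_sum fun y _ => hterm x a y
      _ = R ^ (-(1 / 2) - 10 * s) * ∑ x, ∑ a, ∑ y, (μ x * gam a * ν y *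
          (if R ^ (1 - 2 * (56000 * c)) ≤
          ((Ra a *ᵥ be x) ⬝ᵥ z y) ^ 2 then ((Ra a *ᵥ be x) ⬝ᵥ z y) ^ 2 else 0)) := by
          simp only [Finset.mul_sum]
      _ ≤ R ^ (-(1 / 2) - 10 * s) * R ^ (1 / 2 - 56000 * c) :=
          mul_le_mul_of_nonneg_left hx1 (hpos _).le
      _ ≤ _ := by
          rw [← Real.rpow_add hR0]
          exact hmono (by linarith)
  -- the bilinear form
  have hbl := hb R rB hC gam Fa hgam0 hgam1 hFaP (by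
      intro a
      by_cases ha : a ∈ Yg
      · rw [hFaY a ha]
        exact hY.trF a ha
      · rw [hFaN a ha, Matrix.trace_zero]
        exact (hpos _).le)
    (by
      intro v
      refine le_trans (Finset.sum_le_sum fun a _ => ?_) (hY.spr v)
      have h1 : 0 ≤ v ⬝ᵥ (F a *ᵥ v) := by
        rw [(g4_proj (hY.projF a) v).2]
        exact dot_self_nonneg _
      by_cases ha : a ∈ Yg
      · rw [hFaY a ha, hgamY a ha]
      · rw [hFaN a ha, Matrix.zero_mulVec, dotProduct_zero, mul_zero]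
        exact mul_nonneg (hν0 a) h1)
    ψ' w hψF hwF hψ1 hw1 hpk
  -- the end
  have hfin := g4_gen hcore Xg Yg F ψ' (by
      intro x a h
      rcases h with h | h
      · rcases hform x a with h' | ⟨hx', _⟩
        · exact h'
        · exact absurd hx' h
      · exact hψN x a h) hψ1 gam hgamY hgam0 hgam1 w (fun x a => rfl) hw1
    (e := R ^ (-1 : ℝ)) (hpos _) (hpos _).le
  have hlhs : ∑ x ∈ Xg, ∑ y ∈ Yg, μ x * ν y * ((F y *ᵥ (TV ν z (be x) *ᵥ ψ x y)) ⬝ᵥ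
        (TV ν z (be x) *ᵥ ψ x y)) =
      ∑ x ∈ Xg, ∑ y ∈ Yg, μ x * ν y * ((F y *ᵥ (TV ν z (be x) *ᵥ ψ' x y)) ⬝ᵥ
        (TV ν z (be x) *ᵥ ψ' x y)) := by
    apply Finset.sum_congr rfl
    intro x _
    apply Finset.sum_congr rfl
    intro y hy
    rw [hψY x y hy]
  rw [hlhs]
  refine hfin.trans ?_
  have e1 : R ^ (1 / 2 + s) * R ^ (-18 : ℝ) / (2 * R ^ (-1 : ℝ)) ≤ R ^ (-1 : ℝ) / 2 := by
    have hp1 := hpos (-1)
    rw [div_le_div_iff₀ (by positivity) (by norm_num)]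
    have e3 : R ^ (1 / 2 + s) * R ^ (-18 : ℝ) ≤ R ^ (-1 : ℝ) * R ^ (-1 : ℝ) := by
      rw [← Real.rpow_add hR0, ← Real.rpow_add hR0]
      apply hmono
      norm_num at hc ⊢
      linarith
    linarith
  have e2 : R ^ (-1 : ℝ) ≤ R ^ (-(560 * c)) := by
    apply hmono
    norm_num at hc ⊢
    linarith
  have e3 : 10 * R ^ (-(560 * c)) ≤ R ^ (-(7 * c)) := by
    have e4 : R ^ (-(7 * c)) = R ^ (553 * c) * R ^ (-(560 * c)) := by
      rw [← Real.rpow_add hR0]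
      congr 1
      ring
    rw [e4]
    exact mul_le_mul_of_nonneg_right (h10 R rD) (hpos _).le
  linarith

alias g4 := g4_pr

end Pool.Agent.LRC
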