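import Pool.Agent.Lib_helper94.LRC.Defs

/-!
# Block K4 of LRC: fourth moments of the operators of multiplication
-/

set_option autoImplicit false
set_option linter.unusedSectionVars false

open Finset Matrix

namespace Pool.Agent.LRC

open Pool.Agent.LR2

variable {Y ι : Type} [Fintype Y] [Fintype ι] [DecidableEq ι]
variable {ν : Y → ℝ} {z : Y → ι → ℝ} {t2 : ℝ}

theorem k4_quad (Q : Matrix ι ι ℝ) (w : ι → ℝ) :
    w ⬝ᵥ (Q *ᵥ w) = ∑ i, ∑ j, Q i j * (w i * w j) := by
  simp only [dotProduct, mulVec, Finset.mul_sum]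
  apply Finset.sum_congr rfl
  intro i _
  apply Finset.sum_congr rfl
  intro j _
  ring

/-- pairing of a quadratic form with a function -/
theorem k4_pair (Q : Matrix ι ι ℝ) (h : Y → ℝ) :
    ∑ y, ν y * (h y * (z y ⬝ᵥ (Q *ᵥ z y))) = ∑ i, ∑ j, Q i j * TH ν z h i j := by
  simp only [k4_quad, TH, Matrix.of_apply, Finset.mul_sum]
  rw [Finset.sum_comm]
  apply Finset.sum_congr rfl
  intro i _
  rw [Finset.sum_comm]
  apply Finset.sum_congr rfl
  intro j _
  apply Finset.sum_congr rfl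
  intro y _
  ring

theorem q4_pr (hν : IsPr ν) (hz : Iso ν z) (h1 : F1 ν z t2) (ht2 : 0 ≤ t2) (Q : Matrix ι ι ℝ) :
    ∑ y, ν y * (z y ⬝ᵥ (Q *ᵥ z y) - Q.trace) ^ 2 ≤ t2 * hs Q := by
  set h : Y → ℝ := fun y => z y ⬝ᵥ (Q *ᵥ z y) - Q.trace with hh
  have hmean1 : ∑ y, ν y * (z y ⬝ᵥ (Q *ᵥ z y)) = Q.trace := by
    have e1 := k4_pair (ν := ν) (z := z) Q (fun _ => 1)
    simp only [one_mul] at e1
    rw [e1]
    have e2 : ∀ i j, TH ν z (fun _ => 1) i j = if i = j then 1 else 0 := by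
      intro i j
      rw [← hz i j]
      simp only [TH, Matrix.of_apply, one_mul]
    simp only [e2]
    simp [Matrix.trace]
  have hmean : ∑ y, ν y * h y = 0 := by
    simp only [hh, mul_sub, Finset.sum_sub_distrib]
    rw [hmean1, ← Finset.sum_mul, hν.sum, one_mul, sub_self]
  set W := ∑ y, ν y * h y ^ 2 with hW
  have hW0 : 0 ≤ W := Finset.sum_nonneg fun y _ => mul_nonneg (hν.nonneg y) (sq_nonneg _)
  have e1 : W = ∑ i, ∑ j, Q i j * TH ν z h i j := by
    rw [← k4_pair, hW]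
    have e2 : ∑ y, ν y * h y ^ 2 = ∑ y, ν y * (h y * (z y ⬝ᵥ (Q *ᵥ z y))) -
        Q.trace * ∑ y, ν y * h y := by
      rw [Finset.mul_sum, ← Finset.sum_sub_distrib]
      apply Finset.sum_congr rfl
      intro y _
      simp only [hh]
      ring
    rw [e2, hmean, mul_zero, sub_zero]
  have e3 := h1 h
  rw [hmean, zero_smul, sub_zero] at e3
  have e4 : W ^ 2 ≤ hs Q * hs (TH ν z h) := by
    rw [e1]
    unfold hs
    rw [← Finset.sum_product', ← Finset.sum_product', ← Finset.sum_product']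
    exact Finset.sum_mul_sq_le_sq_mul_sq _ _ _
  have e5 : W ^ 2 ≤ (t2 * hs Q) * W := by
    refine e4.trans ?_
    calc hs Q * hs (TH ν z h) ≤ hs Q * (t2 * W) := mul_le_mul_of_nonneg_left e3 (hs_nonneg Q)
      _ = _ := by ring
  rcases hW0.eq_or_lt with h0 | h0
  · rw [← h0]
    exact mul_nonneg ht2 (hs_nonneg Q)
  · rw [sq] at e5
    exact le_of_mul_le_mul_right e5 h0

theorem k4_hs (A : Matrix ι ι ℝ) : hs A = (Aᵀ * A).trace := by
  rw [← hs_transpose]
  unfold hs Matrix.trace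
  apply Finset.sum_congr rfl
  intro i _
  rw [Matrix.diag_apply, Matrix.mul_apply]
  apply Finset.sum_congr rfl
  intro j _
  rw [Matrix.transpose_apply, sq]

theorem k4_pr (hν : IsPr ν) (hz : Iso ν z) (h1 : F1 ν z t2) (ht2 : 1 ≤ t2)
    (hc : ∀ c : ι → ℝ, hs (TV ν z c) ≤ t2 * (c ⬝ᵥ c)) :
    ∑ y, ν y * hs (TV ν z (z y) * TV ν z (z y)) ≤ 4 * t2 ^ 3 * Fintype.card ι := by
  set T : ι → Matrix ι ι ℝ := fun i => TV ν z (Pi.single i 1) with hT
  have hTs : ∀ i, (T i)ᵀ = T i := fun i => TV_transpose _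
  have hK : ∀ w : ι → ℝ, TV ν z w = ∑ i, w i • T i := by
    intro w
    have e1 : w = ∑ i, w i • (Pi.single i 1 : ι → ℝ) := by
      funext k
      simp [Finset.sum_apply, Pi.single_apply]
    conv_lhs => rw [e1]
    rw [TV_sum]
    apply Finset.sum_congr rfl
    intro i _
    rw [TV_smul]
  set Q : ι → ι → Matrix ι ι ℝ := fun a b => Matrix.of fun i j => (T i * T j) a b with hQ
  have hsq : ∀ (y : Y) (a b : ι), (TV ν z (z y) * TV ν z (z y)) a b =
      z y ⬝ᵥ (Q a b *ᵥ z y) := by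
    intro y a b
    rw [k4_quad, hK (z y), Finset.sum_mul_sum, Matrix.sum_apply]
    apply Finset.sum_congr rfl
    intro i _
    rw [Matrix.sum_apply]
    apply Finset.sum_congr rfl
    intro j _
    rw [Matrix.smul_mul, Matrix.mul_smul, smul_smul, Matrix.smul_apply, smul_eq_mul]
    simp only [hQ, Matrix.of_apply]
    ring
  set Θ : Matrix ι ι ℝ := ∑ i, T i * T i with hΘ
  have htr : ∀ a b, (Q a b).trace = Θ a b := by
    intro a b
    rw [hΘ, Matrix.sum_apply]
    rfl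
  have hsw : ∑ a, ∑ b, hs (Q a b) = ∑ i, ∑ j, hs (T i * T j) := by
    unfold hs
    simp only [hQ, Matrix.of_apply]
    have e1 : ∀ a : ι, ∑ b : ι, ∑ i : ι, ∑ j : ι, (T i * T j) a b ^ 2 =
        ∑ i : ι, ∑ j : ι, ∑ b : ι, (T i * T j) a b ^ 2 := by
      intro a
      rw [Finset.sum_comm]
      apply Finset.sum_congr rfl
      intro i _
      rw [Finset.sum_comm]
    simp only [e1]
    rw [Finset.sum_comm]
    apply Finset.sum_congr rfl
    intro i _
    rw [Finset.sum_comm]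
  have hΘs : Θᵀ = Θ := by
    rw [hΘ, Matrix.transpose_sum]
    apply Finset.sum_congr rfl
    intro i _
    rw [Matrix.transpose_mul, hTs]
  have hhsΘ : hs Θ = ∑ i, ∑ j, hs (T i * T j) := by
    rw [hs_symm hΘs]
    have e1 : Θ * Θ = ∑ i, ∑ j, (T i * T i) * (T j * T j) := by
      rw [hΘ, Finset.sum_mul_sum]
    rw [e1, Matrix.trace_sum]
    apply Finset.sum_congr rfl
    intro i _
    rw [Matrix.trace_sum]
    apply Finset.sum_congr rfl
    intro j _
    rw [k4_hs, Matrix.transpose_mul, hTs, hTs]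
    rw [show T i * T i * (T j * T j) = (T i * (T i * T j)) * T j by
      simp only [Matrix.mul_assoc], Matrix.trace_mul_comm]
    simp only [Matrix.mul_assoc]
  have hTj : ∀ j, ∑ i, hs (T i * T j) ≤ t2 * hs (T j) := by
    intro j
    have e1 : ∀ i, hs (T i * T j) = ∑ c, (T i *ᵥ fun k => T j k c) ⬝ᵥ (T i *ᵥ fun k => T j k c) := by
      intro i
      rw [hs_eq_col]
      apply Finset.sum_congr rfl
      intro c _
      rw [col_mul]
    simp only [e1]
    rw [Finset.sum_comm, hs_eq_col, Finset.mul_sum]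
    apply Finset.sum_le_sum
    intro c _
    set v : ι → ℝ := fun k => T j k c with hv
    have e2 : ∑ i, (T i *ᵥ v) ⬝ᵥ (T i *ᵥ v) = hs (TV ν z v) := by
      rw [hs_eq_col]
      apply Finset.sum_congr rfl
      intro i _
      have e3 : T i *ᵥ v = fun k => TV ν z v k i := by
        simp only [hT]
        rw [TV_comm]
        funext k
        simp [mulVec, dotProduct, Pi.single_apply]
      rw [e3]
    rw [e2]
    exact hc v
  have hTn : ∑ j, hs (T j) ≤ t2 * Fintype.card ι := by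
    calc ∑ j, hs (T j) ≤ ∑ _j : ι, t2 := by
          apply Finset.sum_le_sum
          intro j _
          refine (hc (Pi.single j 1)).trans ?_
          have : (Pi.single j 1 : ι → ℝ) ⬝ᵥ (Pi.single j 1 : ι → ℝ) = 1 := by
            simp [dotProduct, Pi.single_apply]
          rw [this, mul_one]
      _ = _ := by
          rw [Finset.sum_const, Finset.card_univ, nsmul_eq_mul, mul_comm]
  have ht20 : 0 ≤ t2 := by linarith
  have hS : ∑ i, ∑ j, hs (T i * T j) ≤ t2 ^ 2 * Fintype.card ι := by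
    rw [Finset.sum_comm]
    calc ∑ j, ∑ i, hs (T i * T j) ≤ ∑ j, t2 * hs (T j) := Finset.sum_le_sum fun j _ => hTj j
      _ = t2 * ∑ j, hs (T j) := by rw [Finset.mul_sum]
      _ ≤ t2 * (t2 * Fintype.card ι) := mul_le_mul_of_nonneg_left hTn ht20
      _ = _ := by ring
  have hab : ∀ a b, ∑ y, ν y * (z y ⬝ᵥ (Q a b *ᵥ z y)) ^ 2 ≤
      2 * t2 * hs (Q a b) + 2 * Θ a b ^ 2 := by
    intro a b
    have e1 := q4_pr hν hz h1 ht20 (Q a b)
    have e2 : ∑ y, ν y * (z y ⬝ᵥ (Q a b *ᵥ z y)) ^ 2 ≤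
        ∑ y, (2 * (ν y * (z y ⬝ᵥ (Q a b *ᵥ z y) - (Q a b).trace) ^ 2) +
          ν y * (2 * (Q a b).trace ^ 2)) := by
      apply Finset.sum_le_sum
      intro y _
      have := hν.nonneg y
      have e3 : (z y ⬝ᵥ (Q a b *ᵥ z y)) ^ 2 ≤
          2 * (z y ⬝ᵥ (Q a b *ᵥ z y) - (Q a b).trace) ^ 2 + 2 * (Q a b).trace ^ 2 := by
        nlinarith [sq_nonneg (z y ⬝ᵥ (Q a b *ᵥ z y) - 2 * (Q a b).trace)]
      nlinarith
    refine e2.trans ?_
    rw [Finset.sum_add_distrib, ← Finset.mul_sum, ← Finset.sum_mul, hν.sum, one_mul, htr]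
    rw [htr] at e1
    linarith
  calc ∑ y, ν y * hs (TV ν z (z y) * TV ν z (z y)) =
      ∑ a, ∑ b, ∑ y, ν y * (z y ⬝ᵥ (Q a b *ᵥ z y)) ^ 2 := by
        unfold hs
        simp only [hsq, Finset.mul_sum]
        rw [Finset.sum_comm]
        apply Finset.sum_congr rfl
        intro a _
        rw [Finset.sum_comm]
    _ ≤ ∑ a, ∑ b, (2 * t2 * hs (Q a b) + 2 * Θ a b ^ 2) :=
        Finset.sum_le_sum fun a _ => Finset.sum_le_sum fun b _ => hab a b
    _ = 2 * t2 * (∑ a, ∑ b, hs (Q a b)) + 2 * hs Θ := by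
        simp only [Finset.sum_add_distrib, ← Finset.mul_sum]
        rfl
    _ ≤ 2 * t2 * (t2 ^ 2 * Fintype.card ι) + 2 * (t2 ^ 2 * Fintype.card ι) := by
        rw [hsw, hhsΘ]
        have := mul_le_mul_of_nonneg_left hS (by linarith : (0 : ℝ) ≤ 2 * t2)
        linarith
    _ ≤ 4 * t2 ^ 3 * Fintype.card ι := by
        have hn : (0 : ℝ) ≤ Fintype.card ι := Nat.cast_nonneg _
        have e1 : t2 ^ 2 ≤ t2 ^ 3 := pow_le_pow_right₀ ht2 (by norm_num)
        have e2 : t2 ^ 2 * (Fintype.card ι : ℝ) ≤ t2 ^ 3 * Fintype.card ι :=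
          mul_le_mul_of_nonneg_right e1 hn
        nlinarith


alias q4 := q4_pr
alias k4 := k4_pr

end Pool.Agent.LRC
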