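import Pool.Agent.Lib_helper59.LR2.TGen
import Pool.Agent.Lib_helper94.LRC.Defs
import Pool.Agent.Lib_helper94.LRF.TAIL

/-!
# Block N1: the light part `ρ = K^< b` of the second decoder has no peaks (direct proof)

`|T_ρ ρ|² = E_y (ρ·z_y)² (ρ·K_y ρ)`; the positive part of `K_y` is cut at `a` and `c`:
the part below `a` gives `a |ρ|⁴`, the part above `c` is at most `K_y² / c` and is averaged over
`y` (`E_y |K_y ρ|² ≤ t2 |ρ|²`), and the middle part `G_y` (trace at most `|K_y|²_HS / a`, norm at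
most `c`) is small for all rows but an exponentially small set by (F4), because the operator norm
of `K^<` is at most `h`.
-/

set_option autoImplicit false
set_option linter.unusedSectionVars false

open Finset Matrix

namespace Pool.Agent.LRC

open Pool.Agent.LR2

theorem n1_z1 {rho s : ℝ} (hrho : 0 ≤ rho) (hs : 1 ≤ s) : 0 ≤ 2 + 2 * rho + rho * s := by
  have h : 0 ≤ rho * s := mul_nonneg hrho (zero_le_one.trans hs)
  linarith only [h, hrho]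

theorem n1_z0 {rho s : ℝ} (hrho : 0 ≤ rho) (hs : 1 ≤ s) (n : ℕ) :
    0 ≤ 2 * (n : ℝ) + 2 * rho + rho * s := by
  have h : 0 ≤ rho * s := mul_nonneg hrho (zero_le_one.trans hs)
  have h2 : (0 : ℝ) ≤ n := Nat.cast_nonneg n
  linarith only [h, hrho, h2]

section Gen

variable {ι : Type} [Fintype ι] [DecidableEq ι]

theorem N1_single_dot (w : ι → ℝ) (j : ι) : w ⬝ᵥ Pi.single j 1 = w j := by
  simp

theorem N1_col_eq (K : Matrix ι ι ℝ) (j : ι) : (fun i => K i j) = K *ᵥ Pi.single j 1 := by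
  funext i
  simp

/-- `hs` through an eigenbasis -/
theorem N1_hs_diag {K : Matrix ι ι ℝ} (hK : Kᵀ = K) {o : ι → ι → ℝ} {h : ι → ℝ}
    (ho1 : ∀ i j, o i ⬝ᵥ o j = if i = j then 1 else 0)
    (ho : ∀ v w : ι → ℝ, v ⬝ᵥ w = ∑ i, (o i ⬝ᵥ v) * (o i ⬝ᵥ w)) (hh : ∀ i, K *ᵥ o i = h i • o i) :
    hs K = ∑ i, h i ^ 2 := by
  rw [hs_eq_col]
  have h1 : ∀ j, (fun i => K i j) ⬝ᵥ (fun i => K i j) = ∑ i, h i ^ 2 * (o i j) ^ 2 := by
    intro j
    rw [N1_col_eq, diag_sq hK ho hh]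
    simp only [N1_single_dot]
  simp only [h1]
  rw [Finset.sum_comm]
  apply Finset.sum_congr rfl
  intro i _
  rw [← Finset.mul_sum]
  have h2 : ∑ j, o i j ^ 2 = 1 := by
    have := ho1 i i
    simp only [if_true, dotProduct] at this
    rw [← this]
    exact Finset.sum_congr rfl fun j _ => by ring
  rw [h2, mul_one]

/-- trace through an eigenbasis, conjugated by a symmetric matrix -/
theorem N1_trace_conj {G : Matrix ι ι ℝ} (hG : Gᵀ = G) {o : ι → ι → ℝ} {h : ι → ℝ}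
    (ho : ∀ v w : ι → ℝ, v ⬝ᵥ w = ∑ i, (o i ⬝ᵥ v) * (o i ⬝ᵥ w)) (hh : ∀ i, G *ᵥ o i = h i • o i)
    {R : Matrix ι ι ℝ} (hR : Rᵀ = R) :
    (R * G * R).trace = ∑ i, h i * ((R *ᵥ o i) ⬝ᵥ (R *ᵥ o i)) := by
  have h1 : ∀ j, (R * G * R) j j = ∑ i, h i * ((R *ᵥ o i) j) ^ 2 := by
    intro j
    have h2 : (R * G * R) j j = (R *ᵥ Pi.single j 1) ⬝ᵥ (G *ᵥ (R *ᵥ Pi.single j 1)) := by
      have h3 : (R * G * R) j j = Pi.single j 1 ⬝ᵥ ((R * G * R) *ᵥ Pi.single j 1) := by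
        simp
      rw [h3, ← Matrix.mulVec_mulVec, ← Matrix.mulVec_mulVec, dot_symm_mulVec hR]
    rw [h2, diag_bil hG ho hh]
    apply Finset.sum_congr rfl
    intro i _
    have h4 : o i ⬝ᵥ (R *ᵥ Pi.single j 1) = (R *ᵥ o i) j := by
      rw [dot_symm_mulVec hR, N1_single_dot]
    rw [h4]
    ring
  unfold Matrix.trace
  simp only [Matrix.diag_apply, h1]
  rw [Finset.sum_comm]
  apply Finset.sum_congr rfl
  intro i _
  rw [← Finset.mul_sum]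
  congr 1
  unfold dotProduct
  exact Finset.sum_congr rfl fun j _ => by ring

theorem N1_trace_le {G : Matrix ι ι ℝ} (hG : Gᵀ = G) (hpos : ∀ w, 0 ≤ w ⬝ᵥ (G *ᵥ w))
    {R : Matrix ι ι ℝ} (hR : Rᵀ = R) {h : ℝ} (hRh : OpB R h) :
    (R * G * R).trace ≤ h ^ 2 * G.trace := by
  obtain ⟨o, g, ho1, ho, hh⟩ := exists_diag hG
  have hg : ∀ i, 0 ≤ g i := by
    intro i
    have h1 := hpos (o i)
    rw [hh i, dotProduct_smul, ho1 i i] at h1
    simpa using h1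
  have h2 : G.trace = ∑ i, g i := by
    have h3 := N1_trace_conj hG ho hh (R := (1 : Matrix ι ι ℝ)) (Matrix.transpose_one)
    rw [Matrix.one_mul, Matrix.mul_one] at h3
    rw [h3]
    apply Finset.sum_congr rfl
    intro i _
    rw [Matrix.one_mulVec, ho1 i i]
    simp
  rw [N1_trace_conj hG ho hh hR, h2, Finset.mul_sum]
  apply Finset.sum_le_sum
  intro i _
  have h4 := hRh (o i)
  rw [ho1 i i] at h4
  simp only [if_true, mul_one] at h4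
  have h5 := mul_le_mul_of_nonneg_left h4 (hg i)
  linarith only [h5]

/-- the middle part of the positive spectrum -/
theorem N1_cut {K : Matrix ι ι ℝ} (hK : Kᵀ = K) {a c : ℝ} (ha : 0 < a) (hac : a ≤ c) :
    ∃ G : Matrix ι ι ℝ, Gᵀ = G ∧ (∀ w, 0 ≤ w ⬝ᵥ (G *ᵥ w)) ∧
      (∀ w, w ⬝ᵥ (G *ᵥ w) ≤ c * (w ⬝ᵥ w)) ∧
      (∀ w, w ⬝ᵥ (K *ᵥ w) ≤ a * (w ⬝ᵥ w) + w ⬝ᵥ (G *ᵥ w) +
        1 / c * ((K *ᵥ w) ⬝ᵥ (K *ᵥ w))) ∧ a * G.trace ≤ hs K := by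
  obtain ⟨o, h, ho1, ho, hh⟩ := exists_diag hK
  have hc : 0 < c := lt_of_lt_of_le ha hac
  set g : ι → ℝ := fun i => if a < h i ∧ h i ≤ c then h i else 0 with hg
  set G : Matrix ι ι ℝ := ∑ i, g i • Matrix.vecMulVec (o i) (o i) with hGdef
  have hG0 : ∀ w, G *ᵥ w = ∑ i, (g i * (o i ⬝ᵥ w)) • o i := by
    intro w
    rw [hGdef, Matrix.sum_mulVec]
    apply Finset.sum_congr rfl
    intro i _
    rw [Matrix.smul_mulVec, Matrix.vecMulVec_mulVec]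
    funext k
    simp only [Pi.smul_apply, smul_eq_mul, MulOpposite.smul_eq_mul_unop, MulOpposite.unop_op]
    ring
  have hGT : Gᵀ = G := by
    rw [hGdef, Matrix.transpose_sum]
    apply Finset.sum_congr rfl
    intro i _
    rw [Matrix.transpose_smul, Matrix.transpose_vecMulVec]
  have hGo : ∀ i, G *ᵥ o i = g i • o i := by
    intro i
    rw [hG0]
    rw [Finset.sum_eq_single i]
    · rw [ho1 i i]
      simp
    · intro j _ hj
      rw [ho1 j i, if_neg hj]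
      simp
    · intro hi
      exact absurd (Finset.mem_univ i) hi
  have hg0 : ∀ i, 0 ≤ g i := by
    intro i
    simp only [hg]
    split_ifs with h1
    · exact (ha.trans h1.1).le
    · exact le_rfl
  have hgc : ∀ i, g i ≤ c := by
    intro i
    simp only [hg]
    split_ifs with h1
    · exact h1.2
    · exact hc.le
  have hquad : ∀ w, w ⬝ᵥ (G *ᵥ w) = ∑ i, g i * (o i ⬝ᵥ w) ^ 2 := by
    intro w
    rw [diag_bil hGT ho hGo]
    exact Finset.sum_congr rfl fun i _ => by ring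
  refine ⟨G, hGT, ?_, ?_, ?_, ?_⟩
  · intro w
    rw [hquad]
    exact Finset.sum_nonneg fun i _ => mul_nonneg (hg0 i) (sq_nonneg _)
  · intro w
    rw [hquad, ho w w, Finset.mul_sum]
    apply Finset.sum_le_sum
    intro i _
    have := sq_nonneg (o i ⬝ᵥ w)
    have h5 := mul_le_mul_of_nonneg_right (hgc i) this
    linarith only [h5]
  · intro w
    rw [hquad, ho w w, diag_bil hK ho hh, diag_sq hK ho hh, Finset.mul_sum, Finset.mul_sum,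
      ← Finset.sum_add_distrib, ← Finset.sum_add_distrib]
    apply Finset.sum_le_sum
    intro i _
    have h2 : h i ≤ a + g i + 1 / c * h i ^ 2 := by
      have h5 : 0 ≤ 1 / c * h i ^ 2 := by positivity
      simp only [hg]
      split_ifs with h1
      · linarith
      · by_cases h3 : a < h i
        · have h4 : c < h i := by
            by_contra h6
            exact h1 ⟨h3, not_lt.1 h6⟩
          have h7 : h i ≤ 1 / c * h i ^ 2 := by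
            rw [div_mul_eq_mul_div, one_mul, le_div_iff₀ hc]
            nlinarith
          linarith
        · linarith [not_lt.1 h3]
    have := mul_le_mul_of_nonneg_right h2 (sq_nonneg (o i ⬝ᵥ w))
    linarith only [this]
  · have h2 : G.trace = ∑ i, g i := by
      have h3 := N1_trace_conj hGT ho hGo (R := (1 : Matrix ι ι ℝ)) (Matrix.transpose_one)
      rw [Matrix.one_mul, Matrix.mul_one] at h3
      rw [h3]
      apply Finset.sum_congr rfl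
      intro i _
      rw [Matrix.one_mulVec, ho1 i i]
      simp
    rw [h2, N1_hs_diag hK ho1 ho hh, Finset.mul_sum]
    apply Finset.sum_le_sum
    intro i _
    simp only [hg]
    split_ifs with h1
    · nlinarith [h1.1]
    · nlinarith [sq_nonneg (h i)]

end Gen

section Cols

variable {Y ι : Type} [Fintype Y] [Fintype ι] [DecidableEq ι]
variable {ν : Y → ℝ} {z : Y → ι → ℝ} {t2 rho : ℝ}

/-- weighted Cauchy-Schwarz -/
theorem N1_wcs (hν : ∀ y, 0 ≤ ν y) (f g : Y → ℝ) :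
    (∑ y, ν y * (f y * g y)) ^ 2 ≤ (∑ y, ν y * f y ^ 2) * (∑ y, ν y * g y ^ 2) := by
  have h4 : ∀ y, Real.sqrt (ν y) ^ 2 = ν y := fun y => Real.sq_sqrt (hν y)
  have h3 := Finset.sum_mul_sq_le_sq_mul_sq Finset.univ
    (fun y => Real.sqrt (ν y) * f y) (fun y => Real.sqrt (ν y) * g y)
  have e1 : ∀ y, Real.sqrt (ν y) * f y * (Real.sqrt (ν y) * g y) = ν y * (f y * g y) := by
    intro y
    calc _ = Real.sqrt (ν y) ^ 2 * (f y * g y) := by ring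
      _ = _ := by rw [h4]
  have e2 : ∀ (u : Y → ℝ) (y : Y), (Real.sqrt (ν y) * u y) ^ 2 = ν y * u y ^ 2 := by
    intro u y
    rw [mul_pow, h4]
  simp only [e1, e2] at h3
  exact h3

/-- the second moments of a linear form under a density -/
theorem N1_lin (h5 : FT ν z (fun _ => 1) rho) (q : ι → ℝ) {p : Y → ℝ} (hp : IsPr p) {s : ℝ}
    (hs : 0 ≤ s) (hps : ∀ y, p y ≤ Real.exp s * ν y) :
    ∑ y, p y * (q ⬝ᵥ z y) ^ 2 ≤ (q ⬝ᵥ q) * (2 + 2 * rho) + (q ⬝ᵥ q) * rho * s := by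
  have hq : ∀ w, w ⬝ᵥ (Matrix.vecMulVec q q *ᵥ w) = (q ⬝ᵥ w) ^ 2 := by
    intro w
    rw [Matrix.vecMulVec_mulVec]
    simp only [MulOpposite.smul_eq_mul_unop, dotProduct_smul, MulOpposite.unop_op]
    rw [dotProduct_comm w q]
    ring
  have h1 := h5 p hp s hs hps (Matrix.vecMulVec q q) (q ⬝ᵥ q)
    (Matrix.transpose_vecMulVec q q) (fun w => by rw [hq]; exact sq_nonneg _)
    (fun w => by rw [hq]; exact dot_cs q w)
  simp only [hq] at h1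
  have h2 : ∑ i, (1 : ℝ) * Matrix.vecMulVec q q i i = q ⬝ᵥ q := by
    unfold dotProduct
    apply Finset.sum_congr rfl
    intro i _
    simp [Matrix.vecMulVec_apply]
  rw [h2] at h1
  linarith

/-- the norm of the columns under a density -/
theorem N1_norm (h5 : FT ν z (fun _ => 1) rho) {p : Y → ℝ} (hp : IsPr p) {s : ℝ}
    (hs : 0 ≤ s) (hps : ∀ y, p y ≤ Real.exp s * ν y) :
    ∑ y, p y * (z y ⬝ᵥ z y) ≤ (2 * Fintype.card ι + 2 * rho) + rho * s := by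
  have h1 := h5 p hp s hs hps (1 : Matrix ι ι ℝ) 1 Matrix.transpose_one
    (fun w => by rw [Matrix.one_mulVec]; exact dot_self_nonneg w)
    (fun w => by rw [Matrix.one_mulVec, one_mul])
  simp only [Matrix.one_mulVec] at h1
  have h2 : ∑ i : ι, (1 : ℝ) * (1 : Matrix ι ι ℝ) i i = Fintype.card ι := by
    simp
  rw [h2] at h1
  linarith

/-- `|T_ρ ρ|² = E_y (ρ·z)² (ρ·K_y ρ)` -/
theorem N1_expand (r : ι → ℝ) :
    (TV ν z r *ᵥ r) ⬝ᵥ (TV ν z r *ᵥ r) =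
      ∑ y, ν y * ((r ⬝ᵥ z y) ^ 2 * (r ⬝ᵥ (TV ν z (z y) *ᵥ r))) := by
  rw [dot_TV]
  apply Finset.sum_congr rfl
  intro y _
  have h1 : (TV ν z r *ᵥ r) ⬝ᵥ z y = r ⬝ᵥ (TV ν z (z y) *ᵥ r) := by
    rw [dotProduct_comm, dot_TV_swap]
  rw [h1]
  ring

/-- the pointwise bound -/
theorem N1_pt (hν : IsPr ν) (hz : Iso ν z) (h5 : FT ν z (fun _ => 1) rho) (hrho : 0 ≤ rho)
    (ht2 : 0 ≤ t2)
    (h1 : ∀ c : ι → ℝ, hs (TV ν z c) ≤ t2 * (c ⬝ᵥ c)) {a c s : ℝ} (ha : 0 < a) (hac : a ≤ c)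
    (hs1 : 1 ≤ s) (G : Y → Matrix ι ι ℝ)
    (hG : ∀ y w, w ⬝ᵥ (TV ν z (z y) *ᵥ w) ≤ a * (w ⬝ᵥ w) + w ⬝ᵥ (G y *ᵥ w) +
        1 / c * ((TV ν z (z y) *ᵥ w) ⬝ᵥ (TV ν z (z y) *ᵥ w)))
    {Z1 Z w4 : ℝ} (hZ1 : Z1 = 2 + 2 * rho + rho * s)
    (hZ : Z = 2 * Fintype.card ι + 2 * rho + rho * s)
    (hw4 : w4 = 2 * (2 + 2 * rho) ^ 2 + 20 * rho ^ 2) (r : ι → ℝ) :
    (TV ν z r *ᵥ r) ⬝ᵥ (TV ν z r *ᵥ r) ≤
      (a + Z1 * t2 / c + Real.sqrt (t2 * (Real.exp (-s) * (Z + Z1)) * w4)) * (r ⬝ᵥ r) ^ 2 +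
      ∑ y, ν y * (if z y ⬝ᵥ z y ≤ Z ∧ (r ⬝ᵥ z y) ^ 2 ≤ (r ⬝ᵥ r) * Z1 then
        (r ⬝ᵥ z y) ^ 2 * (r ⬝ᵥ (G y *ᵥ r)) else 0) := by
  classical
  have hc : 0 < c := lt_of_lt_of_le ha hac
  set N := r ⬝ᵥ r with hN
  have hN0 : 0 ≤ N := dot_self_nonneg r
  set q := TV ν z r *ᵥ r with hq
  have hZ10 : 0 ≤ Z1 := by rw [hZ1]; exact n1_z1 hrho hs1
  have hZ0 : 0 ≤ Z := by
    rw [hZ]
    exact n1_z0 hrho hs1 _
  have hq2 : q ⬝ᵥ q ≤ t2 * N ^ 2 := by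
    have h2 := mulVec_sq_le (TV ν z r) r
    have h3 := h1 r
    calc q ⬝ᵥ q ≤ hs (TV ν z r) * N := h2
      _ ≤ t2 * N * N := mul_le_mul_of_nonneg_right h3 hN0
      _ = _ := by ring
  -- the complement
  set bad : Y → Prop := fun y => ¬ (z y ⬝ᵥ z y ≤ Z ∧ (r ⬝ᵥ z y) ^ 2 ≤ N * Z1) with hbad
  have hT1 : ∑ y, ν y * (if Z < z y ⬝ᵥ z y then z y ⬝ᵥ z y else 0) ≤ Real.exp (-s) * Z := by
    have h2 := tail_one hν (V := fun y => z y ⬝ᵥ z y) (fun y => dot_self_nonneg _)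
      (a := 2 * Fintype.card ι + 2 * rho) (b := rho) (by positivity) hrho
      (fun p hp s' hs' hps => N1_norm h5 hp hs' hps) hs1
    rw [← hZ] at h2
    exact h2
  have hT2 : ∑ y, ν y * (if N * Z1 < (r ⬝ᵥ z y) ^ 2 then (r ⬝ᵥ z y) ^ 2 else 0) ≤
      Real.exp (-s) * (N * Z1) := by
    have h2 := tail_one hν (V := fun y => (r ⬝ᵥ z y) ^ 2) (fun y => sq_nonneg _)
      (a := N * (2 + 2 * rho)) (b := N * rho) (by positivity) (by positivity)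
      (fun p hp s' hs' hps => N1_lin h5 r hp hs' hps) hs1
    have h3 : N * (2 + 2 * rho) + N * rho * s = N * Z1 := by rw [hZ1]; ring
    rw [h3] at h2
    exact h2
  have hcomp : ∑ y, ν y * (if bad y then (r ⬝ᵥ z y) ^ 2 else 0) ≤
      Real.exp (-s) * (N * (Z + Z1)) := by
    have h2 : ∀ y, ν y * (if bad y then (r ⬝ᵥ z y) ^ 2 else 0) ≤
        N * (ν y * (if Z < z y ⬝ᵥ z y then z y ⬝ᵥ z y else 0)) +
        ν y * (if N * Z1 < (r ⬝ᵥ z y) ^ 2 then (r ⬝ᵥ z y) ^ 2 else 0) := by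
      intro y
      have hνy := hν.1 y
      have h3 : (r ⬝ᵥ z y) ^ 2 ≤ N * (z y ⬝ᵥ z y) := dot_cs r (z y)
      have h4 := dot_self_nonneg (z y)
      have h5' : (if bad y then (r ⬝ᵥ z y) ^ 2 else 0) ≤
          N * (if Z < z y ⬝ᵥ z y then z y ⬝ᵥ z y else 0) +
          (if N * Z1 < (r ⬝ᵥ z y) ^ 2 then (r ⬝ᵥ z y) ^ 2 else 0) := by
        by_cases hZy : Z < z y ⬝ᵥ z y
        · rw [if_pos hZy]
          have h6 : 0 ≤ N * (z y ⬝ᵥ z y) := mul_nonneg hN0 h4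
          have h7 := sq_nonneg (r ⬝ᵥ z y)
          split_ifs <;> linarith only [h3, h6, h7]
        · rw [if_neg hZy]
          by_cases hry : N * Z1 < (r ⬝ᵥ z y) ^ 2
          · rw [if_pos hry]
            have h7 := sq_nonneg (r ⬝ᵥ z y)
            split_ifs <;> linarith only [h7]
          · rw [if_neg hry, if_neg]
            · simp
            · simp only [hbad, not_not]
              exact ⟨not_lt.1 hZy, not_lt.1 hry⟩
      calc _ ≤ ν y * (N * (if Z < z y ⬝ᵥ z y then z y ⬝ᵥ z y else 0) +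
          (if N * Z1 < (r ⬝ᵥ z y) ^ 2 then (r ⬝ᵥ z y) ^ 2 else 0)) :=
            mul_le_mul_of_nonneg_left h5' hνy
        _ = _ := by ring
    calc _ ≤ ∑ y, (N * (ν y * (if Z < z y ⬝ᵥ z y then z y ⬝ᵥ z y else 0)) +
        ν y * (if N * Z1 < (r ⬝ᵥ z y) ^ 2 then (r ⬝ᵥ z y) ^ 2 else 0)) :=
          Finset.sum_le_sum fun y _ => h2 y
      _ = N * ∑ y, (ν y * (if Z < z y ⬝ᵥ z y then z y ⬝ᵥ z y else 0)) +
        ∑ y, ν y * (if N * Z1 < (r ⬝ᵥ z y) ^ 2 then (r ⬝ᵥ z y) ^ 2 else 0) := by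
          rw [Finset.sum_add_distrib, Finset.mul_sum]
      _ ≤ N * (Real.exp (-s) * Z) + Real.exp (-s) * (N * Z1) :=
          add_le_add (mul_le_mul_of_nonneg_left hT1 hN0) hT2
      _ = _ := by ring
  -- fourth moments
  have hm4 : ∀ u : ι → ℝ, ∑ y, ν y * (u ⬝ᵥ z y) ^ 4 ≤ (u ⬝ᵥ u) ^ 2 * w4 := by
    intro u
    have h2 := tail_sq hν (V := fun y => (u ⬝ᵥ z y) ^ 2) (fun y => sq_nonneg _)
      (a := (u ⬝ᵥ u) * (2 + 2 * rho)) (b := (u ⬝ᵥ u) * rho)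
      (mul_nonneg (dot_self_nonneg u) (by positivity))
      (mul_nonneg (dot_self_nonneg u) hrho)
      (fun p hp s' hs' hps => N1_lin h5 u hp hs' hps)
    calc _ = ∑ y, ν y * ((u ⬝ᵥ z y) ^ 2) ^ 2 := by
          apply Finset.sum_congr rfl
          intro y _
          ring
      _ ≤ _ := h2
      _ = _ := by rw [hw4]; ring
  have hw40 : 0 ≤ w4 := by rw [hw4]; positivity
  have hmix : ∑ y, ν y * ((r ⬝ᵥ z y) ^ 2 * (q ⬝ᵥ z y) ^ 2) ≤ N * (q ⬝ᵥ q) * w4 := by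
    have hq0 := dot_self_nonneg q
    have h2 : (∑ y, ν y * ((r ⬝ᵥ z y) ^ 2 * (q ⬝ᵥ z y) ^ 2)) ^ 2 ≤
        (∑ y, ν y * (r ⬝ᵥ z y) ^ 4) * (∑ y, ν y * (q ⬝ᵥ z y) ^ 4) := by
      have h3 := N1_wcs (ν := ν) hν.1 (fun y => (r ⬝ᵥ z y) ^ 2) (fun y => (q ⬝ᵥ z y) ^ 2)
      simp only [← pow_mul] at h3
      exact h3
    have h5' : (∑ y, ν y * (r ⬝ᵥ z y) ^ 4) * (∑ y, ν y * (q ⬝ᵥ z y) ^ 4) ≤
        (N * (q ⬝ᵥ q) * w4) ^ 2 := by
      calc _ ≤ (N ^ 2 * w4) * ((q ⬝ᵥ q) ^ 2 * w4) :=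
            mul_le_mul (hm4 r) (hm4 q) (Finset.sum_nonneg fun y _ =>
              mul_nonneg (hν.1 y) (by positivity)) (by positivity)
        _ = _ := by ring
    exact (le_abs_self _).trans (abs_le_of_sq_le_sq (h2.trans h5') (by positivity))
  set E := Real.exp (-s) * (Z + Z1) with hE
  have hE0 : 0 ≤ E := by positivity
  have hbadsum : ∑ y, ν y * (if bad y then |(r ⬝ᵥ z y) ^ 2 * (r ⬝ᵥ (TV ν z (z y) *ᵥ r))| else 0) ≤
      Real.sqrt (t2 * E * w4) * N ^ 2 := by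
    have hqz : ∀ y, r ⬝ᵥ (TV ν z (z y) *ᵥ r) = q ⬝ᵥ z y := by
      intro y
      rw [dotProduct_comm q, hq, dot_TV_swap (z y)]
    have h2 := N1_wcs (ν := ν) hν.1 (fun y => if bad y then |r ⬝ᵥ z y| else 0)
      (fun y => |r ⬝ᵥ z y| * |q ⬝ᵥ z y|)
    have e1 : ∀ y, (if bad y then |r ⬝ᵥ z y| else 0) * (|r ⬝ᵥ z y| * |q ⬝ᵥ z y|) =
        if bad y then |(r ⬝ᵥ z y) ^ 2 * (r ⬝ᵥ (TV ν z (z y) *ᵥ r))| else 0 := by
      intro y
      rw [hqz, abs_mul, abs_pow]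
      split_ifs
      · ring
      · ring
    have e2 : ∀ y, (if bad y then |r ⬝ᵥ z y| else 0) ^ 2 = if bad y then (r ⬝ᵥ z y) ^ 2 else 0 := by
      intro y
      split_ifs
      · rw [sq_abs]
      · simp
    have e3 : ∀ y, (|r ⬝ᵥ z y| * |q ⬝ᵥ z y|) ^ 2 = (r ⬝ᵥ z y) ^ 2 * (q ⬝ᵥ z y) ^ 2 := by
      intro y
      rw [mul_pow, sq_abs, sq_abs]
    simp only [e1, e2, e3] at h2
    have hq0 := dot_self_nonneg q
    have h3 : (∑ y, ν y * (if bad y then (r ⬝ᵥ z y) ^ 2 else 0)) *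
        (∑ y, ν y * ((r ⬝ᵥ z y) ^ 2 * (q ⬝ᵥ z y) ^ 2)) ≤ (Real.sqrt (t2 * E * w4) * N ^ 2) ^ 2 := by
      have h0 : 0 ≤ t2 * E * w4 := by positivity
      rw [mul_pow, Real.sq_sqrt h0]
      calc _ ≤ (Real.exp (-s) * (N * (Z + Z1))) * (N * (q ⬝ᵥ q) * w4) :=
            mul_le_mul hcomp hmix (Finset.sum_nonneg fun y _ =>
              mul_nonneg (hν.1 y) (by positivity)) (by positivity)
        _ = (N ^ 2 * E * w4) * (q ⬝ᵥ q) := by rw [hE]; ring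
        _ ≤ (N ^ 2 * E * w4) * (t2 * N ^ 2) :=
            mul_le_mul_of_nonneg_left hq2 (by positivity)
        _ = _ := by ring
    exact (le_abs_self _).trans (abs_le_of_sq_le_sq (h2.trans h3) (by positivity))
  -- pointwise
  have hpt : ∀ y, ν y * ((r ⬝ᵥ z y) ^ 2 * (r ⬝ᵥ (TV ν z (z y) *ᵥ r))) ≤
      ν y * (if bad y then |(r ⬝ᵥ z y) ^ 2 * (r ⬝ᵥ (TV ν z (z y) *ᵥ r))| else 0) +
      a * N * (ν y * (r ⬝ᵥ z y) ^ 2) +
      N * Z1 / c * (ν y * ((TV ν z (z y) *ᵥ r) ⬝ᵥ (TV ν z (z y) *ᵥ r))) +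
      ν y * (if z y ⬝ᵥ z y ≤ Z ∧ (r ⬝ᵥ z y) ^ 2 ≤ N * Z1 then
        (r ⬝ᵥ z y) ^ 2 * (r ⬝ᵥ (G y *ᵥ r)) else 0) := by
    intro y
    have hνy := hν.1 y
    have hK0 := dot_self_nonneg (TV ν z (z y) *ᵥ r)
    have hr2 := sq_nonneg (r ⬝ᵥ z y)
    have hnn1 : 0 ≤ a * N * (ν y * (r ⬝ᵥ z y) ^ 2) := by positivity
    have hnn2 : 0 ≤ N * Z1 / c * (ν y * ((TV ν z (z y) *ᵥ r) ⬝ᵥ (TV ν z (z y) *ᵥ r))) := by
      positivity
    by_cases hb : z y ⬝ᵥ z y ≤ Z ∧ (r ⬝ᵥ z y) ^ 2 ≤ N * Z1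
    · have hb' : ¬ bad y := by
        simp only [hbad, not_not]
        exact hb
      rw [if_pos hb, if_neg hb', mul_zero, zero_add]
      have h2 := hG y r
      have h3 : (r ⬝ᵥ z y) ^ 2 * (r ⬝ᵥ (TV ν z (z y) *ᵥ r)) ≤
          a * N * (r ⬝ᵥ z y) ^ 2 + N * Z1 / c * ((TV ν z (z y) *ᵥ r) ⬝ᵥ (TV ν z (z y) *ᵥ r)) +
            (r ⬝ᵥ z y) ^ 2 * (r ⬝ᵥ (G y *ᵥ r)) := by
        have h4 := mul_le_mul_of_nonneg_left h2 hr2
        have h5' : (r ⬝ᵥ z y) ^ 2 * (1 / c * ((TV ν z (z y) *ᵥ r) ⬝ᵥ (TV ν z (z y) *ᵥ r))) ≤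
            N * Z1 / c * ((TV ν z (z y) *ᵥ r) ⬝ᵥ (TV ν z (z y) *ᵥ r)) := by
          have h6 : N * Z1 / c * ((TV ν z (z y) *ᵥ r) ⬝ᵥ (TV ν z (z y) *ᵥ r)) =
              (N * Z1) * (1 / c * ((TV ν z (z y) *ᵥ r) ⬝ᵥ (TV ν z (z y) *ᵥ r))) := by ring
          rw [h6]
          exact mul_le_mul_of_nonneg_right hb.2 (by positivity)
        linarith only [h4, h5']
      calc _ ≤ ν y * (a * N * (r ⬝ᵥ z y) ^ 2 +
            N * Z1 / c * ((TV ν z (z y) *ᵥ r) ⬝ᵥ (TV ν z (z y) *ᵥ r)) +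
            (r ⬝ᵥ z y) ^ 2 * (r ⬝ᵥ (G y *ᵥ r))) := mul_le_mul_of_nonneg_left h3 hνy
        _ = _ := by ring
    · have hb' : bad y := hb
      rw [if_neg hb, if_pos hb', mul_zero, add_zero]
      have h3 := mul_le_mul_of_nonneg_left (le_abs_self ((r ⬝ᵥ z y) ^ 2 *
        (r ⬝ᵥ (TV ν z (z y) *ᵥ r)))) hνy
      linarith
  rw [N1_expand]
  have hsum := Finset.sum_le_sum fun y (_ : y ∈ Finset.univ) => hpt y
  refine hsum.trans ?_
  rw [Finset.sum_add_distrib, Finset.sum_add_distrib, Finset.sum_add_distrib, ← Finset.mul_sum,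
    ← Finset.mul_sum]
  have hr : ∑ y, ν y * (r ⬝ᵥ z y) ^ 2 = N := by
    have := hz.avg_dot r r
    simp only [← sq] at this
    exact this
  have hK : ∑ y, ν y * ((TV ν z (z y) *ᵥ r) ⬝ᵥ (TV ν z (z y) *ᵥ r)) ≤ t2 * N := by
    have h2 := hz.avg_K (1 : Matrix ι ι ℝ) r
    simp only [Matrix.one_mulVec, Matrix.one_mul] at h2
    rw [h2]
    exact h1 r
  rw [hr]
  have h7 : N * Z1 / c * ∑ y, ν y * ((TV ν z (z y) *ᵥ r) ⬝ᵥ (TV ν z (z y) *ᵥ r)) ≤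
      N * Z1 / c * (t2 * N) := mul_le_mul_of_nonneg_left hK (by positivity)
  have h8 : (a + Z1 * t2 / c + Real.sqrt (t2 * E * w4)) * N ^ 2 =
      Real.sqrt (t2 * E * w4) * N ^ 2 + a * N * N + N * Z1 / c * (t2 * N) := by ring
  rw [h8]
  linarith

end Cols

section Main

variable {X Y ι : Type} [Fintype X] [Fintype Y] [Fintype ι] [DecidableEq ι]
variable {μ : X → ℝ} {ν : Y → ℝ} {M : X → Y → ℝ} {U : ℝ} {V : ι → ℝ} {be : X → ι → ℝ}
    {z : Y → ι → ℝ} {t2 kap rho del2 w0 q2 : ℝ}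

/-- the rows: the form `β R G R β` is small outside an exponentially small set -/
theorem N1_row (hμ : IsPr μ) (hV : ∀ i, V i ≤ del2) (h4 : FT μ be V kap) (hkap : 0 ≤ kap)
    (hdel : 0 ≤ del2)
    {R G : Matrix ι ι ℝ} (hR : Rᵀ = R) {h : ℝ} (hRh : OpB R h) (hG : Gᵀ = G)
    (hpos : ∀ w, 0 ≤ w ⬝ᵥ (G *ᵥ w)) {c : ℝ} (hc : 0 ≤ c) (hGc : ∀ w, w ⬝ᵥ (G *ᵥ w) ≤ c * (w ⬝ᵥ w))
    {g : ℝ} (hg : G.trace ≤ g) {s : ℝ} (hs1 : 1 ≤ s) {AB : ℝ}
    (hAB : AB = 2 * del2 * h ^ 2 * g + 2 * kap * h ^ 2 * c + kap * h ^ 2 * c * s) :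
    ∑ x, μ x * (if AB < (R *ᵥ be x) ⬝ᵥ (G *ᵥ (R *ᵥ be x)) then
      (R *ᵥ be x) ⬝ᵥ (G *ᵥ (R *ᵥ be x)) else 0) ≤ Real.exp (-s) * AB := by
  have hq : ∀ w : ι → ℝ, w ⬝ᵥ ((R * G * R) *ᵥ w) = (R *ᵥ w) ⬝ᵥ (G *ᵥ (R *ᵥ w)) := by
    intro w
    rw [← Matrix.mulVec_mulVec, ← Matrix.mulVec_mulVec, dot_symm_mulVec hR]
  have hg0 : 0 ≤ G.trace := by
    unfold Matrix.trace
    apply Finset.sum_nonneg
    intro i _
    have h1 := hpos (Pi.single i 1)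
    simpa using h1
  have hT : (R * G * R)ᵀ = R * G * R := by
    rw [Matrix.transpose_mul, Matrix.transpose_mul, hR, hG, Matrix.mul_assoc]
  have hd : ∀ i, 0 ≤ (R * G * R) i i := by
    intro i
    have h1 : (R * G * R) i i = Pi.single i 1 ⬝ᵥ ((R * G * R) *ᵥ Pi.single i 1) := by simp
    rw [h1, hq]
    exact hpos _
  have hdiag : ∑ i, V i * (R * G * R) i i ≤ del2 * (h ^ 2 * g) := by
    calc _ ≤ ∑ i, del2 * (R * G * R) i i :=
          Finset.sum_le_sum fun i _ => mul_le_mul_of_nonneg_right (hV i) (hd i)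
      _ = del2 * (R * G * R).trace := by
          rw [← Finset.mul_sum]
          rfl
      _ ≤ del2 * (h ^ 2 * G.trace) :=
          mul_le_mul_of_nonneg_left (N1_trace_le hG hpos hR hRh) hdel
      _ ≤ _ := mul_le_mul_of_nonneg_left (mul_le_mul_of_nonneg_left hg (sq_nonneg h)) hdel
  have hF : ∀ p : X → ℝ, IsPr p → ∀ s' : ℝ, 0 ≤ s' → (∀ x, p x ≤ Real.exp s' * μ x) →
      ∑ x, p x * ((R *ᵥ be x) ⬝ᵥ (G *ᵥ (R *ᵥ be x))) ≤
        (2 * del2 * h ^ 2 * g + 2 * kap * h ^ 2 * c) + (kap * h ^ 2 * c) * s' := by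
    intro p hp s' hs' hps
    have h1 := h4 p hp s' hs' hps (R * G * R) (h ^ 2 * c) hT
      (fun w => by rw [hq]; exact hpos _)
      (fun w => by
        rw [hq]
        calc _ ≤ c * ((R *ᵥ w) ⬝ᵥ (R *ᵥ w)) := hGc _
          _ ≤ c * (h ^ 2 * (w ⬝ᵥ w)) := mul_le_mul_of_nonneg_left (hRh w) hc
          _ = _ := by ring)
    simp only [hq] at h1
    calc _ ≤ 2 * ∑ i, V i * (R * G * R) i i + kap * (h ^ 2 * c) * (s' + 2) := h1
      _ ≤ 2 * (del2 * (h ^ 2 * g)) + kap * (h ^ 2 * c) * (s' + 2) := by linarith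
      _ = _ := by ring
  have hgg : 0 ≤ g := hg0.trans hg
  have h2 := tail_one hμ (V := fun x => (R *ᵥ be x) ⬝ᵥ (G *ᵥ (R *ᵥ be x))) (fun x => hpos _)
    (a := 2 * del2 * h ^ 2 * g + 2 * kap * h ^ 2 * c) (b := kap * h ^ 2 * c)
    (by positivity) (by positivity) hF hs1
  rw [← hAB] at h2
  exact h2

/-- the fixed column -/
theorem N1_fix (hμ : IsPr μ) (hν : IsPr ν) (hz : Iso ν z) (hV : ∀ i, V i ≤ del2)
    (hdel : 0 ≤ del2) (h4 : FT μ be V kap) (hkap : 0 ≤ kap) (h5 : FT ν z (fun _ => 1) rho)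
    (hrho : 0 ≤ rho) (ht2 : 0 ≤ t2) (h1 : ∀ c : ι → ℝ, hs (TV ν z c) ≤ t2 * (c ⬝ᵥ c))
    {m0 : ℝ} (hm0 : 0 < m0) (Xg : Finset X) (b : X → ι → ℝ) (hb1 : ∀ x ∈ Xg, b x ⬝ᵥ b x ≤ 1)
    (hb2 : ∀ x ∈ Xg, ∃ t : ℝ, m0 ^ 2 * t ^ 2 ≤ 1 ∧ b x = t • be x)
    {R : Matrix ι ι ℝ} (hR : Rᵀ = R) {h : ℝ} (hRh : OpB R h) {a c s : ℝ} (ha : 0 < a)
    (hac : a ≤ c) (hs1 : 1 ≤ s) {Z1 Z w4' AB : ℝ} (hZ1 : Z1 = 2 + 2 * rho + rho * s)
    (hZ : Z = 2 * Fintype.card ι + 2 * rho + rho * s)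
    (hw4 : w4' = 2 * (2 + 2 * rho) ^ 2 + 20 * rho ^ 2)
    (hAB : AB = 2 * del2 * h ^ 2 * (t2 * Z / a) + 2 * kap * h ^ 2 * c + kap * h ^ 2 * c * s) :
    ∑ x ∈ Xg, μ x * ((TV ν z (R *ᵥ b x) *ᵥ (R *ᵥ b x)) ⬝ᵥ (TV ν z (R *ᵥ b x) *ᵥ (R *ᵥ b x))) ≤
      (a + Z1 * t2 / c + Real.sqrt (t2 * (Real.exp (-s) * (Z + Z1)) * w4')) *
        ∑ x ∈ Xg, μ x * ((R *ᵥ b x) ⬝ᵥ (R *ᵥ b x)) ^ 2 +
      AB / m0 ^ 2 * (∑ x ∈ Xg, μ x * ((R *ᵥ b x) ⬝ᵥ (R *ᵥ b x)) +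
        h ^ 2 * Z1 * Real.exp (-s)) := by
  classical
  have hc : 0 < c := lt_of_lt_of_le ha hac
  have hZ10 : 0 ≤ Z1 := by rw [hZ1]; exact n1_z1 hrho hs1
  have hcard : (0 : ℝ) ≤ Fintype.card ι := Nat.cast_nonneg _
  have hZ0 : 0 ≤ Z := by rw [hZ]; exact n1_z0 hrho hs1 _
  have hAB0 : 0 ≤ AB := by rw [hAB]; positivity
  choose G hGT hG0 hGc hGK hGtr using fun y => N1_cut (K := TV ν z (z y)) (TV_transpose _) ha hac
  set C := a + Z1 * t2 / c + Real.sqrt (t2 * (Real.exp (-s) * (Z + Z1)) * w4') with hC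
  set Vy : Y → X → ℝ := fun y x => (R *ᵥ be x) ⬝ᵥ (G y *ᵥ (R *ᵥ be x)) with hVy
  have hVy0 : ∀ y x, 0 ≤ Vy y x := fun y x => hG0 y _
  have hmm : 0 < m0 ^ 2 := by positivity
  -- pointwise in x
  have hx : ∀ x ∈ Xg, (TV ν z (R *ᵥ b x) *ᵥ (R *ᵥ b x)) ⬝ᵥ (TV ν z (R *ᵥ b x) *ᵥ (R *ᵥ b x)) ≤
      C * ((R *ᵥ b x) ⬝ᵥ (R *ᵥ b x)) ^ 2 + AB / m0 ^ 2 * ((R *ᵥ b x) ⬝ᵥ (R *ᵥ b x)) +
      h ^ 2 * Z1 / m0 ^ 2 * ∑ y, ν y * (if z y ⬝ᵥ z y ≤ Z then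
        (if AB < Vy y x then Vy y x else 0) else 0) := by
    intro x hxg
    set r := R *ᵥ b x with hr
    have hrr0 := dot_self_nonneg r
    have hrh : r ⬝ᵥ r ≤ h ^ 2 := by
      calc r ⬝ᵥ r ≤ h ^ 2 * (b x ⬝ᵥ b x) := hRh _
        _ ≤ h ^ 2 * 1 := mul_le_mul_of_nonneg_left (hb1 x hxg) (sq_nonneg h)
        _ = _ := mul_one _
    obtain ⟨t, ht1, ht⟩ := hb2 x hxg
    have hVb : ∀ y, r ⬝ᵥ (G y *ᵥ r) ≤ 1 / m0 ^ 2 * Vy y x := by
      intro y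
      have e1 : r = t • (R *ᵥ be x) := by rw [hr, ht, Matrix.mulVec_smul]
      have e2 : r ⬝ᵥ (G y *ᵥ r) = t ^ 2 * Vy y x := by
        rw [e1, Matrix.mulVec_smul, smul_dotProduct, dotProduct_smul]
        simp only [smul_eq_mul, hVy]
        ring
      rw [e2]
      have h3 : t ^ 2 ≤ 1 / m0 ^ 2 := by
        rw [le_div_iff₀ hmm]
        linarith
      exact mul_le_mul_of_nonneg_right h3 (hVy0 y x)
    have h2 := N1_pt hν hz h5 hrho ht2 h1 ha hac hs1 G hGK hZ1 hZ hw4 r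
    rw [← hC] at h2
    refine h2.trans ?_
    rw [add_assoc (C * (r ⬝ᵥ r) ^ 2)]
    apply add_le_add le_rfl
    have hr2 : ∑ y, ν y * (r ⬝ᵥ z y) ^ 2 = r ⬝ᵥ r := by
      have := hz.avg_dot r r
      simp only [← sq] at this
      exact this
    have hr3 : AB / m0 ^ 2 * (r ⬝ᵥ r) = ∑ y, AB / m0 ^ 2 * (ν y * (r ⬝ᵥ z y) ^ 2) := by
      rw [← Finset.mul_sum, hr2]
    rw [hr3, Finset.mul_sum, ← Finset.sum_add_distrib]
    apply Finset.sum_le_sum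
    intro y _
    have hνy := hν.1 y
    set T := if AB < Vy y x then Vy y x else 0 with hT
    have hT0 : 0 ≤ T := by
      rw [hT]
      split_ifs
      · exact hVy0 y x
      · exact le_rfl
    have hVT : Vy y x ≤ AB + T := by
      rw [hT]
      split_ifs with h3
      · linarith
      · linarith [not_lt.1 h3]
    by_cases hb : z y ⬝ᵥ z y ≤ Z ∧ (r ⬝ᵥ z y) ^ 2 ≤ (r ⬝ᵥ r) * Z1
    · rw [if_pos hb, if_pos hb.1]
      have h3 : (r ⬝ᵥ z y) ^ 2 * (r ⬝ᵥ (G y *ᵥ r)) ≤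
          AB / m0 ^ 2 * (r ⬝ᵥ z y) ^ 2 + h ^ 2 * Z1 / m0 ^ 2 * T := by
        have hr20 := sq_nonneg (r ⬝ᵥ z y)
        calc _ ≤ (r ⬝ᵥ z y) ^ 2 * (1 / m0 ^ 2 * Vy y x) := mul_le_mul_of_nonneg_left (hVb y) hr20
          _ ≤ (r ⬝ᵥ z y) ^ 2 * (1 / m0 ^ 2 * (AB + T)) :=
              mul_le_mul_of_nonneg_left (mul_le_mul_of_nonneg_left hVT (by positivity)) hr20
          _ = AB / m0 ^ 2 * (r ⬝ᵥ z y) ^ 2 + (r ⬝ᵥ z y) ^ 2 * (T / m0 ^ 2) := by ring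
          _ ≤ AB / m0 ^ 2 * (r ⬝ᵥ z y) ^ 2 + (h ^ 2 * Z1) * (T / m0 ^ 2) := by
              have h6 : (r ⬝ᵥ z y) ^ 2 ≤ h ^ 2 * Z1 :=
                hb.2.trans (mul_le_mul_of_nonneg_right hrh hZ10)
              have h7 : 0 ≤ T / m0 ^ 2 := by positivity
              have := mul_le_mul_of_nonneg_right h6 h7
              linarith
          _ = _ := by ring
      calc _ ≤ ν y * (AB / m0 ^ 2 * (r ⬝ᵥ z y) ^ 2 + h ^ 2 * Z1 / m0 ^ 2 * T) :=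
            mul_le_mul_of_nonneg_left h3 hνy
        _ = _ := by ring
    · rw [if_neg hb, mul_zero]
      have h3 : 0 ≤ (if z y ⬝ᵥ z y ≤ Z then T else 0) := by
        split_ifs
        · exact hT0
        · exact le_rfl
      have h8 : 0 ≤ AB / m0 ^ 2 * (ν y * (r ⬝ᵥ z y) ^ 2) := by positivity
      have h9 : 0 ≤ h ^ 2 * Z1 / m0 ^ 2 * (ν y * (if z y ⬝ᵥ z y ≤ Z then T else 0)) := by
        positivity
      linarith
  -- average over x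
  have hsum : ∑ x ∈ Xg, μ x *
      ((TV ν z (R *ᵥ b x) *ᵥ (R *ᵥ b x)) ⬝ᵥ (TV ν z (R *ᵥ b x) *ᵥ (R *ᵥ b x))) ≤
      ∑ x ∈ Xg, (C * (μ x * ((R *ᵥ b x) ⬝ᵥ (R *ᵥ b x)) ^ 2) +
        AB / m0 ^ 2 * (μ x * ((R *ᵥ b x) ⬝ᵥ (R *ᵥ b x))) +
      h ^ 2 * Z1 / m0 ^ 2 * (μ x * ∑ y, ν y * (if z y ⬝ᵥ z y ≤ Z then
        (if AB < Vy y x then Vy y x else 0) else 0))) := by
    apply Finset.sum_le_sum
    intro x hxg
    calc _ ≤ μ x * _ := mul_le_mul_of_nonneg_left (hx x hxg) (hμ.1 x)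
      _ = _ := by ring
  refine hsum.trans ?_
  rw [Finset.sum_add_distrib, Finset.sum_add_distrib, ← Finset.mul_sum, ← Finset.mul_sum,
    ← Finset.mul_sum]
  have hlast : ∑ x ∈ Xg, μ x * ∑ y, ν y * (if z y ⬝ᵥ z y ≤ Z then
      (if AB < Vy y x then Vy y x else 0) else 0) ≤ Real.exp (-s) * AB := by
    calc _ ≤ ∑ x, μ x * ∑ y, ν y * (if z y ⬝ᵥ z y ≤ Z then
          (if AB < Vy y x then Vy y x else 0) else 0) := by
          apply Finset.sum_le_sum_of_subset_of_nonneg (Finset.subset_univ _)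
          intro x _ _
          apply mul_nonneg (hμ.1 x)
          apply Finset.sum_nonneg
          intro y _
          apply mul_nonneg (hν.1 y)
          split_ifs
          · exact hVy0 y x
          · exact le_rfl
          · exact le_rfl
      _ = ∑ y, ν y * (if z y ⬝ᵥ z y ≤ Z then
          ∑ x, μ x * (if AB < Vy y x then Vy y x else 0) else 0) := by
          simp only [Finset.mul_sum]
          rw [Finset.sum_comm]
          apply Finset.sum_congr rfl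
          intro y _
          by_cases hzy : z y ⬝ᵥ z y ≤ Z
          · simp only [if_pos hzy, Finset.mul_sum]
            apply Finset.sum_congr rfl
            intro x _
            ring
          · simp only [if_neg hzy]
            simp
      _ ≤ ∑ y, ν y * (Real.exp (-s) * AB) := by
          apply Finset.sum_le_sum
          intro y _
          apply mul_le_mul_of_nonneg_left _ (hν.1 y)
          by_cases hzy : z y ⬝ᵥ z y ≤ Z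
          · rw [if_pos hzy]
            have hgtr : (G y).trace ≤ t2 * Z / a := by
              rw [le_div_iff₀ ha]
              calc (G y).trace * a = a * (G y).trace := mul_comm _ _
                _ ≤ hs (TV ν z (z y)) := hGtr y
                _ ≤ t2 * (z y ⬝ᵥ z y) := h1 _
                _ ≤ t2 * Z := mul_le_mul_of_nonneg_left hzy ht2
            exact N1_row hμ hV h4 hkap hdel hR hRh (hGT y) (hG0 y) hc.le (hGc y) hgtr hs1 hAB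
          · rw [if_neg hzy]
            positivity
      _ = _ := by
          rw [← Finset.sum_mul, hν.2, one_mul]
  have h10 : h ^ 2 * Z1 / m0 ^ 2 * (∑ x ∈ Xg, μ x * ∑ y, ν y * (if z y ⬝ᵥ z y ≤ Z then
      (if AB < Vy y x then Vy y x else 0) else 0)) ≤
      h ^ 2 * Z1 / m0 ^ 2 * (Real.exp (-s) * AB) :=
    mul_le_mul_of_nonneg_left hlast (by positivity)
  have h11 : h ^ 2 * Z1 / m0 ^ 2 * (Real.exp (-s) * AB) =
      AB / m0 ^ 2 * (h ^ 2 * Z1 * Real.exp (-s)) := by ring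
  rw [h11] at h10
  rw [mul_add]
  linarith

/-- fourth moments of `A z_y` for a symmetric matrix `A` -/
theorem N1_w4 (hν : IsPr ν) (h5 : FT ν z (fun _ => 1) rho) (hrho : 0 ≤ rho)
    {A : Matrix ι ι ℝ} (hA : Aᵀ = A) {c : ℝ} (hAc : OpB A c) :
    ∑ y, ν y * ((A *ᵥ z y) ⬝ᵥ (A *ᵥ z y)) ^ 2 ≤
      2 * (2 * hs A + 2 * rho * c ^ 2) ^ 2 + 20 * (rho * c ^ 2) ^ 2 := by
  have hq : ∀ w : ι → ℝ, w ⬝ᵥ ((A * A) *ᵥ w) = (A *ᵥ w) ⬝ᵥ (A *ᵥ w) := by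
    intro w
    rw [← Matrix.mulVec_mulVec, dot_symm_mulVec hA]
  have hT : (A * A)ᵀ = A * A := by rw [Matrix.transpose_mul, hA]
  have hF : ∀ p : Y → ℝ, IsPr p → ∀ s' : ℝ, 0 ≤ s' → (∀ y, p y ≤ Real.exp s' * ν y) →
      ∑ y, p y * ((A *ᵥ z y) ⬝ᵥ (A *ᵥ z y)) ≤
        (2 * hs A + 2 * rho * c ^ 2) + (rho * c ^ 2) * s' := by
    intro p hp s' hs' hps
    have h1 := h5 p hp s' hs' hps (A * A) (c ^ 2) hT
      (fun w => by rw [hq]; exact dot_self_nonneg _)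
      (fun w => by rw [hq]; exact hAc w)
    simp only [hq] at h1
    have h2 : ∑ i, (1 : ℝ) * (A * A) i i = hs A := by
      rw [hs_symm hA]
      simp [Matrix.trace]
    rw [h2] at h1
    linarith
  exact tail_sq hν (V := fun y => (A *ᵥ z y) ⬝ᵥ (A *ᵥ z y)) (fun y => dot_self_nonneg _)
    (a := 2 * hs A + 2 * rho * c ^ 2) (b := rho * c ^ 2)
    (add_nonneg (mul_nonneg (by norm_num) (hs_nonneg A)) (by positivity)) (by positivity) hF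

theorem N1_proj_le {P : Matrix ι ι ℝ} (hP : IsProj P) (v : ι → ℝ) :
    ((1 - P) *ᵥ v) ⬝ᵥ ((1 - P) *ᵥ v) ≤ v ⬝ᵥ v := by
  have h1 : (P *ᵥ v) ⬝ᵥ (P *ᵥ v) = v ⬝ᵥ (P *ᵥ v) := by
    rw [← dot_symm_mulVec hP.1, Matrix.mulVec_mulVec, hP.2]
  have h2 : (1 - P) *ᵥ v = v - P *ᵥ v := by
    rw [Matrix.sub_mulVec, Matrix.one_mulVec]
  have h3 := dot_self_nonneg (P *ᵥ v)
  rw [h2]
  simp only [sub_dotProduct, dotProduct_sub]
  rw [dotProduct_comm (P *ᵥ v) v]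
  linarith

variable [Nonempty ι]

/-- **(N1)** in the format of `c2`: `ρ = K_y^< b_x`, averaged over the rows and the columns. -/
theorem n1_direct (hc : Core μ ν M U V be z t2 kap rho del2 w0 q2)
    (h1F : ∀ c : ι → ℝ, hs (TV ν z c) ≤ t2 * (c ⬝ᵥ c))
    {m0 W : ℝ} (hm0 : 0 < m0) (Xg : Finset X) (b : X → ι → ℝ)
    (hbx : ∀ x, b x = (Real.sqrt (be x ⬝ᵥ be x))⁻¹ • be x)
    (h1 : ∀ x ∈ Xg, m0 ^ 2 ≤ be x ⬝ᵥ be x) (hbW : ∀ x ∈ Xg, OpB (TV ν z (b x)) W)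
    (Yg : Finset Y) {h : ℝ} (P : Y → Matrix ι ι ℝ) (hP : ∀ y, IsProj (P y))
    (hPK : ∀ y, P y * TV ν z (z y) = TV ν z (z y) * P y)
    (hPh : ∀ y, OpB (TV ν z (z y) * (1 - P y)) h)
    {a c s : ℝ} (ha : 0 < a) (hac : a ≤ c) (hs1 : 1 ≤ s) {Z1 Z w4 w4' AB : ℝ}
    (hZ1 : Z1 = 2 + 2 * rho + rho * s) (hZ : Z = 2 * Fintype.card ι + 2 * rho + rho * s)
    (hw4 : w4 = 2 * (2 * t2 + 2 * rho * W ^ 2) ^ 2 + 20 * (rho * W ^ 2) ^ 2)
    (hw4' : w4' = 2 * (2 + 2 * rho) ^ 2 + 20 * rho ^ 2)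
    (hAB : AB = 2 * del2 * h ^ 2 * (t2 * Z / a) + 2 * kap * h ^ 2 * c + kap * h ^ 2 * c * s) :
    ∑ x ∈ Xg, ∑ y ∈ Yg, μ x * ν y *
      ((TV ν z ((TV ν z (z y) * (1 - P y)) *ᵥ b x) *ᵥ ((TV ν z (z y) * (1 - P y)) *ᵥ b x)) ⬝ᵥ
       (TV ν z ((TV ν z (z y) * (1 - P y)) *ᵥ b x) *ᵥ ((TV ν z (z y) * (1 - P y)) *ᵥ b x))) ≤
      (a + Z1 * t2 / c + Real.sqrt (t2 * (Real.exp (-s) * (Z + Z1)) * w4')) * w4 +
        AB / m0 ^ 2 * (t2 + h ^ 2 * Z1 * Real.exp (-s)) := by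
  classical
  have hμ := hc.prX
  have hν := hc.prY
  have hrho := hc.rho_nonneg
  have hkap := hc.kap_nonneg
  have ht2 : 0 ≤ t2 := zero_le_one.trans hc.t2_one
  have hc0 : 0 < c := lt_of_lt_of_le ha hac
  obtain ⟨i0⟩ := (inferInstance : Nonempty ι)
  have hdel : 0 ≤ del2 := (hc.V_nonneg i0).trans (hc.V_le i0)
  have hcard : (0 : ℝ) ≤ Fintype.card ι := Nat.cast_nonneg _
  have hZ10 : 0 ≤ Z1 := by rw [hZ1]; exact n1_z1 hrho hs1
  have hZ0 : 0 ≤ Z := by rw [hZ]; exact n1_z0 hrho hs1 _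
  have hAB0 : 0 ≤ AB := by rw [hAB]; positivity
  have hmm : 0 < m0 ^ 2 := by positivity
  have hβ : ∀ x ∈ Xg, 0 < be x ⬝ᵥ be x := fun x hx => lt_of_lt_of_le hmm (h1 x hx)
  have hb1 : ∀ x ∈ Xg, b x ⬝ᵥ b x = 1 := by
    intro x hx
    have h2 := hβ x hx
    rw [hbx, smul_dotProduct, dotProduct_smul, smul_eq_mul, smul_eq_mul, ← mul_assoc, ← mul_inv,
      Real.mul_self_sqrt h2.le, inv_mul_cancel₀ h2.ne']
  have hb2 : ∀ x ∈ Xg, ∃ t : ℝ, m0 ^ 2 * t ^ 2 ≤ 1 ∧ b x = t • be x := by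
    intro x hx
    have h2 := hβ x hx
    refine ⟨(Real.sqrt (be x ⬝ᵥ be x))⁻¹, ?_, hbx x⟩
    rw [inv_pow, Real.sq_sqrt h2.le, ← div_eq_mul_inv, div_le_one h2]
    exact h1 x hx
  have hRT : ∀ y, (TV ν z (z y) * (1 - P y))ᵀ = TV ν z (z y) * (1 - P y) := by
    intro y
    rw [Matrix.transpose_mul, Matrix.transpose_sub, Matrix.transpose_one, (hP y).1, TV_transpose,
      Matrix.sub_mul, Matrix.mul_sub, Matrix.one_mul, Matrix.mul_one, hPK]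
  have hle : ∀ x y, (((TV ν z (z y) * (1 - P y)) *ᵥ b x) ⬝ᵥ ((TV ν z (z y) * (1 - P y)) *ᵥ b x)) ≤
      (TV ν z (b x) *ᵥ z y) ⬝ᵥ (TV ν z (b x) *ᵥ z y) := by
    intro x y
    have h2 : (TV ν z (z y) * (1 - P y)) *ᵥ b x = (1 - P y) *ᵥ (TV ν z (b x) *ᵥ z y) := by
      rw [← TV_comm (z y) (b x), Matrix.mulVec_mulVec]
      congr 1
      rw [Matrix.sub_mul, Matrix.mul_sub, Matrix.one_mul, Matrix.mul_one, hPK]
    rw [h2]
    exact N1_proj_le (hP y) _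
  have hfix : ∀ y, ∑ x ∈ Xg, μ x *
      ((TV ν z ((TV ν z (z y) * (1 - P y)) *ᵥ b x) *ᵥ ((TV ν z (z y) * (1 - P y)) *ᵥ b x)) ⬝ᵥ
       (TV ν z ((TV ν z (z y) * (1 - P y)) *ᵥ b x) *ᵥ ((TV ν z (z y) * (1 - P y)) *ᵥ b x))) ≤
      (a + Z1 * t2 / c + Real.sqrt (t2 * (Real.exp (-s) * (Z + Z1)) * w4')) *
        ∑ x ∈ Xg, μ x * ((TV ν z (b x) *ᵥ z y) ⬝ᵥ (TV ν z (b x) *ᵥ z y)) ^ 2 +
      AB / m0 ^ 2 * (∑ x ∈ Xg, μ x * ((TV ν z (b x) *ᵥ z y) ⬝ᵥ (TV ν z (b x) *ᵥ z y)) +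
        h ^ 2 * Z1 * Real.exp (-s)) := by
    intro y
    refine (N1_fix hμ hν hc.iso hc.V_le hdel hc.f4 hkap hc.f5 hrho ht2 h1F hm0 Xg b
      (fun x hx => (hb1 x hx).le) hb2 (hRT y) (hPh y) ha hac hs1 hZ1 hZ hw4' hAB).trans ?_
    have hC0 : 0 ≤ a + Z1 * t2 / c + Real.sqrt (t2 * (Real.exp (-s) * (Z + Z1)) * w4') := by
      positivity
    apply add_le_add
    · apply mul_le_mul_of_nonneg_left _ hC0
      apply Finset.sum_le_sum
      intro x _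
      apply mul_le_mul_of_nonneg_left _ (hμ.1 x)
      exact pow_le_pow_left₀ (dot_self_nonneg _) (hle x y) 2
    · apply mul_le_mul_of_nonneg_left _ (by positivity)
      apply add_le_add _ le_rfl
      apply Finset.sum_le_sum
      intro x _
      exact mul_le_mul_of_nonneg_left (hle x y) (hμ.1 x)
  have hC0 : 0 ≤ a + Z1 * t2 / c + Real.sqrt (t2 * (Real.exp (-s) * (Z + Z1)) * w4') := by
    positivity
  have hXg : ∑ x ∈ Xg, μ x ≤ 1 := by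
    rw [← hμ.2]
    exact Finset.sum_le_sum_of_subset_of_nonneg (Finset.subset_univ _) fun x _ _ => hμ.1 x
  have hYg : ∑ y ∈ Yg, ν y ≤ 1 := by
    rw [← hν.2]
    exact Finset.sum_le_sum_of_subset_of_nonneg (Finset.subset_univ _) fun y _ _ => hν.1 y
  have hS4 : ∑ y ∈ Yg, ν y * ∑ x ∈ Xg, μ x *
      ((TV ν z (b x) *ᵥ z y) ⬝ᵥ (TV ν z (b x) *ᵥ z y)) ^ 2 ≤ w4 := by
    have hw40 : 0 ≤ w4 := by rw [hw4]; positivity
    calc _ ≤ ∑ y, ν y * ∑ x ∈ Xg, μ x *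
          ((TV ν z (b x) *ᵥ z y) ⬝ᵥ (TV ν z (b x) *ᵥ z y)) ^ 2 :=
          Finset.sum_le_sum_of_subset_of_nonneg (Finset.subset_univ _) fun y _ _ =>
            mul_nonneg (hν.1 y) (Finset.sum_nonneg fun x _ => mul_nonneg (hμ.1 x) (sq_nonneg _))
      _ = ∑ x ∈ Xg, μ x * ∑ y, ν y *
          ((TV ν z (b x) *ᵥ z y) ⬝ᵥ (TV ν z (b x) *ᵥ z y)) ^ 2 := by
          simp only [Finset.mul_sum]
          rw [Finset.sum_comm]
          apply Finset.sum_congr rfl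
          intro x _
          apply Finset.sum_congr rfl
          intro y _
          ring
      _ ≤ ∑ x ∈ Xg, μ x * w4 := by
          apply Finset.sum_le_sum
          intro x hx
          apply mul_le_mul_of_nonneg_left _ (hμ.1 x)
          refine (N1_w4 hν hc.f5 hrho (TV_transpose (b x)) (hbW x hx)).trans ?_
          rw [hw4]
          have h2 : hs (TV ν z (b x)) ≤ t2 := by
            have := h1F (b x)
            rw [hb1 x hx, mul_one] at this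
            exact this
          have h3 := hs_nonneg (TV ν z (b x))
          have h4 : 0 ≤ 2 * hs (TV ν z (b x)) + 2 * rho * W ^ 2 := by positivity
          have h5 : 2 * hs (TV ν z (b x)) + 2 * rho * W ^ 2 ≤ 2 * t2 + 2 * rho * W ^ 2 := by
            linarith
          have := pow_le_pow_left₀ h4 h5 2
          linarith
      _ = (∑ x ∈ Xg, μ x) * w4 := by rw [Finset.sum_mul]
      _ ≤ 1 * w4 := mul_le_mul_of_nonneg_right hXg hw40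
      _ = w4 := one_mul _
  have hS2 : ∑ y ∈ Yg, ν y * ∑ x ∈ Xg, μ x *
      ((TV ν z (b x) *ᵥ z y) ⬝ᵥ (TV ν z (b x) *ᵥ z y)) ≤ t2 := by
    calc _ ≤ ∑ y, ν y * ∑ x ∈ Xg, μ x *
          ((TV ν z (b x) *ᵥ z y) ⬝ᵥ (TV ν z (b x) *ᵥ z y)) :=
          Finset.sum_le_sum_of_subset_of_nonneg (Finset.subset_univ _) fun y _ _ =>
            mul_nonneg (hν.1 y) (Finset.sum_nonneg fun x _ => mul_nonneg (hμ.1 x)
              (dot_self_nonneg _))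
      _ = ∑ x ∈ Xg, μ x * ∑ y, ν y *
          ((TV ν z (b x) *ᵥ z y) ⬝ᵥ (TV ν z (b x) *ᵥ z y)) := by
          simp only [Finset.mul_sum]
          rw [Finset.sum_comm]
          apply Finset.sum_congr rfl
          intro x _
          apply Finset.sum_congr rfl
          intro y _
          ring
      _ ≤ ∑ x ∈ Xg, μ x * t2 := by
          apply Finset.sum_le_sum
          intro x hx
          apply mul_le_mul_of_nonneg_left _ (hμ.1 x)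
          rw [hc.iso.avg_sq]
          have := h1F (b x)
          rw [hb1 x hx, mul_one] at this
          exact this
      _ = (∑ x ∈ Xg, μ x) * t2 := by rw [Finset.sum_mul]
      _ ≤ 1 * t2 := mul_le_mul_of_nonneg_right hXg ht2
      _ = t2 := one_mul _
  have hsw : ∑ x ∈ Xg, ∑ y ∈ Yg, μ x * ν y *
      ((TV ν z ((TV ν z (z y) * (1 - P y)) *ᵥ b x) *ᵥ ((TV ν z (z y) * (1 - P y)) *ᵥ b x)) ⬝ᵥ
       (TV ν z ((TV ν z (z y) * (1 - P y)) *ᵥ b x) *ᵥ ((TV ν z (z y) * (1 - P y)) *ᵥ b x))) =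
      ∑ y ∈ Yg, ν y * ∑ x ∈ Xg, μ x *
      ((TV ν z ((TV ν z (z y) * (1 - P y)) *ᵥ b x) *ᵥ ((TV ν z (z y) * (1 - P y)) *ᵥ b x)) ⬝ᵥ
       (TV ν z ((TV ν z (z y) * (1 - P y)) *ᵥ b x) *ᵥ ((TV ν z (z y) * (1 - P y)) *ᵥ b x))) := by
    rw [Finset.sum_comm]
    apply Finset.sum_congr rfl
    intro y _
    rw [Finset.mul_sum]
    apply Finset.sum_congr rfl
    intro x _
    ring
  rw [hsw]
  set C := a + Z1 * t2 / c + Real.sqrt (t2 * (Real.exp (-s) * (Z + Z1)) * w4') with hC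
  calc _ ≤ ∑ y ∈ Yg, ν y * (C * ∑ x ∈ Xg, μ x *
        ((TV ν z (b x) *ᵥ z y) ⬝ᵥ (TV ν z (b x) *ᵥ z y)) ^ 2 +
      AB / m0 ^ 2 * (∑ x ∈ Xg, μ x * ((TV ν z (b x) *ᵥ z y) ⬝ᵥ (TV ν z (b x) *ᵥ z y)) +
        h ^ 2 * Z1 * Real.exp (-s))) :=
        Finset.sum_le_sum fun y _ => mul_le_mul_of_nonneg_left (hfix y) (hν.1 y)
    _ = C * (∑ y ∈ Yg, ν y * ∑ x ∈ Xg, μ x *
        ((TV ν z (b x) *ᵥ z y) ⬝ᵥ (TV ν z (b x) *ᵥ z y)) ^ 2) +
      AB / m0 ^ 2 * ((∑ y ∈ Yg, ν y * ∑ x ∈ Xg, μ x *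
        ((TV ν z (b x) *ᵥ z y) ⬝ᵥ (TV ν z (b x) *ᵥ z y))) +
        (∑ y ∈ Yg, ν y) * (h ^ 2 * Z1 * Real.exp (-s))) := by
        rw [Finset.sum_mul, ← Finset.sum_add_distrib, Finset.mul_sum, Finset.mul_sum,
          ← Finset.sum_add_distrib]
        apply Finset.sum_congr rfl
        intro y _
        ring
    _ ≤ C * w4 + AB / m0 ^ 2 * (t2 + 1 * (h ^ 2 * Z1 * Real.exp (-s))) := by
        apply add_le_add
        · exact mul_le_mul_of_nonneg_left hS4 hC0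
        · apply mul_le_mul_of_nonneg_left _ (by positivity)
          apply add_le_add hS2
          exact mul_le_mul_of_nonneg_right hYg (by positivity)
    _ = _ := by ring

end Main

end Pool.Agent.LRC
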