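import Pool.Agent.Lib_helper39.LR2.MKc
import Pool.Agent.Lib_helper94.LRC.Tri

/-!
# Block R1 of LRC: the random sign average (section D4 of LR_Dec)
-/

set_option autoImplicit false
set_option linter.unusedSectionVars false

open Finset Matrix

namespace Pool.Agent.LRC

open Pool.Agent.LR2

section Rad

variable {ι : Type} [Fintype ι] [DecidableEq ι]

/-- uniform average over sign vectors -/
noncomputable def r1E (f : (ι → Bool) → ℝ) : ℝ := 1 / 2 ^ Fintype.card ι * ∑ g, f g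

omit [DecidableEq ι] in
theorem r1_sum_flip [DecidableEq ι] (i : ι) (f : (ι → Bool) → ℝ) :
    ∑ g, f (mkflip i g) = ∑ g, f g := mk_sum_flip i f

theorem r1E_const (c : ℝ) : r1E (fun _ : ι → Bool => c) = c := by
  unfold r1E
  rw [Finset.sum_const, Finset.card_univ, Fintype.card_fun, Fintype.card_bool, nsmul_eq_mul]
  push_cast
  field_simp

theorem r1E_add (f h : (ι → Bool) → ℝ) : r1E (fun g => f g + h g) = r1E f + r1E h := by
  unfold r1E
  rw [Finset.sum_add_distrib, mul_add]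

theorem r1E_smul (c : ℝ) (f : (ι → Bool) → ℝ) : r1E (fun g => c * f g) = c * r1E f := by
  unfold r1E
  rw [← Finset.mul_sum]
  ring

theorem r1E_sum {κ : Type} (s : Finset κ) (f : κ → (ι → Bool) → ℝ) :
    r1E (fun g => ∑ k ∈ s, f k g) = ∑ k ∈ s, r1E (f k) := by
  unfold r1E
  rw [Finset.sum_comm, Finset.mul_sum]

theorem r1E_mono {f h : (ι → Bool) → ℝ} (H : ∀ g, f g ≤ h g) : r1E f ≤ r1E h := by
  unfold r1E
  exact mul_le_mul_of_nonneg_left (Finset.sum_le_sum fun g _ => H g) (by positivity)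

theorem r1E_nonneg {f : (ι → Bool) → ℝ} (H : ∀ g, 0 ≤ f g) : 0 ≤ r1E f := by
  unfold r1E
  exact mul_nonneg (by positivity) (Finset.sum_nonneg fun g _ => H g)

theorem r1_orth (i j : ι) : r1E (fun g : ι → Bool => sg (g i) * sg (g j)) =
    if i = j then 1 else 0 := by
  by_cases h : i = j
  · subst h
    simp only [mk_sg_sq, if_true]
    exact r1E_const 1
  · rw [if_neg h]
    have h1 := mk_sum_flip i (fun g : ι → Bool => sg (g i) * sg (g j))
    have h2 : ∀ g : ι → Bool, sg (mkflip i g i) * sg (mkflip i g j) = -(sg (g i) * sg (g j)) := by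
      intro g
      have e1 : mkflip i g i = !g i := by
        unfold mkflip
        rw [Function.update_self]
      have e2 : mkflip i g j = g j := by
        unfold mkflip
        rw [Function.update_of_ne (Ne.symm h)]
      rw [e1, e2, mk_sg_not]
      ring
    simp only [h2] at h1
    rw [Finset.sum_neg_distrib] at h1
    have h3 : ∑ g : ι → Bool, sg (g i) * sg (g j) = 0 := by linarith
    unfold r1E
    rw [h3, mul_zero]

/-- the linear form -/
def r1ip (c : ι → ℝ) (g : ι → Bool) : ℝ := ∑ i, c i * sg (g i)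

theorem r1_ip_sg (c : ι → ℝ) (i : ι) : r1E (fun g => r1ip c g * sg (g i)) = c i := by
  unfold r1ip
  simp only [Finset.sum_mul]
  rw [r1E_sum]
  have h : ∀ j, r1E (fun g : ι → Bool => c j * sg (g j) * sg (g i)) =
      if j = i then c i else 0 := by
    intro j
    simp only [mul_assoc]
    rw [r1E_smul, r1_orth]
    by_cases hj : j = i
    · simp [hj]
    · simp [hj]
  simp only [h]
  simp

theorem r1_ip_mul (c : ι → ℝ) (h : (ι → Bool) → ℝ) :
    r1E (fun g => h g * r1ip c g) = ∑ i, c i * r1E (fun g => h g * sg (g i)) := by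
  unfold r1ip
  simp only [Finset.mul_sum]
  rw [r1E_sum]
  apply Finset.sum_congr rfl
  intro i _
  rw [← r1E_smul]
  congr 1
  funext g
  ring

theorem r1_ip_sq (c : ι → ℝ) : r1E (fun g => r1ip c g ^ 2) = ∑ i, c i ^ 2 := by
  simp only [sq]
  rw [r1_ip_mul]
  simp only [r1_ip_sg]

theorem r1_bessel (h : (ι → Bool) → ℝ) :
    ∑ i, r1E (fun g => h g * sg (g i)) ^ 2 ≤ r1E (fun g => h g ^ 2) := by
  set c : ι → ℝ := fun i => r1E (fun g => h g * sg (g i)) with hc
  have h1 : 0 ≤ r1E (fun g => (h g - r1ip c g) ^ 2) := r1E_nonneg fun g => sq_nonneg _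
  have h2 : r1E (fun g => (h g - r1ip c g) ^ 2) =
      r1E (fun g => h g ^ 2) + (-2) * r1E (fun g => h g * r1ip c g) +
        r1E (fun g => r1ip c g ^ 2) := by
    rw [← r1E_smul, ← r1E_add, ← r1E_add]
    congr 1
    funext g
    ring
  rw [h2, r1_ip_mul, r1_ip_sq] at h1
  have h3 : ∑ i, c i * r1E (fun g => h g * sg (g i)) = ∑ i, c i ^ 2 := by
    apply Finset.sum_congr rfl
    intro i _
    rw [sq]
  rw [h3] at h1
  linarith

theorem r1_exp (c : ι → ℝ) : r1E (fun g => Real.exp (r1ip c g)) ≤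
    Real.exp ((∑ i, c i ^ 2) / 2) := by
  have h1 : ∀ g : ι → Bool, Real.exp (r1ip c g) = ∏ i, Real.exp (c i * sg (g i)) := by
    intro g
    unfold r1ip
    rw [Real.exp_sum]
  have h2 : ∑ g : ι → Bool, ∏ i, Real.exp (c i * sg (g i)) =
      ∏ i, ∑ b : Bool, Real.exp (c i * sg b) := by
    rw [Finset.prod_univ_sum, Fintype.piFinset_univ]
  have h3 : ∀ i, ∑ b : Bool, Real.exp (c i * sg b) = 2 * Real.cosh (c i) := by
    intro i
    rw [Fintype.sum_bool, Real.cosh_eq]
    simp only [sg, if_true, Bool.false_eq_true, if_false]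
    rw [mul_one, mul_neg_one]
    ring
  unfold r1E
  simp only [h1]
  rw [h2]
  simp only [h3]
  rw [Finset.prod_mul_distrib, Finset.prod_const, Finset.card_univ]
  have h4 : (1 / 2 ^ Fintype.card ι : ℝ) * (2 ^ Fintype.card ι * ∏ i, Real.cosh (c i)) =
      ∏ i, Real.cosh (c i) := by
    field_simp
  rw [h4, Finset.sum_div, Real.exp_sum]
  apply Finset.prod_le_prod
  · intro i _
    exact (Real.cosh_pos _).le
  · intro i _
    exact Real.cosh_le_exp_half_sq _

/-- clipping -/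
noncomputable def r1cl (lg t : ℝ) : ℝ := max (-lg) (min lg t)

theorem r1cl_abs {lg : ℝ} (h : 0 ≤ lg) (t : ℝ) : |r1cl lg t| ≤ lg := by
  unfold r1cl
  rw [abs_le]
  exact ⟨le_max_left _ _, max_le (by linarith) (min_le_left _ _)⟩

theorem r1cl_sq {lg : ℝ} (h : 0 ≤ lg) (t : ℝ) : r1cl lg t ^ 2 ≤ t ^ 2 := by
  unfold r1cl
  rw [sq_le_sq]
  rcases le_total lg t with h1 | h1
  · rw [min_eq_left h1, max_eq_right (by linarith), abs_of_nonneg h, abs_of_nonneg (by linarith)]
    exact h1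
  · rw [min_eq_right h1]
    rcases le_total (-lg) t with h2 | h2
    · rw [max_eq_right h2]
    · rw [max_eq_left h2, abs_neg, abs_of_nonneg h, abs_of_nonpos (by linarith)]
      linarith

theorem r1_sq_exp {lg y : ℝ} (h : 1 ≤ lg) (hy : 0 ≤ y) : y ^ 2 ≤ 2 * Real.exp (lg * y) := by
  have h1 := Real.quadratic_le_exp_of_nonneg hy
  have h2 : Real.exp y ≤ Real.exp (lg * y) := Real.exp_le_exp.2 (by nlinarith)
  nlinarith

theorem r1cl_err {lg : ℝ} (h : 1 ≤ lg) (t : ℝ) : (r1cl lg t - t) ^ 2 ≤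
    2 * Real.exp (-lg ^ 2) * (Real.exp (lg * t) + Real.exp (lg * (-t))) := by
  have e1 : 2 * Real.exp (-lg ^ 2) * (Real.exp (lg * t) + Real.exp (lg * (-t))) =
      2 * Real.exp (lg * (t - lg)) + 2 * Real.exp (lg * (-t - lg)) := by
    have a1 : Real.exp (lg * (t - lg)) = Real.exp (-lg ^ 2) * Real.exp (lg * t) := by
      rw [← Real.exp_add]
      congr 1
      ring
    have a2 : Real.exp (lg * (-t - lg)) = Real.exp (-lg ^ 2) * Real.exp (lg * (-t)) := by
      rw [← Real.exp_add]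
      congr 1
      ring
    rw [a1, a2]
    ring
  rw [e1]
  have p1 := Real.exp_pos (lg * (t - lg))
  have p2 := Real.exp_pos (lg * (-t - lg))
  unfold r1cl
  rcases le_total lg t with h1 | h1
  · rw [min_eq_left h1, max_eq_right (by linarith)]
    have := r1_sq_exp h (y := t - lg) (by linarith)
    nlinarith
  · rw [min_eq_right h1]
    rcases le_total (-lg) t with h2 | h2
    · rw [max_eq_right h2, sub_self]
      nlinarith
    · rw [max_eq_left h2]
      have := r1_sq_exp h (y := -t - lg) (by linarith)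
      nlinarith

theorem r1_err {c : ι → ℝ} (hc : ∑ i, c i ^ 2 ≤ 1) {lg : ℝ} (h : 1 ≤ lg) :
    r1E (fun g => (r1cl lg (r1ip c g) - r1ip c g) ^ 2) ≤ 4 * Real.exp (lg - lg ^ 2 / 2) := by
  have h1 : r1E (fun g => (r1cl lg (r1ip c g) - r1ip c g) ^ 2) ≤
      2 * Real.exp (-lg ^ 2) * (r1E (fun g => Real.exp (r1ip (fun i => lg * c i) g)) +
        r1E (fun g => Real.exp (r1ip (fun i => -(lg * c i)) g))) := by
    rw [← r1E_add, ← r1E_smul]
    apply r1E_mono
    intro g
    refine (r1cl_err h _).trans (le_of_eq ?_)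
    congr 2
    · congr 1
      unfold r1ip
      rw [Finset.mul_sum]
      apply Finset.sum_congr rfl
      intro i _
      ring
    · congr 1
      unfold r1ip
      rw [mul_neg, Finset.mul_sum, ← Finset.sum_neg_distrib]
      apply Finset.sum_congr rfl
      intro i _
      ring
  have h2 := r1_exp (fun i => lg * c i)
  have h3 := r1_exp (fun i => -(lg * c i))
  have h4 : ∑ i, (lg * c i) ^ 2 ≤ lg ^ 2 := by
    simp only [mul_pow]
    rw [← Finset.mul_sum]
    nlinarith [sq_nonneg lg]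
  have h5 : ∑ i, (-(lg * c i)) ^ 2 ≤ lg ^ 2 := by
    simp only [neg_sq]
    exact h4
  have h6 : Real.exp ((∑ i, (lg * c i) ^ 2) / 2) ≤ Real.exp (lg ^ 2 / 2) :=
    Real.exp_le_exp.2 (by linarith)
  have h7 : Real.exp ((∑ i, (-(lg * c i)) ^ 2) / 2) ≤ Real.exp (lg ^ 2 / 2) :=
    Real.exp_le_exp.2 (by linarith)
  refine h1.trans ?_
  calc 2 * Real.exp (-lg ^ 2) * (r1E (fun g => Real.exp (r1ip (fun i => lg * c i) g)) +
        r1E (fun g => Real.exp (r1ip (fun i => -(lg * c i)) g))) ≤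
      2 * Real.exp (-lg ^ 2) * (Real.exp (lg ^ 2 / 2) + Real.exp (lg ^ 2 / 2)) := by
        apply mul_le_mul_of_nonneg_left _ (by positivity)
        linarith
    _ = 4 * (Real.exp (-lg ^ 2) * Real.exp (lg ^ 2 / 2)) := by ring
    _ = 4 * Real.exp (-lg ^ 2 / 2) := by
        rw [← Real.exp_add]
        congr 2
        ring
    _ ≤ _ := by
        apply mul_le_mul_of_nonneg_left _ (by norm_num)
        apply Real.exp_le_exp.2
        linarith

end Rad

section Prod

variable {Ω : Type} [Fintype Ω] [DecidableEq Ω]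

theorem r1_marg2 {w : Ω → ℝ} (hw1 : ∑ a, w a = 1) {L : ℕ} {l k : Fin L} (hlk : l ≠ k)
    (y : Ω → ℝ) :
    ∑ ω : Fin L → Ω, mkpw w ω * (y (ω l) * y (ω k)) = (∑ a, w a * y a) ^ 2 := by
  have h1 : ∀ ω : Fin L → Ω, mkpw w ω * (y (ω l) * y (ω k)) =
      ∏ j, (w (ω j) * ((if j = l then y (ω j) else 1) * (if j = k then y (ω j) else 1))) := by
    intro ω
    rw [Finset.prod_mul_distrib, Finset.prod_mul_distrib, Finset.prod_ite_eq',
      Finset.prod_ite_eq']
    simp [mkpw]
  simp only [h1]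
  rw [mk_prod_sum (fun j b => w b * ((if j = l then y b else 1) * (if j = k then y b else 1))),
    Finset.prod_eq_mul l k hlk]
  · simp [hlk, hlk.symm]
    ring
  · intro j _ hj
    simp [hj.1, hj.2, hw1]
  · intro h
    exact absurd (Finset.mem_univ _) h
  · intro h
    exact absurd (Finset.mem_univ _) h

theorem r1_second {w : Ω → ℝ} (hw1 : ∑ a, w a = 1) (L : ℕ) (y : Ω → ℝ) :
    ∑ ω : Fin L → Ω, mkpw w ω * (∑ l, y (ω l)) ^ 2 ≤
      L * ∑ a, w a * y a ^ 2 + L ^ 2 * (∑ a, w a * y a) ^ 2 := by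
  have h1 : ∀ ω : Fin L → Ω, mkpw w ω * (∑ l, y (ω l)) ^ 2 =
      ∑ l, ∑ k, mkpw w ω * (y (ω l) * y (ω k)) := by
    intro ω
    rw [sq, Finset.sum_mul_sum, Finset.mul_sum]
    apply Finset.sum_congr rfl
    intro l _
    rw [Finset.mul_sum]
  simp only [h1]
  rw [Finset.sum_comm]
  have h2 : ∀ l : Fin L, ∑ ω : Fin L → Ω, ∑ k, mkpw w ω * (y (ω l) * y (ω k)) ≤
      ∑ k : Fin L, ((if l = k then ∑ a, w a * y a ^ 2 else 0) + (∑ a, w a * y a) ^ 2) := by
    intro l
    rw [Finset.sum_comm]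
    apply Finset.sum_le_sum
    intro k _
    by_cases h : l = k
    · subst h
      rw [if_pos rfl]
      have h3 := mk_marg hw1 l (fun a => y a ^ 2)
      simp only [smul_eq_mul] at h3
      have h4 : ∑ ω : Fin L → Ω, mkpw w ω * (y (ω l) * y (ω l)) = ∑ a, w a * y a ^ 2 := by
        rw [← h3]
        apply Finset.sum_congr rfl
        intro ω _
        ring
      rw [h4]
      have := sq_nonneg (∑ a, w a * y a)
      linarith
    · rw [if_neg h, r1_marg2 hw1 h, zero_add]
  refine (Finset.sum_le_sum fun l _ => h2 l).trans (le_of_eq ?_)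
  simp only [Finset.sum_add_distrib, Finset.sum_ite_eq, Finset.mem_univ, if_true,
    Finset.sum_const, Finset.card_univ, Fintype.card_fin, nsmul_eq_mul]
  ring

theorem r1_second_hs {κ : Type} [Fintype κ] {w : Ω → ℝ} (hw1 : ∑ a, w a = 1) (L : ℕ)
    (Y : Ω → Matrix κ κ ℝ) :
    ∑ ω : Fin L → Ω, mkpw w ω * hs (∑ l, Y (ω l)) ≤
      L * ∑ a, w a * hs (Y a) + L ^ 2 * hs (∑ a, w a • Y a) := by
  have h1 : ∀ ω : Fin L → Ω, mkpw w ω * hs (∑ l, Y (ω l)) =
      ∑ i, ∑ j, mkpw w ω * (∑ l, Y (ω l) i j) ^ 2 := by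
    intro ω
    unfold hs
    simp only [Finset.mul_sum, Matrix.sum_apply]
  simp only [h1]
  have h2 : ∑ ω : Fin L → Ω, ∑ i, ∑ j, mkpw w ω * (∑ l, Y (ω l) i j) ^ 2 =
      ∑ i, ∑ j, ∑ ω : Fin L → Ω, mkpw w ω * (∑ l, Y (ω l) i j) ^ 2 := by
    rw [Finset.sum_comm]
    apply Finset.sum_congr rfl
    intro i _
    rw [Finset.sum_comm]
  rw [h2]
  have h3 : ∑ i, ∑ j, ∑ ω : Fin L → Ω, mkpw w ω * (∑ l, Y (ω l) i j) ^ 2 ≤
      ∑ i, ∑ j, (L * ∑ a, w a * Y a i j ^ 2 + L ^ 2 * (∑ a, w a * Y a i j) ^ 2) := by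
    apply Finset.sum_le_sum
    intro i _
    apply Finset.sum_le_sum
    intro j _
    exact r1_second hw1 L (fun a => Y a i j)
  refine h3.trans (le_of_eq ?_)
  simp only [Finset.sum_add_distrib]
  congr 1
  · unfold hs
    simp only [Finset.mul_sum]
    rw [Finset.sum_comm' (t' := Finset.univ) (s' := fun _ => Finset.univ) (by simp)]
    have : ∀ j : κ, ∑ x : κ, ∑ i : Ω, (L : ℝ) * (w i * Y i x j ^ 2) =
        ∑ i : Ω, ∑ x : κ, (L : ℝ) * (w i * Y i x j ^ 2) := fun j => Finset.sum_comm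
    simp only [this]
    rw [Finset.sum_comm]
    apply Finset.sum_congr rfl
    intro a _
    rw [Finset.sum_comm]
  · unfold hs
    simp only [Finset.mul_sum, Matrix.sum_apply, Matrix.smul_apply, smul_eq_mul]

end Prod

end Pool.Agent.LRC
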