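import Pool.Agent.Lib_helper94.LRC.Defs
import Pool.Agent.Lib_helper94.LRF.R1a

/-!
# Block R1 of LRC: the theorem
-/

set_option autoImplicit false
set_option linter.unusedSectionVars false

open Finset Matrix

namespace Pool.Agent.LRC

open Pool.Agent.LR2

section Main

variable {X ι κ : Type} [Fintype X] [Fintype ι] [DecidableEq ι] [Fintype κ] [DecidableEq κ]

theorem r1_nsq (v : κ → ℝ) : mknsq v = v ⬝ᵥ v := by
  unfold mknsq dotProduct
  simp only [sq]

/-- combination -/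
def r1X (Xm : ι → Matrix κ κ ℝ) (c : ι → ℝ) : Matrix κ κ ℝ := ∑ i, c i • Xm i

theorem r1X_bound {Xm : ι → Matrix κ κ ℝ} {th : ℝ}
    (hth : ∀ v, ∑ i, (Xm i *ᵥ v) ⬝ᵥ (Xm i *ᵥ v) ≤ th * (v ⬝ᵥ v)) (c : ι → ℝ) (v : κ → ℝ) :
    mknsq (r1X Xm c *ᵥ v) ≤ (∑ i, c i ^ 2) * (th * mknsq v) := by
  have h1 : ∀ a, (r1X Xm c *ᵥ v) a = ∑ i, c i * (Xm i *ᵥ v) a := by
    intro a
    unfold r1X
    rw [Matrix.sum_mulVec, Finset.sum_apply]
    apply Finset.sum_congr rfl
    intro i _
    rw [Matrix.smul_mulVec, Pi.smul_apply, smul_eq_mul]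
  unfold mknsq
  simp only [h1]
  calc ∑ a, (∑ i, c i * (Xm i *ᵥ v) a) ^ 2 ≤
      ∑ a, (∑ i, c i ^ 2) * ∑ i, (Xm i *ᵥ v) a ^ 2 := by
        apply Finset.sum_le_sum
        intro a _
        exact Finset.sum_mul_sq_le_sq_mul_sq _ _ _
    _ = (∑ i, c i ^ 2) * ∑ i, (Xm i *ᵥ v) ⬝ᵥ (Xm i *ᵥ v) := by
        rw [← Finset.mul_sum, Finset.sum_comm]
        congr 1
        apply Finset.sum_congr rfl
        intro i _
        exact r1_nsq _
    _ ≤ (∑ i, c i ^ 2) * (th * (v ⬝ᵥ v)) :=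
        mul_le_mul_of_nonneg_left (hth v) (Finset.sum_nonneg fun _ _ => sq_nonneg _)
    _ = _ := by
        rw [← r1_nsq]
        rfl

theorem r1_dens {μ : X → ℝ} (hμ : IsPr μ) {be : X → κ → ℝ} {V : κ → ℝ} {kap : ℝ}
    (hkap : 0 ≤ kap) (hF4 : FT μ be V kap) {f : X → ℝ} {S : ℝ} (hf0 : ∀ x, 0 < f x)
    (hfS : ∀ x, f x ≤ Real.exp S) {K : Matrix κ κ ℝ} {c : ℝ} (hK : Kᵀ = K)
    (hK0 : ∀ w, 0 ≤ w ⬝ᵥ (K *ᵥ w)) (hKc : ∀ w, w ⬝ᵥ (K *ᵥ w) ≤ c * (w ⬝ᵥ w)) (hc : 0 ≤ c) :
    ∑ x, μ x * (f x * (be x ⬝ᵥ (K *ᵥ be x))) ≤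
      (∑ x, μ x * f x) * (2 * ∑ i, V i * K i i + kap * c * (S + 2)) + kap * c := by
  set Z := ∑ x, μ x * f x with hZ
  have hZ0 : 0 < Z := by
    have h1 : ∃ x ∈ (Finset.univ : Finset X), 0 < μ x := by
      by_contra hcon
      push Not at hcon
      have h2 : ∑ x, μ x ≤ 0 := Finset.sum_nonpos hcon
      rw [hμ.sum] at h2
      linarith
    obtain ⟨x, -, hx⟩ := h1
    exact Finset.sum_pos' (fun y _ => mul_nonneg (hμ.nonneg y) (hf0 y).le)
      ⟨x, Finset.mem_univ x, mul_pos hx (hf0 x)⟩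
  have hZS : Z ≤ Real.exp S := by
    calc Z ≤ ∑ x, μ x * Real.exp S :=
          Finset.sum_le_sum fun x _ => mul_le_mul_of_nonneg_left (hfS x) (hμ.nonneg x)
      _ = Real.exp S := by rw [← Finset.sum_mul, hμ.sum, one_mul]
  have hlogZ : Real.log Z ≤ S := by
    rw [Real.log_le_iff_le_exp hZ0]
    exact hZS
  have hp : IsPr (fun x => μ x * f x / Z) := by
    refine ⟨fun x => div_nonneg (mul_nonneg (hμ.nonneg x) (hf0 x).le) hZ0.le, ?_⟩
    rw [← Finset.sum_div, ← hZ, div_self hZ0.ne']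
  have h1 := hF4 _ hp (S - Real.log Z) (by linarith) (by
    intro x
    rw [Real.exp_sub, Real.exp_log hZ0, div_mul_eq_mul_div]
    apply div_le_div_of_nonneg_right _ hZ0.le
    rw [mul_comm]
    exact mul_le_mul_of_nonneg_right (hfS x) (hμ.nonneg x)) K c hK hK0 hKc
  have h2 : ∑ x, μ x * (f x * (be x ⬝ᵥ (K *ᵥ be x))) =
      Z * ∑ x, μ x * f x / Z * (be x ⬝ᵥ (K *ᵥ be x)) := by
    rw [Finset.mul_sum]
    apply Finset.sum_congr rfl
    intro x _
    field_simp
  rw [h2]
  have h3 : Z * ∑ x, μ x * f x / Z * (be x ⬝ᵥ (K *ᵥ be x)) ≤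
      Z * (2 * ∑ i, V i * K i i + kap * c * (S - Real.log Z + 2)) :=
    mul_le_mul_of_nonneg_left h1 hZ0.le
  refine h3.trans ?_
  have h4 : Z * (-Real.log Z) ≤ 1 := by
    have h5 := Real.log_le_sub_one_of_pos (inv_pos.2 hZ0)
    rw [Real.log_inv] at h5
    calc Z * (-Real.log Z) ≤ Z * (Z⁻¹ - 1) := mul_le_mul_of_nonneg_left h5 hZ0.le
      _ = 1 - Z := by
          rw [mul_sub, mul_inv_cancel₀ hZ0.ne', mul_one]
      _ ≤ 1 := by linarith
  have h6 : 0 ≤ kap * c := mul_nonneg hkap hc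
  have h7 : kap * c * (Z * (-Real.log Z)) ≤ kap * c * 1 := mul_le_mul_of_nonneg_left h4 h6
  calc Z * (2 * ∑ i, V i * K i i + kap * c * (S - Real.log Z + 2)) =
      Z * (2 * ∑ i, V i * K i i + kap * c * (S + 2)) + kap * c * (Z * (-Real.log Z)) := by ring
    _ ≤ _ := by linarith

theorem r1_flip {L : ℕ} (Xm : ι → Matrix κ κ ℝ) :
    ∑ ω : Fin L → (ι → Bool) × Bool, opn (∑ l, sg (ω l).2 • mkS Xm (ω l).1) ^ 2 =
      2 ^ L * ∑ g : Fin L → ι → Bool, opn (∑ l, mkS Xm (g l)) ^ 2 := by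
  rw [← (Equiv.arrowProdEquivProdArrow (Fin L) (fun _ => ι → Bool) (fun _ => Bool)).symm.sum_comp,
    Fintype.sum_prod_type, Finset.sum_comm]
  have h1 : ∀ ξ : Fin L → Bool, ∑ g : Fin L → ι → Bool, opn (∑ l,
      sg (((Equiv.arrowProdEquivProdArrow (Fin L) (fun _ => ι → Bool)
        (fun _ => Bool)).symm (g, ξ)) l).2 •
        mkS Xm (((Equiv.arrowProdEquivProdArrow (Fin L) (fun _ => ι → Bool)
        (fun _ => Bool)).symm (g, ξ)) l).1) ^ 2 =
      ∑ g : Fin L → ι → Bool, opn (∑ l, mkS Xm (g l)) ^ 2 := by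
    intro ξ
    rw [← mk_g_shift ξ (fun g => opn (∑ l, mkS Xm (g l)) ^ 2)]
    apply Finset.sum_congr rfl
    intro g _
    congr 2
    apply Finset.sum_congr rfl
    intro l _
    rw [← mk_smul_S]
    rfl
  simp only [h1]
  rw [Finset.sum_const, Finset.card_univ, Fintype.card_fun, Fintype.card_bool, Fintype.card_fin,
    nsmul_eq_mul]
  push_cast
  rfl

theorem r1_mkS_hs (Xm : ι → Matrix κ κ ℝ) :
    1 / 2 ^ Fintype.card ι * ∑ g : ι → Bool, hs (mkS Xm g) = ∑ i, hs (Xm i) := by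
  have h1 : r1E (fun g : ι → Bool => hs (mkS Xm g)) = ∑ i, hs (Xm i) := by
    have h2 : ∀ g : ι → Bool, hs (mkS Xm g) = ∑ a, ∑ b, r1ip (fun i => Xm i a b) g ^ 2 := by
      intro g
      unfold hs mkS r1ip
      apply Finset.sum_congr rfl
      intro a _
      apply Finset.sum_congr rfl
      intro b _
      rw [Matrix.sum_apply]
      congr 1
      apply Finset.sum_congr rfl
      intro i _
      rw [Matrix.smul_apply, smul_eq_mul, mul_comm]
    simp only [h2]
    rw [r1E_sum]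
    have h3 : ∀ a, r1E (fun g : ι → Bool => ∑ b, r1ip (fun i => Xm i a b) g ^ 2) =
        ∑ b, ∑ i, Xm i a b ^ 2 := by
      intro a
      rw [r1E_sum]
      simp only [r1_ip_sq]
    simp only [h3]
    unfold hs
    rw [Finset.sum_comm]
    have h4 : ∀ b : κ, ∑ a : κ, ∑ i : ι, Xm i a b ^ 2 = ∑ i : ι, ∑ a : κ, Xm i a b ^ 2 :=
      fun b => Finset.sum_comm
    simp only [h4]
    rw [Finset.sum_comm]
    apply Finset.sum_congr rfl
    intro i _
    rw [Finset.sum_comm]
  exact h1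

/-- R1 -/
theorem r1_pr
    {μ : X → ℝ} (hμ : IsPr μ) {be : X → κ → ℝ} {V : κ → ℝ} (hV : ∀ i, 0 ≤ V i) {del2 kap : ℝ}
    (hdel : ∀ i, V i ≤ del2) (hkap : 0 ≤ kap) (hF4 : FT μ be V kap)
    {Xm : ι → Matrix κ κ ℝ} (hsym : ∀ i, (Xm i)ᵀ = Xm i) {th h1 t2 : ℝ} (hth0 : 0 ≤ th)
    (hth : ∀ v, ∑ i, (Xm i *ᵥ v) ⬝ᵥ (Xm i *ᵥ v) ≤ th * (v ⬝ᵥ v))
    (hh1 : ∑ i, hs (Xm i) ≤ h1)
    (ht2 : ∀ c : ι → ℝ, hs (∑ i, c i • Xm i) ≤ t2 * (c ⬝ᵥ c)) (ht20 : 0 ≤ t2) (hdel0 : 0 ≤ del2)
    {ψ : X → ι → ℝ} (hψ : ∀ x, ψ x ⬝ᵥ ψ x ≤ 1) (hbe : ∀ x, be x ⬝ᵥ be x ≤ 16)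
    {L : ℕ} (hL : 1 ≤ L) {lg : ℝ} (hlg : 1 ≤ lg) :
    ∑ x, μ x * (((∑ i, ψ x i • Xm i) *ᵥ be x) ⬝ᵥ ((∑ i, ψ x i • Xm i) *ᵥ be x)) ≤
      2 * lg ^ 2 * (8 * del2 * (h1 / L + t2) +
        kap * th * (5 * L + 500 * (1 + Real.log (Fintype.card κ)))) +
      128 * th * Real.exp (lg - lg ^ 2 / 2) := by
  have hlg0 : 0 < lg := by linarith
  have hL1 : (1 : ℝ) ≤ L := by exact_mod_cast hL
  have hL0 : (0 : ℝ) < L := by linarith
  have hψ2 : ∀ x, ∑ i, ψ x i ^ 2 ≤ 1 := by
    intro x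
    have := hψ x
    unfold dotProduct at this
    simp only [sq]
    exact this
  set c : X → ι → ℝ := fun x i => r1E (fun g => r1cl lg (r1ip (ψ x) g) * sg (g i)) with hc
  set u : X → (ι → Bool) → ℝ := fun x g => r1cl lg (r1ip (ψ x) g) / lg with hu
  have hu1 : ∀ x g, |u x g| ≤ 1 := by
    intro x g
    simp only [hu]
    rw [abs_div, abs_of_pos hlg0, div_le_one hlg0]
    exact r1cl_abs hlg0.le _
  have hcsq : ∀ x, ∑ i, c x i ^ 2 ≤ 1 := by
    intro x
    refine (r1_bessel _).trans ?_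
    refine le_trans (r1E_mono fun g => r1cl_sq hlg0.le _) ?_
    rw [r1_ip_sq]
    exact hψ2 x
  have herr : ∀ x, ∑ i, (ψ x i - c x i) ^ 2 ≤ 4 * Real.exp (lg - lg ^ 2 / 2) := by
    intro x
    have e1 : ∀ i, (ψ x i - c x i) ^ 2 =
        r1E (fun g => (r1cl lg (r1ip (ψ x) g) - r1ip (ψ x) g) * sg (g i)) ^ 2 := by
      intro i
      have e2 : r1E (fun g => (r1cl lg (r1ip (ψ x) g) - r1ip (ψ x) g) * sg (g i)) =
          c x i + (-1) * ψ x i := by
        rw [← r1_ip_sg (ψ x) i, ← r1E_smul, ← r1E_add]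
        congr 1
        funext g
        ring
      rw [e2]
      ring
    simp only [e1]
    exact (r1_bessel _).trans (r1_err (hψ2 x) hlg)
  have hXb := r1X_bound hth
  have hopc : ∀ x, opn (r1X Xm (c x)) ^ 2 ≤ th := by
    intro x
    apply opn_sq_le hth0
    intro v
    refine (hXb (c x) v).trans ?_
    exact mul_le_of_le_one_left (mul_nonneg hth0 (mknsq_nonneg v)) (hcsq x)
  have hmean : ∀ x, (1 / 2 ^ Fintype.card ι : ℝ) • ∑ g, u x g • mkS Xm g =
      (1 / lg) • r1X Xm (c x) := by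
    intro x
    unfold r1X mkS
    simp only [Finset.smul_sum, smul_smul]
    rw [Finset.sum_comm]
    apply Finset.sum_congr rfl
    intro i _
    rw [← Finset.sum_smul]
    congr 1
    simp only [hc, hu]
    unfold r1E
    rw [Finset.mul_sum, Finset.mul_sum]
    apply Finset.sum_congr rfl
    intro g _
    ring
  set XX : (Fin L → (ι → Bool) × Bool) → Matrix κ κ ℝ :=
    fun ω => ∑ l, sg (ω l).2 • mkS Xm (ω l).1 with hXX
  have hXXs : ∀ ω, (XX ω)ᵀ = XX ω := by
    intro ω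
    simp only [hXX]
    rw [Matrix.transpose_sum]
    apply Finset.sum_congr rfl
    intro l _
    rw [Matrix.transpose_smul, mkS_symm hsym]
  -- lower bound
  have step1 : ∀ x, (L / (2 * lg)) ^ 2 * mknsq (r1X Xm (c x) *ᵥ be x) ≤
      ∑ ω, mkpw (mkw (u x)) ω * mknsq (XX ω *ᵥ be x) := by
    intro x
    have e1 := mk_tilt_lower Xm (hu1 x) L (be x)
    rw [hmean x] at e1
    refine le_trans (le_of_eq ?_) e1
    rw [smul_smul, Matrix.smul_mulVec]
    unfold mknsq
    simp only [Pi.smul_apply, smul_eq_mul, mul_pow]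
    rw [← Finset.mul_sum]
    congr 1
    rw [← mul_pow]
    congr 1
    field_simp
  set D : (Fin L → (ι → Bool) × Bool) → X → ℝ :=
    fun ω x => ∏ l, (1 + sg (ω l).2 * u x (ω l).1 / 2) with hD
  set P0 : ℝ := (1 / 2 ^ Fintype.card ι * (1 / 2)) ^ L with hP0
  have hP00 : 0 ≤ P0 := by positivity
  have hmkpw : ∀ x ω, mkpw (mkw (u x)) ω = P0 * D ω x := by
    intro x ω
    unfold mkpw mkw
    simp only [hD, hP0]
    have : ∀ l : Fin L, (1 / 2 ^ Fintype.card ι * (1 / 2 * (1 + sg (ω l).2 * u x (ω l).1 / 2)) : ℝ)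
        = (1 / 2 ^ Fintype.card ι * (1 / 2)) * (1 + sg (ω l).2 * u x (ω l).1 / 2) := by
      intro l
      ring
    simp only [this]
    rw [Finset.prod_mul_distrib, Finset.prod_const, Finset.card_univ, Fintype.card_fin]
  have hfac : ∀ x (a : (ι → Bool) × Bool), 1 / 2 ≤ 1 + sg a.2 * u x a.1 / 2 ∧
      1 + sg a.2 * u x a.1 / 2 ≤ 3 / 2 := by
    intro x a
    have e1 : |sg a.2 * u x a.1| ≤ 1 := by
      rw [abs_mul, mk_abs_sg, one_mul]
      exact hu1 x _
    have e2 := abs_le.1 e1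
    constructor <;> linarith [e2.1, e2.2]
  have hD0 : ∀ ω x, 0 < D ω x := by
    intro ω x
    apply Finset.prod_pos
    intro l _
    linarith [(hfac x (ω l)).1]
  set S : ℝ := L * Real.log (3 / 2) with hS
  have hDS : ∀ ω x, D ω x ≤ Real.exp S := by
    intro ω x
    have e1 : Real.exp S = (3 / 2) ^ L := by
      rw [hS, mul_comm, Real.exp_mul, Real.exp_log (by norm_num), Real.rpow_natCast]
    rw [e1]
    calc D ω x ≤ ∏ _l : Fin L, (3 / 2 : ℝ) := by
          apply Finset.prod_le_prod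
          · intro l _
            linarith [(hfac x (ω l)).1]
          · intro l _
            exact (hfac x (ω l)).2
      _ = (3 / 2) ^ L := by
          rw [Finset.prod_const, Finset.card_univ, Fintype.card_fin]
  have hlog : Real.log (3 / 2) ≤ 0.42 := by
    rw [Real.log_le_iff_le_exp (by norm_num)]
    have := Real.quadratic_le_exp_of_nonneg (x := 0.42) (by norm_num)
    norm_num at this ⊢
    linarith
  have hS0 : 0 ≤ S := mul_nonneg hL0.le (Real.log_nonneg (by norm_num))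
  have hSL : S + 2 ≤ 0.42 * L + 2 := by
    rw [hS]
    nlinarith
  -- each ω
  have step2 : ∀ ω, ∑ x, μ x * (D ω x * mknsq (XX ω *ᵥ be x)) ≤
      (∑ x, μ x * D ω x) * (2 * del2 * hs (XX ω) + kap * opn (XX ω) ^ 2 * (S + 2)) +
        kap * opn (XX ω) ^ 2 := by
    intro ω
    have hK : (XX ω * XX ω)ᵀ = XX ω * XX ω := by
      rw [Matrix.transpose_mul, hXXs]
    have hq : ∀ w, w ⬝ᵥ ((XX ω * XX ω) *ᵥ w) = mknsq (XX ω *ᵥ w) := by
      intro w
      rw [← Matrix.mulVec_mulVec, Matrix.dotProduct_mulVec, r1_nsq]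
      congr 1
      rw [← Matrix.mulVec_transpose, hXXs]
    have e1 := r1_dens hμ hkap hF4 (hD0 ω) (hDS ω) hK
      (fun w => by rw [hq]; exact mknsq_nonneg _)
      (c := opn (XX ω) ^ 2) (fun w => by rw [hq, ← r1_nsq]; exact mknsq_mulVec_le _ _)
      (by positivity)
    simp only [hq] at e1
    refine e1.trans (add_le_add (mul_le_mul_of_nonneg_left (add_le_add ?_ le_rfl) ?_) le_rfl)
    · have e2 : ∑ i, V i * (XX ω * XX ω) i i ≤ del2 * hs (XX ω) := by
        have e0 : del2 * hs (XX ω) = ∑ i, del2 * ∑ j, XX ω i j ^ 2 := by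
          unfold hs
          exact Finset.mul_sum _ _ _
        rw [e0]
        apply Finset.sum_le_sum
        intro i _
        have e3 : (XX ω * XX ω) i i = ∑ j, XX ω i j ^ 2 := by
          rw [Matrix.mul_apply]
          apply Finset.sum_congr rfl
          intro j _
          have e4 : XX ω j i = XX ω i j := by
            conv_lhs => rw [← hXXs ω]
            rfl
          rw [e4, sq]
        rw [e3]
        exact mul_le_mul_of_nonneg_right (hdel i) (Finset.sum_nonneg fun _ _ => sq_nonneg _)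
      linarith
    · exact Finset.sum_nonneg fun x _ => mul_nonneg (hμ.nonneg x) (hD0 ω x).le
  -- averages for fixed x
  set Λ := 1 + Real.log (Fintype.card κ) with hΛ
  have hΛ1 : 1 ≤ Λ := by
    have : 0 ≤ Real.log (Fintype.card κ) := Real.log_natCast_nonneg _
    linarith
  have hop : ∀ x, ∑ ω, mkpw (mkw (u x)) ω * opn (XX ω) ^ 2 ≤
      L ^ 2 / 2 * th + 48 * Λ * (L * th) := by
    intro x
    have hth' : ∀ v : κ → ℝ, ∑ j, mknsq (Xm j *ᵥ v) ≤ th * mknsq v := by
      intro v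
      simp only [r1_nsq]
      exact hth v
    have e1 := mk_tilt hsym hth0 hth' (hu1 x) L
    rw [hmean x, smul_smul, opn_smul, mul_pow, sq_abs] at e1
    refine e1.trans (add_le_add ?_ le_rfl)
    have e2 := hopc x
    have e3 : (L / 2 * (1 / lg) : ℝ) ^ 2 ≤ (L / 2) ^ 2 := by
      apply pow_le_pow_left₀ (by positivity)
      apply mul_le_of_le_one_right (by positivity)
      rw [div_le_one hlg0]
      exact hlg
    calc 2 * ((L / 2 * (1 / lg) : ℝ) ^ 2 * opn (r1X Xm (c x)) ^ 2) ≤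
        2 * ((L / 2) ^ 2 * th) := by
          apply mul_le_mul_of_nonneg_left _ (by norm_num)
          exact mul_le_mul e3 e2 (by positivity) (by positivity)
      _ = _ := by ring
  have hhs : ∀ x, ∑ ω, mkpw (mkw (u x)) ω * hs (XX ω) ≤ L * h1 + L ^ 2 / 4 * t2 := by
    intro x
    have e1 := r1_second_hs (mkw_sum (u x)) L
      (fun a : (ι → Bool) × Bool => sg a.2 • mkS Xm a.1)
    refine e1.trans (add_le_add ?_ ?_)
    · apply mul_le_mul_of_nonneg_left _ hL0.le
      have e2 : ∑ a : (ι → Bool) × Bool, mkw (u x) a * hs (sg a.2 • mkS Xm a.1) =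
          1 / 2 ^ Fintype.card ι * ∑ g : ι → Bool, hs (mkS Xm g) := by
        rw [Fintype.sum_prod_type, Finset.mul_sum]
        apply Finset.sum_congr rfl
        intro g _
        have e3 : ∀ b : Bool, mkw (u x) (g, b) * hs (sg b • mkS Xm g) =
            mkw (u x) (g, b) * hs (mkS Xm g) := by
          intro b
          rw [hs_smul, sq, mk_sg_sq, one_mul]
        simp only [e3]
        rw [← Finset.sum_mul, mkw_sum_right]
      rw [e2, r1_mkS_hs]
      exact hh1
    · rw [mkw_mean (u x) (mkS Xm), hmean x, smul_smul, hs_smul]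
      have e2 := ht2 (c x)
      have e3 : c x ⬝ᵥ c x ≤ 1 := by
        have := hcsq x
        unfold dotProduct
        simp only [← sq]
        exact this
      have e4 : hs (r1X Xm (c x)) ≤ t2 := by
        refine e2.trans ?_
        exact mul_le_of_le_one_right ht20 e3
      have e5 : (1 / 2 * (1 / lg) : ℝ) ^ 2 ≤ 1 / 4 := by
        have : (1 / 2 * (1 / lg) : ℝ) ≤ 1 / 2 := by
          apply mul_le_of_le_one_right (by norm_num)
          rw [div_le_one hlg0]
          exact hlg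
        calc (1 / 2 * (1 / lg) : ℝ) ^ 2 ≤ (1 / 2) ^ 2 := pow_le_pow_left₀ (by positivity) this 2
          _ = _ := by norm_num
      calc (L : ℝ) ^ 2 * ((1 / 2 * (1 / lg)) ^ 2 * hs (r1X Xm (c x))) ≤
          (L : ℝ) ^ 2 * (1 / 4 * t2) := by
            apply mul_le_mul_of_nonneg_left _ (by positivity)
            exact mul_le_mul e5 e4 (hs_nonneg _) (by norm_num)
        _ = _ := by ring
  -- uniform average
  have huni : ∑ ω, P0 * opn (XX ω) ^ 2 ≤ 6 * Λ * (L * th) := by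
    have hth' : ∀ v : κ → ℝ, ∑ j, mknsq (Xm j *ᵥ v) ≤ th * mknsq v := by
      intro v
      simp only [r1_nsq]
      exact hth v
    have e1 := mk_uniform hsym hth0 hth' L
    rw [← Finset.mul_sum]
    simp only [hXX]
    rw [r1_flip]
    refine le_trans (le_of_eq ?_) e1
    rw [hP0, mul_pow, mul_assoc]
    congr 1
    rw [← mul_assoc, ← mul_pow]
    norm_num
  -- the total
  have hT : ∑ x, μ x * ((L / (2 * lg)) ^ 2 * mknsq (r1X Xm (c x) *ᵥ be x)) ≤
      2 * del2 * (L * h1 + L ^ 2 / 4 * t2) +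
      kap * (S + 2) * (L ^ 2 / 2 * th + 48 * Λ * (L * th)) + kap * (6 * Λ * (L * th)) := by
    calc ∑ x, μ x * ((L / (2 * lg)) ^ 2 * mknsq (r1X Xm (c x) *ᵥ be x)) ≤
        ∑ x, μ x * ∑ ω, mkpw (mkw (u x)) ω * mknsq (XX ω *ᵥ be x) :=
          Finset.sum_le_sum fun x _ => mul_le_mul_of_nonneg_left (step1 x) (hμ.nonneg x)
      _ = ∑ ω, P0 * ∑ x, μ x * (D ω x * mknsq (XX ω *ᵥ be x)) := by
          simp only [Finset.mul_sum]
          rw [Finset.sum_comm]
          apply Finset.sum_congr rfl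
          intro ω _
          apply Finset.sum_congr rfl
          intro x _
          rw [hmkpw]
          ring
      _ ≤ ∑ ω, P0 * ((∑ x, μ x * D ω x) * (2 * del2 * hs (XX ω) +
            kap * opn (XX ω) ^ 2 * (S + 2)) + kap * opn (XX ω) ^ 2) :=
          Finset.sum_le_sum fun ω _ => mul_le_mul_of_nonneg_left (step2 ω) hP00
      _ = ∑ x, μ x * (2 * del2 * ∑ ω, mkpw (mkw (u x)) ω * hs (XX ω) +
            kap * (S + 2) * ∑ ω, mkpw (mkw (u x)) ω * opn (XX ω) ^ 2) +
          kap * ∑ ω, P0 * opn (XX ω) ^ 2 := by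
          generalize S + 2 = S2
          simp only [mul_add, Finset.sum_add_distrib]
          congr 1
          · congr 1
            · simp only [Finset.mul_sum, Finset.sum_mul]
              rw [Finset.sum_comm]
              apply Finset.sum_congr rfl
              intro x _
              apply Finset.sum_congr rfl
              intro ω _
              rw [hmkpw]
              ring
            · simp only [Finset.mul_sum, Finset.sum_mul]
              rw [Finset.sum_comm]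
              apply Finset.sum_congr rfl
              intro x _
              apply Finset.sum_congr rfl
              intro ω _
              rw [hmkpw]
              ring
          · rw [Finset.mul_sum]
            apply Finset.sum_congr rfl
            intro ω _
            ring
      _ ≤ ∑ x, μ x * (2 * del2 * (L * h1 + L ^ 2 / 4 * t2) +
            kap * (S + 2) * (L ^ 2 / 2 * th + 48 * Λ * (L * th))) +
          kap * (6 * Λ * (L * th)) := by
          apply add_le_add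
          · apply Finset.sum_le_sum
            intro x _
            apply mul_le_mul_of_nonneg_left _ (hμ.nonneg x)
            apply add_le_add
            · exact mul_le_mul_of_nonneg_left (hhs x) (by positivity)
            · exact mul_le_mul_of_nonneg_left (hop x) (by positivity)
          · exact mul_le_mul_of_nonneg_left huni hkap
      _ = _ := by
          rw [← Finset.sum_mul, hμ.sum, one_mul]
  -- conclusion
  have hA : ∑ x, μ x * mknsq (r1X Xm (c x) *ᵥ be x) ≤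
      lg ^ 2 * (8 * del2 * (h1 / L + t2) + kap * th * (5 * L + 500 * Λ)) := by
    have e1 : ∑ x, μ x * ((L / (2 * lg)) ^ 2 * mknsq (r1X Xm (c x) *ᵥ be x)) =
        (L / (2 * lg)) ^ 2 * ∑ x, μ x * mknsq (r1X Xm (c x) *ᵥ be x) := by
      rw [Finset.mul_sum]
      apply Finset.sum_congr rfl
      intro x _
      ring
    rw [e1] at hT
    set A := ∑ x, μ x * mknsq (r1X Xm (c x) *ᵥ be x) with hA
    have e2 : A = (4 * lg ^ 2 / L ^ 2) * ((L / (2 * lg)) ^ 2 * A) := by
      field_simp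
      ring
    have e3 : 0 ≤ kap * th := mul_nonneg hkap hth0
    rw [e2]
    calc (4 * lg ^ 2 / L ^ 2) * ((L / (2 * lg)) ^ 2 * A) ≤ (4 * lg ^ 2 / L ^ 2) *
          (2 * del2 * (L * h1 + L ^ 2 / 4 * t2) +
          kap * (S + 2) * (L ^ 2 / 2 * th + 48 * Λ * (L * th)) + kap * (6 * Λ * (L * th))) :=
          mul_le_mul_of_nonneg_left hT (by positivity)
      _ = lg ^ 2 * (8 * del2 * (h1 / L + t2 / 4) +
          kap * th * ((S + 2) * (2 + 192 * Λ / L) + 24 * Λ / L)) := by
          field_simp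
          ring
      _ ≤ lg ^ 2 * (8 * del2 * (h1 / L + t2) + kap * th * (5 * L + 500 * Λ)) := by
          apply mul_le_mul_of_nonneg_left _ (by positivity)
          apply add_le_add
          · apply mul_le_mul_of_nonneg_left _ (by positivity)
            linarith
          · apply mul_le_mul_of_nonneg_left _ e3
            have e4 : Λ / L ≤ Λ := div_le_self (by linarith) hL1
            have e5 : (S + 2) * (2 + 192 * Λ / L) ≤ (0.42 * L + 2) * (2 + 192 * Λ / L) := by
              apply mul_le_mul_of_nonneg_right hSL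
              positivity
            have e6 : (0.42 * L + 2 : ℝ) * (2 + 192 * Λ / L) =
                0.84 * L + 4 + 80.64 * Λ + 384 * (Λ / L) := by
              field_simp
              ring
            have e7 : (24 * Λ / L : ℝ) = 24 * (Λ / L) := by ring
            rw [e6] at e5
            rw [e7]
            linarith
  have hB : ∀ x, ((∑ i, ψ x i • Xm i) *ᵥ be x) ⬝ᵥ ((∑ i, ψ x i • Xm i) *ᵥ be x) ≤
      2 * mknsq (r1X Xm (c x) *ᵥ be x) + 128 * th * Real.exp (lg - lg ^ 2 / 2) := by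
    intro x
    have e1 : (∑ i, ψ x i • Xm i) *ᵥ be x = r1X Xm (c x) *ᵥ be x +
        r1X Xm (fun i => ψ x i - c x i) *ᵥ be x := by
      rw [← Matrix.add_mulVec]
      congr 1
      unfold r1X
      rw [← Finset.sum_add_distrib]
      apply Finset.sum_congr rfl
      intro i _
      rw [← add_smul]
      congr 1
      ring
    rw [e1]
    refine (dot_add_sq_le _ _).trans ?_
    rw [← r1_nsq, ← r1_nsq]
    have e2 := hXb (fun i => ψ x i - c x i) (be x)
    have e3 : mknsq (be x) ≤ 16 := by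
      rw [r1_nsq]
      exact hbe x
    have e4 : (∑ i, (ψ x i - c x i) ^ 2) * (th * mknsq (be x)) ≤
        (4 * Real.exp (lg - lg ^ 2 / 2)) * (th * 16) := by
      apply mul_le_mul (herr x) (mul_le_mul_of_nonneg_left e3 hth0)
      · exact mul_nonneg hth0 (mknsq_nonneg _)
      · positivity
    linarith
  calc ∑ x, μ x * (((∑ i, ψ x i • Xm i) *ᵥ be x) ⬝ᵥ ((∑ i, ψ x i • Xm i) *ᵥ be x)) ≤
      ∑ x, μ x * (2 * mknsq (r1X Xm (c x) *ᵥ be x) + 128 * th * Real.exp (lg - lg ^ 2 / 2)) :=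
        Finset.sum_le_sum fun x _ => mul_le_mul_of_nonneg_left (hB x) (hμ.nonneg x)
    _ = 2 * ∑ x, μ x * mknsq (r1X Xm (c x) *ᵥ be x) +
        128 * th * Real.exp (lg - lg ^ 2 / 2) := by
        simp only [mul_add, Finset.sum_add_distrib]
        rw [← Finset.sum_mul, hμ.sum, one_mul, Finset.mul_sum]
        congr 1
        apply Finset.sum_congr rfl
        intro x _
        ring
    _ ≤ _ := by linarith

end Main

alias r1 := r1_pr

end Pool.Agent.LRC
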