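import Pool.Agent.Lib_helper94.LRF.FIN
import Pool.Agent.Lib_helper94.LRF.Final

/-!
# A power saving over the square root in the log-rank problem
-/

set_option autoImplicit false

namespace Pool.Agent.LRC

open Pool.Agent.Lib_helper10.LogRank (Protocol realRank)

theorem logrank_saving : ∃ C : ℝ, ∀ (X Y : Type) [Fintype X] [Fintype Y] (F : X → Y → Bool),
    ∃ π : Protocol X Y, (∀ x y, π.eval x y = F x y) ∧
      (π.cost : ℝ) ≤ C * (realRank F : ℝ) ^ (1 / 2 - 1 / 10 ^ 14 : ℝ) := by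
  obtain ⟨C, hC⟩ := Pool.Agent.LR2.Top.final (s := 1 / 10 ^ 11) (κ := 2 / 10 ^ 14)
    (by norm_num) (by norm_num) (finR (by norm_num) (by norm_num)) (by norm_num) (by norm_num)
  refine ⟨C, fun X Y _ _ F => ?_⟩
  obtain ⟨π, h1, h2⟩ := hC X Y F
  refine ⟨π, h1, h2.trans (le_of_eq ?_)⟩
  norm_num

end Pool.Agent.LRC
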